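import Pool.Agent.H21.SCH.Stm

/-! # Project SCH, AB: the expectation of a product of almost independent factors -/

namespace H21SCH

open MeasureTheory ProbabilityTheory Filter Topology Set Complex

universe u

namespace ABx

theorem norm_int_le {Ω : Type u} [MeasurableSpace Ω] {μ : Measure Ω} [IsProbabilityMeasure μ]
    (s : Finset ℕ) (T : ℕ → Set Ω) (hT : ∀ b ∈ s, MeasurableSet (T b)) (c : ℝ) (G : Ω → ℂ)
    (h : ∀ ω, ‖G ω‖ ≤ ∑ b ∈ s, (T b).indicator (fun _ => c) ω) :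
    ‖∫ ω, G ω ∂μ‖ ≤ ∑ b ∈ s, c * μ.real (T b) := by
  have h1 : ∀ b ∈ s, Integrable ((T b).indicator (fun _ : Ω => c)) μ := fun b hb =>
    (integrable_const c).indicator (hT b hb)
  refine (norm_integral_le_of_norm_le (integrable_finsetSum s h1)
    (Eventually.of_forall h)).trans (le_of_eq ?_)
  rw [integral_finsetSum s h1]
  refine Finset.sum_congr rfl fun b hb => ?_
  rw [integral_indicator_const _ (hT b hb), smul_eq_mul, mul_comm]

theorem norm_prod_le {Ω : Type u} {F : ℕ → Ω → ℂ} (h : ∀ a ω, ‖F a ω‖ ≤ 1) (s : Finset ℕ)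
    (ω : Ω) : ‖∏ b ∈ s, F b ω‖ ≤ 1 := by
  rw [norm_prod]
  exact Finset.prod_le_one (fun _ _ => norm_nonneg _) fun b _ => h b ω

/-- the difference of the products -/
theorem norm_diff_le {Ω : Type u} {F : ℕ → Ω → ℂ} (h : ∀ a ω, ‖F a ω‖ ≤ 1) {M n q : ℕ}
    (hq : q ≤ n) (ω : Ω) :
    ‖∏ b ∈ Finset.Ioc M n, F b ω - ∏ b ∈ Finset.Ioc M q, F b ω‖ ≤
      ∑ b ∈ (Finset.Ioo M (n + 1)).filter (q < ·), {ω | F b ω ≠ 1}.indicator (fun _ => (2 : ℝ)) ω := by
  classical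
  by_cases hex : ∃ b ∈ (Finset.Ioo M (n + 1)).filter (q < ·), F b ω ≠ 1
  · obtain ⟨b, hb, hb1⟩ := hex
    have h1 : {ω | F b ω ≠ 1}.indicator (fun _ => (2 : ℝ)) ω ≤
        ∑ b ∈ (Finset.Ioo M (n + 1)).filter (q < ·),
          {ω | F b ω ≠ 1}.indicator (fun _ => (2 : ℝ)) ω :=
      Finset.single_le_sum (f := fun b => {ω | F b ω ≠ 1}.indicator (fun _ => (2 : ℝ)) ω)
        (fun i _ => indicator_nonneg (fun _ _ => by norm_num) _) hb
    rw [indicator_of_mem (show ω ∈ {ω | F b ω ≠ 1} from hb1)] at h1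
    have h2 := norm_sub_le (∏ b ∈ Finset.Ioc M n, F b ω) (∏ b ∈ Finset.Ioc M q, F b ω)
    have h3 := norm_prod_le h (Finset.Ioc M n) ω
    have h4 := norm_prod_le h (Finset.Ioc M q) ω
    linarith
  · push Not at hex
    have h1 : ∏ b ∈ Finset.Ioc M n, F b ω = ∏ b ∈ Finset.Ioc M q, F b ω := by
      refine (Finset.prod_subset (Finset.Ioc_subset_Ioc_right hq) fun b hb hb' => ?_).symm
      apply hex
      rw [Finset.mem_Ioc] at hb hb'
      rw [Finset.mem_filter, Finset.mem_Ioo]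
      omega
    rw [h1, sub_self, norm_zero]
    exact Finset.sum_nonneg fun i _ => indicator_nonneg (fun _ _ => by norm_num) _

theorem norm_sub_one_le {Ω : Type u} {F : ℕ → Ω → ℂ} (h : ∀ a ω, ‖F a ω‖ ≤ 1) (a : ℕ) (ω : Ω) :
    ‖F a ω - 1‖ ≤ {ω | F a ω ≠ 1}.indicator (fun _ => (2 : ℝ)) ω := by
  by_cases h1 : F a ω = 1
  · rw [h1, sub_self, norm_zero]
    exact indicator_nonneg (fun _ _ => by norm_num) _
  · rw [indicator_of_mem (show ω ∈ {ω | F a ω ≠ 1} from h1)]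
    have := norm_sub_le (F a ω) 1
    have h2 := h a ω
    rw [norm_one] at this
    linarith

end ABx

open ABx in
/-- AB -/
theorem ab : S_AB.{u} := by
  intro Ω _ μ _ F r pr M N hF hF1 hr hpr hind hμ hμ2
  classical
  have hmeas : ∀ b, MeasurableSet {ω | F b ω ≠ 1} := fun b =>
    (hF b (measurableSet_singleton 1)).compl
  have hpm : ∀ s : Finset ℕ, Measurable fun ω => ∏ b ∈ s, F b ω := fun s =>
    Finset.measurable_fun_prod s fun b _ => hF b
  have hint : ∀ {G : Ω → ℂ} (c : ℝ), Measurable G → (∀ ω, ‖G ω‖ ≤ c) → Integrable G μ :=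
    fun c hG hb => Integrable.of_bound hG.aestronglyMeasurable c (Eventually.of_forall hb)
  have hXn : ∀ a ω, ‖F a ω - 1‖ ≤ 2 := by
    intro a ω
    have := norm_sub_le (F a ω) 1
    have h2 := hF1 a ω
    rw [norm_one] at this
    linarith
  have hXi : ∀ a, Integrable (fun ω => F a ω - 1) μ := fun a =>
    hint 2 ((hF a).sub_const 1) (hXn a)
  have hPi : ∀ s : Finset ℕ, Integrable (fun ω => ∏ b ∈ s, F b ω) μ := fun s =>
    hint 1 (hpm s) (norm_prod_le hF1 s)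
  have hXPi : ∀ a (s : Finset ℕ), Integrable (fun ω => (F a ω - 1) * ∏ b ∈ s, F b ω) μ :=
    fun a s => hint 2 (((hF a).sub_const 1).mul (hpm s)) fun ω => by
      rw [norm_mul]
      have := mul_le_mul (hXn a ω) (norm_prod_le hF1 s ω) (norm_nonneg _) (by norm_num)
      linarith
  have hone : ∀ a, ‖1 + ∫ ω, (F a ω - 1) ∂μ‖ ≤ 1 := by
    intro a
    have h1 : 1 + ∫ ω, (F a ω - 1) ∂μ = ∫ ω, F a ω ∂μ := by
      rw [integral_sub (hint 1 (hF a) (hF1 a)) (integrable_const 1), integral_const]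
      simp
    rw [h1]
    have h2 := norm_integral_le_of_norm_le_const (μ := μ) (f := F a) (C := 1)
      (Eventually.of_forall (hF1 a))
    simpa using h2
  -- one step
  have step : ∀ n, M ≤ n → n + 1 ≤ N →
      ‖∫ ω, ∏ b ∈ Finset.Ioc M (n + 1), F b ω ∂μ -
        (1 + ∫ ω, (F (n + 1) ω - 1) ∂μ) * ∫ ω, ∏ b ∈ Finset.Ioc M n, F b ω ∂μ‖ ≤
      8 * r (n + 1) * ∑ b ∈ (Finset.Ioo M (n + 1)).filter (pr (n + 1) < ·), r b := by
    intro n hMn hnN
    have ha : n + 1 ∈ Finset.Ioc M N := Finset.mem_Ioc.2 ⟨by omega, hnN⟩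
    have hq : pr (n + 1) ≤ n := by
      have := hpr _ ha
      omega
    set q := pr (n + 1) with hqd
    set B := (Finset.Ioo M (n + 1)).filter (q < ·) with hB
    have hBm : ∀ b ∈ B, b ∈ Finset.Ioc M N ∧ q < b ∧ b < n + 1 := by
      intro b hb
      rw [hB, Finset.mem_filter, Finset.mem_Ioo] at hb
      rw [Finset.mem_Ioc]
      omega
    have e1 : ∫ ω, ∏ b ∈ Finset.Ioc M (n + 1), F b ω ∂μ =
        ∫ ω, ∏ b ∈ Finset.Ioc M n, F b ω ∂μ +
          ∫ ω, (F (n + 1) ω - 1) * ∏ b ∈ Finset.Ioc M n, F b ω ∂μ := by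
      rw [← integral_add (hPi _) (hXPi _ _)]
      refine integral_congr_ae (Eventually.of_forall fun ω => ?_)
      show ∏ b ∈ Finset.Ioc M (n + 1), F b ω = _ + _
      have h3 : Finset.Ioc M (n + 1) = insert (n + 1) (Finset.Ioc M n) := by
        ext b
        rw [Finset.mem_insert, Finset.mem_Ioc, Finset.mem_Ioc]
        omega
      rw [h3, Finset.prod_insert (by rw [Finset.mem_Ioc]; omega)]
      ring
    have e2 : ∫ ω, (F (n + 1) ω - 1) * ∏ b ∈ Finset.Ioc M n, F b ω ∂μ =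
        ∫ ω, (F (n + 1) ω - 1) * (∏ b ∈ Finset.Ioc M n, F b ω - ∏ b ∈ Finset.Ioc M q, F b ω) ∂μ +
          (∫ ω, (F (n + 1) ω - 1) ∂μ) * ∫ ω, ∏ b ∈ Finset.Ioc M q, F b ω ∂μ := by
      rw [← hind _ ha, ← integral_add ?_ (hXPi _ _)]
      · refine integral_congr_ae (Eventually.of_forall fun ω => ?_)
        change (F (n + 1) ω - 1) * _ = (F (n + 1) ω - 1) * (_ - _) + (F (n + 1) ω - 1) * _
        ring
      · refine ((hXPi (n + 1) (Finset.Ioc M n)).sub (hXPi (n + 1) (Finset.Ioc M q))).congr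
          (Eventually.of_forall fun ω => ?_)
        change (F (n + 1) ω - 1) * _ - (F (n + 1) ω - 1) * _ = (F (n + 1) ω - 1) * (_ - _)
        ring
    have e3 : ∫ ω, (∏ b ∈ Finset.Ioc M n, F b ω - ∏ b ∈ Finset.Ioc M q, F b ω) ∂μ =
        ∫ ω, ∏ b ∈ Finset.Ioc M n, F b ω ∂μ - ∫ ω, ∏ b ∈ Finset.Ioc M q, F b ω ∂μ :=
      integral_sub (hPi _) (hPi _)
    -- the first error
    have f1 : ‖∫ ω, (F (n + 1) ω - 1) * (∏ b ∈ Finset.Ioc M n, F b ω -
        ∏ b ∈ Finset.Ioc M q, F b ω) ∂μ‖ ≤ ∑ b ∈ B, 4 * (r (n + 1) * r b) := by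
      refine (norm_int_le B (fun b => {ω | F (n + 1) ω ≠ 1 ∧ F b ω ≠ 1})
        (fun b _ => (hmeas (n + 1)).inter (hmeas b)) 4 _ fun ω => ?_).trans ?_
      · rw [norm_mul]
        refine (mul_le_mul (norm_sub_one_le hF1 (n + 1) ω) (norm_diff_le hF1 hq ω)
          (norm_nonneg _) (indicator_nonneg (fun _ _ => by norm_num) _)).trans ?_
        rw [Finset.mul_sum]
        refine Finset.sum_le_sum fun b _ => ?_
        by_cases h1 : F (n + 1) ω = 1
        · rw [indicator_of_notMem (show ω ∉ {ω | F (n + 1) ω ≠ 1} from fun h => h h1), zero_mul]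
          exact indicator_nonneg (fun _ _ => by norm_num) _
        · by_cases h2 : F b ω = 1
          · rw [indicator_of_notMem (show ω ∉ {ω | F b ω ≠ 1} from fun h => h h2), mul_zero]
            exact indicator_nonneg (fun _ _ => by norm_num) _
          · rw [indicator_of_mem (show ω ∈ {ω | F (n + 1) ω ≠ 1} from h1),
              indicator_of_mem (show ω ∈ {ω | F b ω ≠ 1} from h2),
              indicator_of_mem (show ω ∈ {ω | F (n + 1) ω ≠ 1 ∧ F b ω ≠ 1} from ⟨h1, h2⟩)]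
            norm_num
      · refine Finset.sum_le_sum fun b hb => ?_
        have := hμ2 _ ha b (hBm b hb).1 (hBm b hb).2.1 (hBm b hb).2.2
        linarith
    -- the second error
    have f2 : ‖∫ ω, (F (n + 1) ω - 1) ∂μ‖ ≤ 2 * r (n + 1) := by
      have h1 := norm_int_le (μ := μ) {n + 1} (fun b => {ω | F b ω ≠ 1})
        (fun b _ => hmeas b) 2 (fun ω => F (n + 1) ω - 1) (fun ω => by
          rw [Finset.sum_singleton]
          exact norm_sub_one_le hF1 (n + 1) ω)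
      rw [Finset.sum_singleton] at h1
      have := hμ _ ha
      linarith
    have f3 : ‖∫ ω, (∏ b ∈ Finset.Ioc M n, F b ω - ∏ b ∈ Finset.Ioc M q, F b ω) ∂μ‖ ≤
        ∑ b ∈ B, 2 * r b := by
      refine (norm_int_le B (fun b => {ω | F b ω ≠ 1}) (fun b _ => hmeas b) 2 _
        fun ω => norm_diff_le hF1 hq ω).trans ?_
      refine Finset.sum_le_sum fun b hb => ?_
      have := hμ b (hBm b hb).1
      linarith
    have e4 : ∫ ω, ∏ b ∈ Finset.Ioc M (n + 1), F b ω ∂μ -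
        (1 + ∫ ω, (F (n + 1) ω - 1) ∂μ) * ∫ ω, ∏ b ∈ Finset.Ioc M n, F b ω ∂μ =
        ∫ ω, (F (n + 1) ω - 1) * (∏ b ∈ Finset.Ioc M n, F b ω -
          ∏ b ∈ Finset.Ioc M q, F b ω) ∂μ -
        (∫ ω, (F (n + 1) ω - 1) ∂μ) *
          ∫ ω, (∏ b ∈ Finset.Ioc M n, F b ω - ∏ b ∈ Finset.Ioc M q, F b ω) ∂μ := by
      rw [e1, e2, e3]
      ring
    rw [e4]
    refine (norm_sub_le _ _).trans ?_
    rw [norm_mul]
    have f4 := mul_le_mul f2 f3 (norm_nonneg _) (by have := hr (n + 1); linarith)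
    refine (add_le_add f1 f4).trans (le_of_eq ?_)
    rw [← Finset.mul_sum, ← Finset.mul_sum, ← Finset.mul_sum]
    ring
  -- induction
  have main : ∀ n, M ≤ n → n ≤ N →
      ‖∫ ω, ∏ a ∈ Finset.Ioc M n, F a ω ∂μ -
        ∏ a ∈ Finset.Ioc M n, (1 + ∫ ω, (F a ω - 1) ∂μ)‖ ≤
      ∑ a ∈ Finset.Ioc M n, 8 * r a * ∑ b ∈ (Finset.Ioo M a).filter (pr a < ·), r b := by
    intro n hn
    induction n, hn using Nat.le_induction with
    | base =>
      intro _
      simp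
    | succ n hn ih =>
      intro hnN
      have h1 := ih (by omega)
      have h2 := step n hn hnN
      have h3 : Finset.Ioc M (n + 1) = insert (n + 1) (Finset.Ioc M n) := by
        ext b
        rw [Finset.mem_insert, Finset.mem_Ioc, Finset.mem_Ioc]
        omega
      have h4 : n + 1 ∉ Finset.Ioc M n := by rw [Finset.mem_Ioc]; omega
      have h5 : ∏ a ∈ Finset.Ioc M (n + 1), (1 + ∫ ω, (F a ω - 1) ∂μ) =
          (1 + ∫ ω, (F (n + 1) ω - 1) ∂μ) *
            ∏ a ∈ Finset.Ioc M n, (1 + ∫ ω, (F a ω - 1) ∂μ) := by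
        rw [h3, Finset.prod_insert h4]
      have h6 : ∑ a ∈ Finset.Ioc M (n + 1), 8 * r a *
          ∑ b ∈ (Finset.Ioo M a).filter (pr a < ·), r b =
          8 * r (n + 1) * ∑ b ∈ (Finset.Ioo M (n + 1)).filter (pr (n + 1) < ·), r b +
            ∑ a ∈ Finset.Ioc M n, 8 * r a * ∑ b ∈ (Finset.Ioo M a).filter (pr a < ·), r b := by
        rw [h3, Finset.sum_insert h4]
      rw [h5, h6]
      have h7 : ∫ ω, ∏ a ∈ Finset.Ioc M (n + 1), F a ω ∂μ - (1 + ∫ ω, (F (n + 1) ω - 1) ∂μ) *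
            ∏ a ∈ Finset.Ioc M n, (1 + ∫ ω, (F a ω - 1) ∂μ) =
          (∫ ω, ∏ a ∈ Finset.Ioc M (n + 1), F a ω ∂μ - (1 + ∫ ω, (F (n + 1) ω - 1) ∂μ) *
            ∫ ω, ∏ a ∈ Finset.Ioc M n, F a ω ∂μ) +
          (1 + ∫ ω, (F (n + 1) ω - 1) ∂μ) * (∫ ω, ∏ a ∈ Finset.Ioc M n, F a ω ∂μ -
            ∏ a ∈ Finset.Ioc M n, (1 + ∫ ω, (F a ω - 1) ∂μ)) := by
        ring
      rw [h7]
      refine (norm_add_le _ _).trans (add_le_add h2 ?_)
      rw [norm_mul]
      refine (mul_le_mul_of_nonneg_right (hone (n + 1)) (norm_nonneg _)).trans ?_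
      rw [one_mul]
      exact h1
  rcases le_total M N with h | h
  · exact main N h le_rfl
  · rw [Finset.Ioc_eq_empty_of_le h]
    simp

end H21SCH
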