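import Pool.Agent.H21.SCH.Stm

/-! # SCH-ASY: asymptotics of the sum of the characteristic functions -/

set_option autoImplicit false

namespace H21SCH

open MeasureTheory ProbabilityTheory Filter Topology Set Complex

universe u

lemma asy_hsum (j M : ℕ) (X : ℝ) (hj : 1 ≤ j) (hM : 2 ≤ M) (hX : Real.exp 1 ≤ X) :
    ∑ a ∈ Finset.Ioc M ⌊X⌋₊, Real.log a ^ j / (a * Real.log a) ≤ 2 * Real.log X ^ j := by
  have hX0 : 0 < X := (Real.exp_pos 1).trans_le hX
  have hlX : 1 ≤ Real.log X := (Real.le_log_iff_exp_le hX0).2 hX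
  have h1 : ∀ a ∈ Finset.Ioc M ⌊X⌋₊, Real.log a ^ j / (a * Real.log a) ≤
      Real.log X ^ (j - 1) * ((a : ℝ))⁻¹ := by
    intro a ha
    rw [Finset.mem_Ioc] at ha
    have ha3 : (3 : ℝ) ≤ a := by
      have : 3 ≤ a := by omega
      exact_mod_cast this
    have haX : (a : ℝ) ≤ X := by
      have h2 : (a : ℝ) ≤ (⌊X⌋₊ : ℝ) := by exact_mod_cast ha.2
      exact h2.trans (Nat.floor_le hX0.le)
    have hla : 0 < Real.log (a : ℝ) := Real.log_pos (by linarith)
    have hlaX : Real.log (a : ℝ) ≤ Real.log X := Real.log_le_log (by linarith) haX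
    have e : Real.log (a : ℝ) ^ j = Real.log a ^ (j - 1) * Real.log a := by
      rw [← pow_succ]
      congr 1
      omega
    rw [e, mul_div_mul_right _ _ hla.ne', div_eq_mul_inv]
    exact mul_le_mul_of_nonneg_right (pow_le_pow_left₀ hla.le hlaX _) (by positivity)
  refine (Finset.sum_le_sum h1).trans ?_
  rw [← Finset.mul_sum]
  have h2 : ∑ a ∈ Finset.Ioc M ⌊X⌋₊, ((a : ℝ))⁻¹ ≤ 2 * Real.log X := by
    have h3 : ∑ a ∈ Finset.Ioc M ⌊X⌋₊, ((a : ℝ))⁻¹ ≤ ∑ a ∈ Finset.Icc 1 ⌊X⌋₊, ((a : ℝ))⁻¹ := by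
      refine Finset.sum_le_sum_of_subset_of_nonneg ?_ fun a _ _ => by positivity
      intro a ha
      rw [Finset.mem_Ioc] at ha
      rw [Finset.mem_Icc]
      omega
    have h4 : ∑ a ∈ Finset.Icc 1 ⌊X⌋₊, ((a : ℝ))⁻¹ = (harmonic ⌊X⌋₊ : ℝ) := by
      rw [harmonic_eq_sum_Icc]
      push_cast
      rfl
    have h5 := harmonic_le_one_add_log ⌊X⌋₊
    have h6 : Real.log (⌊X⌋₊ : ℝ) ≤ Real.log X := by
      have h7 : 1 ≤ ⌊X⌋₊ := by
        rw [Nat.one_le_floor_iff]
        have := Real.add_one_le_exp 1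
        linarith
      have h8 : (0 : ℝ) < (⌊X⌋₊ : ℝ) := by exact_mod_cast h7
      exact Real.log_le_log h8 (Nat.floor_le hX0.le)
    linarith
  calc Real.log X ^ (j - 1) * ∑ a ∈ Finset.Ioc M ⌊X⌋₊, ((a : ℝ))⁻¹
      ≤ Real.log X ^ (j - 1) * (2 * Real.log X) :=
        mul_le_mul_of_nonneg_left h2 (by positivity)
    _ = 2 * (Real.log X ^ (j - 1) * Real.log X) := by ring
    _ = 2 * Real.log X ^ j := by
        rw [← pow_succ]
        congr 3
        omega

lemma asy_norm (θ r : ℝ) (j : ℕ) : 1 ≤ ‖(1 : ℂ) - I * θ * (r : ℂ) ^ j‖ := by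
  have h1 : ((1 : ℂ) - I * θ * (r : ℂ) ^ j).re = 1 := by
    have : I * θ * (r : ℂ) ^ j = I * ((θ * r ^ j : ℝ) : ℂ) := by push_cast; ring
    rw [this, Complex.sub_re, Complex.one_re, Complex.mul_re, Complex.I_re, Complex.I_im,
      Complex.ofReal_re, Complex.ofReal_im]
    ring
  have h2 := Complex.abs_re_le_norm ((1 : ℂ) - I * θ * (r : ℂ) ^ j)
  rw [h1, abs_one] at h2
  exact h2

lemma asy_e1 (x : ℝ) : ‖cexp (I * (x : ℂ)) - 1‖ ≤ |x| := by
  have := Real.norm_exp_I_mul_ofReal_sub_one_le (x := x)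
  simpa using this

lemma asy_e2 (x : ℝ) (hx : |x| ≤ 1) : ‖cexp (I * (x : ℂ)) - 1 - I * x‖ ≤ |x| ^ 2 := by
  have h : ‖I * (x : ℂ)‖ = |x| := by
    rw [norm_mul, Complex.norm_I, one_mul, Complex.norm_real, Real.norm_eq_abs]
  have := Complex.norm_exp_sub_one_sub_id_le (x := I * (x : ℂ)) (by rw [h]; exact hx)
  rwa [h] at this

theorem asy : S_GEO.{u} → S_RIEM → S_ASY.{u} := by
  intro hG hR Ω _ μ _ A hA d j w θ M hcas hM
  have hj : 1 ≤ j := by rcases hcas with h | h <;> omega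
  have hj0 : (j : ℂ) ≠ 0 := by
    have : j ≠ 0 := by omega
    exact_mod_cast this
  have hlam : 0 < lamc j := by
    unfold lamc
    split_ifs <;> positivity
  set lw : ℝ := lamc j * Real.exp (-w) with hlw
  have hlw0 : 0 < lw := by positivity
  set φ : ℝ → ℝ := fun X => θ / Real.log X ^ j with hφ
  set S : ℝ → ℕ → ℂ := fun X a => ∑ k ∈ Finset.range (LJ j a), cexp (I * (φ X : ℝ) * k) *
      (μ.real (Cl A d j w a k) : ℝ) with hS
  set Z : ℝ → ℕ → ℂ := fun X a => 1 - I * θ * (Real.log a / Real.log X : ℝ) ^ j with hZ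
  set G : ℝ → ℕ → ℂ := fun X a => ((lw * Real.log a ^ j : ℝ) : ℂ) / Z X a /
      ((a * Real.log a : ℝ) : ℂ) with hGd
  set H : ℕ → ℝ := fun a => Real.log a ^ j / (a * Real.log a) with hH
  have hRi := hR j θ M hj hM
  have hZ1 : ∀ X a, 1 ≤ ‖Z X a‖ := fun X a => asy_norm θ _ j
  have hH0 : ∀ a, 0 ≤ H a := fun a => by
    have := Real.log_natCast_nonneg a
    positivity
  have hGn : ∀ X a, ‖G X a‖ ≤ lw * H a := by
    intro X a
    have hla := Real.log_natCast_nonneg a
    simp only [hGd, norm_div, Complex.norm_real, Real.norm_eq_abs]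
    rw [abs_of_nonneg (show 0 ≤ lw * Real.log (a : ℝ) ^ j by positivity),
      abs_of_nonneg (show 0 ≤ (a : ℝ) * Real.log a by positivity)]
    simp only [hH]
    rw [← mul_div_assoc]
    refine div_le_div_of_nonneg_right ?_ (by positivity)
    exact div_le_self (by positivity) (hZ1 X a)
  have hSn : ∀ X a, ‖S X a‖ ≤ LJ j a := by
    intro X a
    simp only [hS]
    refine (norm_sum_le _ _).trans ?_
    have h1 : ∀ k ∈ Finset.range (LJ j a), ‖cexp (I * (φ X : ℝ) * k) *
        ((μ.real (Cl A d j w a k) : ℝ) : ℂ)‖ ≤ 1 := by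
      intro k _
      rw [norm_mul, show I * (φ X : ℝ) * (k : ℂ) = I * ((φ X * k : ℝ) : ℂ) by push_cast; ring,
        mul_comm I, Complex.norm_exp_ofReal_mul_I, one_mul, Complex.norm_real, Real.norm_eq_abs,
        abs_of_nonneg measureReal_nonneg]
      exact measureReal_le_one
    refine (Finset.sum_le_sum h1).trans ?_
    simp
  -- the main comparison
  have key : Tendsto (fun X : ℝ => (∑ a ∈ Finset.Ioc M ⌊X⌋₊, (cexp (I * (φ X : ℝ)) - 1) * S X a) -
      (lw : ℂ) * ∑ a ∈ Finset.Ioc M ⌊X⌋₊, (I * θ * (Real.log a / Real.log X : ℝ) ^ j) /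
        (a * Real.log a * (1 - I * θ * (Real.log a / Real.log X : ℝ) ^ j))) atTop (𝓝 0) := by
    rw [Metric.tendsto_nhds]
    intro η hη
    set ε : ℝ := η / (8 * (|θ| + 1)) with hε
    have hε0 : 0 < ε := by positivity
    obtain ⟨a₁, ha₁⟩ := hG Ω μ A hA d j w θ ε hcas hε0
    set C₁ : ℝ := ∑ a ∈ Finset.range a₁, ((LJ j a : ℝ) + lw * H a) with hC₁
    have hC₁0 : 0 ≤ C₁ := Finset.sum_nonneg fun a _ => by have := hH0 a; positivity
    have hLt : Tendsto (fun X : ℝ => Real.log X ^ j) atTop atTop :=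
      (tendsto_pow_atTop (by omega)).comp Real.tendsto_log_atTop
    have ev1 : ∀ᶠ X : ℝ in atTop, |θ| + 1 ≤ Real.log X ^ j := hLt.eventually_ge_atTop _
    have ev2 : ∀ᶠ X : ℝ in atTop, (|θ| * C₁ + 2 * |θ| ^ 2 * lw) * (4 / η) ≤ Real.log X ^ j :=
      hLt.eventually_ge_atTop _
    filter_upwards [ev1, ev2, eventually_ge_atTop (Real.exp 1)] with X h1 h2 h3
    have hX0 : 0 < X := (Real.exp_pos 1).trans_le h3
    have hlX : 1 ≤ Real.log X := (Real.le_log_iff_exp_le hX0).2 h3
    set L : ℝ := Real.log X ^ j with hL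
    have hL0 : 0 < L := by positivity
    have hφabs : |φ X| = |θ| / L := by
      simp only [hφ]
      rw [abs_div, abs_of_pos hL0]
    have hφ1 : |φ X| ≤ 1 := by
      rw [hφabs, div_le_one hL0]
      linarith
    have hlXc : (Real.log X : ℂ) ≠ 0 := by
      have : Real.log X ≠ 0 := by linarith
      exact_mod_cast this
    -- termwise identity
    have e1 : (lw : ℂ) * ∑ a ∈ Finset.Ioc M ⌊X⌋₊, (I * θ * (Real.log a / Real.log X : ℝ) ^ j) /
        (a * Real.log a * (1 - I * θ * (Real.log a / Real.log X : ℝ) ^ j)) =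
        ∑ a ∈ Finset.Ioc M ⌊X⌋₊, I * (φ X : ℝ) * G X a := by
      rw [Finset.mul_sum]
      refine Finset.sum_congr rfl fun a _ => ?_
      simp only [hGd, hφ]
      have hz : (1 : ℂ) - I * θ * (Real.log a / Real.log X : ℝ) ^ j = Z X a := rfl
      rw [hz]
      generalize Z X a = z
      push_cast
      rw [div_pow]
      ring
    rw [e1, ← Finset.sum_sub_distrib, dist_zero_right]
    have e2 : ∀ a ∈ Finset.Ioc M ⌊X⌋₊,
        ‖(cexp (I * (φ X : ℝ)) - 1) * S X a - I * (φ X : ℝ) * G X a‖ ≤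
        (if a < a₁ then |φ X| * ((LJ j a : ℝ) + lw * H a) else 0) +
          (|φ X| * ε + |φ X| ^ 2 * lw) * H a := by
      intro a ha
      rw [Finset.mem_Ioc] at ha
      have hHa := hH0 a
      have hq : 0 ≤ (|φ X| * ε + |φ X| ^ 2 * lw) * H a := by positivity
      by_cases hlt : a < a₁
      · rw [if_pos hlt]
        have g1 : ‖(cexp (I * (φ X : ℝ)) - 1) * S X a‖ ≤ |φ X| * LJ j a := by
          rw [norm_mul]
          exact mul_le_mul (asy_e1 _) (hSn X a) (norm_nonneg _) (abs_nonneg _)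
        have g2 : ‖I * (φ X : ℝ) * G X a‖ ≤ |φ X| * (lw * H a) := by
          rw [norm_mul, norm_mul, Complex.norm_I, one_mul, Complex.norm_real, Real.norm_eq_abs]
          exact mul_le_mul_of_nonneg_left (hGn X a) (abs_nonneg _)
        have g3 := norm_sub_le ((cexp (I * (φ X : ℝ)) - 1) * S X a) (I * (φ X : ℝ) * G X a)
        linarith
      · rw [if_neg hlt, zero_add]
        have haX : (a : ℝ) ≤ X := by
          have h4 : (a : ℝ) ≤ (⌊X⌋₊ : ℝ) := by exact_mod_cast ha.2
          exact h4.trans (Nat.floor_le hX0.le)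
        have ha3 : (3 : ℝ) ≤ a := by
          have : 3 ≤ a := by omega
          exact_mod_cast this
        have hla : 0 < Real.log (a : ℝ) := Real.log_pos (by linarith)
        have hal : 0 < (a : ℝ) * Real.log a := by positivity
        have hge := ha₁ a X (not_lt.1 hlt) haX
        have hSG : ‖S X a - G X a‖ ≤ ε * H a := by
          have h5 : S X a - G X a = ((∑ k ∈ Finset.range (LJ j a),
              cexp (I * (θ / Real.log X ^ j : ℝ) * k) *
              (μ.real (Cl A d j w a k) * (a * Real.log a) : ℝ)) -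
              (lamc j * Real.exp (-w) * Real.log a ^ j : ℝ) /
              (1 - I * θ * (Real.log a / Real.log X : ℝ) ^ j)) / ((a * Real.log a : ℝ) : ℂ) := by
            rw [sub_div, Finset.sum_div]
            congr 1
            simp only [hS]
            refine Finset.sum_congr rfl fun k _ => ?_
            have h6 : ((a * Real.log a : ℝ) : ℂ) ≠ 0 := by exact_mod_cast hal.ne'
            rw [Complex.ofReal_mul (μ.real (Cl A d j w a k)), ← mul_assoc,
              mul_div_assoc, div_self h6, mul_one]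
          rw [h5, norm_div, Complex.norm_real, Real.norm_eq_abs, abs_of_pos hal]
          simp only [hH]
          rw [← mul_div_assoc]
          exact div_le_div_of_nonneg_right hge hal.le
        have h7 : (cexp (I * (φ X : ℝ)) - 1) * S X a - I * (φ X : ℝ) * G X a =
            (cexp (I * (φ X : ℝ)) - 1) * (S X a - G X a) +
              (cexp (I * (φ X : ℝ)) - 1 - I * (φ X : ℝ)) * G X a := by ring
        rw [h7]
        refine (norm_add_le _ _).trans ?_
        rw [norm_mul, norm_mul]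
        have g1 : ‖cexp (I * (φ X : ℝ)) - 1‖ * ‖S X a - G X a‖ ≤ |φ X| * (ε * H a) :=
          mul_le_mul (asy_e1 _) hSG (norm_nonneg _) (abs_nonneg _)
        have g2 : ‖cexp (I * (φ X : ℝ)) - 1 - I * (φ X : ℝ)‖ * ‖G X a‖ ≤
            |φ X| ^ 2 * (lw * H a) :=
          mul_le_mul (asy_e2 _ hφ1) (hGn X a) (norm_nonneg _) (by positivity)
        linarith
    refine lt_of_le_of_lt ((norm_sum_le _ _).trans (Finset.sum_le_sum e2)) ?_
    rw [Finset.sum_add_distrib, ← Finset.mul_sum]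
    have e3 : ∑ a ∈ Finset.Ioc M ⌊X⌋₊,
        (if a < a₁ then |φ X| * ((LJ j a : ℝ) + lw * H a) else 0) ≤ |φ X| * C₁ := by
      rw [← Finset.sum_filter, hC₁, Finset.mul_sum]
      refine Finset.sum_le_sum_of_subset_of_nonneg ?_ fun a _ _ => ?_
      · intro a ha
        rw [Finset.mem_filter] at ha
        exact Finset.mem_range.2 ha.2
      · have := hH0 a
        positivity
    have e4 : ∑ a ∈ Finset.Ioc M ⌊X⌋₊, H a ≤ 2 * L := asy_hsum j M X hj hM h3
    have e5 : (|φ X| * ε + |φ X| ^ 2 * lw) * ∑ a ∈ Finset.Ioc M ⌊X⌋₊, H a ≤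
        (|φ X| * ε + |φ X| ^ 2 * lw) * (2 * L) :=
      mul_le_mul_of_nonneg_left e4 (by positivity)
    have e6 : |φ X| * C₁ + (|φ X| * ε + |φ X| ^ 2 * lw) * (2 * L) =
        (|θ| * C₁ + 2 * |θ| ^ 2 * lw) / L + 2 * |θ| * ε := by
      rw [hφabs]
      field_simp
      ring
    have e7 : (|θ| * C₁ + 2 * |θ| ^ 2 * lw) / L ≤ η / 4 := by
      rw [div_le_iff₀ hL0]
      have h8 := mul_le_mul_of_nonneg_left h2 (show 0 ≤ η / 4 by positivity)
      calc |θ| * C₁ + 2 * |θ| ^ 2 * lw = η / 4 * ((|θ| * C₁ + 2 * |θ| ^ 2 * lw) * (4 / η)) := by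
            field_simp
        _ ≤ _ := h8
    have e8 : 2 * |θ| * ε ≤ η / 4 := by
      rw [hε, mul_div_assoc', div_le_div_iff₀ (by positivity) (by norm_num)]
      have := abs_nonneg θ
      nlinarith
    linarith
  have fin := key.add (hRi.const_mul (lw : ℂ))
  have e9 : (0 : ℂ) + (lw : ℂ) * (-Complex.log (1 - I * θ) / j) =
      -((lw / j : ℝ) : ℂ) * Complex.log (1 - I * θ) := by
    push_cast
    ring
  rw [e9] at fin
  refine fin.congr fun X => ?_
  rw [sub_add_cancel]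

end H21SCH
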