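import Pool.Agent.H21.SCH.Stm

/-! # Project SCH: BCA (helper60) -/

set_option autoImplicit false

namespace H21SCH

open MeasureTheory ProbabilityTheory Filter Topology Set Complex

universe u

theorem bca_lamc_pos (j : ℕ) : 0 < lamc j := by
  unfold lamc
  split_ifs <;> exact Real.exp_pos _

theorem bca_growth {κ κ' : ℝ} (h : κ' < κ) (h0 : 0 < κ') :
    ∀ᶠ L : ℝ in atTop, Real.exp 1 * (L + 1) ^ κ' ≤ L ^ κ := by
  have h1 : Tendsto (fun L : ℝ => L ^ (κ - κ')) atTop atTop := tendsto_rpow_atTop (sub_pos.2 h)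
  filter_upwards [h1.eventually_ge_atTop (Real.exp 1 * 2 ^ κ'), eventually_ge_atTop (1 : ℝ)] with L h2 hL
  have hL0 : 0 < L := by linarith
  calc Real.exp 1 * (L + 1) ^ κ' ≤ Real.exp 1 * (2 * L) ^ κ' := by
        refine mul_le_mul_of_nonneg_left ?_ (Real.exp_pos 1).le
        exact Real.rpow_le_rpow (by linarith) (by linarith) h0.le
    _ = (Real.exp 1 * 2 ^ κ') * L ^ κ' := by
        rw [Real.mul_rpow (by norm_num) hL0.le]; ring
    _ ≤ L ^ (κ - κ') * L ^ κ' := mul_le_mul_of_nonneg_right h2 (Real.rpow_nonneg hL0.le _)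
    _ = L ^ κ := by rw [← Real.rpow_add hL0]; congr 1; ring

theorem bca : S_PE.{u} → S_BCA.{u} := by
  intro hPE Ω _ μ _ A hA d j w κ hdj hκ
  set lam := lamc j * Real.exp (-w) with hlam
  have hl0 : 0 < lam := mul_pos (bca_lamc_pos j) (Real.exp_pos _)
  obtain ⟨κ', hk1, hk2⟩ : ∃ κ' : ℝ, 1 / lam < κ' ∧ κ' < κ := by
    apply exists_between
    rw [div_lt_iff₀ hl0]
    exact hκ
  have hk0 : 0 < κ' := lt_trans (by positivity) hk1
  have hk3 : 1 < lam * κ' := by
    rw [div_lt_iff₀ hl0] at hk1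
    linarith
  obtain ⟨C, x₀, hC, hx₀, hP⟩ := hPE Ω μ A hA d j w hdj
  -- the scales
  let x : ℕ → ℝ := fun i => Real.exp (Real.exp i)
  let y : ℕ → ℝ := fun i => Real.exp (Real.exp i * (i : ℝ) ^ κ')
  obtain ⟨i₀, hi₀⟩ : ∃ i₀ : ℕ, 1 ≤ i₀ ∧ ∀ i, i₀ ≤ i → x₀ ≤ x i := by
    have h1 : Tendsto x atTop atTop :=
      Real.tendsto_exp_atTop.comp (Real.tendsto_exp_atTop.comp tendsto_natCast_atTop_atTop)
    obtain ⟨i₁, h2⟩ := eventually_atTop.1 (h1.eventually_ge_atTop x₀)
    exact ⟨max 1 i₁, le_max_left _ _, fun i hi => h2 i (le_trans (le_max_right _ _) hi)⟩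
  have hone : ∀ i : ℕ, 1 ≤ i → 1 ≤ (i : ℝ) ^ κ' := fun i hi =>
    Real.one_le_rpow (by exact_mod_cast hi) hk0.le
  have hbound : ∀ i, i₀ ≤ i → μ.real (NoGap A d j w (x i) (y i)) ≤
      (i : ℝ) ^ (-(lam * κ')) + C * Real.exp (-1 / 2 * (i : ℝ)) := by
    intro i hi
    have hi1 : 1 ≤ i := hi₀.1.trans hi
    have hi0 : (0 : ℝ) < i := by exact_mod_cast hi1
    have h1 := hP (x i) (y i) (hi₀.2 i hi) (by
      apply Real.exp_le_exp.2
      exact le_mul_of_one_le_right (Real.exp_pos _).le (hone i hi1))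
    have h2 : Real.log (x i) = Real.exp i := Real.log_exp _
    have h3 : Real.log (y i) = Real.exp i * (i : ℝ) ^ κ' := Real.log_exp _
    rw [h2, h3] at h1
    have h4 : Real.exp i * (i : ℝ) ^ κ' / Real.exp i = (i : ℝ) ^ κ' := by
      field_simp
    rw [h4, ← Real.rpow_mul hi0.le] at h1
    have h5 : C / √(Real.exp i) = C * Real.exp (-1 / 2 * (i : ℝ)) := by
      rw [Real.sqrt_eq_rpow, ← Real.exp_mul, div_eq_mul_inv, ← Real.exp_neg]
      congr 2
      ring
    rw [h5] at h1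
    have h6 := (abs_le.1 h1).2
    have h7 : κ' * -(lamc j * Real.exp (-w)) = -(lam * κ') := by rw [hlam]; ring
    rw [h7] at h6
    linarith
  -- Borel-Cantelli
  have hsum : Summable fun i : ℕ => μ.real (NoGap A d j w (x (i + i₀)) (y (i + i₀))) := by
    refine Summable.of_nonneg_of_le (fun _ => measureReal_nonneg) (fun i => hbound _ (Nat.le_add_left _ _)) ?_
    refine Summable.add ?_ ?_
    · exact (summable_nat_add_iff (f := fun i : ℕ => (i : ℝ) ^ (-(lam * κ'))) i₀).2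
        (Real.summable_nat_rpow.2 (by linarith))
    · refine Summable.mul_left _ ?_
      refine (summable_nat_add_iff (f := fun i : ℕ => Real.exp (-1 / 2 * (i : ℝ))) i₀).2 ?_
      have h1 : (fun i : ℕ => Real.exp (-1 / 2 * (i : ℝ))) = fun i : ℕ => Real.exp (i * (-1 / 2)) := by
        funext i; congr 1; ring
      rw [h1]
      exact Real.summable_exp_nat_mul_iff.2 (by norm_num)
  have hBC : ∀ᵐ ω ∂μ, ∀ᶠ i : ℕ in atTop, ω ∉ NoGap A d j w (x (i + i₀)) (y (i + i₀)) := by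
    refine ae_eventually_notMem ?_
    have h1 : ∀ i : ℕ, μ (NoGap A d j w (x (i + i₀)) (y (i + i₀))) =
        ENNReal.ofReal (μ.real (NoGap A d j w (x (i + i₀)) (y (i + i₀)))) := fun i => by
      rw [ofReal_measureReal]
    simp_rw [h1]
    exact hsum.tsum_ofReal_ne_top
  filter_upwards [hBC] with ω hω
  obtain ⟨i₁, hi₁⟩ := eventually_atTop.1 hω
  have hL : Tendsto (fun X : ℝ => Real.log (Real.log X)) atTop atTop :=
    Real.tendsto_log_atTop.comp Real.tendsto_log_atTop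
  filter_upwards [hL.eventually (bca_growth hk2 hk0), hL.eventually_ge_atTop ((i₁ + i₀ : ℕ) : ℝ),
    hL.eventually_ge_atTop (1 : ℝ), eventually_ge_atTop (1 : ℝ),
    Real.tendsto_log_atTop.eventually_ge_atTop (1 : ℝ)] with X h1 h2 h3 h4 h5 hH
  set L := Real.log (Real.log X) with hLdef
  have hL0 : 0 ≤ L := by linarith
  set i := ⌊L⌋₊ + 1 with hi
  have hiL : L < (i : ℝ) := by rw [hi]; push_cast; exact Nat.lt_floor_add_one L
  have hiL' : (i : ℝ) ≤ L + 1 := by
    rw [hi]; push_cast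
    have := Nat.floor_le hL0
    linarith
  have hi1 : i₁ + i₀ ≤ i := by
    have : ((i₁ + i₀ : ℕ) : ℝ) < i := lt_of_le_of_lt h2 hiL
    exact_mod_cast this.le
  have h6 := hi₁ (i - i₀) (by omega)
  rw [Nat.sub_add_cancel (by omega)] at h6
  unfold NoGap at h6
  simp only [mem_setOf_eq, not_forall, not_not, exists_prop] at h6
  obtain ⟨a, ha1, ha2, ha3⟩ := h6
  have hX : Real.exp (Real.exp L) = X := by
    rw [hLdef, Real.exp_log (by linarith), Real.exp_log (by linarith)]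
  refine hH a ?_ ?_ ha3.2
  · calc X = Real.exp (Real.exp L) := hX.symm
      _ < x i := Real.exp_lt_exp.2 (Real.exp_lt_exp.2 hiL)
      _ < a := ha1
  · refine ha2.trans ?_
    have h7 : X ^ (L ^ κ) = Real.exp (Real.exp L * L ^ κ) := by
      rw [Real.exp_mul, hX]
    rw [h7]
    apply Real.exp_le_exp.2
    have hi0 : (0 : ℝ) ≤ i := Nat.cast_nonneg _
    calc Real.exp i * (i : ℝ) ^ κ' ≤ Real.exp (L + 1) * (L + 1) ^ κ' := by
          refine mul_le_mul (Real.exp_le_exp.2 hiL') (Real.rpow_le_rpow hi0 hiL' hk0.le)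
            (Real.rpow_nonneg hi0 _) (Real.exp_pos _).le
      _ = Real.exp L * (Real.exp 1 * (L + 1) ^ κ') := by rw [Real.exp_add]; ring
      _ ≤ Real.exp L * L ^ κ := mul_le_mul_of_nonneg_left h1 (Real.exp_pos _).le

end H21SCH
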