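import Pool.Agent.H21.SCH.Stm

/-! # SCH-BCB: infinitely many long waiting times (helper75)

`x_n = exp (exp (n ^ ρ))`, `y_n = x_n ^ (n ^ (1 / λ))`, `ρ = 1 / (κ' λ) > 1`, `κ' = max κ (1 / (2 λ))`. -/

namespace H21SCH

open MeasureTheory ProbabilityTheory Filter Topology Set Complex

universe u

namespace BCBAux

/-! ### the sequences -/

noncomputable def xx (ρ : ℝ) (n : ℕ) : ℝ := Real.exp (Real.exp ((n : ℝ) ^ ρ))

noncomputable def yy (ρ lam : ℝ) (n : ℕ) : ℝ :=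
  Real.exp (Real.exp ((n : ℝ) ^ ρ) * (n : ℝ) ^ (1 / lam))

theorem le_t {ρ : ℝ} (hρ : 1 ≤ ρ) {n : ℕ} (hn : 1 ≤ n) : (n : ℝ) ≤ (n : ℝ) ^ ρ := by
  have h1 : (1 : ℝ) ≤ n := by exact_mod_cast hn
  calc (n : ℝ) = (n : ℝ) ^ (1 : ℝ) := (Real.rpow_one _).symm
    _ ≤ (n : ℝ) ^ ρ := Real.rpow_le_rpow_of_exponent_le h1 hρ

theorem le_xx {ρ : ℝ} (hρ : 1 ≤ ρ) {n : ℕ} (hn : 1 ≤ n) : Real.exp n ≤ xx ρ n := by
  unfold xx
  refine Real.exp_le_exp.2 ((le_t hρ hn).trans ?_)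
  have := Real.add_one_le_exp ((n : ℝ) ^ ρ)
  linarith

theorem xx_tendsto {ρ : ℝ} (hρ : 1 ≤ ρ) : Tendsto (xx ρ) atTop atTop := by
  refine tendsto_atTop_mono' _ ?_ (Real.tendsto_exp_atTop.comp tendsto_natCast_atTop_atTop)
  filter_upwards [eventually_ge_atTop 1] with n hn
  exact le_xx hρ hn

theorem xx_mono {ρ : ℝ} (hρ : 1 ≤ ρ) : Monotone (xx ρ) := by
  intro m n hmn
  unfold xx
  refine Real.exp_le_exp.2 (Real.exp_le_exp.2 (Real.rpow_le_rpow (Nat.cast_nonneg _) ?_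
    (by linarith)))
  exact_mod_cast hmn

theorem log_xx (ρ : ℝ) (n : ℕ) : Real.log (xx ρ n) = Real.exp ((n : ℝ) ^ ρ) := by
  unfold xx; rw [Real.log_exp]

theorem log_yy (ρ lam : ℝ) (n : ℕ) :
    Real.log (yy ρ lam n) = Real.exp ((n : ℝ) ^ ρ) * (n : ℝ) ^ (1 / lam) := by
  unfold yy; rw [Real.log_exp]

theorem one_le_c {lam : ℝ} (hlam : 0 < lam) {n : ℕ} (hn : 1 ≤ n) : 1 ≤ (n : ℝ) ^ (1 / lam) :=
  Real.one_le_rpow (by exact_mod_cast hn) (by positivity)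

theorem xx_le_yy (ρ : ℝ) {lam : ℝ} (hlam : 0 < lam) {n : ℕ} (hn : 1 ≤ n) :
    xx ρ n ≤ yy ρ lam n := by
  unfold xx yy
  refine Real.exp_le_exp.2 ?_
  exact le_mul_of_one_le_right (Real.exp_pos _).le (one_le_c hlam hn)

theorem quot (ρ : ℝ) {lam : ℝ} (hlam : 0 < lam) {n : ℕ} (_hn : 1 ≤ n) :
    (Real.log (yy ρ lam n) / Real.log (xx ρ n)) ^ (-lam) = 1 / (n : ℝ) := by
  rw [log_xx, log_yy, mul_div_cancel_left₀ _ (Real.exp_pos _).ne',
    ← Real.rpow_mul (Nat.cast_nonneg _)]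
  have : 1 / lam * -lam = -1 := by field_simp
  rw [this, Real.rpow_neg_one, one_div]

theorem sqrt_log {ρ : ℝ} (hρ : 1 ≤ ρ) {n : ℕ} (hn : 1 ≤ n) :
    Real.exp (n / 2) ≤ √(Real.log (xx ρ n)) := by
  rw [log_xx, ← Real.exp_half]
  refine Real.exp_le_exp.2 ?_
  have := le_t hρ hn
  linarith

theorem growth {ρ lam : ℝ} (hρ : 1 < ρ) (hlam : 0 < lam) :
    ∀ᶠ n : ℕ in atTop, 2 * yy ρ lam n ≤ xx ρ (n + 1) := by
  have hr : 0 < ρ - 1 := by linarith
  have h1 : ∀ᶠ x : ℝ in atTop, Real.log 2 + 1 / lam * Real.log x ≤ x ^ (ρ - 1) := by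
    have e1 := (isLittleO_log_rpow_atTop hr).bound (by positivity : 0 < lam / 2)
    have e2 := (tendsto_rpow_atTop hr).eventually_ge_atTop (2 * Real.log 2)
    filter_upwards [e1, e2, eventually_gt_atTop (0 : ℝ)] with x hx1 hx2 hx3
    have h0 : 0 ≤ x ^ (ρ - 1) := Real.rpow_nonneg hx3.le _
    rw [Real.norm_eq_abs, Real.norm_of_nonneg h0] at hx1
    have h2 := (le_abs_self _).trans hx1
    have h3 : 1 / lam * Real.log x ≤ 1 / lam * (lam / 2 * x ^ (ρ - 1)) :=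
      mul_le_mul_of_nonneg_left h2 (by positivity)
    have h4 : 1 / lam * (lam / 2 * x ^ (ρ - 1)) = x ^ (ρ - 1) / 2 := by field_simp
    linarith
  filter_upwards [tendsto_natCast_atTop_atTop.eventually h1, eventually_ge_atTop 1] with n hn hn1
  have hnR : (1 : ℝ) ≤ n := by exact_mod_cast hn1
  have hn0 : (0 : ℝ) < n := by linarith
  have h2 : (n : ℝ) ^ ρ + (n : ℝ) ^ (ρ - 1) ≤ ((n + 1 : ℕ) : ℝ) ^ ρ := by
    have e1 : (n : ℝ) ^ ρ = n * (n : ℝ) ^ (ρ - 1) := by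
      rw [Real.rpow_sub_one hn0.ne']; field_simp
    have e2 : ((n + 1 : ℕ) : ℝ) ^ ρ = ((n + 1 : ℕ) : ℝ) * ((n + 1 : ℕ) : ℝ) ^ (ρ - 1) := by
      have : ((n + 1 : ℕ) : ℝ) ≠ 0 := by positivity
      rw [Real.rpow_sub_one this]; field_simp
    have e3 : (n : ℝ) ^ (ρ - 1) ≤ ((n + 1 : ℕ) : ℝ) ^ (ρ - 1) :=
      Real.rpow_le_rpow hn0.le (by push_cast; linarith) hr.le
    rw [e1, e2]
    calc n * (n : ℝ) ^ (ρ - 1) + (n : ℝ) ^ (ρ - 1) = ((n + 1 : ℕ) : ℝ) * (n : ℝ) ^ (ρ - 1) := by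
          push_cast; ring
      _ ≤ _ := mul_le_mul_of_nonneg_left e3 (by positivity)
  have h3 : 2 * (n : ℝ) ^ (1 / lam) ≤ Real.exp ((n : ℝ) ^ (ρ - 1)) := by
    have e1 : 2 * (n : ℝ) ^ (1 / lam) = Real.exp (Real.log 2 + 1 / lam * Real.log n) := by
      rw [Real.exp_add, Real.exp_log (by norm_num), Real.rpow_def_of_pos hn0, mul_comm (1 / lam)]
    rw [e1]
    exact Real.exp_le_exp.2 hn
  have h4 : 1 ≤ (n : ℝ) ^ (1 / lam) := one_le_c hlam hn1
  have h5 : 1 ≤ Real.exp ((n : ℝ) ^ ρ) := Real.one_le_exp (Real.rpow_nonneg hn0.le _)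
  have h6 : Real.log 2 + Real.exp ((n : ℝ) ^ ρ) * (n : ℝ) ^ (1 / lam) ≤
      Real.exp (((n + 1 : ℕ) : ℝ) ^ ρ) := by
    have e1 : Real.exp ((n : ℝ) ^ ρ) * (2 * (n : ℝ) ^ (1 / lam)) ≤
        Real.exp (((n + 1 : ℕ) : ℝ) ^ ρ) := by
      refine le_trans ?_ (Real.exp_le_exp.2 h2)
      rw [Real.exp_add]
      exact mul_le_mul_of_nonneg_left h3 (Real.exp_pos _).le
    have e2 : Real.log 2 ≤ 1 := by
      have := Real.log_two_lt_d9
      linarith
    have e3 : 1 ≤ Real.exp ((n : ℝ) ^ ρ) * (n : ℝ) ^ (1 / lam) := one_le_mul_of_one_le_of_one_le h5 h4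
    linarith
  unfold yy xx
  calc 2 * Real.exp (Real.exp ((n : ℝ) ^ ρ) * (n : ℝ) ^ (1 / lam)) =
      Real.exp (Real.log 2 + Real.exp ((n : ℝ) ^ ρ) * (n : ℝ) ^ (1 / lam)) := by
        rw [Real.exp_add, Real.exp_log (by norm_num)]
    _ ≤ _ := Real.exp_le_exp.2 h6

theorem pow_le {ρ lam κ κ' : ℝ} (hκ : κ ≤ κ') (hρ : 1 ≤ ρ) (h : ρ * κ' = 1 / lam) {n : ℕ}
    (hn : 1 ≤ n) :
    xx ρ n ^ (Real.log (Real.log (xx ρ n)) ^ κ) ≤ yy ρ lam n := by
  have hnR : (1 : ℝ) ≤ n := by exact_mod_cast hn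
  have hn0 : (0 : ℝ) < n := by linarith
  rw [log_xx, Real.log_exp]
  unfold xx yy
  rw [← Real.exp_mul]
  refine Real.exp_le_exp.2 (mul_le_mul_of_nonneg_left ?_ (Real.exp_pos _).le)
  rw [← h, Real.rpow_mul hn0.le]
  exact Real.rpow_le_rpow_of_exponent_le (hnR.trans (le_t hρ hn)) hκ

/-! ### independence -/

variable {Ω : Type u}

theorem gap_loc {A : ℕ → Set Ω} {d j : ℕ} {w : ℝ} {a : ℕ} {S : Finset ℕ}
    (h : Loc A (Finset.Icc a (a + LL a)) (fun ω => ω ∈ Cl A d j w a 0))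
    (hS : Finset.Icc a (a + LL a) ⊆ S) : Loc A S (fun ω => ω ∈ Gap A d j w a) := by
  have e : Gap A d j w a = Cl A d j w a 0 := by
    ext ω
    unfold Gap Cl Fails
    simp only [Set.mem_inter_iff, Set.mem_ofPred_eq, add_zero, Nat.cast_lt]
  intro ω ω' hω
  have := h ω ω' fun p hp => hω p (hS hp)
  simp only [e]
  exact this

theorem noGap_loc {A : ℕ → Set Ω} {d j : ℕ} {w x y : ℝ} {S : Finset ℕ}
    (h : ∀ a : ℕ, x < a → (a : ℝ) ≤ y → Loc A S (fun ω => ω ∈ Gap A d j w a)) :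
    Loc A S (fun ω => ω ∈ NoGap A d j w x y) := by
  intro ω ω' hω
  simp only [NoGap, Set.mem_ofPred_eq]
  refine propext (forall_congr' fun a => ?_)
  constructor
  · intro k h1 h2 h3
    have h4 : (ω ∈ Gap A d j w a) = (ω' ∈ Gap A d j w a) := h a h1 h2 ω ω' hω
    exact k h1 h2 (h4.mpr h3)
  · intro k h1 h2 h3
    have h4 : (ω ∈ Gap A d j w a) = (ω' ∈ Gap A d j w a) := h a h1 h2 ω ω' hω
    exact k h1 h2 (h4.mp h3)

theorem inter_loc {A : ℕ → Set Ω} {E : ℕ → Set Ω} {S : ℕ → Finset ℕ}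
    (h : ∀ n, Loc A (S n) (fun ω => ω ∈ E n)) (s : Finset ℕ) :
    Loc A (s.biUnion S) (fun ω => ω ∈ ⋂ i ∈ s, E i) := by
  intro ω ω' hω
  simp only [Set.mem_iInter]
  refine propext (forall_congr' fun i => forall_congr' fun hi => ?_)
  have h4 : (ω ∈ E i) = (ω' ∈ E i) :=
    h i ω ω' fun p hp => hω p (Finset.mem_biUnion.2 ⟨i, hi, hp⟩)
  rw [h4]

theorem prod_inter [MeasurableSpace Ω] {μ : Measure Ω} [IsProbabilityMeasure μ] {A : ℕ → Set Ω}
    (hL : ∀ (S T : Finset ℕ) (B C : Set Ω), Disjoint S T → Loc A S (fun ω => ω ∈ B) →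
      Loc A T (fun ω => ω ∈ C) → μ.real (B ∩ C) = μ.real B * μ.real C)
    {E : ℕ → Set Ω} {S : ℕ → Finset ℕ} (h : ∀ n, Loc A (S n) (fun ω => ω ∈ E n))
    (hd : ∀ m n, m ≠ n → Disjoint (S m) (S n)) (s : Finset ℕ) :
    μ (⋂ i ∈ s, E i) = ∏ i ∈ s, μ (E i) := by
  classical
  induction s using Finset.induction_on with
  | empty => simp
  | insert a s ha ih =>
    rw [Finset.prod_insert ha, Finset.set_biInter_insert, ← ih]
    have h1 := hL (S a) (s.biUnion S) (E a) (⋂ i ∈ s, E i)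
      ((Finset.disjoint_biUnion_right _ _ _).2 fun i hi => hd a i (by
        rintro rfl; exact ha hi)) (h a) (inter_loc h s)
    unfold Measure.real at h1
    rw [← ENNReal.toReal_mul] at h1
    exact (ENNReal.toReal_eq_toReal_iff' (measure_ne_top _ _)
      (ENNReal.mul_ne_top (measure_ne_top _ _) (measure_ne_top _ _))).1 h1

end BCBAux

open BCBAux in
theorem bcb : S_PE.{u} → S_LOC.{u} → S_DET.{u} → S_CMP.{u} → S_PFL.{u} → S_BCB.{u} := by
  intro hPE hLOC hDET hCMP hPFL Ω _ μ _ A hA d j w κ hc hκ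
  obtain ⟨lam, hlamd⟩ : ∃ lam, lam = lamc j * Real.exp (-w) := ⟨_, rfl⟩
  have hlam : 0 < lam := by
    rw [hlamd]
    refine mul_pos ?_ (Real.exp_pos _)
    unfold lamc
    split_ifs <;> exact Real.exp_pos _
  rw [← hlamd] at hκ
  -- the parameters
  obtain ⟨κ', hκ1, hκ0, hκ2⟩ : ∃ κ' : ℝ, κ ≤ κ' ∧ 0 < κ' ∧ κ' * lam < 1 := by
    refine ⟨max κ (1 / (2 * lam)), le_max_left _ _, lt_max_of_lt_right (by positivity), ?_⟩
    rw [max_mul_of_nonneg _ _ hlam.le]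
    refine max_lt hκ ?_
    have : 1 / (2 * lam) * lam = 1 / 2 := by field_simp
    rw [this]
    norm_num
  obtain ⟨ρ, hρd⟩ : ∃ ρ, ρ = 1 / (κ' * lam) := ⟨_, rfl⟩
  have hkl : 0 < κ' * lam := mul_pos hκ0 hlam
  have hρ : 1 < ρ := by
    rw [hρd, lt_div_iff₀ hkl]
    linarith
  have hρκ : ρ * κ' = 1 / lam := by
    rw [hρd]; field_simp
  obtain ⟨hL1, -, hL3⟩ := hLOC Ω μ A hA.meas hA.indep
  obtain ⟨a₀, ha₀, -, -, -, -, hloc, -⟩ := hDET d j w hc
  obtain ⟨C, x₀, hC, hx₀, hPE⟩ := hPE Ω μ A hA d j w hc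
  obtain ⟨x₁, hCMP⟩ := hCMP d j w hc
  obtain ⟨C', x₂, hC', hx₂, hPFL⟩ := hPFL Ω μ A hA d j w hc
  rw [← hlamd] at hPE
  -- large `n`
  have hlog : ∀ᶠ x : ℝ in atTop, Real.log x ^ 5 ≤ x := by
    have := (Real.isLittleO_pow_log_id_atTop (n := 5)).bound (by norm_num : (0 : ℝ) < 1)
    filter_upwards [this, eventually_gt_atTop (0 : ℝ)] with x hx hx0
    rw [Real.norm_eq_abs, one_mul, id, Real.norm_of_nonneg hx0.le] at hx
    exact (le_abs_self _).trans hx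
  obtain ⟨b₀, hb₀⟩ := eventually_atTop.1 hlog
  have hx := xx_tendsto hρ.le
  obtain ⟨n₀, hn₀⟩ := eventually_atTop.1 ((growth hρ hlam).and ((eventually_ge_atTop 1).and
    ((hx.eventually_ge_atTop (a₀ : ℝ)).and ((hx.eventually_ge_atTop x₀).and
    ((hx.eventually_ge_atTop x₁).and ((hx.eventually_ge_atTop x₂).and
    (hx.eventually_ge_atTop b₀)))))))
  obtain ⟨x, hxd⟩ : ∃ x : ℕ → ℝ, x = fun n => xx ρ (n + n₀) := ⟨_, rfl⟩
  obtain ⟨y, hyd⟩ : ∃ y : ℕ → ℝ, y = fun n => yy ρ lam (n + n₀) := ⟨_, rfl⟩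
  have hall : ∀ n : ℕ, 2 * y n ≤ x (n + 1) ∧ 1 ≤ n + n₀ ∧ (a₀ : ℝ) ≤ x n ∧ x₀ ≤ x n ∧
      x₁ ≤ x n ∧ x₂ ≤ x n ∧ b₀ ≤ x n := by
    intro n
    have := hn₀ (n + n₀) (by omega)
    rw [hxd, hyd]
    simp only
    rw [show n + 1 + n₀ = n + n₀ + 1 by ring]
    exact this
  have hxm : Monotone x := by
    rw [hxd]
    exact fun m n hmn => xx_mono hρ.le (by omega)
  have hxy : ∀ n, x n ≤ y n := by
    intro n
    rw [hxd, hyd]
    exact xx_le_yy ρ hlam (hall n).2.1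
  have hx0 : ∀ n, 0 < x n := by
    intro n; rw [hxd]; exact Real.exp_pos _
  obtain ⟨E, hE⟩ : ∃ E : ℕ → Set Ω, E = fun n => NoGap A d j w (x n) (y n) := ⟨_, rfl⟩
  obtain ⟨S, hS⟩ : ∃ S : ℕ → Finset ℕ, S = fun n => Finset.Ioc ⌊x n⌋₊ ⌊2 * y n⌋₊ := ⟨_, rfl⟩
  have hEloc : ∀ n, Loc A (S n) (fun ω => ω ∈ E n) := by
    intro n
    rw [hE]
    refine noGap_loc fun a h1 h2 => gap_loc (hloc Ω A a 0 ?_ (Nat.zero_le _)) ?_
    · have : (a₀ : ℝ) ≤ a := ((hall n).2.2.1).trans h1.le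
      exact_mod_cast this
    · intro p hp
      obtain ⟨hp1, hp2⟩ := Finset.mem_Icc.1 hp
      rw [hS, Finset.mem_Ioc]
      constructor
      · have : ⌊x n⌋₊ < a := (Nat.floor_lt (hx0 n).le).2 h1
        omega
      · refine Nat.le_floor ?_
        have h3 : LL a ≤ a := by
          unfold LL
          refine Nat.floor_le_of_le (hb₀ _ ?_)
          exact ((hall n).2.2.2.2.2.2).trans h1.le
        have h4 : p ≤ 2 * a := by omega
        have h5 : (p : ℝ) ≤ 2 * a := by exact_mod_cast h4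
        linarith
  have hdis : ∀ m n, m ≠ n → Disjoint (S m) (S n) := by
    have key : ∀ m n, m < n → Disjoint (S m) (S n) := by
      intro m n hmn
      rw [hS, Finset.disjoint_left]
      intro p hp hp'
      rw [Finset.mem_Ioc] at hp hp'
      have h1 : 2 * y m ≤ x n := (hall m).1.trans (hxm hmn)
      have h2 : ⌊2 * y m⌋₊ ≤ ⌊x n⌋₊ := Nat.floor_le_floor h1
      omega
    intro m n hmn
    rcases lt_or_gt_of_ne hmn with h | h
    · exact key m n h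
    · exact (key n m h).symm
  have hEm : ∀ n, MeasurableSet (E n) := fun n =>
    measurableSet_setOfPred.2 (hL1 (S n) Prop (fun ω => ω ∈ E n) (hEloc n))
  have hind : iIndepSet E μ :=
    (iIndepSet_iff_meas_biInter hEm).2 fun s => prod_inter hL3 hEloc hdis s
  -- the sum of the probabilities
  have hexp : Summable fun n : ℕ => Real.exp (-(((n + n₀ : ℕ) : ℝ) / 2)) := by
    have h1 : Summable fun n : ℕ => Real.exp (-(n : ℝ) / 2) := by
      have h2 : (fun n : ℕ => Real.exp (-(n : ℝ) / 2)) = fun n : ℕ => Real.exp (-1 / 2) ^ n := by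
        funext n
        rw [← Real.exp_nat_mul]
        congr 1
        ring
      rw [h2]
      refine summable_geometric_of_lt_one (Real.exp_pos _).le ?_
      rw [Real.exp_lt_one_iff]
      norm_num
    have h3 := (summable_nat_add_iff n₀).2 h1
    refine h3.congr fun n => ?_
    congr 1
    ring
  have hsum : (∑' n, μ (E n)) = ⊤ := by
    by_contra hne
    have h1 : Summable fun n => μ.real (E n) := ENNReal.summable_toReal hne
    have h2 : Summable fun n : ℕ => 1 / ((n + n₀ : ℕ) : ℝ) := by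
      refine Summable.of_nonneg_of_le (fun n => by positivity) (fun n => ?_)
        (h1.add (hexp.mul_left C))
      have h3 := hPE (x n) (y n) (hall n).2.2.2.1 (hxy n)
      have h4 : (Real.log (y n) / Real.log (x n)) ^ (-lam) = 1 / ((n + n₀ : ℕ) : ℝ) := by
        rw [hxd, hyd]
        exact quot ρ hlam (hall n).2.1
      rw [h4] at h3
      have h5 : C / √(Real.log (x n)) ≤ C * Real.exp (-(((n + n₀ : ℕ) : ℝ) / 2)) := by
        rw [Real.exp_neg, ← div_eq_mul_inv]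
        refine div_le_div_of_nonneg_left hC.le (Real.exp_pos _) ?_
        rw [hxd]
        exact sqrt_log hρ.le (hall n).2.1
      have h6 := (abs_le.1 h3).1
      have h7 : μ.real (NoGap A d j w (x n) (y n)) = μ.real (E n) := by rw [hE]
      rw [h7] at h6
      linarith
    have h3 := (summable_nat_add_iff (f := fun n : ℕ => 1 / (n : ℝ)) n₀).1 h2
    exact Real.not_summable_one_div_natCast h3
  have hlim := measure_limsup_eq_one hEm hind hsum
  have hml : MeasurableSet (limsup E atTop) := MeasurableSet.measurableSet_limsup hEm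
  have hae1 : ∀ᵐ ω ∂μ, ω ∈ limsup E atTop := (mem_ae_iff_prob_eq_one hml).2 hlim
  -- the failures at the points `x n`
  have hfail : ∀ᵐ ω ∂μ, ∀ᶠ n in atTop, ω ∉ Fails A d j w (x n) := by
    refine ae_eventually_notMem ?_
    have h1 : ∀ n, μ (Fails A d j w (x n)) ≤
        ENNReal.ofReal (C' * Real.exp (-(((n + n₀ : ℕ) : ℝ) / 2))) := by
      intro n
      rw [← ENNReal.ofReal_toReal (measure_ne_top μ (Fails A d j w (x n)))]
      refine ENNReal.ofReal_le_ofReal ((hPFL (x n) (hall n).2.2.2.2.2.1).trans ?_)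
      rw [Real.exp_neg, ← div_eq_mul_inv]
      refine div_le_div_of_nonneg_left hC'.le (Real.exp_pos _) ?_
      refine Real.le_sqrt_of_sq_le ?_
      rw [← Real.exp_nat_mul]
      have h2 : (((2 : ℕ) : ℝ) * (((n + n₀ : ℕ) : ℝ) / 2)) = ((n + n₀ : ℕ) : ℝ) := by
        push_cast; ring
      rw [h2, hxd]
      exact le_xx hρ.le (hall n).2.1
    refine ne_top_of_le_ne_top ?_ (ENNReal.tsum_le_tsum h1)
    exact (hexp.mul_left C').tsum_ofReal_ne_top
  filter_upwards [hae1, hfail] with ω h1 h2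
  rw [mem_limsup_iff_frequently_mem] at h1
  have h3 : ∃ᶠ n in atTop, ω ∈ Holds A d j w (x n) (x n ^ (Real.log (Real.log (x n)) ^ κ)) := by
    refine (h1.and_eventually h2).mono fun n hn => ?_
    obtain ⟨hn1, hn2⟩ := hn
    have h4 := (hCMP Ω A (x n) (y n) (hall n).2.2.2.2.1 (hxy n)).1
    rw [hE] at hn1
    have h5 := h4 ⟨hn1, hn2⟩
    intro z hz1 hz2
    refine h5 z hz1 (hz2.trans ?_)
    rw [hxd, hyd]
    exact pow_le hκ1 hρ.le hρκ (hall n).2.1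
  have hxt : Tendsto x atTop atTop := by
    rw [hxd]
    exact (tendsto_add_atTop_iff_nat n₀).2 hx
  exact hxt.frequently h3

end H21SCH
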