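import Pool.Agent.H21.SCH.Stm

namespace H21SCH

open MeasureTheory ProbabilityTheory Filter Topology Set Complex

universe u

theorem cdf : S_CDF.{u} := by
  intro Ω _ μ _ Z ν _ hν hZ hθ y
  refine tendsto_of_seq_tendsto fun x hx => ?_
  let μn : ℕ → ProbabilityMeasure ℝ := fun n =>
    ⟨μ.map (Z (x n)), Measure.isProbabilityMeasure_map (hZ _).aemeasurable⟩
  let μ0 : ProbabilityMeasure ℝ := ⟨ν, inferInstance⟩
  have h1 : ∀ t : ℝ, Tendsto (fun n => charFun (μn n : Measure ℝ) t) atTop
      (𝓝 (charFun (μ0 : Measure ℝ) t)) := by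
    intro t
    have h2 := (hθ t).comp hx
    refine h2.congr fun n => ?_
    change ∫ ω, cexp (I * t * Z (x n) ω) ∂μ = charFun (μ.map (Z (x n))) t
    rw [charFun_apply_real, integral_map (hZ _).aemeasurable (by fun_prop)]
    refine integral_congr_ae (Eventually.of_forall fun ω => ?_)
    change cexp (I * t * Z (x n) ω) = cexp (t * Z (x n) ω * I)
    congr 1
    ring
  have h3 := ProbabilityMeasure.tendsto_of_tendsto_charFun h1
  have h4 := ProbabilityMeasure.tendsto_measure_of_null_frontier_of_tendsto' h3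
    (E := Iic y) (by
      rw [frontier_Iic]
      exact hν y)
  have h5 := (ENNReal.tendsto_toReal (measure_ne_top _ _)).comp h4
  refine h5.congr fun n => ?_
  change ((μ.map (Z (x n))) (Iic y)).toReal = μ.real {ω | Z (x n) ω ≤ y}
  rw [Measure.map_apply (hZ _) measurableSet_Iic]
  rfl

end H21SCH
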