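import Pool.Agent.H21.SCH.Stm

/-! # Stub CHF of the project SCH (helper26) -/

namespace H21SCH

open MeasureTheory ProbabilityTheory Filter Topology Set Complex

universe u

namespace CHFaux

theorem meas_pat {Ω : Type u} [MeasurableSpace Ω] {A : ℕ → Set Ω} (hA : ∀ n, MeasurableSet (A n))
    (d m : ℕ) : MeasurableSet (Pat A d m) := (hA m).inter (hA (m + d))

theorem meas_fails {Ω : Type u} [MeasurableSpace Ω] {A : ℕ → Set Ω} (hA : ∀ n, MeasurableSet (A n))
    (d j : ℕ) (w x : ℝ) : MeasurableSet (Fails A d j w x) := by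
  have : Fails A d j w x = ⋂ m : ℕ, ⋂ (_ : x < m), ⋂ (_ : ((m + d : ℕ) : ℝ) < x + len j w x),
      (Pat A d m)ᶜ := by
    ext ω; simp [Fails]
  rw [this]
  exact MeasurableSet.iInter fun m => MeasurableSet.iInter fun _ => MeasurableSet.iInter fun _ =>
    (meas_pat hA d m).compl

theorem meas_gap {Ω : Type u} [MeasurableSpace Ω] {A : ℕ → Set Ω} (hA : ∀ n, MeasurableSet (A n))
    (d j : ℕ) (w : ℝ) (a : ℕ) : MeasurableSet (Gap A d j w a) :=
  (meas_pat hA d a).inter (meas_fails hA d j w a)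

theorem gap_eq_cl {Ω : Type u} (A : ℕ → Set Ω) (d j : ℕ) (w : ℝ) (a : ℕ) :
    Gap A d j w a = Cl A d j w a 0 := by
  ext ω
  simp [Gap, Cl, Fails]

theorem mem_Ioc_floor {x y : ℝ} (hx : 0 ≤ x) (hy : 0 ≤ y) (a : ℕ) :
    a ∈ Finset.Ioc ⌊x⌋₊ ⌊y⌋₊ ↔ x < a ∧ (a : ℝ) ≤ y := by
  rw [Finset.mem_Ioc, Nat.floor_lt hx, Nat.le_floor_iff hy]

theorem sum_lim {Ω : Type u} [MeasurableSpace Ω] {μ : Measure Ω} [IsProbabilityMeasure μ]
    {A : ℕ → Set Ω} (hA : CramerModel μ A) {d j : ℕ} (hc : Cas d j) (hS : S_SUMQ.{u}) (w : ℝ)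
    {s t : ℝ} (hs : 0 < s) (hst : s < t) :
    Tendsto (fun X : ℝ => ∑ a ∈ Finset.Ioc ⌊X ^ s⌋₊ ⌊X ^ t⌋₊, μ.real (Gap A d j w a)) atTop
      (𝓝 (lamc j * Real.exp (-w) * Real.log (t / s))) := by
  obtain ⟨C, x₀, hx₀, hC⟩ := hS Ω μ A hA d j w hc
  rw [tendsto_iff_norm_sub_tendsto_zero]
  have hlim : Tendsto (fun X : ℝ => C / √(Real.log (X ^ s))) atTop (𝓝 0) := by
    apply tendsto_const_nhds.div_atTop
    exact Real.tendsto_sqrt_atTop.comp (Real.tendsto_log_atTop.comp (tendsto_rpow_atTop hs))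
  refine squeeze_zero' (Eventually.of_forall fun X => norm_nonneg _) ?_ hlim
  filter_upwards [eventually_gt_atTop 1, (tendsto_rpow_atTop hs).eventually_ge_atTop x₀]
    with X hX1 hXs
  have hle : X ^ s ≤ X ^ t := Real.rpow_le_rpow_of_exponent_le hX1.le hst.le
  have h := hC (X ^ s) (X ^ t) hXs hle
  have hX0 : 0 < X := by linarith
  have hlX : 0 < Real.log X := Real.log_pos hX1
  have e : Real.log (Real.log (X ^ t)) - Real.log (Real.log (X ^ s)) = Real.log (t / s) := by
    rw [Real.log_rpow hX0, Real.log_rpow hX0, Real.log_mul (by linarith) hlX.ne',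
      Real.log_mul hs.ne' hlX.ne', Real.log_div (by linarith) hs.ne']
    ring
  rw [e] at h
  rw [Real.norm_eq_abs]
  exact h

end CHFaux

open CHFaux

theorem chf : S_MAS.{u} → S_DET.{u} → S_SUMQ.{u} → S_CHF.{u} := by
  intro hMAS hDET hSUMQ Ω _ μ _ A hA d j hc k s t u v hstu hdisj θ
  classical
  choose a₀ ha₀ using fun w => hDET d j w hc
  -- the constants
  obtain ⟨w, hw⟩ : ∃ w : ℝ, ∀ i, w ≤ u i := by
    obtain ⟨w, hw⟩ := (Set.finite_range u).bddBelow
    exact ⟨w, fun i => hw ⟨i, rfl⟩⟩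
  obtain ⟨σ, hσ0, hσ⟩ : ∃ σ : ℝ, 0 < σ ∧ ∀ i, σ ≤ s i := by
    rcases isEmpty_or_nonempty (Fin k) with hk | hk
    · exact ⟨1, one_pos, fun i => (hk.false i).elim⟩
    · obtain ⟨i, hi⟩ := Finite.exists_min s
      exact ⟨s i, (hstu i).1, hi⟩
  obtain ⟨τ, hτ⟩ : ∃ τ : ℝ, ∀ i, t i ≤ τ := by
    obtain ⟨τ, hτ⟩ := (Set.finite_range t).bddAbove
    exact ⟨τ, fun i => hτ ⟨i, rfl⟩⟩
  obtain ⟨M₀, hM₀⟩ := hMAS Ω μ A hA d j w hc
  obtain ⟨B, hB⟩ : ∃ B : ℕ, B = Finset.univ.sup (fun i => max (a₀ (u i)) (a₀ (v i).toReal)) +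
      M₀ + 3 := ⟨_, rfl⟩
  have hBu : ∀ i, a₀ (u i) ≤ B := fun i => by
    have := Finset.le_sup (f := fun i => max (a₀ (u i)) (a₀ (v i).toReal)) (Finset.mem_univ i)
    have h2 := le_max_left (a₀ (u i)) (a₀ (v i).toReal)
    omega
  have hBv : ∀ i, a₀ (v i).toReal ≤ B := fun i => by
    have := Finset.le_sup (f := fun i => max (a₀ (u i)) (a₀ (v i).toReal)) (Finset.mem_univ i)
    have h2 := le_max_right (a₀ (u i)) (a₀ (v i).toReal)
    omega
  -- the fact (4) of DET
  have hmono : ∀ (a : ℕ) (x y : ℝ), 3 ≤ a → x ≤ y → Gap A d j y a ⊆ Gap A d j x a :=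
    fun a x y h3 hxy => (ha₀ 0).2.2.2.2.1 Ω A a x y h3 hxy
  -- the fact (5)
  have hloc : ∀ (x : ℝ) (a : ℕ), a₀ x ≤ a → ∀ ω ω' : Ω,
      (∀ p ∈ Finset.Icc a (a + LL a), (ω ∈ A p ↔ ω' ∈ A p)) →
      (ω ∈ Gap A d j x a ↔ ω' ∈ Gap A d j x a) := by
    intro x a hxa ω ω' h
    rw [gap_eq_cl]
    exact iff_of_eq ((ha₀ x).2.2.2.2.2.1 Ω A a 0 hxa (Nat.zero_le _) ω ω' h)
  have hmg := fun (x : ℝ) (a : ℕ) => meas_gap hA.meas d j x a
  -- the boxes
  let Bx : ℝ → Fin k → ℕ → Ω → Prop := fun X i a ω => X ^ s i < a ∧ (a : ℝ) ≤ X ^ t i ∧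
    ω ∈ Gap A d j (u i) a ∧ ∀ v' : ℝ, (v' : EReal) = v i → ω ∉ Gap A d j v' a
  have hvr : ∀ i (v' : ℝ), (v' : EReal) = v i → v' = (v i).toReal := by
    intro i v' h
    rw [← h, EReal.toReal_coe]
  let b : ℝ → Fin k → ℕ → Ω → ℂ := fun X i a ω => if Bx X i a ω then 1 else 0
  let F : ℝ → ℕ → Ω → ℂ := fun X a ω => cexp (I * ∑ i, (θ i : ℂ) * b X i a ω)
  have hmB : ∀ X i a, MeasurableSet {ω | Bx X i a ω} := by
    intro X i a
    have : {ω | Bx X i a ω} = {ω | X ^ s i < a ∧ (a : ℝ) ≤ X ^ t i} ∩ (Gap A d j (u i) a ∩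
        ⋂ v' : ℝ, ⋂ (_ : (v' : EReal) = v i), (Gap A d j v' a)ᶜ) := by
      ext ω
      simp only [Bx, mem_ofPred_eq, mem_inter_iff, mem_iInter, mem_compl_iff]
      tauto
    have h2 : (⋂ v' : ℝ, ⋂ (_ : (v' : EReal) = v i), (Gap A d j v' a)ᶜ) =
        if v i = ⊤ ∨ v i = ⊥ then univ else (Gap A d j (v i).toReal a)ᶜ := by
      split_ifs with h
      · ext ω
        simp only [mem_iInter, mem_univ, iff_true]
        intro v' hv'
        rcases h with h | h
        · rw [h] at hv'; exact absurd hv' (EReal.coe_ne_top v')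
        · rw [h] at hv'; exact absurd hv' (EReal.coe_ne_bot v')
      · push Not at h
        have hco : (((v i).toReal : ℝ) : EReal) = v i := EReal.coe_toReal h.1 h.2
        ext ω
        simp only [mem_iInter]
        constructor
        · intro h3; exact h3 _ hco
        · intro h3 v' hv'
          rw [hvr i v' hv']; exact h3
    rw [this]
    refine MeasurableSet.inter (by simp only [MeasurableSet.const]) ((hmg _ _).inter ?_)
    rw [h2]
    split_ifs
    · exact MeasurableSet.univ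
    · exact (hmg _ _).compl
  -- at most one box
  have huniq : ∀ X : ℝ, 1 < X → ∀ a : ℕ, 3 ≤ a → ∀ ω i l, Bx X i a ω → Bx X l a ω → i = l := by
    intro X hX a ha3 ω i l hi hl
    by_contra hne
    have hX0 : 0 < X := by linarith
    have hlX : 0 < Real.log X := Real.log_pos hX
    have ha0 : (0 : ℝ) < a := by exact_mod_cast (by omega : 0 < a)
    have hlog : ∀ m, Bx X m a ω → Real.log a / Real.log X ∈ Ioc (s m) (t m) := by
      intro m hm
      constructor
      · rw [lt_div_iff₀ hlX, ← Real.log_rpow hX0]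
        exact Real.log_lt_log (Real.rpow_pos_of_pos hX0 _) hm.1
      · rw [div_le_iff₀ hlX, ← Real.log_rpow hX0]
        exact Real.log_le_log ha0 hm.2.1
    have hmax : ∀ m m', Bx X m a ω → Bx X m' a ω → ((u m' : ℝ) : EReal) < v m := by
      intro m m' hm hm'
      by_contra hlt
      push Not at hlt
      have hnt : v m ≠ ⊤ := fun h => by
        rw [h, top_le_iff] at hlt; exact EReal.coe_ne_top _ hlt
      have hnb : v m ≠ ⊥ := fun h => by
        have := (hstu m).2.2
        rw [h] at this; exact not_lt_bot this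
      have hco : (((v m).toReal : ℝ) : EReal) = v m := EReal.coe_toReal hnt hnb
      rw [← hco, EReal.coe_le_coe_iff] at hlt
      exact hm.2.2.2 _ hco (hmono a _ _ ha3 hlt hm'.2.2.1)
    have m1 : (Real.log a / Real.log X, ((max (u i) (u l) : ℝ) : EReal)) ∈
        Ioc (s i) (t i) ×ˢ Ico (u i : EReal) (v i) := by
      refine ⟨hlog i hi, ?_, ?_⟩
      · exact EReal.coe_le_coe_iff.mpr (le_max_left _ _)
      · show ((max (u i) (u l) : ℝ) : EReal) < v i
        rcases le_total (u i) (u l) with h | h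
        · rw [max_eq_right h]; exact hmax i l hi hl
        · rw [max_eq_left h]; exact (hstu i).2.2
    have m2 : (Real.log a / Real.log X, ((max (u i) (u l) : ℝ) : EReal)) ∈
        Ioc (s l) (t l) ×ˢ Ico (u l : EReal) (v l) := by
      refine ⟨hlog l hl, ?_, ?_⟩
      · exact EReal.coe_le_coe_iff.mpr (le_max_right _ _)
      · show ((max (u i) (u l) : ℝ) : EReal) < v l
        rcases le_total (u i) (u l) with h | h
        · rw [max_eq_right h]; exact (hstu l).2.2
        · rw [max_eq_left h]; exact hmax l i hl hi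
    exact Set.disjoint_left.mp (hdisj i l hne) m1 m2
  have hF1 : ∀ X : ℝ, 1 < X → ∀ a : ℕ, 3 ≤ a → ∀ ω, F X a ω - 1 =
      ∑ i, (cexp (I * θ i) - 1) * b X i a ω := by
    intro X hX a ha3 ω
    by_cases h : ∃ i, Bx X i a ω
    · obtain ⟨i, hi⟩ := h
      have hb : ∀ l, b X l a ω = if l = i then 1 else 0 := by
        intro l
        by_cases hl : l = i
        · subst hl
          simp only [b, if_pos hi, if_true]
        · simp only [b, if_neg hl]
          rw [if_neg]
          intro hl2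
          exact hl (huniq X hX a ha3 ω l i hl2 hi)
      simp only [F, hb, mul_ite, mul_one, mul_zero, Finset.sum_ite_eq', Finset.mem_univ, if_true]
    · push Not at h
      have hb : ∀ l, b X l a ω = 0 := fun l => by simp only [b, if_neg (h l)]
      simp [F, hb]
  -- the integral of the indicator
  have hib : ∀ X i a, Integrable (b X i a) μ := by
    intro X i a
    have : b X i a = indicator {ω | Bx X i a ω} (fun _ => (1 : ℂ)) := by
      funext ω
      simp [b, indicator]
    rw [this]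
    exact (integrable_const _).indicator (hmB X i a)
  have hint : ∀ X i a, ∫ ω, b X i a ω ∂μ = (μ.real {ω | Bx X i a ω} : ℂ) := by
    intro X i a
    have : b X i a = indicator {ω | Bx X i a ω} (fun _ => (1 : ℂ)) := by
      funext ω
      simp [b, indicator]
    rw [this, integral_indicator_const _ (hmB X i a)]
    simp
  -- the sums of the probabilities
  have hprob : ∀ X : ℝ, 1 < X → ∀ i, ∀ a ∈ Finset.Ioc ⌊X ^ s i⌋₊ ⌊X ^ t i⌋₊, 3 ≤ a →
      μ.real {ω | Bx X i a ω} = μ.real (Gap A d j (u i) a) -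
        (if v i = ⊤ then 0 else μ.real (Gap A d j (v i).toReal a)) := by
    intro X hX i a ha ha3
    have hX0 : 0 < X := by linarith
    rw [mem_Ioc_floor (Real.rpow_pos_of_pos hX0 _).le (Real.rpow_pos_of_pos hX0 _).le] at ha
    split_ifs with h
    · have : {ω | Bx X i a ω} = Gap A d j (u i) a := by
        ext ω
        simp only [Bx, mem_ofPred_eq]
        constructor
        · exact fun h => h.2.2.1
        · intro h2
          refine ⟨ha.1, ha.2, h2, ?_⟩
          intro v' hv'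
          rw [h] at hv'
          exact absurd hv' (EReal.coe_ne_top v')
      rw [this, sub_zero]
    · have hnb : v i ≠ ⊥ := fun h => by
        have := (hstu i).2.2
        rw [h] at this; exact not_lt_bot this
      have hco : (((v i).toReal : ℝ) : EReal) = v i := EReal.coe_toReal h hnb
      have hlt : u i ≤ (v i).toReal := by
        have := (hstu i).2.2
        rw [← hco, EReal.coe_lt_coe_iff] at this
        exact this.le
      have : {ω | Bx X i a ω} = Gap A d j (u i) a \ Gap A d j (v i).toReal a := by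
        ext ω
        simp only [Bx, mem_ofPred_eq, Set.mem_sdiff]
        constructor
        · exact fun h => ⟨h.2.2.1, h.2.2.2 _ hco⟩
        · rintro ⟨h2, h3⟩
          refine ⟨ha.1, ha.2, h2, ?_⟩
          intro v' hv'
          rw [hvr i v' hv']; exact h3
      rw [this, measureReal_sdiff (hmono a _ _ ha3 hlt) (hmg _ _)]
  -- the limit of the sum
  have hsumlim : ∀ i, Tendsto (fun X : ℝ => ∑ a ∈ Finset.Ioc ⌊X ^ σ⌋₊ ⌊X ^ τ⌋₊,
      μ.real {ω | Bx X i a ω}) atTop (𝓝 (mean j (s i) (t i) (u i) (v i))) := by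
    intro i
    have l1 := sum_lim hA hc hSUMQ (u i) (hstu i).1 (hstu i).2.1
    have l2 : Tendsto (fun X : ℝ => ∑ a ∈ Finset.Ioc ⌊X ^ s i⌋₊ ⌊X ^ t i⌋₊,
        (if v i = ⊤ then 0 else μ.real (Gap A d j (v i).toReal a))) atTop
        (𝓝 (lamc j * tail (v i) * Real.log (t i / s i))) := by
      by_cases h : v i = ⊤
      · simp only [if_pos h, Finset.sum_const_zero, tail, mul_zero, zero_mul]
        exact tendsto_const_nhds
      · simp only [if_neg h, tail]
        exact sum_lim hA hc hSUMQ _ (hstu i).1 (hstu i).2.1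
    have l3 := l1.sub l2
    have e : lamc j * Real.exp (-(u i)) * Real.log (t i / s i) -
        lamc j * tail (v i) * Real.log (t i / s i) = mean j (s i) (t i) (u i) (v i) := by
      unfold mean; ring
    rw [e] at l3
    refine l3.congr' ?_
    filter_upwards [eventually_gt_atTop 1, (tendsto_rpow_atTop (hstu i).1).eventually_ge_atTop 3]
      with X hX hX3
    have hX0 : 0 < X := by linarith
    rw [← Finset.sum_sub_distrib]
    have hsub : Finset.Ioc ⌊X ^ s i⌋₊ ⌊X ^ t i⌋₊ ⊆ Finset.Ioc ⌊X ^ σ⌋₊ ⌊X ^ τ⌋₊ := by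
      apply Finset.Ioc_subset_Ioc
      · exact Nat.floor_le_floor (Real.rpow_le_rpow_of_exponent_le hX.le (hσ i))
      · exact Nat.floor_le_floor (Real.rpow_le_rpow_of_exponent_le hX.le (hτ i))
    rw [← Finset.sum_subset hsub]
    · apply Finset.sum_congr rfl
      intro a ha
      have ha' := ha
      rw [mem_Ioc_floor (Real.rpow_pos_of_pos hX0 _).le (Real.rpow_pos_of_pos hX0 _).le] at ha'
      have h3 : 3 ≤ a := by
        have : (3 : ℝ) ≤ a := hX3.trans ha'.1.le
        exact_mod_cast this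
      exact (hprob X hX i a ha h3).symm
    · intro a _ ha
      rw [mem_Ioc_floor (Real.rpow_pos_of_pos hX0 _).le (Real.rpow_pos_of_pos hX0 _).le] at ha
      have : {ω | Bx X i a ω} = ∅ := by
        ext ω
        simp only [Bx, mem_ofPred_eq, mem_empty_iff_false, iff_false]
        intro h
        exact ha ⟨h.1, h.2.1⟩
      rw [this, measureReal_empty]
  -- the limit of the exponent
  have hexp : Tendsto (fun X : ℝ => cexp (∑ i, ((∑ a ∈ Finset.Ioc ⌊X ^ σ⌋₊ ⌊X ^ τ⌋₊,
      μ.real {ω | Bx X i a ω} : ℝ) : ℂ) * (cexp (I * θ i) - 1))) atTop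
      (𝓝 (cexp (∑ i, (mean j (s i) (t i) (u i) (v i) : ℂ) * (cexp (I * θ i) - 1)))) := by
    apply (Complex.continuous_exp.tendsto _).comp
    apply tendsto_finsetSum
    intro i _
    apply Tendsto.mul _ tendsto_const_nhds
    exact (Complex.continuous_ofReal.tendsto _).comp (hsumlim i)
  -- the error
  have herr : Tendsto (fun X : ℝ => 1 / Real.log (⌊X ^ σ⌋₊ : ℝ)) atTop (𝓝 0) := by
    apply tendsto_const_nhds.div_atTop
    exact Real.tendsto_log_atTop.comp (tendsto_natCast_atTop_atTop.comp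
      (tendsto_nat_floor_atTop.comp (tendsto_rpow_atTop hσ0)))
  rw [tendsto_iff_norm_sub_tendsto_zero]
  have hexp' := tendsto_iff_norm_sub_tendsto_zero.mp hexp
  have hsum0 := herr.add hexp'
  rw [add_zero] at hsum0
  refine squeeze_zero' (Eventually.of_forall fun X => norm_nonneg _) ?_ hsum0
  filter_upwards [eventually_gt_atTop 1,
    (tendsto_nat_floor_atTop.comp (tendsto_rpow_atTop hσ0)).eventually_ge_atTop B] with X hX hXB
  simp only [Function.comp] at hXB
  have hX0 : 0 < X := by linarith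
  have key := hM₀ ⌊X ^ σ⌋₊ ⌊X ^ τ⌋₊ (by omega) (F X) ?_ ?_ ?_
  · -- conclusion
    have e1 : ∀ ω, ∏ a ∈ Finset.Ioc ⌊X ^ σ⌋₊ ⌊X ^ τ⌋₊, F X a ω =
        cexp (I * ∑ i, (θ i : ℂ) * (Num A d j (u i) (v i) (X ^ s i) (X ^ t i) ω : ℂ)) := by
      intro ω
      have hnum : ∀ i, (Num A d j (u i) (v i) (X ^ s i) (X ^ t i) ω : ℂ) =
          ∑ a ∈ Finset.Ioc ⌊X ^ σ⌋₊ ⌊X ^ τ⌋₊, b X i a ω := by
        intro i
        have h1 : {a : ℕ | X ^ s i < a ∧ (a : ℝ) ≤ X ^ t i ∧ ω ∈ Gap A d j (u i) a ∧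
            ∀ v' : ℝ, (v' : EReal) = v i → ω ∉ Gap A d j v' a} =
            ((Finset.Ioc ⌊X ^ σ⌋₊ ⌊X ^ τ⌋₊).filter (fun a => Bx X i a ω) : Set ℕ) := by
          ext a
          simp only [mem_ofPred_eq, Finset.coe_filter]
          constructor
          · intro h
            refine ⟨?_, h⟩
            rw [mem_Ioc_floor (Real.rpow_pos_of_pos hX0 _).le (Real.rpow_pos_of_pos hX0 _).le]
            exact ⟨lt_of_le_of_lt (Real.rpow_le_rpow_of_exponent_le hX.le (hσ i)) h.1,
              h.2.1.trans (Real.rpow_le_rpow_of_exponent_le hX.le (hτ i))⟩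
          · exact fun h => h.2
        unfold Num
        rw [h1, Set.ncard_coe_finset, Finset.card_filter]
        push_cast
        rfl
      simp only [F]
      rw [← Complex.exp_sum]
      congr 1
      rw [← Finset.mul_sum, Finset.sum_comm]
      congr 1
      apply Finset.sum_congr rfl
      intro i _
      rw [hnum i, Finset.mul_sum]
    have e2 : ∑ a ∈ Finset.Ioc ⌊X ^ σ⌋₊ ⌊X ^ τ⌋₊, ∫ ω, (F X a ω - 1) ∂μ =
        ∑ i, ((∑ a ∈ Finset.Ioc ⌊X ^ σ⌋₊ ⌊X ^ τ⌋₊, μ.real {ω | Bx X i a ω} : ℝ) : ℂ) *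
          (cexp (I * θ i) - 1) := by
      have h1 : ∀ a ∈ Finset.Ioc ⌊X ^ σ⌋₊ ⌊X ^ τ⌋₊, ∫ ω, (F X a ω - 1) ∂μ =
          ∑ i, (cexp (I * θ i) - 1) * (μ.real {ω | Bx X i a ω} : ℂ) := by
        intro a ha
        have ha3 : 3 ≤ a := by have := (Finset.mem_Ioc.mp ha).1; omega
        have : (fun ω => F X a ω - 1) = fun ω => ∑ i, (cexp (I * θ i) - 1) * b X i a ω :=
          funext fun ω => hF1 X hX a ha3 ω
        rw [this, integral_finsetSum _ (fun i _ => (hib X i a).const_mul _)]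
        apply Finset.sum_congr rfl
        intro i _
        rw [integral_const_mul, hint]
      rw [Finset.sum_congr rfl h1, Finset.sum_comm]
      apply Finset.sum_congr rfl
      intro i _
      rw [← Finset.mul_sum, mul_comm]
      push_cast
      rfl
    simp only [e1] at key
    rw [e2] at key
    refine (norm_sub_le_norm_sub_add_norm_sub _ (cexp (∑ i,
      ((∑ a ∈ Finset.Ioc ⌊X ^ σ⌋₊ ⌊X ^ τ⌋₊, μ.real {ω | Bx X i a ω} : ℝ) : ℂ) *
        (cexp (I * θ i) - 1))) _).trans ?_
    exact add_le_add key le_rfl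
  · intro a ω
    simp only [F]
    have : I * ∑ i, (θ i : ℂ) * b X i a ω = ((∑ i, θ i * (if Bx X i a ω then 1 else 0) : ℝ) : ℂ) * I := by
      rw [mul_comm]
      congr 1
      push_cast
      apply Finset.sum_congr rfl
      intro i _
      simp only [b]
      split_ifs <;> simp
    rw [this, Complex.norm_exp_ofReal_mul_I]
  · intro a ha ω ω' h
    have haB : B < a := by have := (Finset.mem_Ioc.mp ha).1; omega
    have hbb : ∀ i, Bx X i a ω ↔ Bx X i a ω' := by
      intro i
      simp only [Bx]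
      rw [hloc (u i) a (by have := hBu i; omega) ω ω' h]
      have : (∀ v' : ℝ, (v' : EReal) = v i → ω ∉ Gap A d j v' a) ↔
          (∀ v' : ℝ, (v' : EReal) = v i → ω' ∉ Gap A d j v' a) := by
        constructor
        · intro h2 v' hv'
          rw [hvr i v' hv']
          have := h2 v' hv'
          rw [hvr i v' hv'] at this
          rwa [← hloc (v i).toReal a (by have := hBv i; omega) ω ω' h]
        · intro h2 v' hv'
          rw [hvr i v' hv']
          have := h2 v' hv'
          rw [hvr i v' hv'] at this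
          rwa [hloc (v i).toReal a (by have := hBv i; omega) ω ω' h]
      rw [this]
    simp only [F, b, hbb]
  · intro a ha ω hω
    have haB : B < a := by have := (Finset.mem_Ioc.mp ha).1; omega
    have hb : ∀ i, b X i a ω = 0 := by
      intro i
      simp only [b]
      rw [if_neg]
      intro h
      exact hω (hmono a _ _ (by omega) (hw i) h.2.2.1)
    simp [F, hb]

end H21SCH
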