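import Pool.Agent.H21.SCH.Stm

/-! # SCH-CLT: the central limit theorem (helper75)

`M` is fixed, at the end `M → ∞`: the error of the master formula is at most `1 / log M`. -/

namespace H21SCH

open MeasureTheory ProbabilityTheory Filter Topology Set Complex

universe u

namespace CLTAux

variable {Ω : Type u}

theorem gap_cl (A : ℕ → Set Ω) (d j : ℕ) (w : ℝ) (a : ℕ) : Gap A d j w a = Cl A d j w a 0 := by
  ext ω
  unfold Gap Cl Fails
  simp only [Set.mem_inter_iff, Set.mem_ofPred_eq, add_zero, Nat.cast_lt]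

theorem gap_meas [MeasurableSpace Ω] {A : ℕ → Set Ω} (hA : ∀ n, MeasurableSet (A n)) (d j : ℕ)
    (w : ℝ) (a : ℕ) : MeasurableSet (Gap A d j w a) := by
  have hP : ∀ m, MeasurableSet (Pat A d m) := fun m => (hA m).inter (hA (m + d))
  have hF : Fails A d j w a = ⋂ m : ℕ, ⋂ (_ : (a : ℝ) < m),
      ⋂ (_ : ((m + d : ℕ) : ℝ) < (a : ℝ) + len j w a), (Pat A d m)ᶜ := by
    ext ω
    unfold Fails
    simp only [Set.mem_ofPred_eq, Set.mem_iInter, Set.mem_compl_iff]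
  unfold Gap
  rw [hF]
  exact (hP a).inter (MeasurableSet.iInter fun m => MeasurableSet.iInter fun _ =>
    MeasurableSet.iInter fun _ => (hP m).compl)

open Classical in
/-- the indicator function of a gap -/
noncomputable def gi (A : ℕ → Set Ω) (d j : ℕ) (w : ℝ) (a : ℕ) (ω : Ω) : ℝ :=
  if ω ∈ Gap A d j w a then 1 else 0

theorem num_eq (A : ℕ → Set Ω) (d j : ℕ) (w X : ℝ) (ω : Ω) :
    (Num A d j w ⊤ 16 X ω : ℝ) = ∑ a ∈ Finset.Ioc 16 ⌊X⌋₊, gi A d j w a ω := by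
  classical
  have h : {a : ℕ | (16 : ℝ) < a ∧ (a : ℝ) ≤ X ∧ ω ∈ Gap A d j w a ∧
      ∀ v' : ℝ, (v' : EReal) = ⊤ → ω ∉ Gap A d j v' a} =
      (((Finset.Ioc 16 ⌊X⌋₊).filter fun a => ω ∈ Gap A d j w a : Finset ℕ) : Set ℕ) := by
    ext a
    simp only [Set.mem_ofPred_eq, Finset.coe_filter, Finset.mem_Ioc]
    constructor
    · rintro ⟨h1, h2, h3, -⟩
      have h4 : 16 < a := by exact_mod_cast h1
      exact ⟨⟨h4, (Nat.le_floor_iff' (by omega)).2 h2⟩, h3⟩
    · rintro ⟨⟨h1, h2⟩, h3⟩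
      refine ⟨by exact_mod_cast h1, (Nat.le_floor_iff' (by omega)).1 h2, h3, fun v' hv => ?_⟩
      exact absurd hv (EReal.coe_ne_top v')
  unfold Num
  rw [h, Set.ncard_coe_finset, Finset.card_filter]
  push_cast
  rfl

theorem gi_meas [MeasurableSpace Ω] {A : ℕ → Set Ω} (hA : ∀ n, MeasurableSet (A n)) (d j : ℕ)
    (w : ℝ) (a : ℕ) : Measurable (gi A d j w a) := by
  unfold gi
  exact Measurable.ite (gap_meas hA d j w a) measurable_const measurable_const

theorem gi_nonneg (A : ℕ → Set Ω) (d j : ℕ) (w : ℝ) (a : ℕ) (ω : Ω) : 0 ≤ gi A d j w a ω := by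
  unfold gi
  split_ifs <;> norm_num

theorem gi_le (A : ℕ → Set Ω) (d j : ℕ) (w : ℝ) (a : ℕ) (ω : Ω) : gi A d j w a ω ≤ 1 := by
  unfold gi
  split_ifs <;> norm_num

/-- the exponent -/
theorem expo {θ lam : ℝ} (hlam : 0 < lam) {T S : ℝ → ℝ} (hT : Tendsto T atTop atTop) {B : ℝ}
    (hS : ∀ᶠ X in atTop, |S X - lam * T X| ≤ B) :
    Tendsto (fun X => (cexp (I * (θ / √(lam * T X) : ℝ)) - 1) * (S X : ℂ) -
      I * (θ / √(lam * T X) : ℝ) * (lam * T X : ℝ)) atTop (𝓝 (-((θ ^ 2 / 2 : ℝ) : ℂ))) := by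
  have hφ : Tendsto (fun X => θ / √(lam * T X)) atTop (𝓝 0) :=
    tendsto_const_nhds.div_atTop (Real.tendsto_sqrt_atTop.comp (hT.const_mul_atTop hlam))
  rw [tendsto_iff_norm_sub_tendsto_zero]
  have hbd : Tendsto (fun X => |θ / √(lam * T X)| * (θ ^ 2 + 3 * |B|)) atTop (𝓝 0) := by
    have := hφ.abs.mul_const (θ ^ 2 + 3 * |B|)
    rwa [abs_zero, zero_mul] at this
  refine squeeze_zero' (Eventually.of_forall fun _ => norm_nonneg _) ?_ hbd
  have h1 : ∀ᶠ X in atTop, |θ / √(lam * T X)| ≤ 1 := by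
    have := hφ.abs
    rw [abs_zero] at this
    exact (this.eventually (ge_mem_nhds (by norm_num)))
  filter_upwards [hS, h1, hT.eventually_gt_atTop 0] with X hX hX1 hTX
  obtain ⟨φ, hφd⟩ : ∃ φ, φ = θ / √(lam * T X) := ⟨_, rfl⟩
  rw [← hφd] at hX1 ⊢
  have hlT : 0 < lam * T X := mul_pos hlam hTX
  have hφ2 : φ ^ 2 * (lam * T X) = θ ^ 2 := by
    rw [hφd, div_pow, Real.sq_sqrt hlT.le, div_mul_cancel₀ _ hlT.ne']
  obtain ⟨δ, hδ⟩ : ∃ δ, δ = S X - lam * T X := ⟨_, rfl⟩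
  rw [← hδ] at hX
  have hSX : S X = lam * T X + δ := by rw [hδ]; ring
  have hr := Complex.exp_bound (x := I * φ) (by
    rw [norm_mul, Complex.norm_I, one_mul, Complex.norm_real]; exact hX1) (n := 3) (by norm_num)
  obtain ⟨r, hrd⟩ : ∃ r : ℂ, r = cexp (I * φ) - ∑ m ∈ Finset.range 3, (I * φ) ^ m / m.factorial :=
    ⟨_, rfl⟩
  rw [← hrd, norm_mul, Complex.norm_I, one_mul, Complex.norm_real] at hr
  have hr1 : ‖r‖ ≤ |φ| ^ 3 := by
    refine hr.trans ?_
    rw [Real.norm_eq_abs]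
    have : (((3 : ℕ).succ : ℝ) * (((3 : ℕ).factorial : ℝ) * ((3 : ℕ) : ℝ))⁻¹) ≤ 1 := by
      norm_num [Nat.factorial]
    exact mul_le_of_le_one_right (by positivity) this
  have he : cexp (I * φ) - 1 = r + I * φ - (φ ^ 2 / 2 : ℝ) := by
    rw [hrd]
    simp only [Finset.sum_range_succ, Finset.sum_range_zero, pow_zero, Nat.factorial_zero,
      Nat.cast_one, div_one, zero_add, pow_one, Nat.factorial_one, Nat.factorial_two, mul_pow,
      I_sq]
    push_cast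
    ring
  have hkey : (cexp (I * φ) - 1) * (S X : ℂ) - I * φ * (lam * T X : ℝ) -
      -((θ ^ 2 / 2 : ℝ) : ℂ) = r * ((lam * T X + δ : ℝ) : ℂ) - ((φ ^ 2 / 2 * δ : ℝ) : ℂ) +
        I * ((φ * δ : ℝ) : ℂ) := by
    rw [he, hSX, ← hφ2]
    push_cast
    ring
  rw [hkey]
  have hB : |δ| ≤ |B| := hX.trans (le_abs_self _)
  have n1 : ‖r * ((lam * T X + δ : ℝ) : ℂ)‖ ≤ |φ| ^ 3 * (lam * T X + |B|) := by
    rw [norm_mul, Complex.norm_real, Real.norm_eq_abs]
    refine mul_le_mul hr1 ?_ (abs_nonneg _) (by positivity)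
    refine (abs_add_le _ _).trans ?_
    rw [abs_of_pos hlT]
    linarith
  have n2 : ‖((φ ^ 2 / 2 * δ : ℝ) : ℂ)‖ ≤ |φ| ^ 2 / 2 * |B| := by
    rw [Complex.norm_real, Real.norm_eq_abs, abs_mul, abs_of_nonneg (by positivity), sq_abs]
    gcongr
  have n3 : ‖I * ((φ * δ : ℝ) : ℂ)‖ ≤ |φ| * |B| := by
    rw [norm_mul, Complex.norm_I, one_mul, Complex.norm_real, Real.norm_eq_abs, abs_mul]
    gcongr
  have n4 : |φ| ^ 3 * (lam * T X) = |φ| * θ ^ 2 := by
    rw [← hφ2, ← sq_abs φ]; ring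
  have hφ0 : 0 ≤ |φ| := abs_nonneg _
  have hB0 : 0 ≤ |B| := abs_nonneg _
  calc ‖r * ((lam * T X + δ : ℝ) : ℂ) - ((φ ^ 2 / 2 * δ : ℝ) : ℂ) + I * ((φ * δ : ℝ) : ℂ)‖
      ≤ ‖r * ((lam * T X + δ : ℝ) : ℂ)‖ + ‖((φ ^ 2 / 2 * δ : ℝ) : ℂ)‖ +
          ‖I * ((φ * δ : ℝ) : ℂ)‖ := (norm_add_le _ _).trans (add_le_add (norm_sub_le _ _) le_rfl)
    _ ≤ |φ| ^ 3 * (lam * T X + |B|) + |φ| ^ 2 / 2 * |B| + |φ| * |B| :=
        add_le_add (add_le_add n1 n2) n3
    _ = |φ| * θ ^ 2 + |φ| * (|φ| ^ 2 * |B|) + |φ| * (|φ| / 2 * |B|) + |φ| * |B| := by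
        rw [mul_add, n4]; ring
    _ ≤ |φ| * θ ^ 2 + |φ| * (1 * |B|) + |φ| * (1 * |B|) + |φ| * |B| := by
        gcongr
        · exact pow_le_one₀ hφ0 hX1
        · linarith
    _ = |φ| * (θ ^ 2 + 3 * |B|) := by ring

end CLTAux

open CLTAux in
theorem clt : S_MAS.{u} → S_LOC.{u} → S_DET.{u} → S_SUMQ.{u} → S_CDF.{u} → S_CLT.{u} := by
  intro hMAS _ hDET hSUMQ hCDF Ω _ μ _ A hA d j w y hc
  obtain ⟨lam, hlamd⟩ : ∃ lam, lam = lamc j * Real.exp (-w) := ⟨_, rfl⟩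
  have hlam : 0 < lam := by
    rw [hlamd]
    refine mul_pos ?_ (Real.exp_pos _)
    unfold lamc
    split_ifs <;> exact Real.exp_pos _
  have hT : Tendsto (fun X : ℝ => Real.log (Real.log X)) atTop atTop :=
    Real.tendsto_log_atTop.comp Real.tendsto_log_atTop
  rw [← hlamd]
  obtain ⟨Z, hZ⟩ : ∃ Z : ℝ → Ω → ℝ, Z = fun X ω => ((Num A d j w ⊤ 16 X ω : ℝ) -
    lam * Real.log (Real.log X)) / √(lam * Real.log (Real.log X)) := ⟨_, rfl⟩
  have hmeasN : ∀ X : ℝ, Measurable fun ω => (Num A d j w ⊤ 16 X ω : ℝ) := by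
    intro X
    simp only [num_eq]
    exact Finset.measurable_sum _ fun a _ => gi_meas hA.meas d j w a
  have hcdf := hCDF Ω μ Z (gaussianReal 0 1)
    (fun y => by
      have := nullSingletonClass_gaussianReal (μ := 0) (v := 1) one_ne_zero
      exact measure_singleton y)
    (fun X => by
      rw [hZ]
      exact ((hmeasN X).sub_const _).div_const _) ?_ y
  · refine hcdf.congr' ?_
    filter_upwards [hT.eventually_gt_atTop 0] with X hX
    have hs : 0 < √(lam * Real.log (Real.log X)) := Real.sqrt_pos.2 (mul_pos hlam hX)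
    congr 1
    ext ω
    rw [Set.mem_ofPred_eq, Set.mem_ofPred_eq, hZ]
    simp only
    rw [div_le_iff₀ hs]
    constructor <;> intro h <;> linarith
  -- the characteristic functions
  intro θ
  have hg : charFun (gaussianReal 0 1) θ = cexp (-((θ ^ 2 / 2 : ℝ) : ℂ)) := by
    rw [charFun_gaussianReal]
    congr 1
    push_cast
    ring
  rw [hg, Metric.tendsto_nhds]
  intro ε hε
  obtain ⟨M₀, hM₀⟩ := hMAS Ω μ A hA d j w hc
  obtain ⟨a₀, ha₀, -, -, -, -, hloc, -⟩ := hDET d j w hc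
  obtain ⟨C, x₀, hx₀, hsum⟩ := hSUMQ Ω μ A hA d j w hc
  -- the choice of `M`
  obtain ⟨M, hM1, hM2, hM3, hM4, hM5⟩ : ∃ M : ℕ, M₀ ≤ M ∧ a₀ ≤ M ∧ x₀ ≤ M ∧ 16 ≤ M ∧
      1 / Real.log M < ε / 3 := by
    have h1 : Tendsto (fun M : ℕ => 1 / Real.log (M : ℝ)) atTop (𝓝 0) :=
      tendsto_const_nhds.div_atTop (Real.tendsto_log_atTop.comp tendsto_natCast_atTop_atTop)
    obtain ⟨M, hM⟩ := ((eventually_ge_atTop M₀).and ((eventually_ge_atTop a₀).and
      (((tendsto_natCast_atTop_atTop (R := ℝ)).eventually_ge_atTop x₀).and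
      ((eventually_ge_atTop 16).and (h1.eventually (gt_mem_nhds (by positivity : 0 < ε / 3))))))).exists
    exact ⟨M, hM.1, hM.2.1, hM.2.2.1, hM.2.2.2.1, hM.2.2.2.2⟩
  obtain ⟨φ, hφd⟩ : ∃ φ : ℝ → ℝ, φ = fun X => θ / √(lam * Real.log (Real.log X)) := ⟨_, rfl⟩
  have hφ : Tendsto φ atTop (𝓝 0) := by
    rw [hφd]
    exact tendsto_const_nhds.div_atTop (Real.tendsto_sqrt_atTop.comp (hT.const_mul_atTop hlam))
  obtain ⟨S, hSd⟩ : ∃ S : ℝ → ℝ, S = fun X => ∑ a ∈ Finset.Ioc M ⌊X⌋₊, μ.real (Gap A d j w a) :=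
    ⟨_, rfl⟩
  have hSb : ∀ᶠ X in atTop, |S X - lam * Real.log (Real.log X)| ≤
      lam * |Real.log (Real.log M)| + C / √(Real.log M) := by
    filter_upwards [eventually_ge_atTop (M : ℝ)] with X hX
    have h1 := hsum M X hM3 hX
    rw [Nat.floor_natCast, ← hlamd] at h1
    have e : S X = ∑ a ∈ Finset.Ioc M ⌊X⌋₊, μ.real (Gap A d j w a) := by rw [hSd]
    rw [← e] at h1
    have e2 : S X - lam * Real.log (Real.log X) =
        -(lam * Real.log (Real.log M)) +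
        (S X - lam * (Real.log (Real.log X) - Real.log (Real.log M))) := by ring
    rw [e2]
    refine (abs_add_le _ _).trans ?_
    rw [abs_neg, abs_mul, abs_of_pos hlam]
    linarith
  have hE := expo (θ := θ) hlam hT hSb
  have hE2 := (Complex.continuous_exp.tendsto _).comp hE
  rw [Metric.tendsto_nhds] at hE2
  have hφM : Tendsto (fun X => |φ X| * M) atTop (𝓝 0) := by
    have := hφ.abs.mul_const (M : ℝ)
    rwa [abs_zero, zero_mul] at this
  filter_upwards [hE2 (ε / 3) (by positivity), eventually_ge_atTop (M : ℝ),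
    hφM.eventually (gt_mem_nhds (by positivity : 0 < ε / 3)), hT.eventually_gt_atTop 0]
    with X hX1 hX2 hX3 hX4
  have hMX : M ≤ ⌊X⌋₊ := Nat.le_floor hX2
  -- the function `F`
  obtain ⟨F, hF⟩ : ∃ F : ℕ → Ω → ℂ, F = fun a ω => cexp (I * φ X * gi A d j w a ω) := ⟨_, rfl⟩
  have hFn : ∀ a ω, ‖F a ω‖ = 1 := by
    intro a ω
    rw [hF]
    simp only
    rw [show I * φ X * gi A d j w a ω = ((φ X * gi A d j w a ω : ℝ) : ℂ) * I by push_cast; ring]
    exact Complex.norm_exp_ofReal_mul_I _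
  have hFe : ∀ a ω, F a ω - 1 = (Gap A d j w a).indicator (fun _ => cexp (I * φ X) - 1) ω := by
    intro a ω
    rw [hF]
    by_cases h : ω ∈ Gap A d j w a
    · rw [Set.indicator_of_mem h]
      simp only [gi, if_pos h]
      simp
    · rw [Set.indicator_of_notMem h]
      simp only [gi, if_neg h]
      simp
  have hFm : ∀ a, Measurable (F a) := by
    intro a
    rw [hF]
    exact Complex.measurable_exp.comp ((measurable_const).mul
      (Complex.measurable_ofReal.comp (gi_meas hA.meas d j w a)))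
  have hFi : ∀ a, ∫ ω, (F a ω - 1) ∂μ = (cexp (I * φ X) - 1) * (μ.real (Gap A d j w a) : ℂ) := by
    intro a
    simp only [hFe]
    rw [integral_indicator_const _ (gap_meas hA.meas d j w a), Complex.real_smul, mul_comm]
  have hmas := hM₀ M ⌊X⌋₊ hM1 F (fun a ω => (hFn a ω).le) (by
      intro a ha ω ω' h
      have ha' : a₀ ≤ a := hM2.trans (Finset.mem_Ioc.1 ha).1.le
      have h1 := hloc Ω A a 0 ha' (Nat.zero_le _) ω ω' h
      rw [← gap_cl] at h1
      rw [hF]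
      have h2 : (ω ∈ Gap A d j w a) = (ω' ∈ Gap A d j w a) := h1
      have h3 : gi A d j w a ω = gi A d j w a ω' := by
        by_cases h4 : ω ∈ Gap A d j w a
        · have h5 : ω' ∈ Gap A d j w a := h2.mp h4
          simp only [gi, if_pos h4, if_pos h5]
        · have h5 : ω' ∉ Gap A d j w a := fun h6 => h4 (h2.mpr h6)
          simp only [gi, if_neg h4, if_neg h5]
      change cexp (I * φ X * gi A d j w a ω) = cexp (I * φ X * gi A d j w a ω')
      rw [h3]) (by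
      intro a _ ω hω
      rw [hF]
      simp only
      unfold gi
      rw [if_neg hω]
      simp)
  simp only [hFi] at hmas
  rw [← Finset.mul_sum] at hmas
  have hSX : ∑ a ∈ Finset.Ioc M ⌊X⌋₊, (μ.real (Gap A d j w a) : ℂ) = (S X : ℂ) := by
    rw [hSd]; push_cast; rfl
  rw [hSX] at hmas
  -- the product formula for the characteristic function
  obtain ⟨T, hTd⟩ : ∃ T, T = Real.log (Real.log X) := ⟨_, rfl⟩
  rw [← hTd] at hX4
  have hφX : φ X = θ / √(lam * T) := by rw [hφd, hTd]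
  have hcf : ∫ ω, cexp (I * θ * Z X ω) ∂μ = cexp (-(I * φ X * (lam * T : ℝ))) *
      ∫ ω, (∏ a ∈ Finset.Ioc 16 M, F a ω) * ∏ a ∈ Finset.Ioc M ⌊X⌋₊, F a ω ∂μ := by
    rw [← integral_const_mul]
    refine integral_congr_ae (Eventually.of_forall fun ω => ?_)
    simp only
    rw [Finset.prod_Ioc_consecutive _ hM4 hMX, hF, ← Complex.exp_sum, ← Complex.exp_add, hZ]
    congr 1
    simp only
    rw [num_eq, ← hTd, ← Finset.mul_sum, hφX]
    push_cast
    ring
  have hint2 : Integrable (fun ω => ∏ a ∈ Finset.Ioc M ⌊X⌋₊, F a ω) μ := by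
    refine Integrable.of_bound (Finset.measurable_prod _ fun a _ => hFm a).aestronglyMeasurable 1
      (Eventually.of_forall fun ω => ?_)
    rw [norm_prod, Finset.prod_congr rfl fun a _ => hFn a ω, Finset.prod_const_one]
  have hint1 : Integrable (fun ω => (∏ a ∈ Finset.Ioc 16 M, F a ω) *
      ∏ a ∈ Finset.Ioc M ⌊X⌋₊, F a ω) μ := by
    refine Integrable.of_bound ((Finset.measurable_prod _ fun a _ => hFm a).mul
      (Finset.measurable_prod _ fun a _ => hFm a)).aestronglyMeasurable 1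
      (Eventually.of_forall fun ω => ?_)
    rw [norm_mul, norm_prod, norm_prod, Finset.prod_congr rfl fun a _ => hFn a ω,
      Finset.prod_congr rfl fun a _ => hFn a ω, Finset.prod_const_one, Finset.prod_const_one,
      one_mul]
  have hd1 : ‖∫ ω, (∏ a ∈ Finset.Ioc 16 M, F a ω) * ∏ a ∈ Finset.Ioc M ⌊X⌋₊, F a ω ∂μ -
      ∫ ω, ∏ a ∈ Finset.Ioc M ⌊X⌋₊, F a ω ∂μ‖ ≤ |φ X| * M := by
    rw [← integral_sub hint1 hint2]
    refine (norm_integral_le_of_norm_le_const (C := |φ X| * M)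
      (Eventually.of_forall fun ω => ?_)).trans (by simp)
    have e1 : (∏ a ∈ Finset.Ioc 16 M, F a ω) * ∏ a ∈ Finset.Ioc M ⌊X⌋₊, F a ω -
        ∏ a ∈ Finset.Ioc M ⌊X⌋₊, F a ω = (∏ a ∈ Finset.Ioc 16 M, F a ω - 1) *
          ∏ a ∈ Finset.Ioc M ⌊X⌋₊, F a ω := by ring
    rw [e1, norm_mul, norm_prod, Finset.prod_congr rfl fun a _ => hFn a ω,
      Finset.prod_const_one, mul_one]
    have e2 : ∏ a ∈ Finset.Ioc 16 M, F a ω =
        cexp (I * ((φ X * ∑ a ∈ Finset.Ioc 16 M, gi A d j w a ω : ℝ) : ℂ)) := by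
      rw [hF, ← Complex.exp_sum, ← Finset.mul_sum]
      congr 1
      push_cast
      ring
    rw [e2]
    refine (Real.norm_exp_I_mul_ofReal_sub_one_le).trans ?_
    rw [Real.norm_eq_abs, abs_mul]
    refine mul_le_mul_of_nonneg_left ?_ (abs_nonneg _)
    rw [abs_of_nonneg (Finset.sum_nonneg fun a _ => gi_nonneg A d j w a ω)]
    calc ∑ a ∈ Finset.Ioc 16 M, gi A d j w a ω ≤ ∑ a ∈ Finset.Ioc 16 M, (1 : ℝ) :=
          Finset.sum_le_sum fun a _ => gi_le A d j w a ω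
      _ ≤ M := by
          rw [Finset.sum_const, Nat.card_Ioc, nsmul_eq_mul, mul_one]
          exact_mod_cast Nat.sub_le _ _
  have hn1 : ‖cexp (-(I * φ X * (lam * T : ℝ)))‖ = 1 := by
    rw [show -(I * φ X * (lam * T : ℝ)) = ((-(φ X * (lam * T)) : ℝ) : ℂ) * I by push_cast; ring]
    exact Complex.norm_exp_ofReal_mul_I _
  have hfin : ‖∫ ω, cexp (I * θ * Z X ω) ∂μ - cexp (-(I * φ X * (lam * T : ℝ))) *
      cexp ((cexp (I * φ X) - 1) * (S X : ℂ))‖ ≤ |φ X| * M + 1 / Real.log M := by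
    rw [hcf, ← mul_sub, norm_mul, hn1, one_mul]
    exact (norm_sub_le_norm_sub_add_norm_sub _ _ _).trans (add_le_add hd1 hmas)
  have hlast : cexp (-(I * φ X * (lam * T : ℝ))) * cexp ((cexp (I * φ X) - 1) * (S X : ℂ)) =
      cexp ((cexp (I * (θ / √(lam * Real.log (Real.log X)) : ℝ)) - 1) * (S X : ℂ) -
      I * (θ / √(lam * Real.log (Real.log X)) : ℝ) * (lam * Real.log (Real.log X) : ℝ)) := by
    rw [← Complex.exp_add, hφX, hTd]
    congr 1
    ring
  rw [hlast] at hfin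
  rw [dist_eq_norm] at hX1 ⊢
  simp only [Function.comp_apply] at hX1
  refine lt_of_le_of_lt (norm_sub_le_norm_sub_add_norm_sub _ _ _)
    (lt_of_le_of_lt (add_le_add hfin hX1.le) ?_)
  linarith

end H21SCH
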