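import Pool.Agent.H21.SCH.Stm

/-! # Project SCH: stub CLU -/

namespace H21SCH

open MeasureTheory ProbabilityTheory Filter Topology Set Complex

universe u

open Classical in
theorem KK_card {Ω : Type u} (A : ℕ → Set Ω) (d j : ℕ) (w : ℝ) (a : ℕ) (ω : Ω) :
    KK A d j w a ω = ((Finset.range (LJ j a)).filter (fun k => ω ∈ Cl A d j w a k)).card := by
  unfold KK
  rw [← Set.ncard_coe_finset]
  congr 1
  ext k
  simp

open Classical in
theorem fails_card {Ω : Type u} (A : ℕ → Set Ω) (d j : ℕ) (w : ℝ) (M : ℕ) {X : ℝ} (hX : 0 ≤ X)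
    (ω : Ω) : {n : ℕ | (M : ℝ) < n ∧ (n : ℝ) ≤ X ∧ ω ∈ Fails A d j w n}.ncard =
      ((Finset.Ioc M ⌊X⌋₊).filter (fun n : ℕ => ω ∈ Fails A d j w n)).card := by
  rw [← Set.ncard_coe_finset]
  congr 1
  ext n
  simp only [mem_ofPred_eq, Finset.coe_filter, Finset.mem_Ioc, Nat.cast_lt, Nat.le_floor_iff hX]
  tauto

theorem clu : S_DET.{u} → S_CLU.{u} := by
  classical
  intro hDET d j w hC
  obtain ⟨a₀, ha₀, h1, h2, h3, _, _, _⟩ := hDET d j w hC
  refine ⟨a₀, fun Ω A M X ω hM hMX => ?_⟩
  have hX0 : 0 ≤ X := (Nat.cast_nonneg M).trans hMX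
  have hMR : (a₀ : ℝ) ≤ M := by exact_mod_cast hM
  rw [fails_card A d j w M hX0]
  simp only [KK_card]
  rw [← Finset.card_sigma]
  constructor
  · intro hF
    refine Finset.card_le_card_of_injOn (fun p : (_ : ℕ) × ℕ => p.1 + p.2) ?_ ?_
    · rintro ⟨a, k⟩ hp
      simp only [Finset.coe_sigma, Set.mem_sigma_iff, Finset.mem_coe, Finset.mem_filter,
        Finset.mem_range, Finset.mem_Ioc] at hp
      obtain ⟨⟨ha1, ha2⟩, hk, hP, hCl⟩ := hp
      have haX : (a : ℝ) ≤ X := (Nat.le_floor_iff hX0).1 ha2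
      simp only [Finset.coe_filter, Finset.mem_Ioc, mem_ofPred_eq]
      refine ⟨⟨by omega, ?_⟩, ?_⟩
      · rw [Nat.le_floor_iff hX0]
        by_contra hcon
        push Not at hcon
        apply hF
        intro m hm1 hm2
        refine hCl m (by exact_mod_cast haX.trans_lt hm1) ?_
        exact hm2.trans_le (h1 X _ (hMR.trans hMX) hcon.le)
      · intro m hm1 hm2
        have : a + k < m := by exact_mod_cast hm1
        exact hCl m (by omega) hm2
    · rintro ⟨a, k⟩ hp ⟨a', k'⟩ hp' heq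
      simp only [Finset.coe_sigma, Set.mem_sigma_iff, Finset.mem_coe, Finset.mem_filter,
        Finset.mem_range, Finset.mem_Ioc] at hp hp'
      simp only at heq
      have key : ∀ a k a' k' : ℕ, M < a → ω ∈ Cl A d j w a k → ω ∈ Cl A d j w a' k' →
          a + k = a' + k' → ¬ a < a' := by
        intro a k a' k' hMa hc hc' he hlt
        refine hc.2 a' hlt ?_ hc'.1
        have h4 : (a₀ : ℝ) ≤ ((a + k : ℕ) : ℝ) := by exact_mod_cast (by omega : a₀ ≤ a + k)
        have h5 := h2 _ h4
        have h6 : ((a' : ℕ) : ℝ) ≤ ((a + k : ℕ) : ℝ) := by exact_mod_cast (by omega : a' ≤ a + k)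
        have h7 : (0 : ℝ) ≤ d := Nat.cast_nonneg d
        push_cast at h5 h6 ⊢
        linarith
      have e1 := key a k a' k' hp.1.1 hp.2.2 hp'.2.2 heq
      have e2 := key a' k' a k hp'.1.1 hp'.2.2 hp.2.2 heq.symm
      have e3 : a = a' := by omega
      subst e3
      have e4 : k = k' := by omega
      subst e4
      rfl
  · rintro hno ⟨m0, hm1, hm2, hm3⟩
    have hsub : (Finset.Ioc M ⌊X⌋₊).filter (fun n : ℕ => ω ∈ Fails A d j w n) ⊆
        (((Finset.Ioc M ⌊X⌋₊).sigma (fun a => (Finset.range (LJ j a)).filter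
          (fun k => ω ∈ Cl A d j w a k))).image (fun p : (_ : ℕ) × ℕ => p.1 + p.2)) ∪
          Finset.Ioo M (M + LJ j M) := by
      intro n hn
      rw [Finset.mem_filter, Finset.mem_Ioc] at hn
      obtain ⟨⟨hn1, hn2⟩, hnF⟩ := hn
      rw [Finset.mem_union]
      by_cases hex : ((Finset.Ioc M n).filter (fun a => ω ∈ Pat A d a)).Nonempty
      · left
        obtain ⟨a, ha, hmax⟩ := Finset.exists_max_image _ (fun a : ℕ => a) hex
        rw [Finset.mem_filter, Finset.mem_Ioc] at ha
        have hcl : ω ∈ Cl A d j w a (n - a) := by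
          refine ⟨ha.2, fun m hm hmd => ?_⟩
          have e : a + (n - a) = n := by omega
          rw [e] at hmd
          intro hmP
          by_cases hmn : m ≤ n
          · have := hmax m (Finset.mem_filter.2 ⟨Finset.mem_Ioc.2 ⟨by omega, hmn⟩, hmP⟩)
            omega
          · exact hnF m (by exact_mod_cast (by omega : n < m)) hmd hmP
        rw [Finset.mem_image]
        refine ⟨⟨a, n - a⟩, ?_, by simp only; omega⟩
        simp only [Finset.mem_sigma, Finset.mem_Ioc, Finset.mem_filter, Finset.mem_range]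
        refine ⟨⟨ha.1.1, by omega⟩, ?_, hcl⟩
        by_contra hcon
        exact hno a ha.1.1 (h3 Ω A a _ _ (by omega) (not_lt.1 hcon) hcl)
      · right
        rw [Finset.mem_Ioo]
        refine ⟨hn1, ?_⟩
        by_contra hcon
        apply hex
        exact ⟨m0, Finset.mem_filter.2 ⟨Finset.mem_Ioc.2 ⟨hm1, by omega⟩, hm3⟩⟩
    refine (Finset.card_le_card hsub).trans ((Finset.card_union_le _ _).trans ?_)
    refine add_le_add Finset.card_image_le ?_
    rw [Nat.card_Ioo]
    omega

end H21SCH
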