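import Pool.Agent.H21.SCH.Stm

namespace H21SCH

open MeasureTheory ProbabilityTheory Filter Topology Set Complex

universe u

theorem cmp : S_DET.{u} → S_CMP.{u} := by
  intro hDET d j w hc
  obtain ⟨a₀, -, h1, -⟩ := hDET d j w hc
  refine ⟨a₀, fun Ω A X Y hX hXY => ⟨?_, ?_⟩⟩
  · rintro ω ⟨hN, hF⟩ x hXx hxY hfx
    classical
    simp only [Fails, mem_compl_iff, mem_ofPred_eq, not_forall, not_not] at hF
    obtain ⟨m, hm1, hm2, hm3⟩ := hF
    have hmx : (m : ℝ) ≤ x := by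
      by_contra hlt
      push Not at hlt
      exact hfx m hlt (lt_of_lt_of_le hm2 (h1 X x hX hXx.le)) hm3
    have hx0 : 0 ≤ x := le_trans (Nat.cast_nonneg m) hmx
    have hmf : m ≤ ⌊x⌋₊ := Nat.le_floor hmx
    obtain ⟨a, ha⟩ : ∃ a, a = Nat.findGreatest (fun n => ω ∈ Pat A d n) ⌊x⌋₊ := ⟨_, rfl⟩
    have ha1 : ω ∈ Pat A d a := by
      rw [ha]; exact Nat.findGreatest_spec (P := fun n => ω ∈ Pat A d n) hmf hm3
    have ha2 : m ≤ a := by rw [ha]; exact Nat.le_findGreatest hmf hm3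
    have ha3 : a ≤ ⌊x⌋₊ := by rw [ha]; exact Nat.findGreatest_le _
    have hax : (a : ℝ) ≤ x := le_trans (Nat.cast_le.mpr ha3) (Nat.floor_le hx0)
    have hXa : X < a := lt_of_lt_of_le hm1 (Nat.cast_le.mpr ha2)
    refine hN a hXa (hax.trans hxY) ⟨ha1, ?_⟩
    intro m' hm'1 hm'2 hm'3
    have hxm' : x < m' := by
      by_contra hlt
      push Not at hlt
      have h2 : m' ≤ ⌊x⌋₊ := Nat.le_floor hlt
      have h3 : a < m' := by exact_mod_cast hm'1
      rw [ha] at h3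
      exact Nat.findGreatest_is_greatest h3 h2 hm'3
    exact hfx m' hxm' (lt_of_lt_of_le hm'2 (h1 a x (hX.trans hXa.le) hax)) hm'3
  · intro ω hH a ha1 ha2 hG
    exact hH a ha1 ha2 hG.2

end H21SCH
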