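import Pool.Agent.H21.SCH.Stm

/-! # Stub SCH-DET: deterministic facts -/

namespace H21SCH

open MeasureTheory ProbabilityTheory Filter Topology Set

universe u

namespace DETaux

lemma log_le_half {t : ℝ} (ht : 0 < t) : Real.log t ≤ t / 2 := by
  have h1 : Real.log (t / 2) ≤ t / 2 - 1 := Real.log_le_sub_one_of_pos (by positivity)
  rw [Real.log_div ht.ne' (by norm_num)] at h1
  have h2 : Real.log 2 < 1 := lt_trans Real.log_two_lt_d9 (by norm_num)
  linarith

/-- the second factor of `len` -/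
noncomputable def g (j : ℕ) (w t : ℝ) : ℝ := t - ((j : ℝ) - 1) * Real.log t + w

lemma len_eq (j : ℕ) (w x : ℝ) :
    len j w x = Real.log x ^ j * g j w (Real.log x) := by
  unfold len g
  ring

lemma g_mono {j : ℕ} (hj : j = 1 ∨ j = 2) (w : ℝ) {t s : ℝ} (ht : 1 ≤ t) (hts : t ≤ s) :
    g j w t ≤ g j w s := by
  unfold g
  have h1 : Real.log s - Real.log t ≤ s - t := by
    have h0 : 0 < t := by linarith
    have hs : 0 < s := by linarith
    rw [← Real.log_div hs.ne' h0.ne']
    have h2 : Real.log (s / t) ≤ s / t - 1 := Real.log_le_sub_one_of_pos (by positivity)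
    have h3 : s / t - 1 ≤ s - t := by
      rw [div_sub_one h0.ne', div_le_iff₀ h0]
      nlinarith
    linarith
  rcases hj with rfl | rfl
  · norm_num; exact hts
  · norm_num; linarith

lemma g_lower {j : ℕ} (hj : j = 1 ∨ j = 2) (w : ℝ) {t : ℝ} (ht : 1 ≤ t) :
    t / 2 + w ≤ g j w t := by
  unfold g
  have h1 := log_le_half (t := t) (by linarith)
  rcases hj with rfl | rfl
  · norm_num; linarith
  · norm_num; linarith

lemma g_upper {j : ℕ} (hj : j = 1 ∨ j = 2) (w : ℝ) {t : ℝ} (ht : 1 ≤ t) :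
    g j w t ≤ t + |w| := by
  unfold g
  have h1 : 0 ≤ Real.log t := Real.log_nonneg ht
  have h2 := le_abs_self w
  rcases hj with rfl | rfl
  · norm_num; linarith
  · norm_num; linarith

end DETaux

open DETaux

theorem det : S_DET.{u} := by
  intro d j w hC
  have hj : j = 1 ∨ j = 2 := by
    rcases hC with h | h
    · exact Or.inl h.2
    · exact Or.inr h.2
  have hj1 : 1 ≤ j := by omega
  have hj2 : j ≤ 2 := by omega
  -- the threshold
  have hlim : ∀ᶠ x : ℝ in atTop, 2 * (2 * (d : ℝ) + 3 + |w|) + 5 ≤ Real.log x ∧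
      Real.log x ^ 4 ≤ x := by
    have h1 := Real.tendsto_log_atTop.eventually_ge_atTop (2 * (2 * (d : ℝ) + 3 + |w|) + 5)
    have h2 := (Real.isLittleO_pow_log_id_atTop (n := 4)).bound (zero_lt_one (α := ℝ))
    filter_upwards [h1, h2, eventually_ge_atTop (0 : ℝ)] with x hx1 hx2 hx3
    refine ⟨hx1, ?_⟩
    rw [one_mul, Real.norm_eq_abs, Real.norm_eq_abs, id, abs_of_nonneg hx3] at hx2
    exact le_trans (le_abs_self _) hx2
  obtain ⟨x₀, hx₀⟩ := eventually_atTop.mp hlim
  have ha₀ : ∃ a₀ : ℕ, 16 ≤ a₀ ∧ x₀ ≤ a₀ := by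
    obtain ⟨n, hn⟩ := exists_nat_ge x₀
    exact ⟨max 16 n, le_max_left _ _, le_trans hn (by exact_mod_cast le_max_right _ _)⟩
  obtain ⟨a₀, h16, hxa⟩ := ha₀
  have hd0 : (0 : ℝ) ≤ d := Nat.cast_nonneg d
  have hw0 : 0 ≤ |w| := abs_nonneg w
  have hwn : -|w| ≤ w := neg_abs_le w
  have hT : ∀ x : ℝ, (a₀ : ℝ) ≤ x → 2 * (2 * (d : ℝ) + 3 + |w|) + 5 ≤ Real.log x ∧
      Real.log x ^ 4 ≤ x := fun x hx => hx₀ x (le_trans hxa hx)
  have h16' : (16 : ℝ) ≤ a₀ := by exact_mod_cast h16
  -- monotonicity of len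
  have hlen : ∀ x y : ℝ, (a₀ : ℝ) ≤ x → x ≤ y → len j w x ≤ len j w y := by
    intro x y hx hxy
    rw [len_eq, len_eq]
    have hxl := (hT x hx).1
    have hl : Real.log x ≤ Real.log y := Real.log_le_log (by linarith) hxy
    have hg0 : 0 ≤ g j w (Real.log x) := by
      have := g_lower hj w (t := Real.log x) (by linarith)
      linarith
    exact mul_le_mul (pow_le_pow_left₀ (by linarith) hl j) (g_mono hj w (by linarith) hl) hg0
      (pow_nonneg (by linarith) j)
  have hmono : ∀ x y : ℝ, (a₀ : ℝ) ≤ x → x ≤ y → x + len j w x ≤ y + len j w y :=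
    fun x y hx hxy => add_le_add hxy (hlen x y hx hxy)
  refine ⟨a₀, h16, hmono, ?_, ?_, ?_, ?_, ?_⟩
  · intro x hx
    have hxl := (hT x hx).1
    rw [len_eq]
    have h1 := g_lower hj w (t := Real.log x) (by linarith)
    have h2 : 1 ≤ Real.log x ^ j := one_le_pow₀ (by linarith)
    have h3 : 2 * (d : ℝ) + 3 ≤ g j w (Real.log x) := by linarith
    nlinarith
  · intro Ω A a k l ha hkl ω hω
    refine ⟨hω.1, fun m hm hlt => hω.2 m hm (lt_of_lt_of_le hlt ?_)⟩
    apply hmono
    · have : a₀ ≤ a + k := by omega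
      exact_mod_cast this
    · have : a + k ≤ a + l := by omega
      exact_mod_cast this
  · intro Ω A a u v _ huv ω hω
    refine ⟨hω.1, fun m hm hlt => hω.2 m hm (lt_of_lt_of_le hlt ?_)⟩
    unfold len
    have : 0 ≤ Real.log (a : ℝ) ^ j := pow_nonneg (Real.log_natCast_nonneg a) j
    nlinarith
  · intro Ω A a k ha hk
    have haR : (a₀ : ℝ) ≤ a := by exact_mod_cast ha
    obtain ⟨hl, hl4⟩ := hT a haR
    set t := Real.log (a : ℝ) with htdef
    have ht5 : 5 ≤ t := by linarith
    have ht1 : 1 ≤ t := by linarith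
    -- k ≤ t ^ 4
    have hk4 : (k : ℝ) ≤ t ^ 4 := by
      have h1 : (k : ℝ) ≤ t ^ (j + 2) := by
        have h2 : (k : ℝ) ≤ (LJ j a : ℝ) := by exact_mod_cast hk
        exact le_trans h2 (Nat.floor_le (pow_nonneg (by linarith) _))
      exact le_trans h1 (pow_le_pow_right₀ ht1 (by omega))
    have haPos : (0 : ℝ) < a := by linarith
    -- log (a + k) ≤ 2 t
    set s := Real.log ((a + k : ℕ) : ℝ) with hsdef
    have hs2 : s ≤ 2 * t := by
      have h1 : ((a + k : ℕ) : ℝ) ≤ 2 * a := by push_cast; linarith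
      have h2 : s ≤ Real.log (2 * a) := Real.log_le_log (by push_cast; positivity) h1
      rw [Real.log_mul (by norm_num) haPos.ne'] at h2
      have h3 : Real.log 2 < 1 := lt_trans Real.log_two_lt_d9 (by norm_num)
      linarith
    have hst : t ≤ s := by
      apply Real.log_le_log haPos
      push_cast
      have : (0 : ℝ) ≤ k := Nat.cast_nonneg k
      linarith
    have hs1 : 1 ≤ s := by linarith
    have hlenu : len j w ((a + k : ℕ) : ℝ) ≤ 12 * t ^ 3 := by
      rw [len_eq]
      have h1 := g_upper hj w hs1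
      have h2 : g j w s ≤ 3 * t := by linarith
      have h2' : 0 ≤ g j w s := by
        have := g_lower hj w (t := s) hs1
        linarith
      have h3 : s ^ j ≤ (2 * t) ^ 2 :=
        le_trans (pow_le_pow_left₀ (by linarith) hs2 j)
          (pow_le_pow_right₀ (by linarith) hj2)
      calc s ^ j * g j w s ≤ (2 * t) ^ 2 * (3 * t) :=
            mul_le_mul h3 h2 h2' (by positivity)
        _ = 12 * t ^ 3 := by ring
    have hwin : (k : ℝ) + len j w ((a + k : ℕ) : ℝ) ≤ t ^ 5 := by
      have h1 : t ^ 5 - t ^ 4 - 12 * t ^ 3 = t ^ 3 * ((t - 4) * (t + 3)) := by ring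
      have h2 : 0 ≤ t ^ 3 * ((t - 4) * (t + 3)) := by
        apply mul_nonneg (by positivity) (mul_nonneg (by linarith) (by linarith))
      linarith
    have hdLL : d ≤ LL a := by
      apply Nat.le_floor
      have h1 : t ≤ t ^ 5 := le_self_pow₀ ht1 (by norm_num)
      linarith
    have key : ∀ ω ω' : Ω, (∀ p ∈ Finset.Icc a (a + LL a), (ω ∈ A p ↔ ω' ∈ A p)) →
        ω ∈ Cl A d j w a k → ω' ∈ Cl A d j w a k := by
      intro ω ω' h hω
      refine ⟨⟨(h a ?_).mp hω.1.1, (h (a + d) ?_).mp hω.1.2⟩, ?_⟩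
      · rw [Finset.mem_Icc]; omega
      · rw [Finset.mem_Icc]; omega
      · intro m hm hlt hω'
        refine hω.2 m hm hlt ?_
        have hmd : m + d ≤ a + LL a := by
          have h1 : ((m + d : ℕ) : ℝ) < a + t ^ 5 := by
            have h2 := hlt
            push_cast at h2 hwin ⊢
            linarith
          have h3 : m + d - a ≤ LL a := by
            apply Nat.le_floor
            rw [Nat.cast_sub (by omega)]
            linarith
          omega
        refine ⟨(h m ?_).mpr hω'.1, (h (m + d) ?_).mpr hω'.2⟩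
        · rw [Finset.mem_Icc]; omega
        · rw [Finset.mem_Icc]; omega
    intro ω ω' h
    exact propext ⟨key ω ω' h, key ω' ω (fun p hp => (h p hp).symm)⟩
  · intro a ha
    have haR : (a₀ : ℝ) ≤ a := by exact_mod_cast ha
    obtain ⟨hl, -⟩ := hT a haR
    rw [len_eq]
    set t := Real.log (a : ℝ) with htdef
    have ht5 : 5 ≤ t := by linarith
    have hfl : t ^ (j + 2) - 1 < (LJ j a : ℝ) := Nat.sub_one_lt_floor _
    have h1 := g_upper hj w (t := t) (by linarith)
    have h2 : 1 ≤ t ^ j := one_le_pow₀ (by linarith)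
    have h3 : t ^ j * g j w t ≤ t ^ j * (t + |w|) :=
      mul_le_mul_of_nonneg_left h1 (by linarith)
    have h4 : t ^ j * (t + |w|) ≤ t ^ (j + 2) - 1 := by
      have h5 : t ^ (j + 2) = t ^ j * t ^ 2 := by ring
      rw [h5]
      have h6 : t + |w| + 1 ≤ t ^ 2 := by nlinarith
      nlinarith
    linarith

end H21SCH
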