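import Pool.Agent.H21.SCH.Stm

/-! # SCH-DTR: the amount of counterexamples and the sum of the cluster lengths -/

set_option autoImplicit false

namespace H21SCH

open MeasureTheory ProbabilityTheory Filter Topology Set Complex

universe u

/-- comparison of the numbers of the counterexamples above `16` and above `M` -/
lemma dtr_card {Ω : Type u} (A : ℕ → Set Ω) (d j : ℕ) (w : ℝ) (M : ℕ) (X : ℝ) (ω : Ω)
    (hM : 16 ≤ M) :
    {n : ℕ | (M : ℝ) < n ∧ (n : ℝ) ≤ X ∧ ω ∈ Fails A d j w n}.ncard ≤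
      {n : ℕ | (16 : ℝ) < n ∧ (n : ℝ) ≤ X ∧ ω ∈ Fails A d j w n}.ncard ∧
    {n : ℕ | (16 : ℝ) < n ∧ (n : ℝ) ≤ X ∧ ω ∈ Fails A d j w n}.ncard ≤
      {n : ℕ | (M : ℝ) < n ∧ (n : ℝ) ≤ X ∧ ω ∈ Fails A d j w n}.ncard + M := by
  have hM' : (16 : ℝ) ≤ M := by exact_mod_cast hM
  have hfin : ∀ K : ℝ, {n : ℕ | K < n ∧ (n : ℝ) ≤ X ∧ ω ∈ Fails A d j w n}.Finite := by
    intro K
    refine (Set.finite_Iic ⌊X⌋₊).subset fun n hn => ?_
    exact Nat.le_floor hn.2.1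
  constructor
  · refine Set.ncard_le_ncard ?_ (hfin 16)
    intro n hn
    exact ⟨hM'.trans_lt hn.1, hn.2⟩
  · have h1 : {n : ℕ | (16 : ℝ) < n ∧ (n : ℝ) ≤ X ∧ ω ∈ Fails A d j w n} ⊆
        {n : ℕ | (M : ℝ) < n ∧ (n : ℝ) ≤ X ∧ ω ∈ Fails A d j w n} ∪
          ((Finset.Icc 1 M : Finset ℕ) : Set ℕ) := by
      intro n hn
      by_cases h : (M : ℝ) < n
      · exact Or.inl ⟨h, hn.2⟩
      · right
        rw [Finset.mem_coe, Finset.mem_Icc]
        refine ⟨?_, by exact_mod_cast not_lt.1 h⟩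
        have h2 : (16 : ℝ) < n := hn.1
        have h3 : 16 < n := by exact_mod_cast h2
        omega
    refine (Set.ncard_le_ncard h1 ((hfin M).union (Finset.finite_toSet _))).trans ?_
    refine (Set.ncard_union_le _ _).trans ?_
    rw [Set.ncard_coe_finset, Nat.card_Icc, Nat.add_sub_cancel]

theorem dtr : S_VOL.{u} → S_CLU.{u} → S_SML.{u} → S_PFL.{u} → S_DTR.{u} := by
  intro hVOL hCLU hSML hPFL Ω _ μ _ A hA d j w ε hcas hε
  obtain ⟨B, hB⟩ := hVOL d j w hcas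
  obtain ⟨M₀, hM₀⟩ := hCLU d j w hcas
  obtain ⟨⟨M₁, hM₁⟩, X₁, hX₁⟩ := hSML Ω μ A hA d j w (ε / 4) hcas (by positivity)
  obtain ⟨C, x₀, hC, hx₀, hPF⟩ := hPFL Ω μ A hA d j w hcas
  refine ⟨max 16 (max M₀ M₁), fun M hM => ?_⟩
  have hM16 : 16 ≤ M := (le_max_left _ _).trans hM
  have hMM₀ : M₀ ≤ M := ((le_max_left _ _).trans (le_max_right _ _)).trans hM
  have hMM₁ : M₁ ≤ M := ((le_max_right _ _).trans (le_max_right _ _)).trans hM
  have hev1 : ∀ᶠ X : ℝ in atTop, C / √X ≤ ε / 4 := by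
    have h1 : Tendsto (fun X : ℝ => C / √X) atTop (𝓝 0) :=
      tendsto_const_nhds.div_atTop Real.tendsto_sqrt_atTop
    exact h1.eventually (ge_mem_nhds (by positivity))
  have hev2 : ∀ᶠ X : ℝ in atTop, B + M + LJ j M ≤ 3 * ε / 4 * Real.log X := by
    have h1 : Tendsto (fun X : ℝ => 3 * ε / 4 * Real.log X) atTop atTop :=
      Real.tendsto_log_atTop.const_mul_atTop (by positivity)
    exact h1.eventually_ge_atTop _
  obtain ⟨X₂, hX₂⟩ := eventually_atTop.1 (hev1.and hev2)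
  refine ⟨max (max x₀ 16) (max (max X₁ X₂) M), fun X hX => ?_⟩
  have hXx₀ : x₀ ≤ X := ((le_max_left _ _).trans (le_max_left _ _)).trans hX
  have hX16 : 16 ≤ X := ((le_max_right _ _).trans (le_max_left _ _)).trans hX
  have hXX₁ : X₁ ≤ X :=
    (((le_max_left _ _).trans (le_max_left _ _)).trans (le_max_right _ _)).trans hX
  have hXX₂ : X₂ ≤ X :=
    (((le_max_right _ _).trans (le_max_left _ _)).trans (le_max_right _ _)).trans hX
  have hXM : (M : ℝ) ≤ X := ((le_max_right _ _).trans (le_max_right _ _)).trans hX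
  obtain ⟨e1, e2⟩ := hX₂ X hXX₂
  set S1 : Set Ω := {ω | ∃ a : ℕ, M < a ∧ ω ∈ Cl A d j w a (LJ j a)} with hS1
  set S2 : Set Ω := {ω | ∀ m : ℕ, M < m → m < M + LJ j M → ω ∉ Pat A d m} with hS2
  set S3 : Set Ω := {ω | ε / 4 * Real.log X ≤ (Num A d j w ⊤ 16 X ω : ℝ)} with hS3
  set S4 : Set Ω := Fails A d j w X with hS4
  have m1 : μ.real S1 ≤ ε / 4 := (hM₁ M hMM₁).1
  have m2 : μ.real S2 ≤ ε / 4 := (hM₁ M hMM₁).2
  have m3 : μ.real S3 ≤ ε / 4 := hX₁ X hXX₁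
  have m4 : μ.real S4 ≤ ε / 4 := (hPF X hXx₀).trans e1
  have hsub : {ω | ε * Real.log X <
      |vol A d j w X ω - ((∑ a ∈ Finset.Ioc M ⌊X⌋₊, KK A d j w a ω : ℕ) : ℝ)|} ⊆
      (S1 ∪ S2) ∪ (S3 ∪ S4) := by
    intro ω hω
    by_contra hcon
    simp only [mem_union, not_or] at hcon
    obtain ⟨⟨n1, n2⟩, n3, n4⟩ := hcon
    have n1' : ∀ a : ℕ, M < a → ω ∉ Cl A d j w a (LJ j a) := fun a ha h => n1 ⟨a, ha, h⟩
    have n2' : ∃ m : ℕ, M < m ∧ m < M + LJ j M ∧ ω ∈ Pat A d m := by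
      by_contra hc
      push Not at hc
      exact n2 hc
    have n3' : (Num A d j w ⊤ 16 X ω : ℝ) < ε / 4 * Real.log X := not_le.1 n3
    obtain ⟨c1, c2⟩ := hM₀ Ω A M X ω hMM₀ hXM
    have c1' := c1 n4
    have c2' := c2 n1' n2'
    obtain ⟨d1, d2⟩ := dtr_card A d j w M X ω hM16
    have v1 := hB Ω A X ω hX16
    have hω' : ε * Real.log X <
      |vol A d j w X ω - ((∑ a ∈ Finset.Ioc M ⌊X⌋₊, KK A d j w a ω : ℕ) : ℝ)| := hω
    refine absurd hω' (not_lt.2 ?_)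
    set D' : ℕ := ∑ a ∈ Finset.Ioc M ⌊X⌋₊, KK A d j w a ω with hD'
    set nM : ℕ := {n : ℕ | (M : ℝ) < n ∧ (n : ℝ) ≤ X ∧ ω ∈ Fails A d j w n}.ncard with hnM
    set n16 : ℕ := {n : ℕ | (16 : ℝ) < n ∧ (n : ℝ) ≤ X ∧ ω ∈ Fails A d j w n}.ncard with hn16
    have q1 : (D' : ℝ) ≤ nM := by exact_mod_cast c1'
    have q2 : (nM : ℝ) ≤ D' + LJ j M := by exact_mod_cast c2'
    have q3 : (nM : ℝ) ≤ n16 := by exact_mod_cast d1
    have q4 : (n16 : ℝ) ≤ nM + M := by exact_mod_cast d2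
    rw [abs_le] at v1 ⊢
    constructor
    · linarith [v1.1, Nat.cast_nonneg (α := ℝ) M, Nat.cast_nonneg (α := ℝ) (LJ j M)]
    · linarith [v1.2]
  calc μ.real {ω | ε * Real.log X <
      |vol A d j w X ω - ((∑ a ∈ Finset.Ioc M ⌊X⌋₊, KK A d j w a ω : ℕ) : ℝ)|}
      ≤ μ.real ((S1 ∪ S2) ∪ (S3 ∪ S4)) := measureReal_mono hsub (measure_ne_top μ _)
    _ ≤ μ.real (S1 ∪ S2) + μ.real (S3 ∪ S4) := measureReal_union_le _ _
    _ ≤ (μ.real S1 + μ.real S2) + (μ.real S3 + μ.real S4) :=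
        add_le_add (measureReal_union_le _ _) (measureReal_union_le _ _)
    _ ≤ ε := by linarith

end H21SCH
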