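import Mathlib

/-! # Project SCH: definitions

Statistics of the counterexamples to Schinzel's statement on intervals of length `(log x)²`
(`MP_45ff98_nt`, `d = 0`, `j = 1`), and of the intervals of critical length without a pair
`(m, m + d)` (`MP_d610d0_nt`, twins, `d = 2`, `j = 2`), in Cramér's model. -/

namespace H21SCH

open MeasureTheory ProbabilityTheory Filter Topology Set

universe u

variable {Ω : Type u}

/-- Cramér's model: the events `A n` (`n` is chosen) are independent, with probability `1 / log n`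
for `n ≥ 3`. The random set is `{n | ω ∈ A n}`. -/
structure CramerModel [MeasurableSpace Ω] (μ : Measure Ω) (A : ℕ → Set Ω) : Prop where
  meas : ∀ n, MeasurableSet (A n)
  indep : iIndepSet A μ
  prob : ∀ n : ℕ, 3 ≤ n → μ.real (A n) = 1 / Real.log n

/-- `m` and `m + d` are chosen (for `d = 0`: `m` is chosen); we say that there is a pair at `m` -/
def Pat (A : ℕ → Set Ω) (d m : ℕ) : Set Ω := A m ∩ A (m + d)

/-- the critical length: `(log x)² + w log x` for `j = 1`, and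
`(log x)³ - (log x)² log log x + w (log x)²` for `j = 2` -/
noncomputable def len (j : ℕ) (w x : ℝ) : ℝ :=
  Real.log x ^ (j + 1) - ((j : ℝ) - 1) * (Real.log x ^ j * Real.log (Real.log x)) +
    w * Real.log x ^ j

/-- no pair in the open interval `(x, x + len j w x)` -/
def Fails (A : ℕ → Set Ω) (d j : ℕ) (w x : ℝ) : Set Ω :=
  {ω | ∀ m : ℕ, x < m → ((m + d : ℕ) : ℝ) < x + len j w x → ω ∉ Pat A d m}

/-- a pair at `a`, and no pair in `(a, a + len j u a)` -/
def Gap (A : ℕ → Set Ω) (d j : ℕ) (u : ℝ) (a : ℕ) : Set Ω := Pat A d a ∩ Fails A d j u a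

/-- the number of the `a` in `(x, y]` with `Gap u`, but not `Gap v` (unless `v = ∞`) -/
noncomputable def Num (A : ℕ → Set Ω) (d j : ℕ) (u : ℝ) (v : EReal) (x y : ℝ) (ω : Ω) : ℕ :=
  {a : ℕ | x < a ∧ (a : ℝ) ≤ y ∧ ω ∈ Gap A d j u a ∧
    ∀ v' : ℝ, (v' : EReal) = v → ω ∉ Gap A d j v' a}.ncard

/-- `e ^ (-v)`, which is `0` for `v = ∞` -/
noncomputable def tail (v : EReal) : ℝ := if v = ⊤ then 0 else Real.exp (-v.toReal)

/-- no gap in `(x, y]` -/
def NoGap (A : ℕ → Set Ω) (d j : ℕ) (w x y : ℝ) : Set Ω :=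
  {ω | ∀ a : ℕ, x < a → (a : ℝ) ≤ y → ω ∉ Gap A d j w a}

/-- all intervals `(x, x + len j w x)`, `x` real in `(X, Y]`, contain a pair -/
def Holds (A : ℕ → Set Ω) (d j : ℕ) (w X Y : ℝ) : Set Ω :=
  {ω | ∀ x : ℝ, X < x → x ≤ Y → ω ∉ Fails A d j w x}

/-- the measure of the `x ∈ (16, X]` for which `(x, x + len j w x)` contains no pair -/
noncomputable def vol (A : ℕ → Set Ω) (d j : ℕ) (w X : ℝ) (ω : Ω) : ℝ :=
  (volume : Measure ℝ).real {x : ℝ | 16 < x ∧ x ≤ X ∧ ω ∈ Fails A d j w x}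

/-- the two cases: single elements, pairs with difference `d ≥ 1` -/
def Cas (d j : ℕ) : Prop := (d = 0 ∧ j = 1) ∨ (1 ≤ d ∧ j = 2)

/-- the constants `e^{-1/2}` (`j = 1`) and `e` (`j = 2`) -/
noncomputable def lamc (j : ℕ) : ℝ := if j = 1 then Real.exp (-1 / 2) else Real.exp 1

/-! ## auxiliary definitions -/

/-- `f` depends only on the coordinates in `S` -/
def Loc (A : ℕ → Set Ω) (S : Finset ℕ) {β : Type*} (f : Ω → β) : Prop :=
  ∀ ω ω', (∀ p ∈ S, (ω ∈ A p ↔ ω' ∈ A p)) → f ω = f ω'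

/-- a pair at `a` and no pair in `(a, n + len j w n)`, `n = a + k` -/
def Cl (A : ℕ → Set Ω) (d j : ℕ) (w : ℝ) (a k : ℕ) : Set Ω :=
  {ω | ω ∈ Pat A d a ∧ ∀ m : ℕ, a < m →
    ((m + d : ℕ) : ℝ) < ((a + k : ℕ) : ℝ) + len j w ((a + k : ℕ) : ℝ) → ω ∉ Pat A d m}

/-- no pair `(m, m + d)` with `s ≤ m`, `m + d < e` -/
def NoPat (A : ℕ → Set Ω) (d s e : ℕ) : Set Ω :=
  {ω | ∀ m : ℕ, s ≤ m → m + d < e → ω ∉ Pat A d m}

/-- length of the memory -/
noncomputable def LL (a : ℕ) : ℕ := ⌊Real.log a ^ 5⌋₊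

/-- truncation of the length of a cluster -/
noncomputable def LJ (j a : ℕ) : ℕ := ⌊Real.log a ^ (j + 2)⌋₊

/-- the truncated number of the integers `n = a + k` with `Cl` -/
noncomputable def KK (A : ℕ → Set Ω) (d j : ℕ) (w : ℝ) (a : ℕ) (ω : Ω) : ℕ :=
  {k : ℕ | k < LJ j a ∧ ω ∈ Cl A d j w a k}.ncard

/-- the probability that of `n` independent events with probabilities `p 0, p 1, …` no two
consecutive ones happen -/
def Rn (p : ℕ → ℝ) : ℕ → ℝ
  | 0 => 1
  | 1 => 1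
  | n + 2 => (1 - p (n + 1)) * Rn p (n + 1) + p (n + 1) * (1 - p n) * Rn p n

/-- the means of the boxes -/
noncomputable def mean (j : ℕ) (s t u : ℝ) (v : EReal) : ℝ :=
  lamc j * (Real.exp (-u) - tail v) * Real.log (t / s)

end H21SCH
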