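import Pool.Agent.H21.SCH.Stm

/-! # Project SCH, ERR: the error terms -/

namespace H21SCH

open MeasureTheory ProbabilityTheory Filter Topology Set Complex

namespace ERRx

theorem tele {x : ℝ} (hx : 3 ≤ x) :
    1 / (x * Real.log x ^ 2) ≤ 1 / Real.log (x - 1) - 1 / Real.log x := by
  have h1 : 0 < Real.log (x - 1) := Real.log_pos (by linarith)
  have h2 : Real.log (x - 1) ≤ Real.log x := Real.log_le_log (by linarith) (by linarith)
  have h3 : 0 < Real.log x := h1.trans_le h2
  have h4 : 1 / x ≤ Real.log x - Real.log (x - 1) := by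
    have h5 := Real.log_le_sub_one_of_pos (x := (x - 1) / x) (by
      apply div_pos <;> linarith)
    rw [Real.log_div (by linarith) (by linarith)] at h5
    have h6 : (x - 1) / x - 1 = -(1 / x) := by field_simp; ring
    rw [h6] at h5
    linarith
  have h7 : 1 / Real.log (x - 1) - 1 / Real.log x =
      (Real.log x - Real.log (x - 1)) * (1 / (Real.log (x - 1) * Real.log x)) := by
    field_simp
  rw [h7]
  have h8 : 1 / (x * Real.log x ^ 2) = 1 / x * (1 / (Real.log x * Real.log x)) := by
    field_simp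
  rw [h8]
  refine mul_le_mul h4 ?_ (by positivity) (by linarith [h4, one_div_pos.2 (show 0 < x by linarith)])
  exact one_div_le_one_div_of_le (by positivity) (mul_le_mul_of_nonneg_right h2 h3.le)

theorem large (C : ℝ) : ∃ M₀ : ℕ, 8 ≤ M₀ ∧ ∀ a : ℕ, M₀ ≤ a →
    Real.log a ^ 5 + 1 ≤ (a : ℝ) / 2 ∧ 36 * C ^ 2 * Real.log a ^ 5 ≤ a := by
  have h1 : (fun x : ℝ => Real.log x ^ 5) =o[atTop] fun x : ℝ => x :=
    Real.isLittleO_pow_log_id_atTop
  have h2 := h1.bound (c := 1 / 4) (by norm_num)
  have h3 := h1.bound (c := 1 / (36 * C ^ 2 + 1)) (by positivity)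
  obtain ⟨M, hM⟩ := eventually_atTop.1 (tendsto_natCast_atTop_atTop.eventually (h2.and h3))
  refine ⟨max M 8, le_max_right _ _, fun a ha => ?_⟩
  obtain ⟨h4, h5⟩ := hM a ((le_max_left _ _).trans ha)
  have ha8 : (8 : ℝ) ≤ a := by exact_mod_cast (le_max_right _ _).trans ha
  have hl : 0 ≤ Real.log a := Real.log_nonneg (by linarith)
  rw [Real.norm_of_nonneg (by positivity), Real.norm_of_nonneg (by positivity)] at h4 h5
  constructor
  · linarith
  · rw [one_div, inv_mul_eq_div, le_div_iff₀ (by positivity)] at h5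
    have : 0 ≤ Real.log a ^ 5 := by positivity
    nlinarith

end ERRx

open ERRx in
/-- ERR -/
theorem err : S_ERR := by
  intro C hC
  obtain ⟨M₀, hM8, hM₀⟩ := large C
  refine ⟨M₀, fun M N hM => ?_⟩
  have hMl : 0 < Real.log M := Real.log_pos (by
    have : (8 : ℝ) ≤ M := by exact_mod_cast hM8.trans hM
    linarith)
  -- each term
  have hterm : ∀ a ∈ Finset.Ioc M N, 8 * (C / (a * Real.log a)) *
      ∑ b ∈ (Finset.Ioo M a).filter (a - 1 - LL a < ·), C / ((b : ℝ) * Real.log b) +
    4 * (C / (a * Real.log a)) ^ 2 ≤ 1 / Real.log ((a : ℝ) - 1) - 1 / Real.log a := by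
    intro a ha
    rw [Finset.mem_Ioc] at ha
    obtain ⟨g1, g2⟩ := hM₀ a (by omega)
    have ha8 : (8 : ℝ) ≤ a := by exact_mod_cast (by omega : 8 ≤ a)
    have hl1 : 1 ≤ Real.log a := by
      rw [Real.le_log_iff_exp_le (by linarith)]
      exact Real.exp_one_lt_d9.le.trans (by linarith)
    have hLL : (LL a : ℝ) ≤ Real.log a ^ 5 := Nat.floor_le (by positivity)
    have hb : ∀ b ∈ (Finset.Ioo M a).filter (a - 1 - LL a < ·),
        C / ((b : ℝ) * Real.log b) ≤ 4 * C / (a * Real.log a) := by
      intro b hb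
      rw [Finset.mem_filter, Finset.mem_Ioo] at hb
      have h1 : (a : ℝ) ≤ b + LL a := by exact_mod_cast (by omega : a ≤ b + LL a)
      have h2 : (a : ℝ) / 2 ≤ b := by linarith
      have h3 : Real.log a / 2 ≤ Real.log b := by
        have h4 : Real.log a ≤ Real.log ((b : ℝ) ^ 2) := by
          apply Real.log_le_log (by linarith)
          nlinarith
        rw [Real.log_pow] at h4
        push_cast at h4
        linarith
      rw [div_le_div_iff₀ (by apply mul_pos <;> linarith) (by positivity)]
      have h5 := mul_le_mul h2 h3 (by positivity) (by linarith)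
      nlinarith
    have hcard : (((Finset.Ioo M a).filter (a - 1 - LL a < ·)).card : ℝ) ≤ Real.log a ^ 5 := by
      have h1 : (Finset.Ioo M a).filter (a - 1 - LL a < ·) ⊆ Finset.Ioc (a - 1 - LL a) (a - 1) := by
        intro b hb
        rw [Finset.mem_filter, Finset.mem_Ioo] at hb
        rw [Finset.mem_Ioc]
        omega
      have h2 := Finset.card_le_card h1
      rw [Nat.card_Ioc] at h2
      have h3 : ((Finset.Ioo M a).filter (a - 1 - LL a < ·)).card ≤ LL a := by omega
      exact (by exact_mod_cast h3 : (((Finset.Ioo M a).filter (a - 1 - LL a < ·)).card : ℝ) ≤ LL a).trans hLL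
    have hsum := Finset.sum_le_card_nsmul _ _ _ hb
    rw [nsmul_eq_mul] at hsum
    have hpos : 0 < (a : ℝ) * Real.log a := by positivity
    have hq : 0 < C / (a * Real.log a) := by positivity
    have k1 : ∑ b ∈ (Finset.Ioo M a).filter (a - 1 - LL a < ·), C / ((b : ℝ) * Real.log b) ≤
        Real.log a ^ 5 * (4 * C / (a * Real.log a)) :=
      hsum.trans (mul_le_mul_of_nonneg_right hcard (by positivity))
    have k2 := mul_le_mul_of_nonneg_left k1 (show 0 ≤ 8 * (C / (a * Real.log a)) by positivity)
    refine le_trans ?_ (tele (x := (a : ℝ)) (by linarith))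
    have k3 : 8 * (C / (a * Real.log a)) * (Real.log a ^ 5 * (4 * C / (a * Real.log a))) +
        4 * (C / (a * Real.log a)) ^ 2 = (32 * Real.log a ^ 5 + 4) * C ^ 2 /
          (a ^ 2 * Real.log a ^ 2) := by
      field_simp
      ring
    have k4 : (32 * Real.log a ^ 5 + 4) * C ^ 2 / (a ^ 2 * Real.log a ^ 2) ≤
        1 / (a * Real.log a ^ 2) := by
      rw [div_le_div_iff₀ (by positivity) (by positivity)]
      have h5 : 1 ≤ Real.log a ^ 5 := one_le_pow₀ hl1
      have h6 : (32 * Real.log a ^ 5 + 4) * C ^ 2 ≤ a := by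
        have := mul_nonneg (sub_nonneg.2 h5) (sq_nonneg C)
        nlinarith
      have h7 := mul_le_mul_of_nonneg_right h6 (show 0 ≤ (a : ℝ) * Real.log a ^ 2 by positivity)
      nlinarith
    linarith
  refine (Finset.sum_le_sum hterm).trans ?_
  rcases le_total M N with h | h
  · have h1 : ∀ N, M ≤ N → ∑ a ∈ Finset.Ioc M N,
        (1 / Real.log ((a : ℝ) - 1) - 1 / Real.log a) = 1 / Real.log M - 1 / Real.log N := by
      intro N hN
      induction N, hN using Nat.le_induction with
      | base => simp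
      | succ N hN ih =>
        have h3 : Finset.Ioc M (N + 1) = insert (N + 1) (Finset.Ioc M N) := by
          ext b
          rw [Finset.mem_insert, Finset.mem_Ioc, Finset.mem_Ioc]
          omega
        rw [h3, Finset.sum_insert (by rw [Finset.mem_Ioc]; omega), ih]
        push_cast
        rw [add_sub_cancel_right]
        ring
    rw [h1 N h]
    have h2 : 0 ≤ 1 / Real.log N := by
      apply one_div_nonneg.2
      apply Real.log_nonneg
      exact_mod_cast (by omega : 1 ≤ N)
    linarith
  · rw [Finset.Ioc_eq_empty_of_le h, Finset.sum_empty]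
    positivity

end H21SCH
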