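import Pool.Agent.H21.SCH.Stm

namespace H21SCH

open MeasureTheory ProbabilityTheory Filter Topology Set Complex

/-- the probabilities -/
noncomputable def exq (n : ℕ) : ℝ := if 3 ≤ n then 1 / Real.log n else 0

theorem exq_nonneg (n : ℕ) : 0 ≤ exq n := by
  unfold exq
  split_ifs with h
  · have h1 : (1 : ℝ) ≤ n := by exact_mod_cast (by omega : 1 ≤ n)
    have := Real.log_nonneg h1
    positivity
  · exact le_rfl

theorem exq_le (n : ℕ) : exq n ≤ 1 := by
  unfold exq
  split_ifs with h
  · have h1 : (3 : ℝ) ≤ n := by exact_mod_cast h
    have h2 : 1 ≤ Real.log n := by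
      rw [Real.le_log_iff_exp_le (by linarith)]
      exact (Real.exp_one_lt_d9.le.trans (by norm_num)).trans h1
    rw [div_le_one (by linarith)]
    exact h2
  · exact zero_le_one

/-- one coordinate -/
noncomputable def exν (n : ℕ) : Measure Bool :=
  ENNReal.ofReal (exq n) • Measure.dirac true + ENNReal.ofReal (1 - exq n) • Measure.dirac false

instance exν_prob (n : ℕ) : IsProbabilityMeasure (exν n) := by
  refine ⟨?_⟩
  unfold exν
  rw [Measure.add_apply, Measure.smul_apply, Measure.smul_apply, measure_univ, measure_univ,
    smul_eq_mul, smul_eq_mul, mul_one, mul_one,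
    ← ENNReal.ofReal_add (exq_nonneg n) (sub_nonneg.2 (exq_le n))]
  rw [add_sub_cancel, ENNReal.ofReal_one]

theorem exν_true (n : ℕ) : (exν n).real {true} = exq n := by
  unfold exν Measure.real
  rw [Measure.add_apply, Measure.smul_apply, Measure.smul_apply, smul_eq_mul, smul_eq_mul,
    Measure.dirac_apply, Measure.dirac_apply]
  have h1 : indicator {true} (1 : Bool → ENNReal) true = 1 := by simp
  have h2 : indicator {true} (1 : Bool → ENNReal) false = 0 := by simp
  rw [h1, h2, mul_one, mul_zero, add_zero, ENNReal.toReal_ofReal (exq_nonneg n)]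

theorem ex_meas (n : ℕ) : MeasurableSet {ω : ℕ → Bool | ω n = true} := by
  have h : Measurable fun ω : ℕ → Bool => ω n := measurable_pi_apply n
  have h1 : MeasurableSet ({true} : Set Bool) := MeasurableSet.singleton true
  exact h h1

theorem ex : S_EX := by
  refine ⟨ℕ → Bool, inferInstance, Measure.infinitePi exν, inferInstance,
    fun n => {ω | ω n = true}, ?_, ?_, ?_⟩
  · exact ex_meas
  · rw [iIndepSet_iff_meas_biInter ex_meas]
    intro s
    have h := iIndepFun_infinitePi (P := exν) (X := fun _ (b : Bool) => b)
      (fun _ => measurable_id)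
    exact h.meas_biInter (S := s) (s := fun n => {ω : ℕ → Bool | ω n = true}) fun i _ =>
      ⟨{true}, measurableSet_singleton true, rfl⟩
  · intro n hn
    have h1 : (Measure.infinitePi exν).map (fun ω => ω n) = exν n := Measure.infinitePi_map_eval exν n
    have h2 : (Measure.infinitePi exν).real {ω : ℕ → Bool | ω n = true} = (exν n).real {true} := by
      rw [← h1, measureReal_def, measureReal_def,
        Measure.map_apply (measurable_pi_apply n) (measurableSet_singleton true)]
      rfl
    rw [h2, exν_true]
    unfold exq
    rw [if_pos hn]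

end H21SCH
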