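import Pool.Agent.H21.SCH.Stm

namespace H21SCH

open MeasureTheory ProbabilityTheory Filter Topology Set

universe u

private theorem exc_gap_eq {Ω : Type u} (A : ℕ → Set Ω) (d j : ℕ) (w : ℝ) (a : ℕ) :
    Gap A d j w a = Cl A d j w a 0 := by
  ext ω; simp [Gap, Cl, Fails]

/-- EXC. Two gaps. -/
theorem exc : S_LOC.{u} → S_DET.{u} → S_QAS.{u} → S_EXC.{u} := by
  intro hloc hdet hqas Ω _ μ _ A hA d j w hcas
  obtain ⟨a₀, ha₀, D1, D2, D3, D4, D5, D6⟩ := hdet d j w hcas
  obtain ⟨Q1, -⟩ := hqas Ω μ A hA d j w hcas
  obtain ⟨-, C1, a1, hC1, ha1, Q2⟩ := hqas Ω μ A hA d j (w - 1) hcas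
  obtain ⟨C2, a2, Q1⟩ := Q1 0
  have hj : j ≠ 0 := by rcases hcas with h | h <;> omega
  have hlam : 0 < lamc j * Real.exp (-w) := by
    unfold lamc; split_ifs <;> positivity
  set lam := lamc j * Real.exp (-w) with hlamdef
  have hlog : Tendsto (fun a : ℕ => Real.log (a : ℝ)) atTop atTop :=
    Real.tendsto_log_atTop.comp tendsto_natCast_atTop_atTop
  have hsq : Tendsto (fun a : ℕ => C2 / √(Real.log (a : ℝ))) atTop (𝓝 0) :=
    Tendsto.const_div_atTop (Real.tendsto_sqrt_atTop.comp hlog) C2
  have e1 : ∀ᶠ a : ℕ in atTop, C2 / √(Real.log (a : ℝ)) < lam / 2 :=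
    hsq.eventually (gt_mem_nhds (by positivity))
  have e2 : ∀ᶠ a : ℕ in atTop, (d : ℝ) ≤ Real.log (a : ℝ) ^ j :=
    ((tendsto_pow_atTop hj).comp hlog).eventually_ge_atTop _
  obtain ⟨a3, ha3⟩ := eventually_atTop.1 (e1.and e2)
  have hloc3 := (hloc Ω μ A hA.meas hA.indep).2.2
  refine ⟨max 1 (2 * C1 / lam), max (max a₀ a1) (max a2 a3), lt_max_of_lt_left one_pos, ?_⟩
  intro a b ha hab
  have hAa₀ : a₀ ≤ a := le_trans (le_trans (le_max_left _ _) (le_max_left _ _)) ha
  have hAa1 : a1 ≤ a := le_trans (le_trans (le_max_right _ _) (le_max_left _ _)) ha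
  have hAa2 : a2 ≤ a := le_trans (le_trans (le_max_left _ _) (le_max_right _ _)) ha
  have hAa3 : a3 ≤ a := le_trans (le_trans (le_max_right _ _) (le_max_right _ _)) ha
  obtain ⟨h1, h2⟩ := ha3 a hAa3
  have hlen := D2 (a : ℝ) (by exact_mod_cast hAa₀)
  have hprod : 0 ≤ μ.real (Gap A d j w a) * μ.real (Gap A d j w b) := by positivity
  have hlocb : Loc A (Finset.Icc b (b + LL b)) (fun ω => ω ∈ Gap A d j w b) := by
    have := D5 Ω A b 0 (by omega) (Nat.zero_le _)
    rwa [← exc_gap_eq] at this
  have hdisj : Disjoint (Finset.Ico a b) (Finset.Icc b (b + LL b)) := by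
    rw [Finset.disjoint_left]; intro x hx hx'
    rw [Finset.mem_Ico] at hx; rw [Finset.mem_Icc] at hx'; omega
  rcases lt_or_ge ((b : ℝ) + d) (a + len j w a) with hc | hc
  · -- empty
    have : Gap A d j w a ∩ Gap A d j w b = ∅ := by
      ext ω
      simp only [mem_inter_iff, mem_empty_iff_false, iff_false, not_and]
      intro h h'
      exact h.2 b (by exact_mod_cast hab) (by push_cast; exact hc) h'.1
    rw [this]; simp only [measureReal_empty]; positivity
  · rcases le_or_gt ((a : ℝ) + len j w a) b with hb | hb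
    · -- independent
      have hla : Loc A (Finset.Ico a b) (fun ω => ω ∈ Gap A d j w a) := by
        intro ω ω' h
        have had : a + d < b := by
          have : (a : ℝ) + d < b := by linarith [(Nat.cast_nonneg d : (0 : ℝ) ≤ d)]
          exact_mod_cast this
        have hp : ω ∈ Pat A d a ↔ ω' ∈ Pat A d a := by
          have i1 := h a (Finset.mem_Ico.2 ⟨le_rfl, hab⟩)
          have i2 := h (a + d) (Finset.mem_Ico.2 ⟨by omega, had⟩)
          simp only [Pat, mem_inter_iff, i1, i2]
        have hf : ω ∈ Fails A d j w a ↔ ω' ∈ Fails A d j w a := by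
          simp only [Fails, mem_setOf_eq]
          refine forall_congr' fun m => forall_congr' fun hm => forall_congr' fun hm' => ?_
          have hm1 : a < m := by exact_mod_cast hm
          have hm2 : m + d < b := by exact_mod_cast lt_of_lt_of_le hm' hb
          have i1 := h m (Finset.mem_Ico.2 ⟨by omega, by omega⟩)
          have i2 := h (m + d) (Finset.mem_Ico.2 ⟨by omega, by omega⟩)
          simp only [Pat, mem_inter_iff, i1, i2]
        simp only [Gap, mem_inter_iff, hp, hf]
      rw [hloc3 _ _ _ _ hdisj hla hlocb]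
      exact le_mul_of_one_le_left hprod (le_max_left _ _)
    · -- b slightly before the end of the interval
      set G : Set Ω := {ω | ω ∈ Pat A d a ∧ ∀ m : ℕ, a < m → m + d < b → ω ∉ Pat A d m} with hG
      have had : a + d < b := by
        have : (a : ℝ) + d < b := by linarith
        exact_mod_cast this
      have hla : Loc A (Finset.Ico a b) (fun ω => ω ∈ G) := by
        intro ω ω' h
        have hp : ω ∈ Pat A d a ↔ ω' ∈ Pat A d a := by
          have i1 := h a (Finset.mem_Ico.2 ⟨le_rfl, hab⟩)
          have i2 := h (a + d) (Finset.mem_Ico.2 ⟨by omega, had⟩)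
          simp only [Pat, mem_inter_iff, i1, i2]
        have hf : (∀ m : ℕ, a < m → m + d < b → ω ∉ Pat A d m) ↔
            (∀ m : ℕ, a < m → m + d < b → ω' ∉ Pat A d m) := by
          refine forall_congr' fun m => forall_congr' fun hm1 => forall_congr' fun hm2 => ?_
          have i1 := h m (Finset.mem_Ico.2 ⟨by omega, by omega⟩)
          have i2 := h (m + d) (Finset.mem_Ico.2 ⟨by omega, by omega⟩)
          simp only [Pat, mem_inter_iff, i1, i2]
        simp only [hG, mem_setOf_eq, hp, hf]
      have hsub : Gap A d j w a ∩ Gap A d j w b ⊆ G ∩ Gap A d j w b := by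
        rintro ω ⟨h, h'⟩
        refine ⟨⟨h.1, fun m hm hmb => ?_⟩, h'⟩
        refine h.2 m (by exact_mod_cast hm) ?_
        have : ((m + d : ℕ) : ℝ) < b := by exact_mod_cast hmb
        linarith
      have hGsub : G ⊆ Gap A d j (w - 1) a := by
        rintro ω ⟨hp, hf⟩
        refine ⟨hp, fun m hm hm' => ?_⟩
        refine hf m (by exact_mod_cast hm) ?_
        have hl : len j (w - 1) a = len j w a - Real.log a ^ j := by unfold len; ring
        have : ((m + d : ℕ) : ℝ) < b := by
          rw [hl] at hm'; linarith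
        exact_mod_cast this
      have hGm : μ.real G ≤ 2 * C1 / lam * μ.real (Gap A d j w a) := by
        have q2 := Q2 a 0 hAa1 (Nat.zero_le _)
        have q1 := Q1 a 0 hAa2 (by simp)
        rw [← exc_gap_eq] at q1 q2
        simp only [CharP.cast_eq_zero, zero_div, neg_zero, Real.exp_zero, mul_one, sub_zero] at q1 q2
        have hmono : μ.real G ≤ μ.real (Gap A d j (w - 1) a) := measureReal_mono hGsub
        have hal : 0 < (a : ℝ) * Real.log a := by
          have h16 : (16 : ℝ) ≤ a := by exact_mod_cast le_trans ha₀ hAa₀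
          have : 0 < Real.log a := Real.log_pos (by linarith)
          positivity
        have q1' : lam / 2 ≤ μ.real (Gap A d j w a) * (a * Real.log a) := by
          have := (abs_le.1 q1).1
          rw [← hlamdef] at this
          linarith
        have hCl : 0 < 2 * C1 / lam := by positivity
        have : μ.real G * (a * Real.log a) ≤
            (2 * C1 / lam * μ.real (Gap A d j w a)) * (a * Real.log a) := by
          calc μ.real G * (a * Real.log a) ≤ μ.real (Gap A d j (w - 1) a) * (a * Real.log a) :=
                mul_le_mul_of_nonneg_right hmono hal.le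
            _ ≤ C1 := q2
            _ = 2 * C1 / lam * (lam / 2) := by field_simp
            _ ≤ 2 * C1 / lam * (μ.real (Gap A d j w a) * (a * Real.log a)) :=
                mul_le_mul_of_nonneg_left q1' hCl.le
            _ = _ := by ring
        exact le_of_mul_le_mul_right this hal
      calc μ.real (Gap A d j w a ∩ Gap A d j w b) ≤ μ.real (G ∩ Gap A d j w b) :=
            measureReal_mono hsub
        _ = μ.real G * μ.real (Gap A d j w b) := hloc3 _ _ _ _ hdisj hla hlocb
        _ ≤ (2 * C1 / lam * μ.real (Gap A d j w a)) * μ.real (Gap A d j w b) :=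
            mul_le_mul_of_nonneg_right hGm measureReal_nonneg
        _ = 2 * C1 / lam * (μ.real (Gap A d j w a) * μ.real (Gap A d j w b)) := by ring
        _ ≤ _ := mul_le_mul_of_nonneg_right (le_max_right _ _) hprod

end H21SCH
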