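import Pool.Agent.H21.SCH.Stm

namespace H21SCH

open MeasureTheory ProbabilityTheory Filter Topology Set Complex

theorem expp : S_EXPP := by
  intro s z r
  induction s using Finset.induction_on with
  | empty => intro _ _ _; simp
  | insert a s ha ih =>
    intro h1 h2 h3
    have ih' := ih (fun b hb => h1 b (Finset.mem_insert_of_mem hb))
      (fun b hb => h2 b (Finset.mem_insert_of_mem hb))
      (fun b hb => h3 b (Finset.mem_insert_of_mem hb))
    have hre : ∀ b ∈ insert a s, (z b).re ≤ 0 := by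
      intro b hb
      have h4 : (1 + z b).re ≤ 1 := (Complex.re_le_norm _).trans (h1 b hb)
      rw [Complex.add_re, Complex.one_re] at h4
      linarith
    rw [Finset.prod_insert ha, Finset.sum_insert ha, Finset.sum_insert ha, Complex.exp_add]
    obtain ⟨P, hP⟩ : ∃ P : ℂ, P = ∏ x ∈ s, (1 + z x) := ⟨_, rfl⟩
    obtain ⟨Q, hQ⟩ : ∃ Q : ℂ, Q = cexp (∑ x ∈ s, z x) := ⟨_, rfl⟩
    rw [← hP, ← hQ] at ih' ⊢
    have hQ1 : ‖Q‖ ≤ 1 := by
      rw [hQ, Complex.norm_exp, Real.exp_le_one_iff, Complex.re_sum]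
      exact Finset.sum_nonpos fun b hb => hre b (Finset.mem_insert_of_mem hb)
    have e : (1 + z a) * P - cexp (z a) * Q =
        (1 + z a) * (P - Q) - (cexp (z a) - 1 - z a) * Q := by ring
    have hza := h2 a (Finset.mem_insert_self _ _)
    have hra := h3 a (Finset.mem_insert_self _ _)
    have h5 : ‖cexp (z a) - 1 - z a‖ ≤ ‖z a‖ ^ 2 :=
      Complex.norm_exp_sub_one_sub_id_le (by linarith)
    have h6 : ‖z a‖ ^ 2 ≤ 4 * r a ^ 2 := by
      have := pow_le_pow_left₀ (norm_nonneg _) hza 2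
      nlinarith
    have h7 := h1 a (Finset.mem_insert_self _ _)
    rw [e]
    calc ‖(1 + z a) * (P - Q) - (cexp (z a) - 1 - z a) * Q‖
        ≤ ‖(1 + z a) * (P - Q)‖ + ‖(cexp (z a) - 1 - z a) * Q‖ := norm_sub_le _ _
      _ = ‖1 + z a‖ * ‖P - Q‖ + ‖cexp (z a) - 1 - z a‖ * ‖Q‖ := by rw [norm_mul, norm_mul]
      _ ≤ 1 * ‖P - Q‖ + ‖cexp (z a) - 1 - z a‖ * 1 := by gcongr
      _ ≤ 4 * r a ^ 2 + ∑ b ∈ s, 4 * r b ^ 2 := by linarith

end H21SCH
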