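import Pool.Agent.H21.SCH.Stm

set_option autoImplicit false

/-! # Project SCH, part GAM -/

namespace H21SCH

open MeasureTheory ProbabilityTheory Filter Topology Set Complex

universe u

namespace GAMp

theorem exp_diff (x y : ℝ) : ‖cexp (I * x) - cexp (I * y)‖ ≤ |x - y| := by
  have h : cexp (I * x) - cexp (I * y) = cexp (I * y) * (cexp (I * ((x - y : ℝ) : ℂ)) - 1) := by
    rw [mul_sub, ← Complex.exp_add, mul_one]
    congr 2
    push_cast
    ring
  rw [h, norm_mul, mul_comm I (y : ℂ), Complex.norm_exp_ofReal_mul_I, one_mul]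
  have := Real.norm_exp_I_mul_ofReal_sub_one_le (x := x - y)
  simpa using this

theorem exp_norm (x : ℝ) : ‖cexp (I * x)‖ = 1 := by
  rw [mul_comm, Complex.norm_exp_ofReal_mul_I]

theorem exp_int {Ω : Type u} [MeasurableSpace Ω] (μ : Measure Ω) [IsProbabilityMeasure μ]
    {f : Ω → ℝ} (hf : Measurable f) : Integrable (fun ω => cexp (I * f ω)) μ := by
  refine (integrable_const (1 : ℝ)).mono' ?_ (Eventually.of_forall fun ω => ?_)
  · exact (Complex.measurable_exp.comp ((Complex.measurable_ofReal.comp hf).const_mul I)).aestronglyMeasurable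
  · exact (exp_norm _).le

theorem int_diff {Ω : Type u} [MeasurableSpace Ω] (μ : Measure Ω) [IsProbabilityMeasure μ]
    {f g : Ω → ℝ} (hf : Measurable f) (hg : Measurable g) {c e : ℝ} (hc : 0 ≤ c)
    (hb : μ.real {ω | c < |f ω - g ω|} ≤ e) :
    ‖∫ ω, cexp (I * f ω) ∂μ - ∫ ω, cexp (I * g ω) ∂μ‖ ≤ c + 2 * e := by
  classical
  have hB : MeasurableSet {ω | c < |f ω - g ω|} :=
    measurableSet_lt measurable_const (hf.sub hg).norm
  have i1 := exp_int μ hf
  have i2 := exp_int μ hg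
  rw [← integral_sub i1 i2]
  calc ‖∫ ω, (cexp (I * f ω) - cexp (I * g ω)) ∂μ‖
      ≤ ∫ ω, ‖cexp (I * f ω) - cexp (I * g ω)‖ ∂μ := norm_integral_le_integral_norm _
    _ ≤ ∫ ω, (c + {ω | c < |f ω - g ω|}.indicator (fun _ => (2 : ℝ)) ω) ∂μ := by
        refine integral_mono (i1.sub i2).norm
          ((integrable_const c).add ((integrable_const (2 : ℝ)).indicator hB)) fun ω => ?_
        simp only
        by_cases h : c < |f ω - g ω|
        · have h' : ω ∈ {ω | c < |f ω - g ω|} := h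
          rw [Set.indicator_of_mem h']
          have := norm_sub_le (cexp (I * f ω)) (cexp (I * g ω))
          rw [exp_norm, exp_norm] at this
          linarith
        · have h' : ω ∉ {ω | c < |f ω - g ω|} := h
          rw [Set.indicator_of_notMem h', add_zero]
          exact (exp_diff _ _).trans (not_lt.1 h)
    _ = c + 2 * μ.real {ω | c < |f ω - g ω|} := by
        rw [integral_add (integrable_const c) ((integrable_const (2 : ℝ)).indicator hB),
          integral_indicator_const _ hB]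
        simp
        ring
    _ ≤ c + 2 * e := by linarith

end GAMp

open GAMp in
theorem gam : S_LOC.{u} → S_MAS.{u} → S_WA.{u} → S_ASY.{u} → S_GCH → S_CDF.{u} → S_DTR.{u} →
    S_MEV.{u} → S_GAM.{u} := by
  classical
  intro hLOC hMAS hWA hASY hGCH hCDF hDTR hMEV Ω _ μ _ A hA d j w y hc
  have hj : 1 ≤ j := by rcases hc with ⟨_, h⟩ | ⟨_, h⟩ <;> omega
  obtain ⟨lam, hlamdef⟩ : ∃ lam : ℝ, lam = lamc j * Real.exp (-w) / j := ⟨_, rfl⟩
  have hlam : 0 < lam := by
    have h1 : 0 < lamc j := by unfold lamc; split_ifs <;> positivity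
    have h2 : (0 : ℝ) < j := by exact_mod_cast hj
    rw [hlamdef]
    positivity
  have : IsProbabilityMeasure (gammaMeasure lam 1) := isProbabilityMeasure_gammaMeasure hlam one_pos
  have hat : ∀ y : ℝ, gammaMeasure lam 1 {y} = 0 := fun y => by
    have h1 : gammaMeasure lam 1 ≪ volume := withDensity_absolutelyContinuous _ _
    exact h1 Real.volume_singleton
  have hvm := fun X => hMEV Ω μ A hA d j w X hc
  have hch : ∀ θ : ℝ, Tendsto (fun X : ℝ =>
      ∫ ω, cexp (I * θ * ((vol A d j w X ω / Real.log X ^ j : ℝ) : ℂ)) ∂μ) atTop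
      (𝓝 (charFun (gammaMeasure lam 1) θ)) := by
    intro θ
    rw [hGCH lam hlam θ, Metric.tendsto_nhds]
    intro ε hε
    obtain ⟨e, he, heε⟩ : ∃ e : ℝ, 0 < e ∧ (|θ| + 4) * e < ε := by
      have h4 : 0 < |θ| + 4 := by positivity
      refine ⟨ε / (2 * (|θ| + 4)), by positivity, ?_⟩
      have : (|θ| + 4) * (ε / (2 * (|θ| + 4))) = ε / 2 := by field_simp
      rw [this]
      linarith
    obtain ⟨M₀, hM₀⟩ := hMAS Ω μ A hA d j w hc
    obtain ⟨M₁, hM₁⟩ := hDTR Ω μ A hA d j w e hc he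
    obtain ⟨a₀, ha₀⟩ := hWA d j w hc
    have hwa := fun a ha => ha₀ Ω μ A hA a ha
    obtain ⟨M, g0, g1, g2, g3, g4⟩ : ∃ M : ℕ, M₀ ≤ M ∧ M₁ ≤ M ∧ a₀ ≤ M ∧ 2 ≤ M ∧
        1 / Real.log M ≤ e := by
      have : Tendsto (fun M : ℕ => 1 / Real.log M) atTop (𝓝 0) := by
        simp_rw [one_div]
        exact (Real.tendsto_log_atTop.comp tendsto_natCast_atTop_atTop).inv_tendsto_atTop
      obtain ⟨M, h⟩ := ((this.eventually_lt_const he).and ((eventually_ge_atTop M₀).and
        ((eventually_ge_atTop M₁).and ((eventually_ge_atTop a₀).and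
          (eventually_ge_atTop 2))))).exists
      exact ⟨M, h.2.1, h.2.2.1, h.2.2.2.1, h.2.2.2.2, h.1.le⟩
    obtain ⟨X₁, hX₁⟩ := hM₁ M g1
    have hexp := (Complex.continuous_exp.tendsto _).comp (hASY Ω μ A hA d j w θ M hc g3)
    rw [Metric.tendsto_nhds] at hexp
    filter_upwards [hexp e he, eventually_ge_atTop X₁, eventually_ge_atTop (Real.exp 1)]
      with X k1 k2 k3
    have hlog : 1 ≤ Real.log X := by
      rw [Real.le_log_iff_exp_le (lt_of_lt_of_le (Real.exp_pos 1) k3)]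
      exact k3
    have hLj : 0 < Real.log X ^ j := by positivity
    have hLL : Real.log X ≤ Real.log X ^ j := le_self_pow₀ hlog (by omega)
    obtain ⟨φ, hφ⟩ : ∃ φ : ℝ, φ = θ / Real.log X ^ j := ⟨_, rfl⟩
    -- the sum of the truncated clusters
    obtain ⟨D, hD⟩ : ∃ D : Ω → ℕ, D = fun ω => ∑ a ∈ Finset.Ioc M ⌊X⌋₊, KK A d j w a ω :=
      ⟨_, rfl⟩
    have hmem : ∀ a ∈ Finset.Ioc M ⌊X⌋₊, a₀ ≤ a := fun a ha =>
      g2.trans (Finset.mem_Ioc.1 ha).1.le
    have hKm : ∀ a ∈ Finset.Ioc M ⌊X⌋₊, Measurable (KK A d j w a) := fun a ha =>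
      (hLOC Ω μ A hA.meas hA.indep).1 _ ℕ _ (hwa a (hmem a ha)).2.1
    have hDm : Measurable D := by
      rw [hD]
      exact Finset.measurable_fun_sum _ hKm
    have hDm' : Measurable fun ω => (D ω : ℝ) := measurable_from_nat.comp hDm
    have hmas := hM₀ M ⌊X⌋₊ g0 (fun a ω => cexp (I * φ * (KK A d j w a ω : ℂ)))
      (fun a ω => by
        have : I * φ * (KK A d j w a ω : ℂ) = I * ((φ * (KK A d j w a ω : ℝ) : ℝ) : ℂ) := by
          push_cast
          ring
        rw [this]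
        exact (exp_norm _).le)
      (fun a ha ω ω' h => by
        have := (hwa a (hmem a ha)).2.1 ω ω' h
        simp only [this])
      (fun a ha ω h => by
        rw [(hwa a (hmem a ha)).1 ω h]
        simp)
    have hprod : ∀ ω, ∏ a ∈ Finset.Ioc M ⌊X⌋₊, cexp (I * φ * (KK A d j w a ω : ℂ)) =
        cexp (I * ((φ * (D ω : ℝ) : ℝ) : ℂ)) := by
      intro ω
      rw [← Complex.exp_sum, ← Finset.mul_sum, hD]
      congr 1
      push_cast
      ring
    have hsum : ∑ a ∈ Finset.Ioc M ⌊X⌋₊, ∫ ω, (cexp (I * φ * (KK A d j w a ω : ℂ)) - 1) ∂μ =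
        ∑ a ∈ Finset.Ioc M ⌊X⌋₊, (cexp (I * (θ / Real.log X ^ j : ℝ)) - 1) *
          ∑ k ∈ Finset.range (LJ j a), cexp (I * (θ / Real.log X ^ j : ℝ) * k) *
            (μ.real (Cl A d j w a k) : ℝ) := by
      refine Finset.sum_congr rfl fun a ha => ?_
      rw [(hwa a (hmem a ha)).2.2 φ, hφ]
    rw [hsum, integral_congr_ae (Eventually.of_forall hprod)] at hmas
    have hdtr := hX₁ X k2
    have hvD : ‖∫ ω, cexp (I * ((θ * (vol A d j w X ω / Real.log X ^ j) : ℝ) : ℂ)) ∂μ -
        ∫ ω, cexp (I * ((φ * (D ω : ℝ) : ℝ) : ℂ)) ∂μ‖ ≤ |θ| * e + 2 * e := by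
      refine int_diff μ (((hvm X).div_const _).const_mul θ) (hDm'.const_mul φ)
        (by positivity) (le_trans (measureReal_mono ?_) hdtr)
      intro ω hω
      simp only [Set.mem_ofPred_eq] at hω ⊢
      by_contra hcon
      push Not at hcon
      have e1 : θ * (vol A d j w X ω / Real.log X ^ j) - φ * (D ω : ℝ) =
          θ * ((vol A d j w X ω - (D ω : ℝ)) / Real.log X ^ j) := by
        rw [hφ]
        field_simp
      rw [e1, abs_mul, abs_div, abs_of_pos hLj] at hω
      have e2 : |vol A d j w X ω - (D ω : ℝ)| / Real.log X ^ j ≤ e := by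
        rw [div_le_iff₀ hLj]
        rw [hD]
        refine hcon.trans ?_
        exact mul_le_mul_of_nonneg_left hLL he.le
      have e3 := mul_le_mul_of_nonneg_left e2 (abs_nonneg θ)
      linarith
    have hint : ∫ ω, cexp (I * θ * ((vol A d j w X ω / Real.log X ^ j : ℝ) : ℂ)) ∂μ =
        ∫ ω, cexp (I * ((θ * (vol A d j w X ω / Real.log X ^ j) : ℝ) : ℂ)) ∂μ := by
      refine integral_congr_ae (Eventually.of_forall fun ω => ?_)
      simp only
      congr 1
      push_cast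
      ring
    rw [dist_eq_norm, hint]
    rw [dist_eq_norm] at k1
    simp only [Function.comp_apply] at k1
    rw [← hlamdef] at k1
    have t1 := norm_sub_le_norm_sub_add_norm_sub
      (∫ ω, cexp (I * ((θ * (vol A d j w X ω / Real.log X ^ j) : ℝ) : ℂ)) ∂μ)
      (∫ ω, cexp (I * ((φ * (D ω : ℝ) : ℝ) : ℂ)) ∂μ) (cexp (-(lam : ℂ) * Complex.log (1 - I * θ)))
    have t2 := norm_sub_le_norm_sub_add_norm_sub
      (∫ ω, cexp (I * ((φ * (D ω : ℝ) : ℝ) : ℂ)) ∂μ)
      (cexp (∑ a ∈ Finset.Ioc M ⌊X⌋₊, (cexp (I * (θ / Real.log X ^ j : ℝ)) - 1) *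
          ∑ k ∈ Finset.range (LJ j a), cexp (I * (θ / Real.log X ^ j : ℝ) * k) *
            (μ.real (Cl A d j w a k) : ℝ))) (cexp (-(lam : ℂ) * Complex.log (1 - I * θ)))
    linarith
  have hcdf := hCDF Ω μ (fun X ω => vol A d j w X ω / Real.log X ^ j) (gammaMeasure lam 1) hat
    (fun X => (hvm X).div_const _) hch y
  rw [← hlamdef]
  refine hcdf.congr' ?_
  filter_upwards [eventually_gt_atTop 1] with X hX
  congr 1
  ext ω
  simp only [Set.mem_ofPred_eq]
  rw [div_le_iff₀ (pow_pos (Real.log_pos hX) j)]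

end H21SCH
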