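import Pool.Agent.H21.SCH.Stm

namespace H21SCH

open MeasureTheory ProbabilityTheory Filter Topology Set Complex

/-- the density with the factor `exp (t x)` -/
theorem gch_int (lam : ℝ) (hl : 0 < lam) (t : ℝ) (ht : t < 1) :
    IntegrableOn (fun x : ℝ => x ^ (lam - 1) * Real.exp (-((1 - t) * x))) (Ioi 0) := by
  have h := integrableOn_rpow_mul_exp_neg_mul_rpow (s := lam - 1) (p := 1) (b := 1 - t)
    (by linarith) one_pos (by linarith)
  refine h.congr_fun (fun x hx => ?_) measurableSet_Ioi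
  simp only [Real.rpow_one, neg_mul]

theorem gch_density (lam : ℝ) (t x : ℝ) (hx : 0 < x) :
    gammaPDFReal lam 1 x * Real.exp (t * x) =
      (Real.Gamma lam)⁻¹ * (x ^ (lam - 1) * Real.exp (-((1 - t) * x))) := by
  unfold gammaPDFReal
  rw [if_pos hx.le, Real.one_rpow, mul_assoc, mul_assoc, ← Real.exp_add, one_div]
  congr 3
  ring

theorem gch_zero (lam : ℝ) (x : ℝ) (hx : x < 0) : gammaPDFReal lam 1 x = 0 := by
  unfold gammaPDFReal
  rw [if_neg (not_le.2 hx)]

theorem gch_integrable (lam : ℝ) (hl : 0 < lam) (t : ℝ) (ht : t < 1) :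
    Integrable (fun x : ℝ => gammaPDFReal lam 1 x * Real.exp (t * x)) := by
  have h1 : IntegrableOn (fun x : ℝ => gammaPDFReal lam 1 x * Real.exp (t * x)) (Ioi 0) := by
    have h0 : IntegrableOn (fun x : ℝ => (Real.Gamma lam)⁻¹ *
        (x ^ (lam - 1) * Real.exp (-((1 - t) * x)))) (Ioi 0) :=
      (gch_int lam hl t ht).const_mul (Real.Gamma lam)⁻¹
    exact h0.congr_fun (fun x hx => (gch_density lam t x hx).symm) measurableSet_Ioi
  have h2 : IntegrableOn (fun x : ℝ => gammaPDFReal lam 1 x * Real.exp (t * x)) (Iio 0) := by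
    have h4 : IntegrableOn (fun _ : ℝ => (0 : ℝ)) (Iio 0) := integrableOn_zero
    refine h4.congr_fun (fun x hx => ?_) measurableSet_Iio
    change (0 : ℝ) = gammaPDFReal lam 1 x * Real.exp (t * x)
    rw [gch_zero lam x hx, zero_mul]
  have h3 : IntegrableOn (fun x : ℝ => gammaPDFReal lam 1 x * Real.exp (t * x)) (Iic 0) := by
    rw [integrableOn_Iic_iff_integrableOn_Iio]
    exact h2
  rw [← integrableOn_univ, ← Iic_union_Ioi (a := (0 : ℝ))]
  exact h3.union h1

theorem gch_nn (lam : ℝ) (hl : 0 < lam) (x : ℝ) : 0 ≤ gammaPDFReal lam 1 x :=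
  gammaPDFReal_nonneg hl one_pos x

theorem gch_measure (lam : ℝ) : gammaMeasure lam 1 =
    volume.withDensity fun x => ENNReal.ofReal (gammaPDFReal lam 1 x) := rfl

theorem gch_mgf_integrable (lam : ℝ) (hl : 0 < lam) (t : ℝ) (ht : t < 1) :
    Integrable (fun x : ℝ => Real.exp (t * x)) (gammaMeasure lam 1) := by
  rw [gch_measure, integrable_withDensity_iff_integrable_smul'
    (measurable_gammaPDFReal lam 1).ennreal_ofReal (Eventually.of_forall fun x => ENNReal.ofReal_lt_top)]
  refine (gch_integrable lam hl t ht).congr (Eventually.of_forall fun x => ?_)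
  change gammaPDFReal lam 1 x * Real.exp (t * x) =
    (ENNReal.ofReal (gammaPDFReal lam 1 x)).toReal • Real.exp (t * x)
  rw [ENNReal.toReal_ofReal (gch_nn lam hl x), smul_eq_mul]

theorem gch_mgf (lam : ℝ) (hl : 0 < lam) (t : ℝ) (ht : t < 1) :
    mgf id (gammaMeasure lam 1) t = (1 - t) ^ (-lam) := by
  have h1t : 0 < 1 - t := by linarith
  unfold mgf
  rw [gch_measure, integral_withDensity_eq_integral_toReal_smul
    (measurable_gammaPDFReal lam 1).ennreal_ofReal (Eventually.of_forall fun x => ENNReal.ofReal_lt_top)]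
  have h1 : ∫ x, (ENNReal.ofReal (gammaPDFReal lam 1 x)).toReal • Real.exp (t * id x) =
      ∫ x, gammaPDFReal lam 1 x * Real.exp (t * x) := by
    refine integral_congr_ae (Eventually.of_forall fun x => ?_)
    change (ENNReal.ofReal (gammaPDFReal lam 1 x)).toReal • Real.exp (t * x) =
      gammaPDFReal lam 1 x * Real.exp (t * x)
    rw [ENNReal.toReal_ofReal (gch_nn lam hl x), smul_eq_mul]
  rw [h1]
  have h2 : ∫ x, gammaPDFReal lam 1 x * Real.exp (t * x) =
      ∫ x in Ioi 0, gammaPDFReal lam 1 x * Real.exp (t * x) := by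
    rw [← integral_Ici_eq_integral_Ioi]
    symm
    refine setIntegral_eq_integral_of_forall_compl_eq_zero fun x hx => ?_
    rw [gch_zero lam x (by simpa using hx), zero_mul]
  rw [h2, setIntegral_congr_fun measurableSet_Ioi (fun x hx => gch_density lam t x hx),
    integral_const_mul, Real.integral_rpow_mul_exp_neg_mul_Ioi hl h1t]
  have h3 : Real.Gamma lam ≠ 0 := (Real.Gamma_pos_of_pos hl).ne'
  rw [mul_comm ((1 / (1 - t)) ^ lam) (Real.Gamma lam), ← mul_assoc, inv_mul_cancel₀ h3, one_mul,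
    Real.rpow_neg h1t.le, one_div, Real.inv_rpow h1t.le]

theorem gch : S_GCH := by
  intro lam hl θ
  have hset : Iio (1 : ℝ) ⊆ integrableExpSet id (gammaMeasure lam 1) := fun t ht =>
    gch_mgf_integrable lam hl t ht
  have hint : Iio (1 : ℝ) ⊆ interior (integrableExpSet id (gammaMeasure lam 1)) :=
    interior_maximal hset isOpen_Iio
  let U : Set ℂ := {z | z.re < 1}
  have hUpre : IsPreconnected U := (convex_halfSpace_re_lt 1).isPreconnected
  have hF : AnalyticOnNhd ℂ (complexMGF id (gammaMeasure lam 1)) U := fun z hz =>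
    analyticAt_complexMGF (hint hz)
  have hG : AnalyticOnNhd ℂ (fun z : ℂ => cexp (-(lam : ℂ) * Complex.log (1 - z))) U := by
    intro z hz
    have h1 : (1 - z) ∈ slitPlane := by
      left
      rw [Complex.sub_re, Complex.one_re]
      exact sub_pos.2 hz
    have h2 : AnalyticAt ℂ (fun z : ℂ => 1 - z) z := by fun_prop
    exact ((analyticAt_const.mul (h2.clog h1))).cexp
  have h0 : (0 : ℂ) ∈ U := by
    change (0 : ℂ).re < 1
    rw [Complex.zero_re]
    exact one_pos
  have hreal : ∀ t : ℝ, t < 1 → complexMGF id (gammaMeasure lam 1) (t : ℂ) =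
      cexp (-(lam : ℂ) * Complex.log (1 - (t : ℂ))) := by
    intro t ht
    have h1t : 0 < 1 - t := by linarith
    rw [complexMGF_ofReal, gch_mgf lam hl t ht, Real.rpow_def_of_pos h1t]
    rw [show (1 : ℂ) - (t : ℂ) = ((1 - t : ℝ) : ℂ) by push_cast; ring, ← Complex.ofReal_log h1t.le]
    rw [Complex.ofReal_exp]
    congr 1
    push_cast
    ring
  have hfreq : ∃ᶠ z in 𝓝[≠] (0 : ℂ), complexMGF id (gammaMeasure lam 1) z =
      (fun z : ℂ => cexp (-(lam : ℂ) * Complex.log (1 - z))) z := by
    have h1 : Tendsto (fun n : ℕ => (((1 : ℝ) / (n + 2) : ℝ) : ℂ)) atTop (𝓝[≠] (0 : ℂ)) := by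
      refine tendsto_nhdsWithin_iff.2 ⟨?_, Eventually.of_forall fun n => ?_⟩
      · have h2 : Tendsto (fun n : ℕ => (1 : ℝ) / ((n : ℝ) + 2)) atTop (𝓝 0) := by
          have h3 : Tendsto (fun n : ℕ => (n : ℝ) + 2) atTop atTop :=
            tendsto_atTop_add_const_right _ _ tendsto_natCast_atTop_atTop
          exact h3.const_div_atTop 1
        have h4 := (Complex.continuous_ofReal.tendsto 0).comp h2
        rwa [Complex.ofReal_zero] at h4
      · rw [mem_compl_iff, mem_singleton_iff, Complex.ofReal_eq_zero]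
        positivity
    refine h1.frequently (Frequently.of_forall fun n => ?_)
    refine hreal _ ?_
    rw [div_lt_one (by positivity)]
    have : (0 : ℝ) ≤ n := Nat.cast_nonneg n
    linarith
  have heq := hF.eqOn_of_preconnected_of_frequently_eq hG hUpre h0 hfreq
  have hθ : ((θ : ℂ) * I) ∈ U := by
    change ((θ : ℂ) * I).re < 1
    simp
  have h1 := heq hθ
  rw [complexMGF_id_mul_I] at h1
  rw [h1]
  change cexp (-(lam : ℂ) * Complex.log (1 - (θ : ℂ) * I)) = _
  rw [mul_comm (θ : ℂ) I]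

end H21SCH
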