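import Pool.Agent.H21.SCH.Stm

set_option autoImplicit false

/-! # SCH-GEO: the geometric sums -/

namespace H21SCH

open MeasureTheory ProbabilityTheory Filter Topology Set Complex

universe u

namespace GEOX

lemma one_sub_exp_lower {t : ℝ} (h0 : 0 ≤ t) (h1 : t ≤ 1) : t / 2 ≤ 1 - Real.exp (-t) := by
  have h2 : Real.exp (-t) ≤ 1 / (1 + t) := by
    rw [Real.exp_neg, ← one_div]
    exact one_div_le_one_div_of_le (by linarith) (by linarith [Real.add_one_le_exp t])
  have h3 : 1 / (1 + t) ≤ 1 - t / 2 := by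
    rw [div_le_iff₀ (by linarith)]
    nlinarith
  linarith

lemma geom_le {t : ℝ} (h0 : 0 < t) (h1 : t ≤ 1) (N : ℕ) :
    ∑ k ∈ Finset.range N, Real.exp (-t * k) ≤ 2 / t := by
  have hr : ∀ k : ℕ, Real.exp (-t * k) = Real.exp (-t) ^ k := by
    intro k; rw [← Real.exp_nat_mul]; ring_nf
  simp only [hr]
  have hlow := one_sub_exp_lower h0.le h1
  have hpos : 0 < 1 - Real.exp (-t) := by linarith
  have hne : Real.exp (-t) ≠ 1 := by linarith
  rw [geom_sum_eq hne, ← neg_div_neg_eq, neg_sub, neg_sub]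
  calc (1 - Real.exp (-t) ^ N) / (1 - Real.exp (-t)) ≤ 1 / (1 - Real.exp (-t)) := by
        apply div_le_div_of_nonneg_right _ hpos.le
        have : 0 ≤ Real.exp (-t) ^ N := by positivity
        linarith
    _ ≤ 1 / (t / 2) := one_div_le_one_div_of_le (by linarith) hlow
    _ = 2 / t := by field_simp

lemma core (q : ℕ → ℝ) (N : ℕ) (l lam K C s φ Θ : ℝ) (hl : 1 ≤ l) (hlam : 0 ≤ lam) (hK : 0 ≤ K)
    (hC : 0 ≤ C) (hs : 0 ≤ s)
    (h1 : ∀ k : ℕ, (k : ℝ) ≤ K * l → |q k - lam * Real.exp (-(k / l))| ≤ s)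
    (h2 : ∀ k : ℕ, k ≤ N → q k ≤ C * Real.exp (-(k : ℝ) / (2 * l))) (hq : ∀ k, 0 ≤ q k)
    (hN : K * l ≤ N) (hφ : |φ| ≤ Θ / l) (hΘ : (1 + Θ) / l ≤ 1 / 2) :
    ‖∑ k ∈ Finset.range N, cexp (I * (φ : ℂ) * k) * (q k : ℂ) - (lam : ℂ) / ((1 / l : ℝ) - I * φ)‖ ≤
      (K * l + 1) * s + 8 * (C + lam) * Real.exp (-(K / 4)) * l + 2 * lam * Real.exp (-K) * l +
        2 * lam := by
  have hlpos : 0 < l := by linarith
  set z : ℂ := ((1 / l : ℝ) : ℂ) - I * φ with hz
  have hzre : z.re = 1 / l := by simp [hz]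
  have hznorm : ‖z‖ ≤ 1 / 2 := by
    calc ‖z‖ ≤ ‖((1 / l : ℝ) : ℂ)‖ + ‖I * (φ : ℂ)‖ := norm_sub_le _ _
      _ = 1 / l + |φ| := by
        rw [Complex.norm_real, norm_mul, Complex.norm_I, one_mul, Complex.norm_real,
          Real.norm_eq_abs, Real.norm_eq_abs, abs_of_pos (by positivity : 0 < 1 / l)]
      _ ≤ 1 / l + Θ / l := by linarith
      _ = (1 + Θ) / l := by ring
      _ ≤ 1 / 2 := hΘ
  have hzlow : 1 / l ≤ ‖z‖ := by
    rw [← hzre]; exact Complex.re_le_norm z
  have hzpos : 0 < ‖z‖ := lt_of_lt_of_le (by positivity) hzlow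
  have hzne : z ≠ 0 := norm_pos_iff.mp hzpos
  set r : ℂ := cexp (-z) with hr
  have hrn : ‖r‖ = Real.exp (-(1 / l)) := by
    rw [hr, Complex.norm_exp]; simp [hzre]
  have hexp : ‖(1 - r) - z‖ ≤ ‖z‖ ^ 2 := by
    have := Complex.norm_exp_sub_one_sub_id_le (x := -z) (by rw [norm_neg]; linarith)
    rw [norm_neg] at this
    calc ‖(1 - r) - z‖ = ‖cexp (-z) - 1 - -z‖ := by
          rw [← norm_neg]; congr 1; rw [hr]; ring
      _ ≤ ‖z‖ ^ 2 := this
  have h1r : ‖z‖ / 2 ≤ ‖1 - r‖ := by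
    have h3 : ‖z‖ - ‖(1 - r) - z‖ ≤ ‖1 - r‖ := by
      have := norm_sub_norm_le z (z - (1 - r))
      have e : z - (z - (1 - r)) = 1 - r := by ring
      rw [e] at this
      have e2 : ‖z - (1 - r)‖ = ‖(1 - r) - z‖ := norm_sub_rev _ _
      linarith
    nlinarith
  have h1rpos : 0 < ‖1 - r‖ := lt_of_lt_of_le (by linarith) h1r
  have h1rne : 1 - r ≠ 0 := norm_pos_iff.mp h1rpos
  -- first part
  have hA : ‖∑ k ∈ Finset.range N, cexp (I * (φ : ℂ) * k) * (q k : ℂ) -
      ∑ k ∈ Finset.range N, (lam : ℂ) * r ^ k‖ ≤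
      (K * l + 1) * s + 8 * (C + lam) * Real.exp (-(K / 4)) * l := by
    rw [← Finset.sum_sub_distrib]
    have hterm : ∀ k : ℕ, cexp (I * (φ : ℂ) * k) * (q k : ℂ) - (lam : ℂ) * r ^ k =
        cexp (I * (φ : ℂ) * k) * ((q k - lam * Real.exp (-(k / l)) : ℝ) : ℂ) := by
      intro k
      have : r ^ k = cexp (I * (φ : ℂ) * k) * ((Real.exp (-(k / l)) : ℝ) : ℂ) := by
        rw [hr, ← Complex.exp_nat_mul, Complex.ofReal_exp, ← Complex.exp_add]
        congr 1
        rw [hz]
        push_cast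
        ring
      rw [this]
      push_cast
      ring
    have hnorm : ∀ k : ℕ, ‖cexp (I * (φ : ℂ) * k) * (q k : ℂ) - (lam : ℂ) * r ^ k‖ =
        |q k - lam * Real.exp (-(k / l))| := by
      intro k
      rw [hterm, norm_mul, Complex.norm_real, Real.norm_eq_abs]
      have : ‖cexp (I * (φ : ℂ) * k)‖ = 1 := by
        have e : I * (φ : ℂ) * k = ((φ * k : ℝ) : ℂ) * I := by push_cast; ring
        rw [e, Complex.norm_exp_ofReal_mul_I]
      rw [this, one_mul]
    refine (norm_sum_le _ _).trans ?_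
    simp only [hnorm]
    rw [← Finset.sum_filter_add_sum_filter_not (Finset.range N) (fun k : ℕ => (k : ℝ) ≤ K * l)]
    refine add_le_add ?_ ?_
    · calc ∑ k ∈ (Finset.range N).filter (fun k : ℕ => (k : ℝ) ≤ K * l),
            |q k - lam * Real.exp (-(k / l))|
          ≤ ∑ k ∈ (Finset.range N).filter (fun k : ℕ => (k : ℝ) ≤ K * l), s :=
            Finset.sum_le_sum (fun k hk => h1 k (Finset.mem_filter.mp hk).2)
        _ = ((Finset.range N).filter (fun k : ℕ => (k : ℝ) ≤ K * l)).card * s := by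
            rw [Finset.sum_const, nsmul_eq_mul]
        _ ≤ (K * l + 1) * s := by
            refine mul_le_mul_of_nonneg_right ?_ hs
            have hsub : (Finset.range N).filter (fun k : ℕ => (k : ℝ) ≤ K * l) ⊆
                Finset.range (⌊K * l⌋₊ + 1) := by
              intro k hk
              rw [Finset.mem_range, Nat.lt_succ_iff]
              exact Nat.le_floor (Finset.mem_filter.mp hk).2
            have hc := Finset.card_le_card hsub
            rw [Finset.card_range] at hc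
            have hc' : (((Finset.range N).filter (fun k : ℕ => (k : ℝ) ≤ K * l)).card : ℝ) ≤
                (⌊K * l⌋₊ : ℝ) + 1 := by exact_mod_cast hc
            have := Nat.floor_le (by positivity : 0 ≤ K * l)
            linarith
    · calc ∑ k ∈ (Finset.range N).filter (fun k : ℕ => ¬ (k : ℝ) ≤ K * l),
            |q k - lam * Real.exp (-(k / l))|
          ≤ ∑ k ∈ (Finset.range N).filter (fun k : ℕ => ¬ (k : ℝ) ≤ K * l),
            (C + lam) * Real.exp (-(K / 4)) * Real.exp (-(1 / (4 * l)) * k) := by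
            refine Finset.sum_le_sum (fun k hk => ?_)
            obtain ⟨hk1, hk2⟩ := Finset.mem_filter.mp hk
            have hkN : k ≤ N := (Finset.mem_range.mp hk1).le
            have hk3 : K * l < k := not_le.mp hk2
            have e1 := h2 k hkN
            have e2 := hq k
            have e3 : Real.exp (-(k / l)) ≤ Real.exp (-(k : ℝ) / (2 * l)) := by
              apply Real.exp_le_exp.mpr
              rw [neg_div, neg_le_neg_iff]
              apply div_le_div_of_nonneg_left (Nat.cast_nonneg k) hlpos (by linarith)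
            have e4 : Real.exp (-(k : ℝ) / (2 * l)) ≤
                Real.exp (-(K / 4)) * Real.exp (-(1 / (4 * l)) * k) := by
              rw [← Real.exp_add]
              apply Real.exp_le_exp.mpr
              have : K / 4 ≤ k / (4 * l) := by
                rw [div_le_div_iff₀ (by norm_num) (by positivity)]
                nlinarith
              have e5 : -(k : ℝ) / (2 * l) = -(k / (4 * l)) - k / (4 * l) := by field_simp; ring
              have e6 : -(1 / (4 * l)) * (k : ℝ) = -(k / (4 * l)) := by field_simp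
              rw [e5, e6]
              linarith
            have hE : 0 ≤ Real.exp (-(k : ℝ) / (2 * l)) := (Real.exp_pos _).le
            have e7 : |q k - lam * Real.exp (-(k / l))| ≤ (C + lam) * Real.exp (-(k : ℝ) / (2 * l)) := by
              have hp : 0 ≤ lam * Real.exp (-(k / l)) := mul_nonneg hlam (Real.exp_pos _).le
              have hp2 : lam * Real.exp (-(k / l)) ≤ lam * Real.exp (-(k : ℝ) / (2 * l)) :=
                mul_le_mul_of_nonneg_left e3 hlam
              have hp3 : 0 ≤ C * Real.exp (-(k : ℝ) / (2 * l)) := mul_nonneg hC hE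
              have hp4 : 0 ≤ lam * Real.exp (-(k : ℝ) / (2 * l)) := mul_nonneg hlam hE
              rw [abs_le]
              constructor <;> nlinarith
            calc |q k - lam * Real.exp (-(k / l))| ≤ (C + lam) * Real.exp (-(k : ℝ) / (2 * l)) := e7
              _ ≤ (C + lam) * (Real.exp (-(K / 4)) * Real.exp (-(1 / (4 * l)) * k)) :=
                mul_le_mul_of_nonneg_left e4 (by linarith)
              _ = _ := by ring
        _ ≤ ∑ k ∈ Finset.range N,
            (C + lam) * Real.exp (-(K / 4)) * Real.exp (-(1 / (4 * l)) * k) := by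
            refine Finset.sum_le_sum_of_subset_of_nonneg (Finset.filter_subset _ _) ?_
            intro k _ _
            have : 0 ≤ C + lam := by linarith
            positivity
        _ = (C + lam) * Real.exp (-(K / 4)) *
            ∑ k ∈ Finset.range N, Real.exp (-(1 / (4 * l)) * k) := by rw [Finset.mul_sum]
        _ ≤ (C + lam) * Real.exp (-(K / 4)) * (2 / (1 / (4 * l))) := by
            refine mul_le_mul_of_nonneg_left (geom_le (by positivity) ?_ N) ?_
            · rw [div_le_one (by positivity)]; linarith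
            · have : 0 ≤ C + lam := by linarith
              positivity
        _ = 8 * (C + lam) * Real.exp (-(K / 4)) * l := by field_simp; ring
  -- second part
  have hrne : r ≠ 1 := fun h => h1rne (by rw [h, sub_self])
  have hB : ‖∑ k ∈ Finset.range N, (lam : ℂ) * r ^ k - (lam : ℂ) / (1 - r)‖ ≤
      2 * lam * Real.exp (-K) * l := by
    rw [← Finset.mul_sum, geom_sum_eq hrne]
    have e : (lam : ℂ) * ((r ^ N - 1) / (r - 1)) - (lam : ℂ) / (1 - r) =
        -((lam : ℂ) * r ^ N / (1 - r)) := by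
      have h3 : r - 1 ≠ 0 := sub_ne_zero.mpr hrne
      have e1 : (r ^ N - 1) / (r - 1) = (1 - r ^ N) / (1 - r) := by
        rw [← neg_div_neg_eq, neg_sub, neg_sub]
      rw [e1]
      field_simp
      ring
    rw [e, norm_neg, norm_div, norm_mul, Complex.norm_real, Real.norm_eq_abs, abs_of_nonneg hlam,
      norm_pow, hrn]
    have hpow : Real.exp (-(1 / l)) ^ N ≤ Real.exp (-K) := by
      rw [← Real.exp_nat_mul]
      apply Real.exp_le_exp.mpr
      have : K ≤ N * (1 / l) := by
        rw [mul_one_div, le_div_iff₀ hlpos]; exact hN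
      linarith
    have hlow : 1 / (2 * l) ≤ ‖1 - r‖ := by
      have : 1 / (2 * l) = (1 / l) / 2 := by field_simp
      rw [this]; linarith
    calc lam * Real.exp (-(1 / l)) ^ N / ‖1 - r‖ ≤ lam * Real.exp (-K) / (1 / (2 * l)) := by
          apply div_le_div₀ (by positivity) (mul_le_mul_of_nonneg_left hpow hlam) (by positivity) hlow
      _ = 2 * lam * Real.exp (-K) * l := by field_simp
  -- third part
  have hCc : ‖(lam : ℂ) / (1 - r) - (lam : ℂ) / z‖ ≤ 2 * lam := by
    have e : (lam : ℂ) / (1 - r) - (lam : ℂ) / z = (lam : ℂ) * (z - (1 - r)) / ((1 - r) * z) := by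
      field_simp
    rw [e, norm_div, norm_mul, norm_mul, Complex.norm_real, Real.norm_eq_abs, abs_of_nonneg hlam,
      norm_sub_rev]
    rw [div_le_iff₀ (by positivity)]
    have h3 : ‖z‖ ^ 2 ≤ 2 * (‖1 - r‖ * ‖z‖) := by nlinarith
    calc lam * ‖1 - r - z‖ ≤ lam * ‖z‖ ^ 2 := mul_le_mul_of_nonneg_left hexp hlam
      _ ≤ lam * (2 * (‖1 - r‖ * ‖z‖)) := mul_le_mul_of_nonneg_left h3 hlam
      _ = 2 * lam * (‖1 - r‖ * ‖z‖) := by ring
  set SS := ∑ k ∈ Finset.range N, cexp (I * (φ : ℂ) * k) * (q k : ℂ) with hSS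
  set TT := ∑ k ∈ Finset.range N, (lam : ℂ) * r ^ k with hTT
  calc ‖SS - (lam : ℂ) / z‖
      = ‖(SS - TT) + (TT - (lam : ℂ) / (1 - r)) + ((lam : ℂ) / (1 - r) - (lam : ℂ) / z)‖ := by
        congr 1; ring
    _ ≤ ‖SS - TT‖ + ‖TT - (lam : ℂ) / (1 - r)‖ + ‖(lam : ℂ) / (1 - r) - (lam : ℂ) / z‖ :=
        norm_add₃_le
    _ ≤ _ := by linarith

end GEOX

open GEOX in
theorem geo : S_QAS.{u} → S_GEO.{u} := by
  intro hqas Ω _ μ _ A hA d j w θ ε hcas hε
  have hj : 1 ≤ j := by rcases hcas with h | h <;> omega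
  obtain ⟨hq1, C, a₂, hC, ha₂, hq2⟩ := hqas Ω μ A hA d j w hcas
  set lam : ℝ := lamc j * Real.exp (-w) with hlam
  have hlampos : 0 < lam := by
    have : 0 < lamc j := by unfold lamc; split_ifs <;> exact Real.exp_pos _
    exact mul_pos this (Real.exp_pos _)
  -- choice of `K`
  obtain ⟨K, hK0, hK⟩ : ∃ K : ℝ, 0 ≤ K ∧ (8 * (C + lam) + 2 * lam) * Real.exp (-(K / 4)) ≤ ε / 2 := by
    have h1 : Tendsto (fun K : ℝ => (8 * (C + lam) + 2 * lam) * Real.exp (-(K / 4))) atTop
        (𝓝 ((8 * (C + lam) + 2 * lam) * 0)) := by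
      refine Tendsto.const_mul _ ?_
      exact Real.tendsto_exp_neg_atTop_nhds_zero.comp (tendsto_id.atTop_div_const (by norm_num))
    rw [mul_zero] at h1
    obtain ⟨K, h2, h3⟩ := ((h1.eventually (gt_mem_nhds (by positivity : (0 : ℝ) < ε / 2))).and
      (eventually_ge_atTop 0)).exists
    exact ⟨K, h3, h2.le⟩
  obtain ⟨C1, a₃, hq1'⟩ := hq1 K
  -- large `a`
  have hlogt : Tendsto (fun a : ℕ => Real.log a) atTop atTop :=
    Real.tendsto_log_atTop.comp tendsto_natCast_atTop_atTop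
  have ev1 : ∀ᶠ a : ℕ in atTop, (K + 1) * (|C1| / √(Real.log a)) ≤ ε / 4 := by
    have h1 : Tendsto (fun a : ℕ => (K + 1) * (|C1| / √(Real.log a))) atTop (𝓝 ((K + 1) * 0)) := by
      refine Tendsto.const_mul _ ?_
      exact tendsto_const_nhds.div_atTop (Real.tendsto_sqrt_atTop.comp hlogt)
    rw [mul_zero] at h1
    exact (h1.eventually (gt_mem_nhds (by positivity : (0 : ℝ) < ε / 4))).mono fun _ h => h.le
  have ev2 : ∀ᶠ a : ℕ in atTop, max (max 1 (K + 1)) (max (2 * (1 + |θ|)) (2 * lam * (4 / ε))) ≤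
      Real.log a := hlogt.eventually_ge_atTop _
  obtain ⟨a₁, ha₁⟩ := eventually_atTop.1 ((ev1.and ev2).and
    (eventually_ge_atTop (max a₂ (max a₃ 3))))
  refine ⟨a₁, fun a X ha hX => ?_⟩
  obtain ⟨⟨e1, e2⟩, e3⟩ := ha₁ a ha
  have ha2 : a₂ ≤ a := le_trans (le_max_left _ _) e3
  have ha3 : a₃ ≤ a := le_trans ((le_max_left _ _).trans (le_max_right _ _)) e3
  have ha4 : 3 ≤ a := le_trans ((le_max_right _ _).trans (le_max_right _ _)) e3
  have hl1 : 1 ≤ Real.log a := le_trans ((le_max_left _ _).trans (le_max_left _ _)) e2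
  have hlK : K + 1 ≤ Real.log a := le_trans ((le_max_right _ _).trans (le_max_left _ _)) e2
  have hlθ : 2 * (1 + |θ|) ≤ Real.log a :=
    le_trans ((le_max_left _ _).trans (le_max_right _ _)) e2
  have hllam : 2 * lam * (4 / ε) ≤ Real.log a :=
    le_trans ((le_max_right _ _).trans (le_max_right _ _)) e2
  set l : ℝ := Real.log a ^ j with hl
  have hlog0 : 0 < Real.log a := by linarith
  have hlge : Real.log a ≤ l := by
    rw [hl]
    calc Real.log a = Real.log a ^ 1 := (pow_one _).symm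
      _ ≤ Real.log a ^ j := pow_le_pow_right₀ hl1 hj
  have hlone : 1 ≤ l := hl1.trans hlge
  have ha0 : (3 : ℝ) ≤ a := by exact_mod_cast ha4
  have hX0 : 0 < X := by linarith
  have hlogX : Real.log a ≤ Real.log X := Real.log_le_log (by linarith) hX
  set LX : ℝ := Real.log X ^ j with hLX
  have hLl : l ≤ LX := pow_le_pow_left₀ hlog0.le hlogX j
  have hLpos : 0 < LX := by linarith
  have hlpos : 0 < l := by linarith
  set q : ℕ → ℝ := fun k => μ.real (Cl A d j w a k) * (a * Real.log a) with hq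
  have hqnn : ∀ k, 0 ≤ q k := fun k => mul_nonneg measureReal_nonneg (by positivity)
  have hC1 : 0 ≤ |C1| / √(Real.log a) := by positivity
  have c1 : ∀ k : ℕ, (k : ℝ) ≤ K * l → |q k - lam * Real.exp (-(k / l))| ≤
      |C1| / √(Real.log a) := by
    intro k hk
    have h1 := hq1' a k ha3 hk
    have e : lam * Real.exp (-(k / l)) = lamc j * Real.exp (-w - k / Real.log a ^ j) := by
      rw [hlam, mul_assoc, ← Real.exp_add, hl]; congr 2
    rw [e]
    refine h1.trans ?_
    exact div_le_div_of_nonneg_right (le_abs_self _) (Real.sqrt_nonneg _)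
  have c2 : ∀ k : ℕ, k ≤ LJ j a → q k ≤ C * Real.exp (-(k : ℝ) / (2 * l)) :=
    fun k hk => hq2 a k ha2 hk
  have hN : K * l ≤ (LJ j a : ℝ) := by
    have h1 : Real.log a ^ (j + 2) - 1 ≤ (LJ j a : ℝ) := by
      unfold LJ
      exact (Nat.sub_one_lt_floor _).le
    have h2 : Real.log a ^ (j + 2) = l * Real.log a ^ 2 := by rw [hl]; ring
    have h3 : (K + 1) ≤ Real.log a ^ 2 := by nlinarith
    rw [h2] at h1
    nlinarith
  have hφ : |θ / LX| ≤ |θ| / l := by
    rw [abs_div, abs_of_pos hLpos]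
    exact div_le_div_of_nonneg_left (abs_nonneg _) hlpos hLl
  have hΘ : (1 + |θ|) / l ≤ 1 / 2 := by
    rw [div_le_iff₀ hlpos]; linarith
  have key := core q (LJ j a) l lam K C (|C1| / √(Real.log a)) (θ / LX) |θ| hlone hlampos.le hK0
    hC.le hC1 c1 c2 hqnn hN hφ hΘ
  have htarget : (lam : ℂ) / ((1 / l : ℝ) - I * ((θ / LX : ℝ) : ℂ)) =
      ((lamc j * Real.exp (-w) * Real.log a ^ j : ℝ) : ℂ) /
      (1 - I * θ * ((Real.log a / Real.log X : ℝ) : ℂ) ^ j) := by
    have hlc : (l : ℂ) ≠ 0 := by exact_mod_cast hlpos.ne'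
    have hLc : (LX : ℂ) ≠ 0 := by exact_mod_cast hLpos.ne'
    have e5 : ((Real.log a / Real.log X : ℝ) : ℂ) ^ j = (l : ℂ) / (LX : ℂ) := by
      rw [hl, hLX]; push_cast; rw [div_pow]
    have e6 : ((lamc j * Real.exp (-w) * Real.log a ^ j : ℝ) : ℂ) = (lam : ℂ) * (l : ℂ) := by
      rw [hlam, hl]; push_cast; ring
    have e7 : ((1 / l : ℝ) : ℂ) - I * ((θ / LX : ℝ) : ℂ) =
        (1 - I * θ * ((l : ℂ) / (LX : ℂ))) / (l : ℂ) := by
      push_cast
      field_simp
    rw [e5, e6, e7, div_div_eq_mul_div]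
  rw [← htarget]
  refine key.trans ?_
  have f1 : (K * l + 1) * (|C1| / √(Real.log a)) ≤ ε / 4 * l := by
    calc (K * l + 1) * (|C1| / √(Real.log a)) ≤ ((K + 1) * l) * (|C1| / √(Real.log a)) :=
          mul_le_mul_of_nonneg_right (by linarith) hC1
      _ = ((K + 1) * (|C1| / √(Real.log a))) * l := by ring
      _ ≤ ε / 4 * l := mul_le_mul_of_nonneg_right e1 hlpos.le
  have f2 : 8 * (C + lam) * Real.exp (-(K / 4)) * l + 2 * lam * Real.exp (-K) * l ≤ ε / 2 * l := by
    have h4 : Real.exp (-K) ≤ Real.exp (-(K / 4)) := Real.exp_le_exp.mpr (by linarith)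
    have h5 : 2 * lam * Real.exp (-K) ≤ 2 * lam * Real.exp (-(K / 4)) :=
      mul_le_mul_of_nonneg_left h4 (by positivity)
    calc 8 * (C + lam) * Real.exp (-(K / 4)) * l + 2 * lam * Real.exp (-K) * l
        = (8 * (C + lam) * Real.exp (-(K / 4)) + 2 * lam * Real.exp (-K)) * l := by ring
      _ ≤ ((8 * (C + lam) + 2 * lam) * Real.exp (-(K / 4))) * l :=
          mul_le_mul_of_nonneg_right (by linarith) hlpos.le
      _ ≤ ε / 2 * l := mul_le_mul_of_nonneg_right hK hlpos.le
  have f3 : 2 * lam ≤ ε / 4 * l := by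
    have : 2 * lam * (4 / ε) ≤ l := hllam.trans hlge
    rw [mul_div_assoc', div_le_iff₀ hε] at this
    linarith
  calc (K * l + 1) * (|C1| / √(Real.log a)) + 8 * (C + lam) * Real.exp (-(K / 4)) * l +
        2 * lam * Real.exp (-K) * l + 2 * lam ≤ ε / 4 * l + ε / 2 * l + ε / 4 * l := by linarith
    _ = ε * l := by ring

end H21SCH
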