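import Pool.Agent.H21.SCH.Stm

set_option autoImplicit false

/-! # Sums of `1 / (a log a)` -/

namespace H21SCH

open MeasureTheory ProbabilityTheory Filter Topology Set

theorem harm_step {a : ℝ} (ha : 1 < a) : Real.log (a + 1) - Real.log a ≤ 1 / a ∧
    1 / (a + 1) ≤ Real.log (a + 1) - Real.log a := by
  have h0 : 0 < a := by linarith
  constructor
  · rw [← Real.log_div (by linarith) h0.ne']
    refine (Real.log_le_sub_one_of_pos (by positivity)).trans (le_of_eq ?_)
    field_simp
    ring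
  · have h1 : Real.log (a / (a + 1)) ≤ a / (a + 1) - 1 := Real.log_le_sub_one_of_pos (by positivity)
    rw [Real.log_div h0.ne' (by linarith)] at h1
    have h2 : a / (a + 1) - 1 = -(1 / (a + 1)) := by field_simp; ring
    rw [h2] at h1
    linarith

theorem harm_up {a : ℝ} (ha : 1 < a) :
    1 / ((a + 1) * Real.log (a + 1)) ≤ Real.log (Real.log (a + 1)) - Real.log (Real.log a) := by
  have h0 := Real.log_pos ha
  have h1 : Real.log a < Real.log (a + 1) := Real.log_lt_log (by linarith) (by linarith)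
  have h2 := (harm_step ha).2
  have h3 : Real.log (Real.log a / Real.log (a + 1)) ≤ Real.log a / Real.log (a + 1) - 1 :=
    Real.log_le_sub_one_of_pos (div_pos h0 (h0.trans h1))
  rw [Real.log_div h0.ne' (by linarith)] at h3
  have h4 : 1 / ((a + 1) * Real.log (a + 1)) = 1 / (a + 1) / Real.log (a + 1) := by
    rw [div_div]
  have hL : 0 < Real.log (a + 1) := h0.trans h1
  have h5 : 1 / (a + 1) / Real.log (a + 1) ≤
      (Real.log (a + 1) - Real.log a) / Real.log (a + 1) :=
    div_le_div_of_nonneg_right h2 hL.le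
  rw [sub_div, div_self hL.ne'] at h5
  rw [h4]
  linarith

theorem harm_low {a : ℝ} (ha : 1 < a) :
    Real.log (Real.log (a + 1)) - Real.log (Real.log a) ≤ 1 / (a * Real.log a) := by
  have h0 := Real.log_pos ha
  have h1 : Real.log a < Real.log (a + 1) := Real.log_lt_log (by linarith) (by linarith)
  have hL : 0 < Real.log (a + 1) := h0.trans h1
  have h2 := (harm_step ha).1
  have h3 : Real.log (Real.log (a + 1) / Real.log a) ≤ Real.log (a + 1) / Real.log a - 1 :=
    Real.log_le_sub_one_of_pos (by positivity)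
  rw [Real.log_div hL.ne' h0.ne'] at h3
  have h4 : 1 / (a * Real.log a) = 1 / a / Real.log a := by rw [div_div]
  have h5 : (Real.log (a + 1) - Real.log a) / Real.log a ≤ 1 / a / Real.log a :=
    div_le_div_of_nonneg_right h2 h0.le
  rw [sub_div, div_self h0.ne'] at h5
  rw [h4]
  linarith

theorem harm_sqrt {a : ℝ} (ha : 1 < a) :
    1 / ((a + 1) * Real.log (a + 1) * √(Real.log (a + 1))) ≤
      2 / √(Real.log a) - 2 / √(Real.log (a + 1)) := by
  have h0 := Real.log_pos ha
  have h1 : Real.log a < Real.log (a + 1) := Real.log_lt_log (by linarith) (by linarith)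
  have hL : 0 < Real.log (a + 1) := h0.trans h1
  have h2 := (harm_step ha).2
  obtain ⟨s, hs⟩ : ∃ s, s = √(Real.log a) := ⟨_, rfl⟩
  obtain ⟨t, ht⟩ : ∃ t, t = √(Real.log (a + 1)) := ⟨_, rfl⟩
  have hs0 : 0 < s := by rw [hs]; exact Real.sqrt_pos.2 h0
  have ht0 : 0 < t := by rw [ht]; exact Real.sqrt_pos.2 hL
  have hst : s < t := by rw [hs, ht]; exact Real.sqrt_lt_sqrt h0.le h1
  have hs2 : Real.log a = s ^ 2 := by rw [hs, Real.sq_sqrt h0.le]
  have ht2 : Real.log (a + 1) = t ^ 2 := by rw [ht, Real.sq_sqrt hL.le]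
  rw [← hs, ← ht, ht2]
  rw [hs2, ht2] at h2
  have h3 : 1 / ((a + 1) * t ^ 2 * t) = 1 / (a + 1) * (1 / t ^ 3) := by
    field_simp
  have h4 : 2 / s - 2 / t = (t ^ 2 - s ^ 2) * (1 / t ^ 3) + (t - s) * (2 * t ^ 2 - s * (t + s)) / (s * t ^ 3) := by
    field_simp
    ring
  rw [h3, h4]
  have h5 : 0 ≤ (t - s) * (2 * t ^ 2 - s * (t + s)) / (s * t ^ 3) := by
    apply div_nonneg _ (by positivity)
    apply mul_nonneg (by linarith)
    nlinarith
  have h6 : 1 / (a + 1) * (1 / t ^ 3) ≤ (t ^ 2 - s ^ 2) * (1 / t ^ 3) :=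
    mul_le_mul_of_nonneg_right h2 (by positivity)
  linarith

theorem harm_sum_up {m : ℕ} (hm : 2 ≤ m) {n : ℕ} (hmn : m ≤ n) :
    ∑ a ∈ Finset.Ioc m n, 1 / ((a : ℝ) * Real.log a) ≤
      Real.log (Real.log n) - Real.log (Real.log m) := by
  induction n, hmn using Nat.le_induction with
  | base => simp
  | succ n hn ih =>
    rw [Finset.sum_Ioc_succ_top hn]
    have h1 : (1 : ℝ) < n := by exact_mod_cast (by omega : 1 < n)
    have h2 := harm_up h1
    push_cast
    linarith

theorem harm_sum_low {m : ℕ} (hm : 2 ≤ m) {n : ℕ} (hmn : m ≤ n) :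
    Real.log (Real.log ((n : ℝ) + 1)) - Real.log (Real.log ((m : ℝ) + 1)) ≤
      ∑ a ∈ Finset.Ioc m n, 1 / ((a : ℝ) * Real.log a) := by
  induction n, hmn using Nat.le_induction with
  | base => simp
  | succ n hn ih =>
    rw [Finset.sum_Ioc_succ_top hn]
    have h1 : (1 : ℝ) < (n : ℝ) + 1 := by
      have : (1 : ℝ) < n := by exact_mod_cast (by omega : 1 < n)
      linarith
    have h2 := harm_low h1
    push_cast
    linarith

theorem harm_sum_sqrt {m : ℕ} (hm : 2 ≤ m) {n : ℕ} (hmn : m ≤ n) :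
    ∑ a ∈ Finset.Ioc m n, 1 / ((a : ℝ) * Real.log a * √(Real.log a)) ≤
      2 / √(Real.log m) - 2 / √(Real.log n) := by
  induction n, hmn using Nat.le_induction with
  | base => simp
  | succ n hn ih =>
    rw [Finset.sum_Ioc_succ_top hn]
    have h1 : (1 : ℝ) < n := by exact_mod_cast (by omega : 1 < n)
    have h2 := harm_sqrt h1
    push_cast
    linarith

theorem harm : S_HARM := by
  refine ⟨3, fun x y hx hxy => ?_⟩
  obtain ⟨m, hm⟩ : ∃ m, m = ⌊x⌋₊ := ⟨_, rfl⟩
  obtain ⟨n, hn⟩ : ∃ n, n = ⌊y⌋₊ := ⟨_, rfl⟩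
  have hm4 : 4 ≤ m := by rw [hm]; exact Nat.le_floor (by exact_mod_cast hx)
  have hmn : m ≤ n := by rw [hm, hn]; exact Nat.floor_mono hxy
  have hmx : (m : ℝ) ≤ x := by rw [hm]; exact Nat.floor_le (by linarith)
  have hxm : x ≤ (m : ℝ) + 1 := by rw [hm]; exact (Nat.lt_floor_add_one x).le
  have hny : (n : ℝ) ≤ y := by rw [hn]; exact Nat.floor_le (by linarith)
  have hyn : y ≤ (n : ℝ) + 1 := by rw [hn]; exact (Nat.lt_floor_add_one y).le
  have hm4' : (4 : ℝ) ≤ m := by exact_mod_cast hm4
  have hn4' : (4 : ℝ) ≤ n := by exact_mod_cast (hm4.trans hmn)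
  have hmono : ∀ s t : ℝ, 4 ≤ s → s ≤ t → Real.log (Real.log s) ≤ Real.log (Real.log t) :=
    fun s t hs hst => Real.log_le_log (Real.log_pos (by linarith))
      (Real.log_le_log (by linarith) hst)
  have hlm : 1 ≤ Real.log m := by
    rw [Real.le_log_iff_exp_le (by linarith)]
    have := Real.exp_one_lt_d9
    linarith
  rw [← hm, ← hn]
  have e1 := harm_low (a := m) (by linarith)
  have e2 : 1 / ((m : ℝ) * Real.log m) ≤ 3 / x := by
    rw [div_le_div_iff₀ (by positivity) (by linarith)]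
    nlinarith
  have u := harm_sum_up (by omega : 2 ≤ m) hmn
  have l := harm_sum_low (by omega : 2 ≤ m) hmn
  have f1 := hmono m x hm4' hmx
  have f2 := hmono x (m + 1) hx hxm
  have f3 := hmono n y hn4' hny
  have f4 := hmono y (n + 1) (by linarith) hyn
  constructor
  · rw [abs_le]
    constructor <;> linarith
  · have s1 := harm_sum_sqrt (by omega : 2 ≤ m) hmn
    have s2 : 0 ≤ 2 / √(Real.log n) := by positivity
    have hlx : 0 < Real.log x := Real.log_pos (by linarith)
    have s3 : 2 / √(Real.log m) ≤ 3 / √(Real.log x) := by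
      have h1 : x ≤ (m : ℝ) ^ 2 := by nlinarith
      have h2 : Real.log x ≤ 2 * Real.log m := by
        have := Real.log_le_log (by linarith) h1
        rw [Real.log_pow] at this
        exact_mod_cast this
      have h3 : √(Real.log x) ≤ √2 * √(Real.log m) := by
        rw [← Real.sqrt_mul (by norm_num)]
        exact Real.sqrt_le_sqrt h2
      have h4 : √2 ≤ 3 / 2 := by
        rw [Real.sqrt_le_left (by norm_num)]; norm_num
      have h5 : 0 < √(Real.log m) := Real.sqrt_pos.2 (by linarith)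
      rw [div_le_div_iff₀ h5 (Real.sqrt_pos.2 hlx)]
      nlinarith
    linarith

end H21SCH
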