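import Pool.Agent.H21.SCH.Stm

/-! # Project SCH: stub LOC -/

namespace H21SCH

open MeasureTheory ProbabilityTheory Filter Topology Set Complex

universe u

/-- a function of finitely many coordinates has measurable fibres -/
theorem loc_measurableSet {Ω : Type u} {m : MeasurableSpace Ω} {A : ℕ → Set Ω} {S : Finset ℕ}
    (hA : ∀ p ∈ S, MeasurableSet[m] (A p)) {β : Type*} {f : Ω → β} (hf : Loc A S f) (B : Set β) :
    MeasurableSet[m] (f ⁻¹' B) := by
  classical
  have h1 : f ⁻¹' B = ⋃ T ∈ S.powerset.filter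
      (fun T => ∃ ω ∈ f ⁻¹' B, ∀ p ∈ S, (ω ∈ A p ↔ p ∈ T)),
      ⋂ p ∈ S, (if p ∈ T then A p else (A p)ᶜ) := by
    ext ω
    simp only [mem_iUnion, mem_iInter, Finset.mem_filter, Finset.mem_powerset, exists_prop]
    constructor
    · intro hω
      refine ⟨S.filter (fun p => ω ∈ A p), ⟨Finset.filter_subset _ _, ω, hω, ?_⟩, ?_⟩
      · intro p hp
        simp [hp]
      · intro p hp
        by_cases h : ω ∈ A p
        · simp [hp, h]
        · simp [h]
    · rintro ⟨T, ⟨_, ω', hω', h2⟩, h3⟩
      have h4 : f ω = f ω' := by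
        refine hf ω ω' fun p hp => ?_
        have h5 := h3 p hp
        rw [h2 p hp]
        by_cases h : p ∈ T
        · rw [if_pos h] at h5
          exact ⟨fun _ => h, fun _ => h5⟩
        · rw [if_neg h] at h5
          exact ⟨fun h6 => absurd h6 h5, fun h6 => absurd h6 h⟩
      show f ω ∈ B
      rw [h4]
      exact hω'
  rw [h1]
  refine Finset.measurableSet_biUnion _ fun T _ => Finset.measurableSet_biInter _ fun p hp => ?_
  by_cases h : p ∈ T
  · rw [if_pos h]; exact hA p hp
  · rw [if_neg h]; exact (hA p hp).compl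

theorem loc : S_LOC := by
  intro Ω m0 μ _ A hA hind
  have hle : ∀ i, MeasurableSpace.generateFrom {A i} ≤ m0 := by
    intro i
    refine MeasurableSpace.generateFrom_le ?_
    rintro t rfl
    exact hA i
  have hInd : ∀ S T : Finset ℕ, Disjoint S T →
      Indep (⨆ i ∈ (S : Set ℕ), MeasurableSpace.generateFrom {A i})
        (⨆ i ∈ (T : Set ℕ), MeasurableSpace.generateFrom {A i}) μ := by
    intro S T hST
    exact indep_iSup_of_disjoint hle ((iIndepSet_iff_iIndep A μ).1 hind)
      (Finset.disjoint_coe.2 hST)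
  have hsup : ∀ S : Finset ℕ, ∀ p ∈ S,
      MeasurableSet[⨆ i ∈ (S : Set ℕ), MeasurableSpace.generateFrom {A i}] (A p) := by
    intro S p hp
    have h1 : MeasurableSpace.generateFrom {A p} ≤
        ⨆ i ∈ (S : Set ℕ), MeasurableSpace.generateFrom {A i} :=
      le_iSup₂_of_le p (Finset.mem_coe.2 hp) le_rfl
    exact h1 _ (MeasurableSpace.measurableSet_generateFrom rfl)
  have h1 : ∀ (S : Finset ℕ) (β : Type) [MeasurableSpace β] (f : Ω → β), Loc A S f →
      Measurable f := by
    intro S β _ f hf B _
    exact loc_measurableSet (fun p _ => hA p) hf B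
  refine ⟨h1, ?_, ?_⟩
  · intro S T f g hST hf hg
    have hfg : IndepFun f g μ := by
      rw [IndepFun_iff_Indep]
      refine indep_of_indep_of_le (hInd S T hST) ?_ ?_
      · rintro _ ⟨B, _, rfl⟩
        exact loc_measurableSet (hsup S) hf B
      · rintro _ ⟨B, _, rfl⟩
        exact loc_measurableSet (hsup T) hg B
    exact hfg.integral_fun_mul_eq_mul_integral (h1 S ℂ f hf).aestronglyMeasurable
      (h1 T ℂ g hg).aestronglyMeasurable
  · intro S T B C hST hB hC
    have h2 := (Indep_iff _ _ μ).1 (hInd S T hST) B C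
      (by simpa using loc_measurableSet (hsup S) hB {True})
      (by simpa using loc_measurableSet (hsup T) hC {True})
    rw [Measure.real, h2, ENNReal.toReal_mul]
    rfl

end H21SCH
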