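import Pool.Agent.H21.SCH.Stm

/-! # Project SCH, stub MAS (helper35) -/

set_option autoImplicit false

namespace H21SCH

open MeasureTheory ProbabilityTheory Filter Topology Set Complex

universe u

theorem mas_gap_meas {Ω : Type u} [MeasurableSpace Ω] {A : ℕ → Set Ω} (hA : ∀ n, MeasurableSet (A n))
    (d j : ℕ) (w : ℝ) (a : ℕ) : MeasurableSet (Gap A d j w a) := by
  have hP : ∀ m, MeasurableSet (Pat A d m) := fun m => (hA m).inter (hA (m + d))
  have hF : Fails A d j w a = ⋂ m : ℕ, ⋂ (_ : (a : ℝ) < m), ⋂ (_ : ((m + d : ℕ) : ℝ) < a + len j w a),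
      (Pat A d m)ᶜ := by
    ext ω
    simp only [Fails, mem_ofPred_eq, mem_iInter, mem_compl_iff]
  refine (hP a).inter ?_
  rw [hF]
  exact MeasurableSet.iInter fun m => MeasurableSet.iInter fun _ => MeasurableSet.iInter fun _ => (hP m).compl

theorem mas_gap_cl {Ω : Type u} (A : ℕ → Set Ω) (d j : ℕ) (w : ℝ) (a : ℕ) :
    Gap A d j w a = Cl A d j w a 0 := by
  ext ω
  simp only [Gap, Cl, Fails, mem_inter_iff, mem_ofPred_eq, Nat.add_zero, Nat.cast_lt]

theorem mas_LL {a b : ℕ} (ha : 1 ≤ a) (hab : a ≤ b) : LL a ≤ LL b := by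
  unfold LL
  refine Nat.floor_le_floor ?_
  have h1 : (1 : ℝ) ≤ a := by exact_mod_cast ha
  have h2 : (a : ℝ) ≤ b := by exact_mod_cast hab
  exact pow_le_pow_left₀ (Real.log_nonneg h1) (Real.log_le_log (by linarith) h2) 5

theorem mas : S_LOC.{u} → S_EXC.{u} → S_QAS.{u} → S_AB.{u} → S_EXPP → S_ERR → S_MAS.{u} := by
  intro hloc hexc hqas hab hexpp herr Ω _ μ _ A hA d j w hc
  classical
  obtain ⟨L1, L2, -⟩ := hloc Ω μ A hA.meas hA.indep
  obtain ⟨C2, a2, hC2, hE⟩ := hexc Ω μ A hA d j w hc
  obtain ⟨-, C1, a1, hC1, ha1, hQ⟩ := hqas Ω μ A hA d j w hc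
  set C : ℝ := C1 * (1 + C2) with hCdef
  have hC : 0 < C := by positivity
  obtain ⟨M3, hM3⟩ := herr C hC
  refine ⟨max M3 (max (max a1 a2) ⌈2 * C⌉₊), fun M N hM F hF1 hFloc hFgap => ?_⟩
  have hM3' : M3 ≤ M := (le_max_left _ _).trans hM
  have hMa : max a1 a2 ≤ M := ((le_max_left _ _).trans (le_max_right _ _)).trans hM
  have hMa1 : a1 ≤ M := (le_max_left _ _).trans hMa
  have hMa2 : a2 ≤ M := (le_max_right _ _).trans hMa
  have hMC : ⌈2 * C⌉₊ ≤ M := ((le_max_right _ _).trans (le_max_right _ _)).trans hM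
  have hMC' : 2 * C ≤ M := Nat.ceil_le.1 hMC
  have hM3le : 3 ≤ M := ha1.trans hMa1
  set G : ℕ → Ω → ℂ := fun a ω => if a ∈ Finset.Ioc M N then F a ω else 1 with hG
  have hGF : ∀ a ∈ Finset.Ioc M N, G a = F a := by
    intro a ha
    funext ω
    simp only [hG]
    rw [if_pos ha]
  have hG1 : ∀ a ω, ‖G a ω‖ ≤ 1 := by
    intro a ω
    simp only [hG]
    split_ifs
    · exact hF1 a ω
    · simp
  have hGm : ∀ a, Measurable (G a) := by
    intro a
    by_cases h : a ∈ Finset.Ioc M N
    · rw [hGF a h]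
      exact L1 _ ℂ _ (hFloc a h)
    · have : G a = fun _ => 1 := by
        funext ω
        simp only [hG]
        rw [if_neg h]
      rw [this]
      exact measurable_const
  set r : ℕ → ℝ := fun a => C / (a * Real.log a) with hr
  have hlog0 : ∀ a : ℕ, 0 ≤ Real.log (a : ℝ) := fun a => Real.log_natCast_nonneg a
  have hr0 : ∀ a, 0 ≤ r a := fun a => by
    have := hlog0 a
    simp only [hr]
    positivity
  set pr : ℕ → ℕ := fun a => a - 1 - LL a with hpr
  have hIoc : ∀ a ∈ Finset.Ioc M N, M < a ∧ a ≤ N := fun a ha => Finset.mem_Ioc.1 ha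
  have hlogpos : ∀ a : ℕ, M < a → 1 ≤ Real.log (a : ℝ) := by
    intro a ha
    have h3 : (3 : ℝ) ≤ a := by exact_mod_cast (by omega : 3 ≤ a)
    have h2 : Real.exp 1 ≤ a := by
      have := Real.exp_one_lt_d9
      linarith
    rw [← Real.log_exp 1]
    exact Real.log_le_log (Real.exp_pos 1) h2
  -- the probabilities
  have hq : ∀ a : ℕ, M < a → μ.real (Gap A d j w a) ≤ C1 / (a * Real.log a) := by
    intro a ha
    have h1 := hQ a 0 (by omega) (Nat.zero_le _)
    rw [← mas_gap_cl] at h1
    have h2 : (0 : ℝ) < a * Real.log a := by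
      have := hlogpos a ha
      have h3 : (0 : ℝ) < a := by exact_mod_cast (by omega : 0 < a)
      positivity
    rw [le_div_iff₀ h2]
    refine h1.trans ?_
    simp
  have hq2 : ∀ a : ℕ, M < a → μ.real (Gap A d j w a) ≤ r a := by
    intro a ha
    refine (hq a ha).trans ?_
    simp only [hr]
    have h2 : (0 : ℝ) ≤ a * Real.log a := by
      have := hlog0 a
      positivity
    refine div_le_div_of_nonneg_right ?_ h2
    rw [hCdef]
    nlinarith
  have hqq : ∀ a b : ℕ, M < b → b < a →
      μ.real (Gap A d j w b ∩ Gap A d j w a) ≤ r a * r b := by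
    intro a b hb hba
    have h1 := hE b a (by omega) hba
    have h2 := hq a (by omega)
    have h3 := hq b hb
    have h4 : μ.real (Gap A d j w b) * μ.real (Gap A d j w a) ≤
        C1 / (b * Real.log b) * (C1 / (a * Real.log a)) :=
      mul_le_mul h3 h2 measureReal_nonneg (measureReal_nonneg.trans h3)
    have h5 : C2 * (C1 / (b * Real.log b) * (C1 / (a * Real.log a))) ≤ r a * r b := by
      simp only [hr]
      have h6 : (0 : ℝ) ≤ a * Real.log a := by
        have := hlog0 a
        positivity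
      have h7 : (0 : ℝ) ≤ b * Real.log b := by
        have := hlog0 b
        positivity
      have e1 : C2 * (C1 / (b * Real.log b) * (C1 / (a * Real.log a))) =
          C2 * C1 ^ 2 / ((b * Real.log b) * (a * Real.log a)) := by
        rw [div_mul_div_comm, ← mul_div_assoc]
        congr 1
        ring
      have e2 : C / (a * Real.log a) * (C / (b * Real.log b)) =
          C ^ 2 / ((b * Real.log b) * (a * Real.log a)) := by
        rw [div_mul_div_comm]
        congr 1
        · ring
        · ring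
      rw [e1, e2]
      refine div_le_div_of_nonneg_right ?_ (by positivity)
      rw [hCdef]
      have h8 : 0 < C1 ^ 2 := by positivity
      have h9 : C2 ≤ (1 + C2) ^ 2 := by nlinarith
      calc C2 * C1 ^ 2 ≤ (1 + C2) ^ 2 * C1 ^ 2 := mul_le_mul_of_nonneg_right h9 h8.le
        _ = (C1 * (1 + C2)) ^ 2 := by ring
    exact h1.trans ((mul_le_mul_of_nonneg_left h4 hC2.le).trans h5)
  -- AB
  have hne : ∀ a ∈ Finset.Ioc M N, {ω | G a ω ≠ 1} ⊆ Gap A d j w a := by
    intro a ha ω hω
    by_contra h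
    apply hω
    rw [hGF a ha]
    exact hFgap a ha ω h
  have hB := hab Ω μ G r pr M N hGm hG1 hr0
    (by
      intro a ha
      have := hIoc a ha
      simp only [hpr]
      omega)
    (by
      intro a ha
      have ha' := hIoc a ha
      refine L2 (Finset.Icc a (a + LL a)) ((Finset.Ioc M (pr a)).biUnion fun b => Finset.Icc b (b + LL b))
        (fun ω => G a ω - 1) (fun ω => ∏ b ∈ Finset.Ioc M (pr a), G b ω) ?_ ?_ ?_
      · rw [Finset.disjoint_left]
        intro p hp hp2
        have hp' := Finset.mem_Icc.1 hp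
        obtain ⟨b, hb, hb2⟩ := Finset.mem_biUnion.1 hp2
        have hb' := Finset.mem_Ioc.1 hb
        have hb3 := Finset.mem_Icc.1 hb2
        simp only [hpr] at hb'
        have h1 := mas_LL (a := b) (b := a) (by omega) (by omega)
        omega
      · intro ω ω' h
        have h1 := hFloc a ha ω ω' h
        simp only
        rw [hGF a ha, h1]
      · intro ω ω' h
        refine Finset.prod_congr rfl fun b hb => ?_
        have hb' := Finset.mem_Ioc.1 hb
        have hbN : b ∈ Finset.Ioc M N := by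
          simp only [hpr] at hb'
          exact Finset.mem_Ioc.2 ⟨hb'.1, by omega⟩
        rw [hGF b hbN]
        exact hFloc b hbN ω ω' fun p hp => h p (Finset.mem_biUnion.2 ⟨b, hb, hp⟩))
    (by
      intro a ha
      exact (measureReal_mono (hne a ha)).trans (hq2 a (hIoc a ha).1))
    (by
      intro a ha b hb _ hba
      refine le_trans (measureReal_mono ?_) (hqq a b (hIoc b hb).1 hba)
      intro ω hω
      exact ⟨hne b hb hω.2, hne a ha hω.1⟩)
  -- EXPP
  set z : ℕ → ℂ := fun a => ∫ ω, (G a ω - 1) ∂μ with hz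
  have hint : ∀ a, Integrable (G a) μ := fun a =>
    Integrable.of_bound (hGm a).aestronglyMeasurable 1 (Eventually.of_forall fun ω => hG1 a ω)
  have hX := hexpp (Finset.Ioc M N) z r
    (by
      intro a _
      have h1 : 1 + z a = ∫ ω, G a ω ∂μ := by
        simp only [hz]
        rw [integral_sub (hint a) (integrable_const _)]
        simp
      rw [h1]
      have h2 := norm_integral_le_of_norm_le_const (μ := μ) (Eventually.of_forall fun ω => hG1 a ω)
      simpa using h2)
    (by
      intro a ha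
      have hg := mas_gap_meas hA.meas d j w a
      have h1 : ‖z a‖ ≤ ∫ ω, (Gap A d j w a).indicator (fun _ => (2 : ℝ)) ω ∂μ := by
        refine norm_integral_le_of_norm_le ((integrable_const (2 : ℝ)).indicator hg)
          (Eventually.of_forall fun ω => ?_)
        by_cases h : ω ∈ Gap A d j w a
        · rw [indicator_of_mem h]
          refine (norm_sub_le _ _).trans ?_
          have := hG1 a ω
          rw [norm_one]
          linarith
        · rw [indicator_of_notMem h, hGF a ha, hFgap a ha ω h]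
          simp
      rw [integral_indicator hg, setIntegral_const] at h1
      refine h1.trans ?_
      have := hq2 a (hIoc a ha).1
      rw [smul_eq_mul]
      linarith)
    (by
      intro a ha
      have ha' := hIoc a ha
      have h1 := hlogpos a ha'.1
      have h2 : (M : ℝ) ≤ a := by exact_mod_cast ha'.1.le
      have h3 : (0 : ℝ) < a := by exact_mod_cast (by omega : 0 < a)
      simp only [hr]
      rw [div_le_iff₀ (by positivity)]
      nlinarith)
  -- ERR
  have hEr := hM3 M N hM3'
  have e1 : ∫ ω, ∏ a ∈ Finset.Ioc M N, F a ω ∂μ = ∫ ω, ∏ a ∈ Finset.Ioc M N, G a ω ∂μ := by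
    refine integral_congr_ae (Eventually.of_forall fun ω => ?_)
    exact Finset.prod_congr rfl fun a ha => by rw [hGF a ha]
  have e2 : ∑ a ∈ Finset.Ioc M N, ∫ ω, (F a ω - 1) ∂μ = ∑ a ∈ Finset.Ioc M N, z a := by
    refine Finset.sum_congr rfl fun a ha => ?_
    simp only [hz]
    rw [hGF a ha]
  rw [e1, e2]
  have h1 : ‖∫ ω, ∏ a ∈ Finset.Ioc M N, G a ω ∂μ - cexp (∑ a ∈ Finset.Ioc M N, z a)‖ ≤
      ‖∫ ω, ∏ a ∈ Finset.Ioc M N, G a ω ∂μ - ∏ a ∈ Finset.Ioc M N, (1 + z a)‖ +
        ‖∏ a ∈ Finset.Ioc M N, (1 + z a) - cexp (∑ a ∈ Finset.Ioc M N, z a)‖ :=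
    norm_sub_le_norm_sub_add_norm_sub _ _ _
  refine h1.trans ((add_le_add hB hX).trans ?_)
  rw [← Finset.sum_add_distrib]
  exact hEr

end H21SCH
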