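import Pool.Agent.H21.SCH.Stm

/-! # Project SCH: stub MEV -/

namespace H21SCH

open MeasureTheory ProbabilityTheory Filter Topology Set Complex

universe u

theorem mev_loc {Ω : Type u} (A : ℕ → Set Ω) (d j : ℕ) (w X : ℝ) :
    ∃ S : Finset ℕ, Loc A S (vol A d j w X) := by
  have h1 : ContinuousOn Real.log (Icc 16 X) :=
    Real.continuousOn_log.mono fun x hx => by
      have : (16 : ℝ) ≤ x := hx.1
      simp only [mem_compl_iff, mem_singleton_iff]
      linarith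
  have h2 : ContinuousOn (fun x : ℝ => Real.log (Real.log x)) (Icc 16 X) :=
    h1.log fun x hx => (Real.log_pos (by linarith [hx.1])).ne'
  have h3 : ContinuousOn (len j w) (Icc 16 X) := by
    unfold len
    exact ((h1.pow _).sub (continuousOn_const.mul ((h1.pow _).mul h2))).add
      (continuousOn_const.mul (h1.pow _))
  obtain ⟨R, hR⟩ := isCompact_Icc.exists_bound_of_continuousOn h3
  refine ⟨Finset.range (⌈X + R⌉₊ + 1), fun ω ω' hωω' => ?_⟩
  have key : ∀ ω ω' : Ω, (∀ p ∈ Finset.range (⌈X + R⌉₊ + 1), (ω ∈ A p ↔ ω' ∈ A p)) → ∀ x : ℝ,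
      16 < x → x ≤ X → ω ∈ Fails A d j w x → ω' ∈ Fails A d j w x := by
    intro ω ω' h x hx1 hx2 hω m hm1 hm2 hω'
    refine hω m hm1 hm2 ?_
    have h4 : len j w x ≤ R := (le_abs_self _).trans (hR x ⟨hx1.le, hx2⟩)
    have h5 : ((m + d : ℕ) : ℝ) < X + R := by linarith
    have h6 : m + d < ⌈X + R⌉₊ := Nat.lt_ceil.2 h5
    refine ⟨(h m ?_).2 hω'.1, (h (m + d) ?_).2 hω'.2⟩
    · rw [Finset.mem_range]; omega
    · rw [Finset.mem_range]; omega
  unfold vol
  congr 1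
  ext x
  simp only [mem_ofPred_eq]
  constructor
  · rintro ⟨h4, h5, h6⟩
    exact ⟨h4, h5, key ω ω' hωω' x h4 h5 h6⟩
  · rintro ⟨h4, h5, h6⟩
    exact ⟨h4, h5, key ω' ω (fun p hp => (hωω' p hp).symm) x h4 h5 h6⟩

theorem mev : S_LOC.{u} → S_MEV.{u} := by
  intro hloc Ω m0 μ _ A hA d j w X _
  obtain ⟨S, hS⟩ := mev_loc A d j w X
  exact (hloc Ω μ A hA.meas hA.indep).1 S ℝ _ hS

end H21SCH
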