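import Pool.Agent.H21.SCH.Stm

/-! # SCH-NOP (helper19) -/

set_option autoImplicit false

namespace H21SCH

open MeasureTheory ProbabilityTheory Filter Topology Set

universe u

namespace NopAux

variable {Ω : Type u}

/-- no two consecutive elements of the class are chosen -/
def Bc (A : ℕ → Set Ω) (d s c n : ℕ) : Set Ω :=
  {ω | ∀ i, i + 1 < n → ¬ (ω ∈ A (s + c + i * d) ∧ ω ∈ A (s + c + (i + 1) * d))}

def Sc (d s c n : ℕ) : Finset ℕ := (Finset.range n).image (fun i => s + c + i * d)

lemma mem_Sc {d s c n m : ℕ} : m ∈ Sc d s c n ↔ ∃ i < n, s + c + i * d = m := by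
  simp [Sc]

lemma loc_Bc (A : ℕ → Set Ω) (d s c n : ℕ) :
    Loc A (Sc d s c n) (fun ω => ω ∈ Bc A d s c n) := by
  intro ω ω' h
  have h1 : ∀ i < n, (ω ∈ A (s + c + i * d) ↔ ω' ∈ A (s + c + i * d)) := fun i hi =>
    h _ (mem_Sc.2 ⟨i, hi, rfl⟩)
  apply propext
  show (∀ i, i + 1 < n → ¬ (ω ∈ A (s + c + i * d) ∧ ω ∈ A (s + c + (i + 1) * d))) ↔
    (∀ i, i + 1 < n → ¬ (ω' ∈ A (s + c + i * d) ∧ ω' ∈ A (s + c + (i + 1) * d)))
  refine forall_congr' fun i => forall_congr' fun hi => ?_
  rw [h1 i (by omega), h1 (i + 1) hi]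

lemma loc_mono {A : ℕ → Set Ω} {S T : Finset ℕ} (hST : S ⊆ T) {β : Type*} {f : Ω → β}
    (h : Loc A S f) : Loc A T f := fun ω ω' h1 => h ω ω' fun p hp => h1 p (hST hp)

lemma loc_single (A : ℕ → Set Ω) (p : ℕ) : Loc A {p} (fun ω => ω ∈ A p) := by
  intro ω ω' h
  exact propext (h p (Finset.mem_singleton_self p))

lemma loc_single_compl (A : ℕ → Set Ω) (p : ℕ) : Loc A {p} (fun ω => ω ∈ (A p)ᶜ) := by
  intro ω ω' h
  apply propext
  show (¬ ω ∈ A p) ↔ ¬ ω' ∈ A p
  rw [h p (Finset.mem_singleton_self p)]

variable [MeasurableSpace Ω] {μ : Measure Ω} [IsProbabilityMeasure μ] {A : ℕ → Set Ω}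

lemma meas_of_loc (hL : S_LOC.{u}) (hA : CramerModel μ A) {S : Finset ℕ} {B : Set Ω}
    (h : Loc A S (fun ω => ω ∈ B)) : MeasurableSet B := by
  have := (hL Ω μ A hA.meas hA.indep).1 S Prop (fun ω => ω ∈ B) h
  exact measurableSet_setOfPred.2 this

lemma class_prob (hL : S_LOC.{u}) (hA : CramerModel μ A) (d s c : ℕ) (hd : 1 ≤ d) (hs : 3 ≤ s) :
    ∀ n : ℕ, μ.real (Bc A d s c n) =
      Rn (fun i => 1 / Real.log ((s + c + i * d : ℕ) : ℝ)) n := by
  obtain ⟨-, -, h3⟩ := hL Ω μ A hA.meas hA.indep
  have hp : ∀ i, μ.real (A (s + c + i * d)) = 1 / Real.log ((s + c + i * d : ℕ) : ℝ) := fun i =>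
    hA.prob _ (by omega)
  have hpc : ∀ i, μ.real ((A (s + c + i * d))ᶜ) =
      1 - 1 / Real.log ((s + c + i * d : ℕ) : ℝ) := fun i => by
    rw [probReal_compl_eq_one_sub (hA.meas _), hp]
  have hlt : ∀ i j : ℕ, i < j → i * d < j * d := fun i j h => Nat.mul_lt_mul_of_pos_right h hd
  intro n
  induction n using Nat.strong_induction_on with
  | _ n ih =>
    match n, ih with
    | 0, _ =>
      have : Bc A d s c 0 = univ := by
        ext ω
        simp only [Bc, mem_ofPred_eq, mem_univ, iff_true]
        intro i hi; omega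
      rw [this]
      simp [Rn]
    | 1, _ =>
      have : Bc A d s c 1 = univ := by
        ext ω
        simp only [Bc, mem_ofPred_eq, mem_univ, iff_true]
        intro i hi; omega
      rw [this]
      simp [Rn]
    | n + 2, ih =>
      have hdec : Bc A d s c (n + 2) =
          (Bc A d s c (n + 1) ∩ (A (s + c + (n + 1) * d))ᶜ) ∪
            (Bc A d s c n ∩ ((A (s + c + n * d))ᶜ ∩ A (s + c + (n + 1) * d))) := by
        ext ω
        simp only [Bc, mem_ofPred_eq, mem_union, mem_inter_iff, mem_compl_iff]
        constructor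
        · intro h
          by_cases hn : ω ∈ A (s + c + (n + 1) * d)
          · right
            refine ⟨fun i hi => h i (by omega), fun hc => h n (by omega) ⟨hc, hn⟩, hn⟩
          · left
            exact ⟨fun i hi => h i (by omega), hn⟩
        · rintro (⟨h1, h2⟩ | ⟨h1, h2, h3⟩) i hi
          · rcases Nat.lt_or_ge (i + 1) (n + 1) with hlt | hge
            · exact h1 i hlt
            · have : i = n := by omega
              subst this
              exact fun h => h2 h.2
          · rcases Nat.lt_or_ge (i + 1) n with hlt | hge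
            · exact h1 i hlt
            · have : i = n ∨ i + 1 = n := by omega
              rcases this with rfl | rfl
              · exact fun h => h2 h.1
              · exact fun h => h2 h.2
      have hm1 : MeasurableSet (Bc A d s c (n + 1)) := meas_of_loc hL hA (loc_Bc A d s c (n + 1))
      have hm0 : MeasurableSet (Bc A d s c n) := meas_of_loc hL hA (loc_Bc A d s c n)
      rw [hdec, measureReal_union _ (hm0.inter ((hA.meas _).compl.inter (hA.meas _)))]
      · have e1 : μ.real (Bc A d s c (n + 1) ∩ (A (s + c + (n + 1) * d))ᶜ) =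
            μ.real (Bc A d s c (n + 1)) * μ.real ((A (s + c + (n + 1) * d))ᶜ) := by
          refine h3 (Sc d s c (n + 1)) {s + c + (n + 1) * d} _ _ ?_ (loc_Bc A d s c (n + 1))
            (loc_single_compl A _)
          rw [Finset.disjoint_singleton_right, mem_Sc]
          rintro ⟨i, hi, hi2⟩
          have := hlt i (n + 1) hi
          omega
        have e2 : μ.real (Bc A d s c n ∩ ((A (s + c + n * d))ᶜ ∩ A (s + c + (n + 1) * d))) =
            μ.real (Bc A d s c n) * μ.real ((A (s + c + n * d))ᶜ ∩ A (s + c + (n + 1) * d)) := by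
          refine h3 (Sc d s c n) ({s + c + n * d} ∪ {s + c + (n + 1) * d}) _ _ ?_
            (loc_Bc A d s c n) ?_
          · rw [Finset.disjoint_union_right, Finset.disjoint_singleton_right,
              Finset.disjoint_singleton_right, mem_Sc, mem_Sc]
            constructor
            · rintro ⟨i, hi, hi2⟩
              have := hlt i n hi
              omega
            · rintro ⟨i, hi, hi2⟩
              have := hlt i (n + 1) (by omega)
              omega
          · intro ω ω' h
            apply propext
            show (¬ ω ∈ A (s + c + n * d) ∧ ω ∈ A (s + c + (n + 1) * d)) ↔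
              (¬ ω' ∈ A (s + c + n * d) ∧ ω' ∈ A (s + c + (n + 1) * d))
            rw [h (s + c + n * d) (by simp), h (s + c + (n + 1) * d) (by simp)]
        have e3 : μ.real ((A (s + c + n * d))ᶜ ∩ A (s + c + (n + 1) * d)) =
            μ.real ((A (s + c + n * d))ᶜ) * μ.real (A (s + c + (n + 1) * d)) := by
          refine h3 {s + c + n * d} {s + c + (n + 1) * d} _ _ ?_ (loc_single_compl A _)
            (loc_single A _)
          rw [Finset.disjoint_singleton]
          have := hlt n (n + 1) (by omega)
          omega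
        rw [e1, e2, e3, hpc, hpc, hp, ih (n + 1) (by omega), ih n (by omega)]
        simp only [Rn]
        ring
      · rw [Set.disjoint_left]
        rintro ω ⟨-, h1⟩ ⟨-, -, h2⟩
        exact h1 h2

end NopAux

open NopAux in
theorem nop : S_LOC.{u} → S_NOP.{u} := by
  intro hL Ω _ μ _ A hA d s n hd hs
  obtain ⟨-, -, h3⟩ := hL Ω μ A hA.meas hA.indep
  have key : ∀ k, k ≤ d → μ.real {ω | ∀ c < k, ω ∈ Bc A d s c n} =
      ∏ c ∈ Finset.range k, Rn (fun i => 1 / Real.log ((s + c + i * d : ℕ) : ℝ)) n := by
    intro k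
    induction k with
    | zero =>
      intro _
      have : {ω : Ω | ∀ c < 0, ω ∈ Bc A d s c n} = univ := by
        ext ω; simp
      rw [this]
      simp
    | succ k ih =>
      intro hk
      have hset : {ω : Ω | ∀ c < k + 1, ω ∈ Bc A d s c n} =
          {ω | ∀ c < k, ω ∈ Bc A d s c n} ∩ Bc A d s k n := by
        ext ω
        simp only [mem_ofPred_eq, mem_inter_iff]
        constructor
        · intro h
          exact ⟨fun c hc => h c (by omega), h k (by omega)⟩
        · rintro ⟨h1, h2⟩ c hc
          rcases Nat.lt_or_ge c k with hlt | hge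
          · exact h1 c hlt
          · have : c = k := by omega
            rw [this]; exact h2
      rw [hset, Finset.prod_range_succ, ← ih (by omega), ← class_prob hL hA d s k hd hs n]
      refine h3 ((Finset.range k).biUnion fun c => Sc d s c n) (Sc d s k n) _ _ ?_ ?_
        (loc_Bc A d s k n)
      · rw [Finset.disjoint_left]
        intro m hm hm2
        rw [Finset.mem_biUnion] at hm
        obtain ⟨c, hc, hm⟩ := hm
        rw [Finset.mem_range] at hc
        rw [mem_Sc] at hm hm2
        obtain ⟨i, hi, hi2⟩ := hm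
        obtain ⟨j, hj, hj2⟩ := hm2
        have h4 : c + i * d = k + j * d := by omega
        have h5 : (c + i * d) % d = (k + j * d) % d := by rw [h4]
        rw [Nat.add_mul_mod_self_right, Nat.add_mul_mod_self_right, Nat.mod_eq_of_lt (by omega),
          Nat.mod_eq_of_lt (by omega)] at h5
        omega
      · intro ω ω' h
        apply propext
        show (∀ c < k, ω ∈ Bc A d s c n) ↔ (∀ c < k, ω' ∈ Bc A d s c n)
        refine forall_congr' fun c => forall_congr' fun hc => ?_
        have := loc_Bc A d s c n ω ω' fun p hp => h p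
          (Finset.mem_biUnion.2 ⟨c, Finset.mem_range.2 hc, hp⟩)
        exact iff_of_eq this
  rw [← key d le_rfl]
  congr 1
  ext ω
  simp only [NoPat, Bc, Pat, mem_ofPred_eq, mem_inter_iff]
  constructor
  · intro h c hc i hi
    have h4 : (i + 1) * d < n * d := Nat.mul_lt_mul_of_pos_right hi hd
    have h6 : (i + 1) * d + d ≤ n * d := by
      have : (i + 1 + 1) * d ≤ n * d := Nat.mul_le_mul_right d (by omega)
      linarith [this, add_mul (i + 1) 1 d]
    have h5 := h (s + c + i * d) (by omega) (by
      have : (i + 1) * d = i * d + d := by ring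
      omega)
    have h7 : s + c + i * d + d = s + c + (i + 1) * d := by ring
    rw [h7] at h5
    exact h5
  · intro h m hm hme
    have h4 := h ((m - s) % d) (Nat.mod_lt _ hd) ((m - s) / d) (by
      have h5 : d * ((m - s) / d) ≤ m - s := Nat.mul_div_le _ _
      by_contra hc
      have h6 : n ≤ (m - s) / d + 1 := by omega
      have h7 : n * d ≤ ((m - s) / d + 1) * d := Nat.mul_le_mul_right d h6
      have h8 : ((m - s) / d + 1) * d = d * ((m - s) / d) + d := by ring
      omega)
    have h5 : s + (m - s) % d + (m - s) / d * d = m := by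
      have := Nat.mod_add_div (m - s) d
      rw [mul_comm] at this
      omega
    have h6 : s + (m - s) % d + ((m - s) / d + 1) * d = m + d := by
      have : ((m - s) / d + 1) * d = (m - s) / d * d + d := by ring
      omega
    rw [h5, h6] at h4
    exact h4

end H21SCH
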