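import Pool.Agent.H21.SCH.Stm

/-! # Project SCH: stub PAR -/

namespace H21SCH

open MeasureTheory ProbabilityTheory Filter Topology Set Complex

universe u

theorem par : S_PE.{u} → S_CMP.{u} → S_PFL.{u} → S_PAR.{u} := by
  intro hPE hCMP hPFL Ω m0 μ _ A hA d j w c hC hc
  obtain ⟨C1, x1, hC1, hx1, h1⟩ := hPE Ω μ A hA d j w hC
  obtain ⟨x2, h2⟩ := hCMP d j w hC
  obtain ⟨C3, x3, hC3, hx3, h3⟩ := hPFL Ω μ A hA d j w hC
  obtain ⟨l, hl⟩ : ∃ l : ℝ, l = c ^ (-(lamc j * Real.exp (-w))) := ⟨_, rfl⟩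
  rw [← hl]
  have t1 : Tendsto (fun X : ℝ => C1 / √(Real.log X)) atTop (𝓝 0) :=
    tendsto_const_nhds.div_atTop (Real.tendsto_sqrt_atTop.comp Real.tendsto_log_atTop)
  have t2 : Tendsto (fun X : ℝ => C3 / √X) atTop (𝓝 0) :=
    tendsto_const_nhds.div_atTop Real.tendsto_sqrt_atTop
  have tlow : Tendsto (fun X : ℝ => l - C1 / √(Real.log X) - C3 / √X) atTop (𝓝 l) := by
    have := (tendsto_const_nhds (x := l)).sub t1 |>.sub t2
    simpa using this
  have tup : Tendsto (fun X : ℝ => l + C1 / √(Real.log X)) atTop (𝓝 l) := by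
    have := (tendsto_const_nhds (x := l)).add t1
    simpa using this
  have hNG : ∀ X : ℝ, x1 ≤ X → |μ.real (NoGap A d j w X (X ^ c)) - l| ≤ C1 / √(Real.log X) := by
    intro X hX
    have hX1 : 1 ≤ X := by linarith
    have h4 := h1 X (X ^ c) hX (Real.self_le_rpow_of_one_le hX1 hc)
    have h5 : Real.log (X ^ c) / Real.log X = c := by
      rw [Real.log_rpow (by linarith)]
      exact mul_div_cancel_right₀ _ (Real.log_pos (by linarith)).ne'
    rwa [h5, ← hl] at h4
  refine tendsto_of_tendsto_of_tendsto_of_le_of_le' tlow tup ?_ ?_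
  · filter_upwards [eventually_ge_atTop x1, eventually_ge_atTop x2, eventually_ge_atTop x3]
      with X k1 k2 k3
    have hX1 : 1 ≤ X := by linarith
    have h6 := (h2 Ω A X (X ^ c) k2 (Real.self_le_rpow_of_one_le hX1 hc)).1
    have h7 : NoGap A d j w X (X ^ c) ⊆ Holds A d j w X (X ^ c) ∪ Fails A d j w X := by
      intro ω hω
      by_cases hF : ω ∈ Fails A d j w X
      · exact Or.inr hF
      · exact Or.inl (h6 ⟨hω, hF⟩)
    have h8 := (measureReal_mono h7 (measure_ne_top μ _)).trans (measureReal_union_le (μ := μ) _ _)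
    have h9 := h3 X k3
    have h10 := (abs_le.1 (hNG X k1)).1
    linarith
  · filter_upwards [eventually_ge_atTop x1, eventually_ge_atTop x2] with X k1 k2
    have hX1 : 1 ≤ X := by linarith
    have h6 := (h2 Ω A X (X ^ c) k2 (Real.self_le_rpow_of_one_le hX1 hc)).2
    have h8 := measureReal_mono (μ := μ) h6 (measure_ne_top μ _)
    have h10 := (abs_le.1 (hNG X k1)).2
    linarith

end H21SCH
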