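import Pool.Agent.H21.SCH.Stm

/-! # Project SCH, stub PE (helper35) -/

set_option autoImplicit false

namespace H21SCH

open MeasureTheory ProbabilityTheory Filter Topology Set Complex

universe u

theorem pe_gap_meas {Ω : Type u} [MeasurableSpace Ω] {A : ℕ → Set Ω} (hA : ∀ n, MeasurableSet (A n))
    (d j : ℕ) (w : ℝ) (a : ℕ) : MeasurableSet (Gap A d j w a) := by
  have hP : ∀ m, MeasurableSet (Pat A d m) := fun m => (hA m).inter (hA (m + d))
  have hF : Fails A d j w a = ⋂ m : ℕ, ⋂ (_ : (a : ℝ) < m), ⋂ (_ : ((m + d : ℕ) : ℝ) < a + len j w a),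
      (Pat A d m)ᶜ := by
    ext ω
    simp only [Fails, mem_ofPred_eq, mem_iInter, mem_compl_iff]
  refine (hP a).inter ?_
  rw [hF]
  exact MeasurableSet.iInter fun m => MeasurableSet.iInter fun _ => MeasurableSet.iInter fun _ => (hP m).compl

theorem pe_gap_cl {Ω : Type u} (A : ℕ → Set Ω) (d j : ℕ) (w : ℝ) (a : ℕ) :
    Gap A d j w a = Cl A d j w a 0 := by
  ext ω
  simp only [Gap, Cl, Fails, mem_inter_iff, mem_ofPred_eq, Nat.add_zero, Nat.cast_lt]

theorem pe_lip {a b : ℝ} (ha : 0 ≤ a) (hb : 0 ≤ b) : |Real.exp (-a) - Real.exp (-b)| ≤ |a - b| := by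
  have key : ∀ a b : ℝ, 0 ≤ a → a ≤ b → |Real.exp (-a) - Real.exp (-b)| ≤ |a - b| := by
    intro a b ha hab
    have h1 : Real.exp (-b) ≤ Real.exp (-a) := Real.exp_le_exp.2 (by linarith)
    rw [abs_of_nonneg (by linarith), abs_of_nonpos (by linarith)]
    have h2 : Real.exp (-b) = Real.exp (-a) * Real.exp (-(b - a)) := by
      rw [← Real.exp_add]; congr 1; ring
    have h3 := Real.add_one_le_exp (-(b - a))
    have h4 : Real.exp (-a) ≤ 1 := Real.exp_le_one_iff.2 (by linarith)
    have h5 := Real.exp_pos (-a)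
    rw [h2]
    nlinarith
  rcases le_total a b with h | h
  · exact key a b ha h
  · rw [abs_sub_comm, abs_sub_comm a b]
    exact key b a hb h

theorem pe : S_MAS.{u} → S_DET.{u} → S_SUMQ.{u} → S_PE.{u} := by
  intro hmas hdet hsumq Ω _ μ _ A hA d j w hc
  classical
  obtain ⟨M₀, hM⟩ := hmas Ω μ A hA d j w hc
  obtain ⟨a₀, ha16, -, -, -, -, hloc, -⟩ := hdet d j w hc
  obtain ⟨C, x₁, hx1, hS⟩ := hsumq Ω μ A hA d j w hc
  refine ⟨|C| + 2, max x₁ (max M₀ a₀), by positivity, hx1.trans (le_max_left _ _), ?_⟩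
  intro x y hx hxy
  have hx1' : x₁ ≤ x := (le_max_left _ _).trans hx
  have hxM : (M₀ : ℝ) ≤ x := ((le_max_left _ _).trans (le_max_right _ _)).trans hx
  have hxa : (a₀ : ℝ) ≤ x := ((le_max_right _ _).trans (le_max_right _ _)).trans hx
  have hx4 : 4 ≤ x := hx1.trans hx1'
  have hx0 : 0 ≤ x := by linarith
  have hy0 : 0 ≤ y := by linarith
  set M := ⌊x⌋₊ with hMdef
  set N := ⌊y⌋₊ with hNdef
  have hMM : M₀ ≤ M := Nat.le_floor hxM
  have hMa : a₀ ≤ M := Nat.le_floor hxa
  set F : ℕ → Ω → ℂ := fun a ω => if ω ∈ Gap A d j w a then 0 else 1 with hF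
  have h1 := hM M N hMM F
    (by intro a ω; simp only [hF]; split_ifs <;> simp)
    (by
      intro a ha ω ω' h
      have ha' := Finset.mem_Ioc.1 ha
      have h2 := hloc Ω A a 0 (by omega) (Nat.zero_le _) ω ω' h
      simp only [hF]
      rw [pe_gap_cl]
      rw [show (ω ∈ Cl A d j w a 0) = (ω' ∈ Cl A d j w a 0) from h2])
    (by intro a _ ω h; simp only [hF]; rw [if_neg h])
  -- the product
  have hg : ∀ a, MeasurableSet (Gap A d j w a) := pe_gap_meas hA.meas d j w
  have hno : NoGap A d j w x y = ⋂ a ∈ Finset.Ioc M N, (Gap A d j w a)ᶜ := by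
    ext ω
    simp only [NoGap, mem_ofPred_eq, mem_iInter, mem_compl_iff]
    constructor
    · intro h a ha
      have ha' := Finset.mem_Ioc.1 ha
      exact h a ((Nat.floor_lt hx0).1 ha'.1) ((Nat.le_floor_iff hy0).1 ha'.2)
    · intro h a h1 h2
      exact h a (Finset.mem_Ioc.2 ⟨(Nat.floor_lt hx0).2 h1, (Nat.le_floor_iff hy0).2 h2⟩)
  have hnom : MeasurableSet (NoGap A d j w x y) := by
    rw [hno]
    exact Finset.measurableSet_biInter _ fun a _ => (hg a).compl
  have hprod : ∀ ω, ∏ a ∈ Finset.Ioc M N, F a ω = (NoGap A d j w x y).indicator (fun _ => (1 : ℂ)) ω := by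
    intro ω
    by_cases h : ω ∈ NoGap A d j w x y
    · rw [indicator_of_mem h]
      rw [hno] at h
      refine Finset.prod_eq_one fun a ha => ?_
      have h2 : ω ∉ Gap A d j w a := by
        have := mem_iInter₂.1 h a ha
        exact this
      simp only [hF]
      rw [if_neg h2]
    · rw [indicator_of_notMem h]
      rw [hno] at h
      simp only [mem_iInter, mem_compl_iff, not_forall, not_not] at h
      obtain ⟨a, ha, h2⟩ := h
      refine Finset.prod_eq_zero ha ?_
      simp only [hF]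
      rw [if_pos h2]
  have hint : ∫ ω, ∏ a ∈ Finset.Ioc M N, F a ω ∂μ = (μ.real (NoGap A d j w x y) : ℂ) := by
    simp_rw [hprod]
    rw [integral_indicator hnom, setIntegral_const]
    simp
  have hint2 : ∀ a, ∫ ω, (F a ω - 1) ∂μ = -(μ.real (Gap A d j w a) : ℂ) := by
    intro a
    have h2 : (fun ω => F a ω - 1) = fun ω => (Gap A d j w a).indicator (fun _ => (-1 : ℂ)) ω := by
      funext ω
      simp only [hF]
      by_cases h : ω ∈ Gap A d j w a
      · rw [if_pos h, indicator_of_mem h]; ring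
      · rw [if_neg h, indicator_of_notMem h]; ring
    rw [h2, integral_indicator (hg a), setIntegral_const]
    simp
  set S : ℝ := ∑ a ∈ Finset.Ioc M N, μ.real (Gap A d j w a) with hSdef
  have hS0 : 0 ≤ S := Finset.sum_nonneg fun a _ => measureReal_nonneg
  have hexp : cexp (∑ a ∈ Finset.Ioc M N, ∫ ω, (F a ω - 1) ∂μ) = ((Real.exp (-S) : ℝ) : ℂ) := by
    simp_rw [hint2]
    rw [Finset.sum_neg_distrib, Complex.ofReal_exp]
    congr 1
    rw [hSdef]
    push_cast
    rfl
  rw [hint, hexp, ← Complex.ofReal_sub, Complex.norm_real, Real.norm_eq_abs] at h1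
  -- the logarithms
  have hlx : 1 ≤ Real.log x := by
    have h2 : Real.exp 1 ≤ x := by
      have := Real.exp_one_lt_d9
      linarith
    rw [← Real.log_exp 1]
    exact Real.log_le_log (Real.exp_pos 1) h2
  have hlM : Real.log x ≤ 2 * Real.log M := by
    have h2 : x - 1 < M := by
      have := Nat.lt_floor_add_one x
      linarith
    have h3 : x ≤ (M : ℝ) ^ 2 := by nlinarith
    have h4 := Real.log_le_log (by linarith) h3
    rwa [Real.log_pow, Nat.cast_ofNat] at h4
  have hsq : Real.sqrt (Real.log x) ≤ Real.log x := by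
    rw [Real.sqrt_le_left (by linarith)]
    nlinarith
  have hsq0 : 0 < Real.sqrt (Real.log x) := Real.sqrt_pos.2 (by linarith)
  have h2 : 1 / Real.log M ≤ 2 / Real.sqrt (Real.log x) := by
    rw [div_le_div_iff₀ (by linarith) hsq0]
    linarith
  -- the power
  have hly : Real.log x ≤ Real.log y := Real.log_le_log (by linarith) hxy
  set lam : ℝ := lamc j * Real.exp (-w) with hlam
  have hlam0 : 0 ≤ lam := by
    have h3 : 0 ≤ lamc j := by
      unfold lamc
      split_ifs <;> positivity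
    positivity
  set z : ℝ := lam * (Real.log (Real.log y) - Real.log (Real.log x)) with hz
  have hz0 : 0 ≤ z := by
    have := Real.log_le_log (by linarith) hly
    exact mul_nonneg hlam0 (by linarith)
  have hpow : (Real.log y / Real.log x) ^ (-lam) = Real.exp (-z) := by
    rw [Real.rpow_def_of_pos (div_pos (by linarith) (by linarith)),
      Real.log_div (by linarith) (by linarith)]
    congr 1
    rw [hz]
    ring
  rw [hpow]
  have h3 := hS x y hx1' hxy
  have h4 := (pe_lip hS0 hz0).trans h3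
  have h5 : C / Real.sqrt (Real.log x) ≤ |C| / Real.sqrt (Real.log x) :=
    div_le_div_of_nonneg_right (le_abs_self C) hsq0.le
  have h6 : |μ.real (NoGap A d j w x y) - Real.exp (-z)| ≤
      |μ.real (NoGap A d j w x y) - Real.exp (-S)| + |Real.exp (-S) - Real.exp (-z)| := abs_sub_le _ _ _
  have h7 : (|C| + 2) / Real.sqrt (Real.log x) = |C| / Real.sqrt (Real.log x) + 2 / Real.sqrt (Real.log x) :=
    add_div _ _ _
  rw [h7]
  linarith

end H21SCH
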