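import Pool.Agent.H21.SCH.Stm

/-! # Project SCH, stub PFL (helper35) -/

set_option autoImplicit false

namespace H21SCH

open MeasureTheory ProbabilityTheory Filter Topology Set Complex

universe u

/-- the prescribed state of the coordinate `a + i` -/
def pflB {Ω : Type u} (A : ℕ → Set Ω) (d a i : ℕ) : Set Ω :=
  if i = 0 ∨ i = d then A (a + i) else (A (a + i))ᶜ

/-- the prescribed states of the coordinates `a, …, a + n - 1` -/
def pflE {Ω : Type u} (A : ℕ → Set Ω) (d a n : ℕ) : Set Ω := {ω | ∀ i < n, ω ∈ pflB A d a i}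

theorem pfl_B_loc {Ω : Type u} (A : ℕ → Set Ω) (d a i : ℕ) :
    Loc A {a + i} (fun ω => ω ∈ pflB A d a i) := by
  intro ω ω' h
  have h1 := h (a + i) (Finset.mem_singleton_self _)
  unfold pflB
  split_ifs
  · exact propext h1
  · exact propext (not_congr h1)

theorem pfl_E_loc {Ω : Type u} (A : ℕ → Set Ω) (d a n : ℕ) :
    Loc A (Finset.Ico a (a + n)) (fun ω => ω ∈ pflE A d a n) := by
  intro ω ω' h
  refine propext (forall_congr' fun i => forall_congr' fun hi => ?_)
  have h1 := pfl_B_loc A d a i ω ω' fun p hp => h p (by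
    rw [Finset.mem_singleton] at hp
    rw [Finset.mem_Ico]
    omega)
  exact iff_of_eq h1

theorem pfl_logs {a n : ℕ} (ha : 8 ≤ a) (hn : n ≤ a) :
    2 ≤ Real.log ((a + n : ℕ) : ℝ) ∧ Real.log ((a + n : ℕ) : ℝ) ≤ 2 * Real.log a := by
  have h8 : (8 : ℝ) ≤ a := by exact_mod_cast ha
  have hn' : (n : ℝ) ≤ a := by exact_mod_cast hn
  have hn0 : (0 : ℝ) ≤ n := Nat.cast_nonneg n
  have e2 : Real.exp 2 ≤ 8 := by
    have h1 := Real.exp_one_lt_d9
    have h2 : Real.exp 2 = Real.exp 1 * Real.exp 1 := by rw [← Real.exp_add]; norm_num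
    have h3 := Real.exp_pos 1
    rw [h2]
    nlinarith
  push_cast
  constructor
  · rw [← Real.log_exp 2]
    exact Real.log_le_log (Real.exp_pos 2) (by linarith)
  · have h1 : (a : ℝ) + n ≤ (a : ℝ) ^ 2 := by nlinarith
    have h2 := Real.log_le_log (by linarith) h1
    rwa [Real.log_pow, Nat.cast_ofNat] at h2

theorem pfl_B_prob {Ω : Type u} [MeasurableSpace Ω] {μ : Measure Ω} [IsProbabilityMeasure μ]
    {A : ℕ → Set Ω} (hA : CramerModel μ A) {d a i : ℕ} (ha : 8 ≤ a) (hi : i ≤ a) :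
    1 / 2 * (if i = 0 ∨ i = d then 1 / Real.log a else 1) ≤ μ.real (pflB A d a i) := by
  obtain ⟨h1, h2⟩ := pfl_logs ha hi
  have h3 := hA.prob (a + i) (by omega)
  have hla : 0 < Real.log a := by linarith
  unfold pflB
  split_ifs with h
  · rw [h3, div_mul_div_comm, one_mul]
    exact one_div_le_one_div_of_le (by linarith) h2
  · rw [measureReal_compl (hA.meas _), probReal_univ, h3]
    have h4 : 1 / Real.log ((a + i : ℕ) : ℝ) ≤ 1 / 2 := one_div_le_one_div_of_le (by norm_num) h1
    linarith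

theorem pfl_E_prob (hloc : S_LOC.{u}) {Ω : Type u} [MeasurableSpace Ω] {μ : Measure Ω}
    [IsProbabilityMeasure μ] {A : ℕ → Set Ω} (hA : CramerModel μ A) {d a : ℕ} (ha : 8 ≤ a) :
    ∀ n : ℕ, n ≤ a → ∏ i ∈ Finset.range n, (1 / 2 * (if i = 0 ∨ i = d then 1 / Real.log a else 1)) ≤
      μ.real (pflE A d a n) := by
  have hla : 0 < Real.log a := by
    have := pfl_logs ha (Nat.zero_le a)
    simp only [Nat.add_zero] at this
    linarith
  intro n
  induction n with
  | zero =>
    intro _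
    have : pflE A d a 0 = univ := by
      ext ω
      simp [pflE]
    rw [this, probReal_univ]
    simp
  | succ n ih =>
    intro hn
    have h1 : pflE A d a (n + 1) = pflE A d a n ∩ pflB A d a n := by
      ext ω
      simp only [pflE, mem_ofPred_eq, mem_inter_iff]
      constructor
      · intro h
        exact ⟨fun i hi => h i (by omega), h n (by omega)⟩
      · rintro ⟨h, h'⟩ i hi
        rcases Nat.lt_succ_iff_lt_or_eq.1 hi with h2 | h2
        · exact h i h2
        · rw [h2]; exact h'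
    have h2 := (hloc Ω μ A hA.meas hA.indep).2.2 (Finset.Ico a (a + n)) {a + n} (pflE A d a n)
      (pflB A d a n) (by
        rw [Finset.disjoint_singleton_right, Finset.mem_Ico]
        omega) (pfl_E_loc A d a n) (pfl_B_loc A d a n)
    rw [h1, h2, Finset.prod_range_succ]
    refine mul_le_mul (ih (by omega)) (pfl_B_prob hA ha (by omega)) ?_ measureReal_nonneg
    split_ifs <;> positivity

theorem pfl_prod (d : ℕ) {t : ℝ} (ht0 : 0 ≤ t) (ht1 : t ≤ 1) :
    (1 / 2) ^ (2 * d + 1) * t ^ 2 ≤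
      ∏ i ∈ Finset.range (2 * d + 1), (1 / 2 * (if i = 0 ∨ i = d then t else 1)) := by
  rw [Finset.prod_mul_distrib, Finset.prod_const, Finset.card_range]
  refine mul_le_mul_of_nonneg_left ?_ (by positivity)
  have h1 : ∏ i ∈ Finset.range (2 * d + 1), ((if i = 0 then t else 1) * (if i = d then t else 1)) ≤
      ∏ i ∈ Finset.range (2 * d + 1), (if i = 0 ∨ i = d then t else 1) := by
    refine Finset.prod_le_prod (fun i _ => ?_) (fun i _ => ?_)
    · split_ifs <;> positivity
    · by_cases h0 : i = 0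
      · by_cases hd : i = d
        · rw [if_pos h0, if_pos hd, if_pos (Or.inl h0)]
          nlinarith
        · rw [if_pos h0, if_neg hd, if_pos (Or.inl h0), mul_one]
      · by_cases hd : i = d
        · rw [if_neg h0, if_pos hd, if_pos (Or.inr hd), one_mul]
        · rw [if_neg h0, if_neg hd, if_neg (by tauto), mul_one]
  refine le_trans (le_of_eq ?_) h1
  rw [Finset.prod_mul_distrib, Finset.prod_ite_eq', Finset.prod_ite_eq',
    if_pos (Finset.mem_range.2 (by omega)), if_pos (Finset.mem_range.2 (by omega)), sq]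

/-- no pair far from `a` -/
def pflF {Ω : Type u} (A : ℕ → Set Ω) (d j : ℕ) (w : ℝ) (a : ℕ) : Set Ω :=
  {ω | ∀ m : ℕ, a + 2 * d < m → ((m + d : ℕ) : ℝ) < a + len j w a → ω ∉ Pat A d m}

theorem pfl_F_loc {Ω : Type u} (A : ℕ → Set Ω) (d j : ℕ) (w : ℝ) (a : ℕ) :
    Loc A (Finset.Ico (a + 2 * d + 1) ⌈(a : ℝ) + len j w a⌉₊) (fun ω => ω ∈ pflF A d j w a) := by
  intro ω ω' h
  refine propext (forall_congr' fun m => forall_congr' fun hm => forall_congr' fun hm2 => ?_)
  have h5 : m + d < ⌈(a : ℝ) + len j w a⌉₊ := Nat.lt_ceil.2 hm2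
  have h6 := h m (Finset.mem_Ico.2 ⟨by omega, by omega⟩)
  have h7 := h (m + d) (Finset.mem_Ico.2 ⟨by omega, by omega⟩)
  exact not_congr (and_congr h6 h7)

theorem pfl : S_LOC.{u} → S_DET.{u} → S_QAS.{u} → S_PFL.{u} := by
  intro hloc hdet hqas Ω _ μ _ A hA d j w hc
  obtain ⟨a₀, ha16, hmon, -⟩ := hdet d j w hc
  obtain ⟨-, C1, a1, hC1, ha1, hQ⟩ := hqas Ω μ A hA d j w hc
  refine ⟨C1 * 2 ^ (2 * d + 1) * 4, max (max (a₀ + 1 : ℝ) (a1 + 1)) (2 * d + 9 : ℝ), by positivity,
    ?_, ?_⟩
  · refine le_trans ?_ (le_max_right _ _)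
    have : (0 : ℝ) ≤ d := Nat.cast_nonneg d
    linarith
  intro X hX
  have hX0 : (a₀ : ℝ) + 1 ≤ X := ((le_max_left _ _).trans (le_max_left _ _)).trans hX
  have hX1 : (a1 : ℝ) + 1 ≤ X := ((le_max_right _ _).trans (le_max_left _ _)).trans hX
  have hXd : 2 * (d : ℝ) + 9 ≤ X := (le_max_right _ _).trans hX
  have hd0 : (0 : ℝ) ≤ d := Nat.cast_nonneg d
  have hXpos : 0 ≤ X := by linarith
  set a := ⌊X⌋₊ with hadef
  have haX : (a : ℝ) ≤ X := Nat.floor_le hXpos
  have hXa : X < a + 1 := Nat.lt_floor_add_one X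
  have ha0 : a₀ ≤ a := Nat.le_floor (by linarith)
  have ha1' : a1 ≤ a := Nat.le_floor (by linarith)
  have had : 2 * d + 9 ≤ a := Nat.le_floor (by push_cast; linarith)
  have ha0' : (a₀ : ℝ) ≤ a := by exact_mod_cast ha0
  have h8 : 8 ≤ a := by omega
  have hla := pfl_logs h8 (Nat.zero_le a)
  simp only [Nat.add_zero] at hla
  have hlog : 0 < Real.log a := by linarith
  have ha9 : (9 : ℝ) ≤ a := by exact_mod_cast (by omega : 9 ≤ a)
  -- (1)
  have s1 : Fails A d j w X ⊆ pflF A d j w a := by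
    intro ω hω m hm hm2
    refine hω m ?_ (hm2.trans_le (hmon a X ha0' haX))
    have : (a : ℝ) + 1 ≤ m := by exact_mod_cast (by omega : a + 1 ≤ m)
    linarith
  -- (2)
  have s2 : pflE A d a (2 * d + 1) ∩ pflF A d j w a ⊆ Gap A d j w a := by
    rintro ω ⟨hE, hF⟩
    have hch : ∀ i, i < 2 * d + 1 → i ≠ 0 → i ≠ d → ω ∉ A (a + i) := by
      intro i hi h0 hd'
      have := hE i hi
      unfold pflB at this
      rw [if_neg (by tauto)] at this
      exact this
    have h0 : ω ∈ A a := by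
      have := hE 0 (by omega)
      unfold pflB at this
      rwa [if_pos (Or.inl rfl)] at this
    have hd' : ω ∈ A (a + d) := by
      have := hE d (by omega)
      unfold pflB at this
      rwa [if_pos (Or.inr rfl)] at this
    refine ⟨⟨h0, hd'⟩, ?_⟩
    intro m hm hm2 hp
    have hm' : a < m := by exact_mod_cast hm
    rcases lt_or_ge (a + 2 * d) m with h | h
    · exact hF m h hm2 hp
    · obtain ⟨i, rfl⟩ : ∃ i, m = a + i := ⟨m - a, by omega⟩
      by_cases hid : i = d
      · have h3 := hch (2 * d) (by omega) (by omega) (by omega)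
        apply h3
        have := hp.2
        rw [hid] at this
        have e : a + d + d = a + 2 * d := by ring
        rwa [e] at this
      · exact hch i (by omega) (by omega) hid hp.1
  -- independence
  have h3 := (hloc Ω μ A hA.meas hA.indep).2.2 (Finset.Ico a (a + (2 * d + 1)))
    (Finset.Ico (a + 2 * d + 1) ⌈(a : ℝ) + len j w a⌉₊) (pflE A d a (2 * d + 1)) (pflF A d j w a) (by
      rw [Finset.disjoint_left]
      intro p hp hp2
      rw [Finset.mem_Ico] at hp hp2
      omega) (pfl_E_loc A d a (2 * d + 1)) (pfl_F_loc A d j w a)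
  have h4 : μ.real (pflE A d a (2 * d + 1)) * μ.real (pflF A d j w a) ≤ μ.real (Gap A d j w a) := by
    rw [← h3]
    exact measureReal_mono s2
  have h5 := (pfl_prod d (t := 1 / Real.log a) (by positivity) (by
    rw [div_le_one hlog]
    linarith)).trans (pfl_E_prob hloc hA (d := d) h8 (2 * d + 1) (by omega))
  have h6 := hQ a 0 ha1' (Nat.zero_le _)
  have hgc : Cl A d j w a 0 = Gap A d j w a := by
    ext ω
    simp only [Gap, Cl, Fails, mem_inter_iff, mem_ofPred_eq, Nat.add_zero, Nat.cast_lt]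
  rw [hgc] at h6
  have h7 : μ.real (Gap A d j w a) * (a * Real.log a) ≤ C1 := by
    refine h6.trans ?_
    simp
  -- combine
  have hF0 : 0 ≤ μ.real (pflF A d j w a) := measureReal_nonneg
  have h9 : (1 / 2) ^ (2 * d + 1) * (1 / Real.log a) ^ 2 * μ.real (pflF A d j w a) ≤
      μ.real (Gap A d j w a) := (mul_le_mul_of_nonneg_right h5 hF0).trans h4
  have h10 : μ.real (pflF A d j w a) * a ≤ C1 * 2 ^ (2 * d + 1) * Real.log a := by
    have e1 : μ.real (pflF A d j w a) * a =
        2 ^ (2 * d + 1) * Real.log a *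
          ((1 / 2) ^ (2 * d + 1) * (1 / Real.log a) ^ 2 * μ.real (pflF A d j w a) * (a * Real.log a)) := by
      have q1 : (2 : ℝ) ^ (2 * d + 1) * (1 / 2) ^ (2 * d + 1) = 1 := by
        rw [← mul_pow]
        norm_num
      have q2 : Real.log a * (1 / Real.log a) ^ 2 * Real.log a = 1 := by
        field_simp
      calc μ.real (pflF A d j w a) * a = 1 * 1 * (μ.real (pflF A d j w a) * a) := by ring
        _ = (2 : ℝ) ^ (2 * d + 1) * (1 / 2) ^ (2 * d + 1) *
            (Real.log a * (1 / Real.log a) ^ 2 * Real.log a) * (μ.real (pflF A d j w a) * a) := by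
          rw [q1, q2]
        _ = _ := by ring
    rw [e1]
    have e2 : (1 / 2) ^ (2 * d + 1) * (1 / Real.log a) ^ 2 * μ.real (pflF A d j w a) * (a * Real.log a) ≤ C1 :=
      (mul_le_mul_of_nonneg_right h9 (by positivity)).trans h7
    calc 2 ^ (2 * d + 1) * Real.log a *
          ((1 / 2) ^ (2 * d + 1) * (1 / Real.log a) ^ 2 * μ.real (pflF A d j w a) * (a * Real.log a))
        ≤ 2 ^ (2 * d + 1) * Real.log a * C1 := mul_le_mul_of_nonneg_left e2 (by positivity)
      _ = _ := by ring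
  -- `log a ≤ 2 √a`
  have hsqa : 0 < √(a : ℝ) := Real.sqrt_pos.2 (by linarith)
  have hsqX : 0 < √X := Real.sqrt_pos.2 (by linarith)
  have h11 : Real.log a ≤ 2 * √(a : ℝ) := by
    have e1 : (a : ℝ) = √(a : ℝ) ^ 2 := (Real.sq_sqrt (by linarith)).symm
    have e2 : Real.log a = 2 * Real.log (√(a : ℝ)) := by
      conv_lhs => rw [e1]
      rw [Real.log_pow, Nat.cast_ofNat]
    have e3 := Real.log_le_sub_one_of_pos hsqa
    linarith
  have h12 : √X ≤ 2 * √(a : ℝ) := by
    rw [Real.sqrt_le_left (by positivity), mul_pow, Real.sq_sqrt (by linarith)]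
    linarith
  have h13 : μ.real (pflF A d j w a) * √X ≤ C1 * 2 ^ (2 * d + 1) * 4 := by
    have e1 : (a : ℝ) = √(a : ℝ) * √(a : ℝ) := (Real.mul_self_sqrt (by linarith)).symm
    have e2 : μ.real (pflF A d j w a) * √(a : ℝ) ≤ C1 * 2 ^ (2 * d + 1) * 2 := by
      have e3 : μ.real (pflF A d j w a) * √(a : ℝ) * √(a : ℝ) ≤ C1 * 2 ^ (2 * d + 1) * 2 * √(a : ℝ) := by
        calc μ.real (pflF A d j w a) * √(a : ℝ) * √(a : ℝ) = μ.real (pflF A d j w a) * a := by
              rw [mul_assoc, ← e1]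
          _ ≤ C1 * 2 ^ (2 * d + 1) * Real.log a := h10
          _ ≤ C1 * 2 ^ (2 * d + 1) * (2 * √(a : ℝ)) := mul_le_mul_of_nonneg_left h11 (by positivity)
          _ = _ := by ring
      exact le_of_mul_le_mul_right e3 hsqa
    calc μ.real (pflF A d j w a) * √X ≤ μ.real (pflF A d j w a) * (2 * √(a : ℝ)) :=
          mul_le_mul_of_nonneg_left h12 hF0
      _ = 2 * (μ.real (pflF A d j w a) * √(a : ℝ)) := by ring
      _ ≤ 2 * (C1 * 2 ^ (2 * d + 1) * 2) := by linarith
      _ = _ := by ring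
  rw [le_div_iff₀ hsqX]
  exact (mul_le_mul_of_nonneg_right (measureReal_mono s1) hsqX.le).trans h13

end H21SCH
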