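import Pool.Agent.H21.SCH.Stm

namespace H21SCH

open MeasureTheory ProbabilityTheory Filter Topology Set Complex

universe u

/-- lattice points -/
noncomputable def lat {k : ℕ} (n : Fin k → ℕ) : EuclideanSpace ℝ (Fin k) :=
  WithLp.toLp 2 fun j => (n j : ℝ)

theorem lat_dist {k : ℕ} {n n' : Fin k → ℕ} (h : n ≠ n') : 1 ≤ dist (lat n) (lat n') := by
  obtain ⟨j, hj⟩ : ∃ j, n j ≠ n' j := by
    by_contra hc
    push Not at hc
    exact h (funext hc)
  have h1 : dist ((lat n).ofLp j) ((lat n').ofLp j) ≤ dist (lat n) (lat n') := by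
    rw [EuclideanSpace.dist_eq]
    refine Real.le_sqrt_of_sq_le ?_
    exact Finset.single_le_sum (f := fun i => dist ((lat n).ofLp i) ((lat n').ofLp i) ^ 2)
      (fun i _ => sq_nonneg _) (Finset.mem_univ j)
  refine le_trans ?_ h1
  change (1 : ℝ) ≤ dist ((n j : ℕ) : ℝ) ((n' j : ℕ) : ℝ)
  rw [Real.dist_eq]
  have h2 : (1 : ℤ) ≤ |(n j : ℤ) - n' j| := Int.one_le_abs (by omega)
  have h3 : ((1 : ℤ) : ℝ) ≤ ((|(n j : ℤ) - n' j| : ℤ) : ℝ) := by exact_mod_cast h2
  push_cast at h3
  exact h3

theorem measurable_lat {k : ℕ} : Measurable (lat : (Fin k → ℕ) → EuclideanSpace ℝ (Fin k)) := by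
  exact measurable_of_countable _

theorem lat_pre_ball {k : ℕ} (n : Fin k → ℕ) :
    lat ⁻¹' (Metric.ball (lat n) (1 / 2)) = {n} := by
  ext n'
  rw [mem_preimage, Metric.mem_ball, mem_singleton_iff]
  constructor
  · intro h
    by_contra hc
    have := lat_dist hc
    linarith
  · rintro rfl
    rw [dist_self]
    norm_num

theorem lat_pre_frontier {k : ℕ} (n : Fin k → ℕ) :
    lat ⁻¹' (frontier (Metric.ball (lat n) (1 / 2))) = ∅ := by
  rw [eq_empty_iff_forall_notMem]
  intro n' hn'
  have h1 := Metric.frontier_ball_subset_sphere hn'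
  rw [Metric.mem_sphere] at h1
  by_cases h : n' = n
  · rw [h, dist_self] at h1
    norm_num at h1
  · have := lat_dist h
    linarith

theorem pmf : S_PMF.{u} := by
  intro Ω _ μ _ k N m hN hm hθ n
  have hNl : ∀ X, Measurable fun ω => lat (N X ω) := fun X => measurable_lat.comp (hN X)
  refine tendsto_of_seq_tendsto fun x hx => ?_
  -- the limit
  let r : Fin k → NNReal := fun j => ⟨m j, hm j⟩
  let π₀ : Measure (Fin k → ℕ) := Measure.pi fun j => poissonMeasure (r j)
  have hπ : IsProbabilityMeasure π₀ := by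
    change IsProbabilityMeasure (Measure.pi fun j => poissonMeasure (r j))
    infer_instance
  let μn : ℕ → ProbabilityMeasure (EuclideanSpace ℝ (Fin k)) := fun i =>
    ⟨μ.map fun ω => lat (N (x i) ω),
      Measure.isProbabilityMeasure_map (hNl _).aemeasurable⟩
  let μ0 : ProbabilityMeasure (EuclideanSpace ℝ (Fin k)) :=
    ⟨π₀.map lat, Measure.isProbabilityMeasure_map measurable_lat.aemeasurable⟩
  have hinner : ∀ (n : Fin k → ℕ) (t : EuclideanSpace ℝ (Fin k)),
      (inner ℝ (lat n) t : ℝ) = ∑ j, t.ofLp j * (n j : ℝ) := by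
    intro n t
    rw [PiLp.inner_apply]
    rfl
  have hcf0 : ∀ t : EuclideanSpace ℝ (Fin k), charFun (μ0 : Measure (EuclideanSpace ℝ (Fin k))) t =
      cexp (∑ j, (m j : ℂ) * (cexp (I * t.ofLp j) - 1)) := by
    intro t
    change charFun (π₀.map lat) t = _
    rw [charFun_apply, integral_map measurable_lat.aemeasurable
      (by fun_prop : AEStronglyMeasurable (fun x => cexp (inner ℝ x t * I)) _)]
    have h1 : ∀ n : Fin k → ℕ, cexp ((inner ℝ (lat n) t : ℝ) * I) =
        ∏ j, cexp (t.ofLp j * (n j : ℝ) * I) := by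
      intro n
      rw [hinner, ← Complex.exp_sum]
      congr 1
      push_cast
      rw [Finset.sum_mul]
    have h2 : ∫ n, cexp ((inner ℝ (lat n) t : ℝ) * I) ∂π₀ =
        ∫ n : Fin k → ℕ, ∏ j, (fun l : ℕ => cexp (t.ofLp j * (l : ℝ) * I)) (n j) ∂π₀ :=
      integral_congr_ae (Eventually.of_forall fun n => h1 n)
    rw [h2]
    have h3 := integral_fintype_prod_eq_prod (𝕜 := ℂ) (μ := fun j => poissonMeasure (r j))
      (fun j => fun l : ℕ => cexp (t.ofLp j * (l : ℝ) * I))
    refine h3.trans ?_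
    rw [Complex.exp_sum]
    refine Finset.prod_congr rfl fun j _ => ?_
    have h4 := charFun_map_cast_poissonMeasure (r j) (t.ofLp j)
    rw [charFun_apply_real, integral_map .of_discrete (by fun_prop)] at h4
    change ∫ l : ℕ, cexp (t.ofLp j * (l : ℝ) * I) ∂poissonMeasure (r j) = _
    rw [h4, mul_comm (t.ofLp j : ℂ) I]
    rfl
  have h1 : ∀ t : EuclideanSpace ℝ (Fin k),
      Tendsto (fun i => charFun (μn i : Measure (EuclideanSpace ℝ (Fin k))) t) atTop
      (𝓝 (charFun (μ0 : Measure (EuclideanSpace ℝ (Fin k))) t)) := by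
    intro t
    rw [hcf0]
    have h2 := (hθ t.ofLp).comp hx
    refine h2.congr fun i => ?_
    change ∫ ω, cexp (I * ∑ j, (t.ofLp j : ℂ) * (N (x i) ω j : ℂ)) ∂μ =
      charFun (μ.map fun ω => lat (N (x i) ω)) t
    rw [charFun_apply, integral_map (hNl _).aemeasurable
      (by fun_prop : AEStronglyMeasurable (fun x => cexp (inner ℝ x t * I)) _)]
    refine integral_congr_ae (Eventually.of_forall fun ω => ?_)
    change cexp (I * ∑ j, (t.ofLp j : ℂ) * (N (x i) ω j : ℂ)) =
      cexp ((inner ℝ (lat (N (x i) ω)) t : ℝ) * I)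
    rw [hinner, mul_comm]
    push_cast
    rfl
  have h3 := ProbabilityMeasure.tendsto_of_tendsto_charFun h1
  have h4 := ProbabilityMeasure.tendsto_measure_of_null_frontier_of_tendsto' h3
    (E := Metric.ball (lat n) (1 / 2)) (by
      change (π₀.map lat) (frontier (Metric.ball (lat n) (1 / 2))) = 0
      rw [Measure.map_apply measurable_lat isClosed_frontier.measurableSet, lat_pre_frontier,
        measure_empty])
  have h5 := (ENNReal.tendsto_toReal (measure_ne_top _ _)).comp h4
  have h6 : ((μ0 : Measure (EuclideanSpace ℝ (Fin k))) (Metric.ball (lat n) (1 / 2))).toReal =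
      ∏ j, Real.exp (-m j) * m j ^ n j / (n j).factorial := by
    change ((π₀.map lat) (Metric.ball (lat n) (1 / 2))).toReal = _
    rw [Measure.map_apply measurable_lat Metric.isOpen_ball.measurableSet, lat_pre_ball]
    have h7 : ({n} : Set (Fin k → ℕ)) = Set.pi univ fun j => {n j} := by
      rw [Set.univ_pi_singleton]
    rw [h7]
    change ((Measure.pi fun j => poissonMeasure (r j)) (Set.pi univ fun j => {n j})).toReal = _
    rw [Measure.pi_pi, ENNReal.toReal_prod]
    refine Finset.prod_congr rfl fun j _ => ?_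
    exact poissonMeasure_real_singleton (r j) (n j)
  rw [h6] at h5
  refine h5.congr fun i => ?_
  change ((μ.map fun ω => lat (N (x i) ω)) (Metric.ball (lat n) (1 / 2))).toReal =
    μ.real {ω | ∀ j, N (x i) ω j = n j}
  rw [Measure.map_apply (hNl _) Metric.isOpen_ball.measurableSet]
  have h8 : (fun ω => lat (N (x i) ω)) ⁻¹' Metric.ball (lat n) (1 / 2) =
      {ω | ∀ j, N (x i) ω j = n j} := by
    have h9 : (fun ω => lat (N (x i) ω)) ⁻¹' Metric.ball (lat n) (1 / 2) =
      (N (x i)) ⁻¹' (lat ⁻¹' Metric.ball (lat n) (1 / 2)) := rfl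
    rw [h9, lat_pre_ball]
    ext ω
    exact funext_iff
  rw [h8]
  rfl

end H21SCH
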