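import Pool.Agent.H21.SCH.Stm

/-! # Project SCH, stub POI (helper35) -/

set_option autoImplicit false

namespace H21SCH

open MeasureTheory ProbabilityTheory Filter Topology Set Complex

universe u

/-- a gap at `a` depends on finitely many coordinates -/
theorem poi_gap {Ω : Type u} (A : ℕ → Set Ω) (d j : ℕ) (w : ℝ) (a : ℕ) :
    Loc A (Finset.range (a + d + 1 + ⌈(a : ℝ) + len j w a⌉₊)) (fun ω => ω ∈ Gap A d j w a) := by
  intro ω ω' h
  have h1 : ∀ p : ℕ, p < a + d + 1 + ⌈(a : ℝ) + len j w a⌉₊ → (ω ∈ A p ↔ ω' ∈ A p) := fun p hp =>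
    h p (Finset.mem_range.2 hp)
  have h2 : ∀ m : ℕ, m + d < a + d + 1 + ⌈(a : ℝ) + len j w a⌉₊ → (ω ∈ Pat A d m ↔ ω' ∈ Pat A d m) := by
    intro m hm
    unfold Pat
    rw [mem_inter_iff, mem_inter_iff, h1 m (by omega), h1 (m + d) hm]
  have h3 : ω ∈ Pat A d a ↔ ω' ∈ Pat A d a := h2 a (by omega)
  have h4 : ω ∈ Fails A d j w a ↔ ω' ∈ Fails A d j w a := by
    unfold Fails
    rw [mem_ofPred_eq, mem_ofPred_eq]
    refine forall_congr' fun m => forall_congr' fun hm => forall_congr' fun hm2 => ?_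
    have h5 : m + d < ⌈(a : ℝ) + len j w a⌉₊ := Nat.lt_ceil.2 hm2
    rw [h2 m (by omega)]
  exact propext (and_congr h3 h4)

/-- monotonicity of `Loc` -/
theorem poi_mono {Ω : Type u} {A : ℕ → Set Ω} {S T : Finset ℕ} {β : Type*} {f : Ω → β} (hST : S ⊆ T)
    (h : Loc A S f) : Loc A T f := fun ω ω' hω => h ω ω' fun p hp => hω p (hST hp)

/-- the counts depend on finitely many coordinates -/
theorem poi_num {Ω : Type u} (A : ℕ → Set Ω) (d j : ℕ) (w : ℝ) (v : EReal) (x y : ℝ) :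
    ∃ S : Finset ℕ, Loc A S (Num A d j w v x y) := by
  classical
  refine ⟨(Finset.range (⌊y⌋₊ + 1)).biUnion fun a =>
    Finset.range (a + d + 1 + ⌈(a : ℝ) + len j w a⌉₊) ∪
      Finset.range (a + d + 1 + ⌈(a : ℝ) + len j v.toReal a⌉₊), ?_⟩
  intro ω ω' h
  unfold Num
  congr 1
  ext a
  rw [mem_ofPred_eq, mem_ofPred_eq]
  refine and_congr_right fun _ => and_congr_right fun hy => ?_
  have ha : a ∈ Finset.range (⌊y⌋₊ + 1) := by
    rw [Finset.mem_range]
    have := Nat.le_floor hy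
    omega
  have h1 : ω ∈ Gap A d j w a ↔ ω' ∈ Gap A d j w a := by
    have := poi_gap A d j w a ω ω' fun p hp => h p (Finset.mem_biUnion.2
      ⟨a, ha, Finset.mem_union_left _ hp⟩)
    exact iff_of_eq this
  have h2 : ω ∈ Gap A d j v.toReal a ↔ ω' ∈ Gap A d j v.toReal a := by
    have := poi_gap A d j v.toReal a ω ω' fun p hp => h p (Finset.mem_biUnion.2
      ⟨a, ha, Finset.mem_union_right _ hp⟩)
    exact iff_of_eq this
  rw [h1]
  refine and_congr_right fun _ => forall_congr' fun v' => forall_congr' fun hv => ?_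
  have h3 : v' = v.toReal := by rw [← hv, EReal.toReal_coe]
  rw [h3, h2]

theorem poi_mean {j : ℕ} {s t u : ℝ} {v : EReal} (hs : 0 < s) (ht : s < t) (hv : (u : EReal) < v) :
    0 ≤ mean j s t u v := by
  unfold mean
  have h1 : 0 ≤ lamc j := by
    unfold lamc
    split_ifs <;> positivity
  have h2 : 0 ≤ Real.exp (-u) - tail v := by
    unfold tail
    split_ifs with h
    · rw [sub_zero]; exact (Real.exp_pos _).le
    · have h3 : v ≠ ⊥ := ne_bot_of_gt hv
      have h4 : (u : EReal) < (v.toReal : EReal) := by rwa [EReal.coe_toReal h h3]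
      have h5 : u < v.toReal := EReal.coe_lt_coe_iff.1 h4
      have h6 : Real.exp (-v.toReal) ≤ Real.exp (-u) := Real.exp_le_exp.2 (by linarith)
      linarith
  have h3 : 0 ≤ Real.log (t / s) := Real.log_nonneg (by rw [le_div_iff₀ hs]; linarith)
  positivity

theorem poi : S_LOC.{u} → S_CHF.{u} → S_PMF.{u} → S_POI.{u} := by
  intro hloc hchf hpmf Ω _ μ _ A hA d j hc k s t u v hst hdis n
  classical
  have hmeas : ∀ X : ℝ, Measurable (fun ω => fun i => Num A d j (u i) (v i) (X ^ s i) (X ^ t i) ω) := by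
    intro X
    choose S hS using fun i => poi_num A d j (u i) (v i) (X ^ s i) (X ^ t i)
    refine (hloc Ω μ A hA.meas hA.indep).1 (Finset.univ.biUnion S) (Fin k → ℕ) _ ?_
    intro ω ω' h
    funext i
    exact hS i ω ω' fun p hp => h p (Finset.mem_biUnion.2 ⟨i, Finset.mem_univ i, hp⟩)
  exact hpmf Ω μ k (fun X ω i => Num A d j (u i) (v i) (X ^ s i) (X ^ t i) ω)
    (fun i => mean j (s i) (t i) (u i) (v i)) hmeas
    (fun i => poi_mean (hst i).1 (hst i).2.1 (hst i).2.2)
    (fun θ => hchf Ω μ A hA d j hc k s t u v hst hdis θ) n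

end H21SCH
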