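import Pool.Agent.H21.SCH.Stm

/-! # SCH-QAS0 (helper19) -/

set_option autoImplicit false

namespace H21SCH

open MeasureTheory ProbabilityTheory Filter Topology Set

universe u

namespace Qas0Aux

variable {Ω : Type u}

/-- `a` is chosen and the next `n` numbers are not -/
def Ev (A : ℕ → Set Ω) (a n : ℕ) : Set Ω := {ω | ω ∈ A a ∧ ∀ i < n, ω ∉ A (a + 1 + i)}

lemma prob_Ev (hL : S_LOC.{u}) [MeasurableSpace Ω] {μ : Measure Ω} [IsProbabilityMeasure μ]
    {A : ℕ → Set Ω} (hA : CramerModel μ A) (a : ℕ) (ha : 3 ≤ a) : ∀ n : ℕ,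
    μ.real (Ev A a n) = 1 / Real.log a *
      ∏ i ∈ Finset.range n, (1 - 1 / Real.log ((a + 1 + i : ℕ) : ℝ)) := by
  obtain ⟨-, -, h3⟩ := hL Ω μ A hA.meas hA.indep
  intro n
  induction n with
  | zero =>
    have : Ev A a 0 = A a := by
      ext ω; simp [Ev]
    rw [this, hA.prob a ha]
    simp
  | succ n ih =>
    have hset : Ev A a (n + 1) = Ev A a n ∩ (A (a + 1 + n))ᶜ := by
      ext ω
      simp only [Ev, mem_ofPred_eq, mem_inter_iff, mem_compl_iff]
      constructor
      · rintro ⟨h1, h2⟩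
        exact ⟨⟨h1, fun i hi => h2 i (by omega)⟩, h2 n (by omega)⟩
      · rintro ⟨⟨h1, h2⟩, h3⟩
        refine ⟨h1, fun i hi => ?_⟩
        rcases Nat.lt_or_ge i n with hlt | hge
        · exact h2 i hlt
        · have : i = n := by omega
          rw [this]; exact h3
    have e1 : μ.real (Ev A a n ∩ (A (a + 1 + n))ᶜ) =
        μ.real (Ev A a n) * μ.real ((A (a + 1 + n))ᶜ) := by
      refine h3 (Finset.Icc a (a + n)) {a + 1 + n} _ _ ?_ ?_ ?_
      · rw [Finset.disjoint_singleton_right, Finset.mem_Icc]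
        omega
      · intro ω ω' h
        apply propext
        show (ω ∈ A a ∧ ∀ i < n, ω ∉ A (a + 1 + i)) ↔ (ω' ∈ A a ∧ ∀ i < n, ω' ∉ A (a + 1 + i))
        refine and_congr (h a (Finset.mem_Icc.2 ⟨le_rfl, by omega⟩)) ?_
        refine forall_congr' fun i => forall_congr' fun hi => ?_
        rw [h (a + 1 + i) (Finset.mem_Icc.2 ⟨by omega, by omega⟩)]
      · intro ω ω' h
        apply propext
        show (¬ ω ∈ A (a + 1 + n)) ↔ ¬ ω' ∈ A (a + 1 + n)
        rw [h _ (Finset.mem_singleton_self _)]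
    rw [hset, e1, ih, probReal_compl_eq_one_sub (hA.meas _), hA.prob _ (by omega),
      Finset.prod_range_succ]
    ring

noncomputable def XX (w : ℝ) (a k : ℕ) : ℝ := ((a + k : ℕ) : ℝ) + len 1 w ((a + k : ℕ) : ℝ)

noncomputable def MM (w : ℝ) (a k : ℕ) : ℕ := ⌈XX w a k⌉₊ - (a + 1)

lemma Cl_eq (A : ℕ → Set Ω) (w : ℝ) (a k : ℕ) : Cl A 0 1 w a k = Ev A a (MM w a k) := by
  ext ω
  simp only [Cl, Ev, Pat, mem_ofPred_eq, add_zero, inter_self]
  refine and_congr_right fun _ => ?_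
  constructor
  · intro h i hi
    refine h (a + 1 + i) (by omega) ?_
    have : a + 1 + i < ⌈XX w a k⌉₊ := by
      unfold MM at hi; omega
    exact Nat.lt_ceil.1 this
  · intro h m hm hmX
    have h1 : m < ⌈XX w a k⌉₊ := Nat.lt_ceil.2 hmX
    have h2 := h (m - (a + 1)) (by unfold MM; omega)
    rwa [show a + 1 + (m - (a + 1)) = m by omega] at h2

lemma ev (C : ℝ) (n : ℕ) : ∀ᶠ a : ℕ in atTop, C * Real.log a ^ n ≤ a := by
  have h := (Real.isLittleO_pow_log_id_atTop (n := n)).def (c := 1 / (|C| + 1)) (by positivity)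
  have h2 := (tendsto_natCast_atTop_atTop (R := ℝ)).eventually h
  filter_upwards [h2, eventually_ge_atTop 1] with a ha h1
  have ha1 : (1 : ℝ) ≤ a := by exact_mod_cast h1
  rw [Real.norm_eq_abs, id, Real.norm_eq_abs, abs_of_nonneg (by linarith : (0 : ℝ) ≤ a)] at ha
  have hlog : 0 ≤ Real.log a ^ n := pow_nonneg (Real.log_nonneg ha1) n
  rw [abs_of_nonneg hlog] at ha
  have h3 : (|C| + 1) * Real.log a ^ n ≤ a := by
    have h4 := mul_le_mul_of_nonneg_left ha (show 0 ≤ |C| + 1 by positivity)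
    refine h4.trans (le_of_eq ?_)
    field_simp
  refine le_trans ?_ h3
  refine mul_le_mul_of_nonneg_right ?_ hlog
  linarith [le_abs_self C]

lemma ev_log (B : ℝ) : ∀ᶠ a : ℕ in atTop, B ≤ Real.log a :=
  (Real.tendsto_log_atTop.comp tendsto_natCast_atTop_atTop).eventually_ge_atTop B

lemma common (w D : ℝ) (_hD : 1 ≤ D) : ∀ᶠ a : ℕ in atTop, 3 ≤ a ∧ |w| + 2 ≤ Real.log a ∧
    ∀ k : ℕ, (k : ℝ) ≤ D * Real.log a ^ 3 →
      |(MM w a k : ℝ) - (k + Real.log a ^ 2 + w * Real.log a)| ≤ 2 ∧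
      ∃ δ : ℝ, (MM w a k : ℝ) * δ ≤ 1 / Real.log a ∧ ∀ i < MM w a k,
        Real.log a ≤ Real.log ((a + 1 + i : ℕ) : ℝ) ∧
        1 / Real.log a - 1 / Real.log ((a + 1 + i : ℕ) : ℝ) ≤ δ := by
  filter_upwards [eventually_ge_atTop 3, ev_log (|w| + 2), ev (D * (3 + |w|)) 4,
    ev ((D + 2 + |w|) ^ 2) 5] with a ha hw h4 h5
  refine ⟨ha, hw, fun k hk => ?_⟩
  have hw0 : 0 ≤ |w| := abs_nonneg w
  set t := Real.log a with ht
  have ht2 : 2 ≤ t := by linarith
  have ht1 : 1 ≤ t := by linarith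
  have ht0 : 0 < t := by linarith
  have haR : (3 : ℝ) ≤ a := by exact_mod_cast ha
  have ha0 : (0 : ℝ) < a := by linarith
  have hk0 : (0 : ℝ) ≤ k := Nat.cast_nonneg k
  set L := Real.log ((a + k : ℕ) : ℝ) with hLd
  have hak : ((a + k : ℕ) : ℝ) = a + k := by push_cast; ring
  have hLt : t ≤ L := Real.log_le_log ha0 (by rw [hak]; linarith)
  have hLt2 : L - t ≤ k / a := by
    rw [hLd, ht, ← Real.log_div (by rw [hak]; positivity) ha0.ne']
    refine (Real.log_le_sub_one_of_pos (by rw [hak]; positivity)).trans (le_of_eq ?_)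
    rw [hak]; field_simp; ring
  have ht3 : t ^ 3 ≤ t ^ 4 := pow_le_pow_right₀ ht1 (by norm_num)
  have hka : (k : ℝ) / a * (3 + |w|) * t ≤ 1 := by
    rw [div_mul_eq_mul_div, div_mul_eq_mul_div, div_le_one ha0]
    refine le_trans ?_ h4
    calc (k : ℝ) * (3 + |w|) * t ≤ (D * t ^ 3) * (3 + |w|) * t := by gcongr
      _ = D * (3 + |w|) * t ^ 4 := by ring
  have hε0 : 0 ≤ L - t := by linarith
  have hε1 : (L - t) * (3 + |w|) * t ≤ 1 := by
    refine le_trans ?_ hka
    gcongr
  have hε2 : L - t ≤ 1 := by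
    have : (L - t) * 1 ≤ (L - t) * ((3 + |w|) * t) := by
      refine mul_le_mul_of_nonneg_left ?_ hε0
      nlinarith
    linarith
  set y : ℝ := k + L ^ 2 + w * L with hy
  have hX : XX w a k = a + y := by
    unfold XX len
    rw [← hLd, hak, hy]
    push_cast
    ring
  have hyd : |y - (k + t ^ 2 + w * t)| ≤ 1 := by
    have e1 : y - (k + t ^ 2 + w * t) = (L - t) * (2 * t + (L - t) + w) := by rw [hy]; ring
    rw [e1, abs_mul, abs_of_nonneg hε0]
    refine le_trans ?_ hε1
    rw [mul_assoc]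
    refine mul_le_mul_of_nonneg_left ?_ hε0
    have e2 : |2 * t + (L - t) + w| ≤ 2 * t + 1 + |w| := by
      rw [abs_le]
      constructor <;> linarith [neg_abs_le w, le_abs_self w]
    refine e2.trans ?_
    nlinarith
  rw [abs_le] at hyd
  have hwt : -(|w| * t) ≤ w * t := by nlinarith [neg_abs_le w]
  have hwt' : w * t ≤ |w| * t := by nlinarith [le_abs_self w]
  have hy0 : 0 ≤ y := by
    have : t * (t - |w|) ≥ t * 2 := by nlinarith
    nlinarith [hyd.1]
  have hyu : y ≤ (D + 2 + |w|) * t ^ 3 := by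
    have e1 : t ^ 2 ≤ t ^ 3 := pow_le_pow_right₀ ht1 (by norm_num)
    have e2 : t ≤ t ^ 3 := by
      calc t = t ^ 1 := (pow_one t).symm
        _ ≤ t ^ 3 := pow_le_pow_right₀ ht1 (by norm_num)
    have e3 : (1 : ℝ) ≤ t ^ 3 := one_le_pow₀ ht1
    nlinarith [hyd.2, mul_le_mul_of_nonneg_left e2 hw0]
  have hM1 : y - 1 ≤ (MM w a k : ℝ) := by
    have e1 : ⌈XX w a k⌉₊ ≤ MM w a k + (a + 1) := by unfold MM; omega
    have e2 : (⌈XX w a k⌉₊ : ℝ) ≤ (MM w a k : ℝ) + (a + 1) := by exact_mod_cast e1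
    have e3 := Nat.le_ceil (XX w a k)
    rw [hX] at e3 e2
    linarith
  have hM2 : (MM w a k : ℝ) ≤ y := by
    rcases Nat.lt_or_ge (a + 1) ⌈XX w a k⌉₊ with hlt | hge
    · have e1 : MM w a k + (a + 1) = ⌈XX w a k⌉₊ := by unfold MM; omega
      have e2 : (MM w a k : ℝ) + (a + 1) = (⌈XX w a k⌉₊ : ℝ) := by exact_mod_cast e1
      have e3 := Nat.ceil_lt_add_one (a := XX w a k) (by rw [hX]; positivity)
      rw [← e2, hX] at e3
      linarith
    · have : MM w a k = 0 := by unfold MM; omega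
      rw [this]
      simpa using hy0
  refine ⟨?_, y / a / t ^ 2, ?_, fun i hi => ?_⟩
  · rw [abs_le]
    constructor <;> linarith [hyd.1, hyd.2]
  · calc (MM w a k : ℝ) * (y / a / t ^ 2) ≤ y * (y / a / t ^ 2) := by gcongr
      _ = y ^ 2 / (a * t ^ 2) := by field_simp
      _ ≤ ((D + 2 + |w|) * t ^ 3) ^ 2 / (a * t ^ 2) := by gcongr
      _ ≤ 1 / t := by
        rw [div_le_div_iff₀ (by positivity) ht0]
        calc ((D + 2 + |w|) * t ^ 3) ^ 2 * t = ((D + 2 + |w|) ^ 2 * t ^ 5) * t ^ 2 := by ring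
          _ ≤ a * t ^ 2 := mul_le_mul_of_nonneg_right h5 (by positivity)
          _ = 1 * (a * t ^ 2) := (one_mul _).symm
  · have hm : a + 1 + i < ⌈XX w a k⌉₊ := by unfold MM at hi; omega
    have hmX : ((a + 1 + i : ℕ) : ℝ) < XX w a k := Nat.lt_ceil.1 hm
    have hma : (a : ℝ) ≤ ((a + 1 + i : ℕ) : ℝ) := by
      push_cast
      linarith [Nat.cast_nonneg (α := ℝ) i]
    set m : ℝ := ((a + 1 + i : ℕ) : ℝ) with hmd
    have hm0 : 0 < m := by linarith
    have hlm : t ≤ Real.log m := Real.log_le_log ha0 hma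
    refine ⟨hlm, ?_⟩
    have hlm2 : Real.log m - t ≤ y / a := by
      rw [ht, ← Real.log_div hm0.ne' ha0.ne']
      refine (Real.log_le_sub_one_of_pos (by positivity)).trans ?_
      rw [div_sub_one ha0.ne']
      gcongr
      rw [hX] at hmX
      linarith
    have hlm0 : 0 < Real.log m := by linarith
    have e1 : 1 / t - 1 / Real.log m = (Real.log m - t) / (t * Real.log m) := by
      field_simp
    rw [e1]
    calc (Real.log m - t) / (t * Real.log m) ≤ (y / a) / (t * Real.log m) := by gcongr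
      _ ≤ (y / a) / (t ^ 2) := by
        have : 0 ≤ y / a := by positivity
        rw [sq]
        gcongr

lemma log_bd {t u δ : ℝ} (ht : 2 ≤ t) (hu : 0 < u) (hut : u ≤ 1 / t) (hδ : 1 / t - u ≤ δ) :
    |-Real.log (1 - u) - (1 / t + 1 / (2 * t ^ 2))| ≤ 2 * δ + 2 / t ^ 3 := by
  have ht0 : 0 < t := by linarith
  have h12 : 1 / t ≤ 1 / 2 := one_div_le_one_div_of_le (by norm_num) ht
  have hu2 : u ≤ 1 / 2 := hut.trans h12
  have h1 := Real.abs_log_sub_add_sum_range_le (x := u) (by rw [abs_of_pos hu]; linarith) 2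
  rw [abs_of_pos hu] at h1
  have h2 : u ^ (2 + 1) / (1 - u) ≤ 2 / t ^ 3 := by
    calc u ^ (2 + 1) / (1 - u) ≤ (1 / t) ^ 3 / (1 / 2) := by
          gcongr
          linarith
      _ = 2 / t ^ 3 := by field_simp
  have h3 : ∑ i ∈ Finset.range 2, u ^ (i + 1) / ((i : ℝ) + 1) = u + u ^ 2 / 2 := by
    simp [Finset.sum_range_succ]
    norm_num
  rw [h3] at h1
  have h4 := h1.trans h2
  have h5 : |(u + u ^ 2 / 2) - (1 / t + 1 / (2 * t ^ 2))| ≤ 2 * δ := by
    have e1 : (1 / t + 1 / (2 * t ^ 2)) - (u + u ^ 2 / 2) =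
        (1 / t - u) * (1 + (1 / t + u) / 2) := by
      field_simp
      ring
    rw [abs_sub_comm, e1, abs_mul, abs_of_nonneg (by linarith : 0 ≤ 1 / t - u),
      abs_of_nonneg (by positivity)]
    have : 1 + (1 / t + u) / 2 ≤ 2 := by linarith
    nlinarith [sub_nonneg.2 hut]
  have h6 : -Real.log (1 - u) - (1 / t + 1 / (2 * t ^ 2)) =
      ((u + u ^ 2 / 2) - (1 / t + 1 / (2 * t ^ 2))) - ((u + u ^ 2 / 2) + Real.log (1 - u)) := by
    ring
  rw [h6]
  refine (abs_sub _ _).trans ?_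
  linarith

end Qas0Aux

open Qas0Aux in
theorem qas0 : S_LOC.{u} → S_QAS0.{u} := by
  intro hL Ω _ μ _ A hA w
  constructor
  · intro K
    set B : ℝ := |K| + |w| + 3 with hB
    have hK0 : 0 ≤ |K| := abs_nonneg K
    have hw0 : 0 ≤ |w| := abs_nonneg w
    obtain ⟨a₀, h0⟩ := eventually_atTop.1 ((common w (|K| + 1) (by linarith)).and (ev_log (4 * B)))
    refine ⟨8 * B * Real.exp |w|, a₀, fun a k ha hk => ?_⟩
    obtain ⟨⟨ha3, hwt, hc⟩, htB⟩ := h0 a ha
    set t := Real.log a with ht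
    have ht2 : 2 ≤ t := by linarith
    have ht1 : 1 ≤ t := by linarith
    have ht0 : 0 < t := by linarith
    have haR : (3 : ℝ) ≤ a := by exact_mod_cast ha3
    have ha0 : (0 : ℝ) < a := by linarith
    have hk0 : (0 : ℝ) ≤ k := Nat.cast_nonneg k
    have hkK : (k : ℝ) ≤ |K| * t := hk.trans (mul_le_mul_of_nonneg_right (le_abs_self K) ht0.le)
    obtain ⟨hM, δ, hδ, hi⟩ := hc k (by
      have e2 : t ≤ t ^ 3 := by
        calc t = t ^ 1 := (pow_one t).symm
          _ ≤ t ^ 3 := pow_le_pow_right₀ ht1 (by norm_num)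
      nlinarith)
    set M := MM w a k with hMd
    rw [Cl_eq, prob_Ev hL hA a ha3, ← hMd]
    set S : ℝ := ∑ i ∈ Finset.range M, -Real.log (1 - 1 / Real.log ((a + 1 + i : ℕ) : ℝ)) with hS
    have hu : ∀ i < M, 0 < 1 / Real.log ((a + 1 + i : ℕ) : ℝ) ∧
        1 / Real.log ((a + 1 + i : ℕ) : ℝ) ≤ 1 / t := fun i h => by
      have h1 := (hi i h).1
      exact ⟨one_div_pos.2 (by linarith), one_div_le_one_div_of_le ht0 h1⟩
    have h12 : 1 / t ≤ 1 / 2 := one_div_le_one_div_of_le (by norm_num) ht2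
    have hprod : ∏ i ∈ Finset.range M, (1 - 1 / Real.log ((a + 1 + i : ℕ) : ℝ)) = Real.exp (-S) := by
      rw [hS, ← Finset.sum_neg_distrib, Real.exp_sum]
      refine Finset.prod_congr rfl fun i h => ?_
      rw [neg_neg, Real.exp_log]
      have := hu i (Finset.mem_range.1 h)
      linarith
    rw [hprod]
    have hMt : (M : ℝ) ≤ B * t ^ 2 := by
      rw [abs_le] at hM
      have e2 : t ≤ t ^ 2 := by nlinarith
      have e3 : w * t ≤ |w| * t := mul_le_mul_of_nonneg_right (le_abs_self w) ht0.le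
      nlinarith [hM.2, mul_le_mul_of_nonneg_left e2 hw0, mul_le_mul_of_nonneg_left e2 hK0]
    have hS1 : |S - M * (1 / t + 1 / (2 * t ^ 2))| ≤ (2 + 2 * B) / t := by
      have e1 : S - M * (1 / t + 1 / (2 * t ^ 2)) =
          ∑ i ∈ Finset.range M, (-Real.log (1 - 1 / Real.log ((a + 1 + i : ℕ) : ℝ)) -
            (1 / t + 1 / (2 * t ^ 2))) := by
        rw [Finset.sum_sub_distrib, Finset.sum_const, Finset.card_range, nsmul_eq_mul]
      rw [e1]
      refine (Finset.abs_sum_le_sum_abs _ _).trans ?_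
      have e2 : ∀ i ∈ Finset.range M, |-Real.log (1 - 1 / Real.log ((a + 1 + i : ℕ) : ℝ)) -
            (1 / t + 1 / (2 * t ^ 2))| ≤ 2 * δ + 2 / t ^ 3 := fun i h => by
        have h' := Finset.mem_range.1 h
        exact log_bd ht2 (hu i h').1 (hu i h').2 (hi i h').2
      refine (Finset.sum_le_card_nsmul _ _ _ e2).trans ?_
      rw [Finset.card_range, nsmul_eq_mul]
      have e3 : (M : ℝ) * (2 / t ^ 3) ≤ 2 * B / t := by
        calc (M : ℝ) * (2 / t ^ 3) ≤ (B * t ^ 2) * (2 / t ^ 3) := by gcongr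
          _ = 2 * B / t := by field_simp
      have e4 : (M : ℝ) * (2 * δ) ≤ 2 / t := by
        have : (M : ℝ) * (2 * δ) = 2 * (M * δ) := by ring
        rw [this]
        calc 2 * (M * δ) ≤ 2 * (1 / t) := by linarith
          _ = 2 / t := by ring
      rw [mul_add, add_div]
      linarith
    set T : ℝ := t + w + k / t + 1 / 2 with hT
    have hS2 : |M * (1 / t + 1 / (2 * t ^ 2)) - T| ≤ B / t := by
      obtain ⟨r, hr⟩ : ∃ r : ℝ, r = (M : ℝ) - (k + t ^ 2 + w * t) := ⟨_, rfl⟩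
      rw [← hr] at hM
      have hMr : (M : ℝ) = k + t ^ 2 + w * t + r := by rw [hr]; ring
      have e1 : (M : ℝ) * (1 / t + 1 / (2 * t ^ 2)) - T =
          (2 * t * r + (k + w * t + r)) / (2 * t ^ 2) := by
        rw [hMr, hT]
        field_simp
        ring
      rw [e1, abs_div, abs_of_pos (by positivity : 0 < 2 * t ^ 2),
        div_le_div_iff₀ (by positivity) ht0]
      have e2 : |2 * t * r + (k + w * t + r)| ≤ 2 * t * 2 + (|K| * t + |w| * t + 2) := by
        refine (abs_add_le _ _).trans (add_le_add ?_ ?_)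
        · rw [abs_mul, abs_of_pos (by positivity : 0 < 2 * t)]
          exact mul_le_mul_of_nonneg_left hM (by positivity)
        · refine (abs_add_three _ _ _).trans ?_
          rw [abs_of_nonneg hk0, abs_mul, abs_of_pos ht0]
          linarith
      have e3 : 2 * t * 2 + (|K| * t + |w| * t + 2) ≤ 2 * (B * t) := by
        rw [hB]; nlinarith
      calc |2 * t * r + (k + w * t + r)| * t ≤ (2 * (B * t)) * t :=
            mul_le_mul_of_nonneg_right (e2.trans e3) ht0.le
        _ = B * (2 * t ^ 2) := by ring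
    have hST : |T - S| ≤ 4 * B / t := by
      rw [abs_sub_comm]
      calc |S - T| = |(S - M * (1 / t + 1 / (2 * t ^ 2))) +
            (M * (1 / t + 1 / (2 * t ^ 2)) - T)| := by congr 1; ring
        _ ≤ (2 + 2 * B) / t + B / t := (abs_add_le _ _).trans (add_le_add hS1 hS2)
        _ = (2 + 3 * B) / t := by ring
        _ ≤ 4 * B / t := by
          gcongr
          rw [hB]; linarith
    have hST1 : |T - S| ≤ 1 := hST.trans (by rw [div_le_one ht0]; exact htB)
    have hexp := Real.abs_exp_sub_one_le hST1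
    have ha_exp : (a : ℝ) = Real.exp t := (Real.exp_log ha0).symm
    have e5 : 1 / t * Real.exp (-S) * (a * t) = Real.exp (t - T) * Real.exp (T - S) := by
      rw [← Real.exp_add]
      rw [show t - T + (T - S) = t + -S by ring, Real.exp_add, ← ha_exp]
      field_simp
    have e6 : lamc 1 * Real.exp (-w - k / t ^ 1) = Real.exp (t - T) := by
      unfold lamc
      rw [if_pos rfl, ← Real.exp_add]
      congr 1
      rw [hT, pow_one]
      ring
    rw [e5, e6]
    have e7 : Real.exp (t - T) * Real.exp (T - S) - Real.exp (t - T) =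
        Real.exp (t - T) * (Real.exp (T - S) - 1) := by ring
    rw [e7, abs_mul, abs_of_pos (Real.exp_pos _)]
    have e8 : Real.exp (t - T) ≤ Real.exp |w| := by
      apply Real.exp_le_exp.2
      rw [hT]
      have : 0 ≤ (k : ℝ) / t := by positivity
      linarith [neg_abs_le w]
    have e9 : 1 / t ≤ 1 / √t := by
      apply one_div_le_one_div_of_le (by positivity)
      rw [Real.sqrt_le_left ht0.le]
      nlinarith
    calc Real.exp (t - T) * |Real.exp (T - S) - 1| ≤ Real.exp |w| * (2 * (4 * B / t)) := by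
          refine mul_le_mul e8 (hexp.trans (by linarith)) (abs_nonneg _) (by positivity)
      _ = 8 * B * Real.exp |w| * (1 / t) := by ring
      _ ≤ 8 * B * Real.exp |w| * (1 / √t) := by
          refine mul_le_mul_of_nonneg_left e9 (by positivity)
      _ = 8 * B * Real.exp |w| / √t := by ring
  · have hw0 : 0 ≤ |w| := abs_nonneg w
    obtain ⟨a₀, h0⟩ := eventually_atTop.1 (common w 1 le_rfl)
    refine ⟨Real.exp (|w| + 2), max a₀ 3, by positivity, le_max_right _ _, fun a k ha hk => ?_⟩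
    obtain ⟨ha3, hwt, hc⟩ := h0 a ((le_max_left _ _).trans ha)
    set t := Real.log a with ht
    have ht2 : 2 ≤ t := by linarith
    have ht1 : 1 ≤ t := by linarith
    have ht0 : 0 < t := by linarith
    have haR : (3 : ℝ) ≤ a := by exact_mod_cast ha3
    have ha0 : (0 : ℝ) < a := by linarith
    have hk0 : (0 : ℝ) ≤ k := Nat.cast_nonneg k
    have hkt : (k : ℝ) ≤ 1 * t ^ 3 := by
      rw [one_mul]
      exact (Nat.cast_le.2 hk).trans (Nat.floor_le (by positivity))
    obtain ⟨hM, δ, hδ, hi⟩ := hc k hkt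
    set M := MM w a k with hMd
    rw [Cl_eq, prob_Ev hL hA a ha3, ← hMd]
    have hu : ∀ i < M, 0 < 1 / Real.log ((a + 1 + i : ℕ) : ℝ) ∧
        1 / Real.log ((a + 1 + i : ℕ) : ℝ) ≤ 1 / t := fun i h => by
      have h1 := (hi i h).1
      exact ⟨one_div_pos.2 (by linarith), one_div_le_one_div_of_le ht0 h1⟩
    have h12 : 1 / t ≤ 1 / 2 := one_div_le_one_div_of_le (by norm_num) ht2
    have hprod : ∏ i ∈ Finset.range M, (1 - 1 / Real.log ((a + 1 + i : ℕ) : ℝ)) ≤
        Real.exp (∑ i ∈ Finset.range M, -(1 / t - δ)) := by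
      rw [Real.exp_sum]
      refine Finset.prod_le_prod (fun i h => ?_) fun i h => ?_
      · have := hu i (Finset.mem_range.1 h); linarith
      · have h1 := Real.add_one_le_exp (-(1 / Real.log ((a + 1 + i : ℕ) : ℝ)))
        have h2 := (hi i (Finset.mem_range.1 h)).2
        calc 1 - 1 / Real.log ((a + 1 + i : ℕ) : ℝ)
            ≤ Real.exp (-(1 / Real.log ((a + 1 + i : ℕ) : ℝ))) := by linarith
          _ ≤ Real.exp (-(1 / t - δ)) := Real.exp_le_exp.2 (by linarith)
    rw [Finset.sum_const, Finset.card_range, nsmul_eq_mul] at hprod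
    have ha_exp : (a : ℝ) = Real.exp t := (Real.exp_log ha0).symm
    calc 1 / t * (∏ i ∈ Finset.range M, (1 - 1 / Real.log ((a + 1 + i : ℕ) : ℝ))) * (a * t)
        = a * ∏ i ∈ Finset.range M, (1 - 1 / Real.log ((a + 1 + i : ℕ) : ℝ)) := by
          generalize ∏ i ∈ Finset.range M, (1 - 1 / Real.log ((a + 1 + i : ℕ) : ℝ)) = R
          field_simp
      _ ≤ a * Real.exp (M * -(1 / t - δ)) := mul_le_mul_of_nonneg_left hprod ha0.le
      _ = Real.exp (t + M * -(1 / t - δ)) := by rw [Real.exp_add, ← ha_exp]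
      _ ≤ Real.exp ((|w| + 2) + -(k : ℝ) / (2 * t ^ 1)) := by
        apply Real.exp_le_exp.2
        rw [pow_one]
        rw [abs_le] at hM
        have e1 : (M : ℝ) * -(1 / t - δ) = -(M / t) + M * δ := by ring
        rw [e1]
        have e2 : (k + t ^ 2 + w * t - 2) / t ≤ M / t := by
          gcongr
          linarith [hM.1]
        have e3 : (k + t ^ 2 + w * t - 2) / t = k / t + t + w - 2 / t := by
          field_simp
        have e4 : 2 / t ≤ 1 := by rw [div_le_one ht0]; exact ht2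
        have e5 : 1 / t ≤ 1 := by rw [div_le_one ht0]; exact ht1
        have e6 : -(k : ℝ) / (2 * t) = -(k / t) / 2 := by field_simp
        rw [e3] at e2
        rw [e6]
        have e7 : 0 ≤ (k : ℝ) / t := by positivity
        linarith [neg_abs_le w]
      _ = Real.exp (|w| + 2) * Real.exp (-(k : ℝ) / (2 * t ^ 1)) := Real.exp_add _ _

end H21SCH
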