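import Pool.Agent.H21.SCH.Stm

/-! # SCH-QAS1 (helper51): the probabilities of the clusters, pairs (`d ≥ 1`, `j = 2`) -/

set_option autoImplicit false

namespace H21SCH

open MeasureTheory ProbabilityTheory Filter Topology Set

universe u

namespace QAS1aux

variable {Ω : Type u}

lemma loc_nopat (A : ℕ → Set Ω) (d s e : ℕ) :
    Loc A (Finset.Ico s e) (fun ω => ω ∈ NoPat A d s e) := by
  intro ω ω' h
  apply propext
  simp only [NoPat, Pat, mem_ofPred_eq, mem_inter_iff]
  refine forall_congr' fun m => forall_congr' fun hs => forall_congr' fun he => ?_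
  rw [h m (by rw [Finset.mem_Ico]; omega), h (m + d) (by rw [Finset.mem_Ico]; omega)]

lemma loc_A (A : ℕ → Set Ω) (p : ℕ) : Loc A {p} (fun ω => ω ∈ A p) := by
  intro ω ω' h
  exact propext (h p (by simp))

lemma loc_Ac (A : ℕ → Set Ω) (p : ℕ) : Loc A {p} (fun ω => ω ∈ (A p)ᶜ) := by
  intro ω ω' h
  exact propext (not_congr (h p (by simp)))

lemma loc_mono {A : ℕ → Set Ω} {S T : Finset ℕ} {β : Type*} {f : Ω → β} (h : S ⊆ T) (hf : Loc A S f) :
    Loc A T f := fun ω ω' hh => hf ω ω' fun p hp => hh p (h hp)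

lemma loc_inter {A : ℕ → Set Ω} {S : Finset ℕ} {B C : Set Ω} (hB : Loc A S (fun ω => ω ∈ B))
    (hC : Loc A S (fun ω => ω ∈ C)) : Loc A S (fun ω => ω ∈ B ∩ C) := by
  intro ω ω' hh
  have h1 := hB ω ω' hh
  have h2 := hC ω ω' hh
  simp only at h1 h2
  simp only [mem_inter_iff, h1, h2]

/-- no element in `(a, a + n]` except possibly `a + d` -/
def Fn (A : ℕ → Set Ω) (a d n : ℕ) : Set Ω :=
  {ω | ∀ p : ℕ, a < p → p ≤ a + n → p ≠ a + d → ω ∉ A p}

lemma loc_Fn (A : ℕ → Set Ω) (a d n : ℕ) :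
    Loc A ((Finset.Ioc a (a + n)).erase (a + d)) (fun ω => ω ∈ Fn A a d n) := by
  intro ω ω' h
  apply propext
  simp only [Fn, mem_ofPred_eq]
  refine forall_congr' fun m => forall_congr' fun hs => forall_congr' fun he =>
    forall_congr' fun hd => ?_
  rw [h m (by rw [Finset.mem_erase, Finset.mem_Ioc]; exact ⟨hd, hs, he⟩)]

variable [MeasurableSpace Ω] {μ : Measure Ω} [IsProbabilityMeasure μ] {A : ℕ → Set Ω}

/-- independence of events with disjoint coordinates -/
def L3 (μ : Measure Ω) (A : ℕ → Set Ω) : Prop :=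
  ∀ (S T : Finset ℕ) (B C : Set Ω), Disjoint S T → Loc A S (fun ω => ω ∈ B) →
    Loc A T (fun ω => ω ∈ C) → μ.real (B ∩ C) = μ.real B * μ.real C

lemma Fn_prob (hL : L3 μ A) (hA : CramerModel μ A) (a d : ℕ) (ha : 3 ≤ a) (n : ℕ) :
    (1 - 1 / Real.log a) ^ n ≤ μ.real (Fn A a d n) := by
  have ha3 : (3 : ℝ) ≤ a := by exact_mod_cast ha
  have hl1 : 1 ≤ Real.log a := by
    rw [Real.le_log_iff_exp_le (by linarith)]
    exact Real.exp_one_lt_d9.le.trans (by linarith)
  have ht0 : 0 ≤ 1 - 1 / Real.log a := by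
    rw [sub_nonneg, div_le_one (by linarith)]
    exact hl1
  have ht1 : 1 - 1 / Real.log a ≤ 1 := by
    have : 0 ≤ 1 / Real.log a := by positivity
    linarith
  induction n with
  | zero =>
    have : Fn A a d 0 = univ := by
      ext ω
      simp only [Fn, mem_ofPred_eq, mem_univ, iff_true]
      intro p h1 h2
      omega
    rw [this]
    simp
  | succ n ih =>
    by_cases hd : n + 1 = d
    · have : Fn A a d (n + 1) = Fn A a d n := by
        ext ω
        simp only [Fn, mem_ofPred_eq]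
        constructor
        · intro h p h1 h2 h3
          exact h p h1 (by omega) h3
        · intro h p h1 h2 h3
          exact h p h1 (by omega) h3
      rw [this, pow_succ]
      refine le_trans ?_ ih
      exact mul_le_of_le_one_right (pow_nonneg ht0 n) ht1
    · have : Fn A a d (n + 1) = Fn A a d n ∩ (A (a + (n + 1)))ᶜ := by
        ext ω
        simp only [Fn, mem_ofPred_eq, mem_inter_iff, mem_compl_iff]
        constructor
        · intro h
          exact ⟨fun p h1 h2 h3 => h p h1 (by omega) h3, h _ (by omega) le_rfl (by omega)⟩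
        · rintro ⟨h, h'⟩ p h1 h2 h3
          by_cases hp : p = a + (n + 1)
          · rw [hp]
            exact h'
          · exact h p h1 (by omega) h3
      rw [this, hL ((Finset.Ioc a (a + n)).erase (a + d)) {a + (n + 1)} _ _ ?_ (loc_Fn A a d n)
        (loc_Ac A _), pow_succ]
      · refine mul_le_mul ih ?_ ht0 measureReal_nonneg
        rw [measureReal_compl (hA.meas _), hA.prob _ (by omega), probReal_univ]
        have h1 : Real.log a ≤ Real.log ((a + (n + 1) : ℕ) : ℝ) :=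
          Real.log_le_log (by linarith) (by push_cast; linarith)
        have h2 : 1 / Real.log ((a + (n + 1) : ℕ) : ℝ) ≤ 1 / Real.log a :=
          one_div_le_one_div_of_le (by linarith) h1
        linarith
      · rw [Finset.disjoint_singleton_right, Finset.mem_erase, Finset.mem_Ioc]
        omega

omit [MeasurableSpace Ω] in
lemma nopat_anti (A : ℕ → Set Ω) (d s : ℕ) {e e' : ℕ} (h : e ≤ e') : NoPat A d s e' ⊆ NoPat A d s e :=
  fun _ hω m hs hm => hω m hs (by omega)

lemma cl_upper (hL : L3 μ A) (a d e : ℕ) (hd : 1 ≤ d) :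
    μ.real (Pat A d a ∩ NoPat A d (a + 1) e) ≤
      μ.real (A a) * (μ.real (A (a + d)) * μ.real (NoPat A d (a + d + 1) e)) := by
  have h1 : Pat A d a ∩ NoPat A d (a + 1) e ⊆ A a ∩ (A (a + d) ∩ NoPat A d (a + d + 1) e) := by
    rintro ω ⟨⟨h1, h2⟩, h3⟩
    exact ⟨h1, h2, fun m hs hm => h3 m (by omega) hm⟩
  have h2 := loc_nopat A d (a + d + 1) e
  have h3 : μ.real (A (a + d) ∩ NoPat A d (a + d + 1) e) =
      μ.real (A (a + d)) * μ.real (NoPat A d (a + d + 1) e) := by
    refine hL {a + d} _ _ _ ?_ (loc_A A _) h2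
    rw [Finset.disjoint_singleton_left, Finset.mem_Ico]
    omega
  have h4 : μ.real (A a ∩ (A (a + d) ∩ NoPat A d (a + d + 1) e)) =
      μ.real (A a) * μ.real (A (a + d) ∩ NoPat A d (a + d + 1) e) := by
    refine hL {a} (Finset.Ico (a + d) (a + d + 1) ∪ Finset.Ico (a + d + 1) e) _ _ ?_ (loc_A A _)
      (loc_inter (loc_mono ?_ (loc_A A _)) (loc_mono Finset.subset_union_right h2))
    · rw [Finset.disjoint_singleton_left, Finset.mem_union, Finset.mem_Ico, Finset.mem_Ico]
      omega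
    · intro p hp
      rw [Finset.mem_singleton] at hp
      rw [Finset.mem_union, Finset.mem_Ico]
      omega
  rw [← h3, ← h4]
  exact measureReal_mono h1

lemma cl_lower (hL : L3 μ A) (a d e : ℕ) (hd : 1 ≤ d) :
    μ.real (A a) * (μ.real (A (a + d)) * (μ.real (Fn A a d (2 * d)) *
      μ.real (NoPat A d (a + 2 * d + 1) e))) ≤ μ.real (Pat A d a ∩ NoPat A d (a + 1) e) := by
  have h1 : A a ∩ (A (a + d) ∩ (Fn A a d (2 * d) ∩ NoPat A d (a + 2 * d + 1) e)) ⊆
      Pat A d a ∩ NoPat A d (a + 1) e := by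
    rintro ω ⟨h1, h2, h3, h4⟩
    refine ⟨⟨h1, h2⟩, fun m hs hm hp => ?_⟩
    by_cases hm2 : a + 2 * d + 1 ≤ m
    · exact h4 m hm2 hm hp
    · by_cases hmd : m = a + d
      · exact h3 (m + d) (by omega) (by omega) (by omega) hp.2
      · exact h3 m (by omega) (by omega) hmd hp.1
  have h2 := loc_nopat A d (a + 2 * d + 1) e
  have hF := loc_Fn A a d (2 * d)
  have h3 : μ.real (Fn A a d (2 * d) ∩ NoPat A d (a + 2 * d + 1) e) =
      μ.real (Fn A a d (2 * d)) * μ.real (NoPat A d (a + 2 * d + 1) e) := by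
    refine hL _ _ _ _ ?_ hF h2
    rw [Finset.disjoint_left]
    intro p hp hp'
    rw [Finset.mem_erase, Finset.mem_Ioc] at hp
    rw [Finset.mem_Ico] at hp'
    omega
  set T : Finset ℕ := (Finset.Ioc a (a + 2 * d)).erase (a + d) ∪ Finset.Ico (a + 2 * d + 1) e with hT
  have h5 : Loc A T (fun ω => ω ∈ Fn A a d (2 * d) ∩ NoPat A d (a + 2 * d + 1) e) :=
    loc_inter (loc_mono Finset.subset_union_left hF) (loc_mono Finset.subset_union_right h2)
  have h6 : μ.real (A (a + d) ∩ (Fn A a d (2 * d) ∩ NoPat A d (a + 2 * d + 1) e)) =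
      μ.real (A (a + d)) * μ.real (Fn A a d (2 * d) ∩ NoPat A d (a + 2 * d + 1) e) := by
    refine hL {a + d} T _ _ ?_ (loc_A A _) h5
    rw [Finset.disjoint_singleton_left, hT, Finset.mem_union, Finset.mem_erase, Finset.mem_Ico]
    omega
  have h4 : μ.real (A a ∩ (A (a + d) ∩ (Fn A a d (2 * d) ∩ NoPat A d (a + 2 * d + 1) e))) =
      μ.real (A a) * μ.real (A (a + d) ∩ (Fn A a d (2 * d) ∩ NoPat A d (a + 2 * d + 1) e)) := by
    refine hL {a} ({a + d} ∪ T) _ _ ?_ (loc_A A _)
      (loc_inter (loc_mono Finset.subset_union_left (loc_A A _))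
        (loc_mono Finset.subset_union_right h5))
    rw [Finset.disjoint_singleton_left, hT, Finset.mem_union, Finset.mem_union, Finset.mem_erase,
      Finset.mem_Ico, Finset.mem_Ioc, Finset.mem_singleton]
    omega
  rw [← h3, ← h6, ← h4]
  exact measureReal_mono h1

/-- `1 / log m` is close to `1 / log a` -/
lemma inv_log {a m : ℕ} (hL : 1 ≤ Real.log a) (h14 : Real.log a ^ 14 ≤ a) (hm : a ≤ m)
    (hm5 : (m : ℝ) ≤ a + Real.log a ^ 5) :
    1 / Real.log a - (1 / Real.log a) ^ 9 ≤ 1 / Real.log m ∧ 1 / Real.log m ≤ 1 / Real.log a := by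
  have ha1 : (1 : ℝ) ≤ a := (one_le_pow₀ hL).trans h14
  have ham : (a : ℝ) ≤ m := by exact_mod_cast hm
  set l := Real.log a with hl
  have hlm : l ≤ Real.log m := Real.log_le_log (by linarith) ham
  refine ⟨?_, one_div_le_one_div_of_le (by linarith) hlm⟩
  have h1 : Real.log m - l ≤ l ^ 5 / a := by
    rw [hl, ← Real.log_div (by linarith) (by linarith)]
    have h2 := Real.log_le_sub_one_of_pos (x := (m : ℝ) / a)
      (div_pos (by linarith) (by linarith))
    refine h2.trans ?_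
    rw [le_div_iff₀ (by linarith), sub_mul, div_mul_cancel₀ _ (by linarith)]
    linarith
  have h3 : 1 / l - 1 / Real.log m ≤ l ^ 5 / a := by
    rw [div_sub_div _ _ (by linarith) (by linarith), one_mul, mul_one]
    refine (div_le_self (by linarith) ?_).trans h1
    nlinarith
  have h4 : l ^ 5 / a ≤ (1 / l) ^ 9 := by
    rw [div_pow, one_pow, div_le_div_iff₀ (by linarith) (by positivity), one_mul, ← pow_add]
    exact h14
  linarith

/-- the logarithm of the probability that there is no pair -/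
lemma nopat_log (hN : S_NOP.{u}) (hR : S_RUN) {Ω : Type u} [MeasurableSpace Ω] {μ : Measure Ω}
    [IsProbabilityMeasure μ] {A : ℕ → Set Ω} (hA : CramerModel μ A) (d : ℕ) (hd : 1 ≤ d) :
    ∃ C : ℝ, 0 ≤ C ∧ ∀ a s n : ℕ, 4 ≤ Real.log a → Real.log a ^ 14 ≤ a → a ≤ s →
      ((s + n * d : ℕ) : ℝ) ≤ a + Real.log a ^ 5 →
      0 < μ.real (NoPat A d s (s + n * d)) ∧
      |Real.log (μ.real (NoPat A d s (s + n * d))) +
        ((n * d : ℕ) : ℝ) * ((1 / Real.log a) ^ 2 - (1 / Real.log a) ^ 3)| ≤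
        C * (1 / Real.log a + ((n * d : ℕ) : ℝ) * (1 / Real.log a) ^ 4) := by
  obtain ⟨C0, hC0⟩ := hR
  refine ⟨d * |C0|, by positivity, fun a s n hL4 h14 has hs => ?_⟩
  have ha1 : (1 : ℝ) ≤ a := (one_le_pow₀ (by linarith)).trans h14
  have ha3 : 3 ≤ a := by
    by_contra hlt
    have h1 : (a : ℝ) ≤ 2 := by exact_mod_cast (by omega : a ≤ 2)
    have h2 := Real.log_le_sub_one_of_pos (x := (a : ℝ)) (by linarith)
    linarith
  set t := 1 / Real.log a with ht
  have ht0 : 0 < t := by positivity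
  have ht4 : t ≤ 1 / 4 := one_div_le_one_div_of_le (by norm_num) hL4
  have hrun : ∀ c ∈ Finset.range d, 0 < Rn (fun i => 1 / Real.log ((s + c + i * d : ℕ) : ℝ)) n ∧
      |Real.log (Rn (fun i => 1 / Real.log ((s + c + i * d : ℕ) : ℝ)) n) + n * (t ^ 2 - t ^ 3)| ≤
        C0 * (t + n * t ^ 4) := by
    intro c hc
    rw [Finset.mem_range] at hc
    refine hC0 t _ n ht0 ht4 fun i hi => ?_
    refine inv_log (by linarith) h14 (by omega) (le_trans ?_ hs)
    have h1 : (i + 1) * d ≤ n * d := Nat.mul_le_mul_right d (by omega)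
    have h2 : s + c + i * d ≤ s + n * d := by
      rw [add_mul] at h1
      omega
    exact_mod_cast h2
  rw [hN Ω μ A hA d s n hd (by omega)]
  refine ⟨Finset.prod_pos fun c hc => (hrun c hc).1, ?_⟩
  rw [Real.log_prod fun c hc => (hrun c hc).1.ne']
  have e1 : ∑ c ∈ Finset.range d, Real.log (Rn (fun i => 1 / Real.log ((s + c + i * d : ℕ) : ℝ)) n) +
      ((n * d : ℕ) : ℝ) * (t ^ 2 - t ^ 3) = ∑ c ∈ Finset.range d,
        (Real.log (Rn (fun i => 1 / Real.log ((s + c + i * d : ℕ) : ℝ)) n) +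
          n * (t ^ 2 - t ^ 3)) := by
    rw [Finset.sum_add_distrib, Finset.sum_const, Finset.card_range, nsmul_eq_mul]
    push_cast
    ring
  rw [e1]
  calc _ ≤ ∑ c ∈ Finset.range d, |Real.log (Rn (fun i => 1 / Real.log ((s + c + i * d : ℕ) : ℝ)) n) +
          n * (t ^ 2 - t ^ 3)| := Finset.abs_sum_le_sum_abs _ _
    _ ≤ ∑ c ∈ Finset.range d, |C0| * (t + ((n * d : ℕ) : ℝ) * t ^ 4) := by
      refine Finset.sum_le_sum fun c hc => (hrun c hc).2.trans ?_
      have h1 : (n : ℝ) ≤ ((n * d : ℕ) : ℝ) := by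
        exact_mod_cast Nat.le_mul_of_pos_right n hd
      have h2 : (n : ℝ) * t ^ 4 ≤ ((n * d : ℕ) : ℝ) * t ^ 4 :=
        mul_le_mul_of_nonneg_right h1 (by positivity)
      calc C0 * (t + n * t ^ 4) ≤ |C0| * (t + n * t ^ 4) :=
            mul_le_mul_of_nonneg_right (le_abs_self _) (by positivity)
        _ ≤ |C0| * (t + ((n * d : ℕ) : ℝ) * t ^ 4) :=
            mul_le_mul_of_nonneg_left (by linarith) (abs_nonneg _)
    _ = _ := by
      rw [Finset.sum_const, Finset.card_range, nsmul_eq_mul]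
      ring

lemma one_sub_ge {t : ℝ} (h0 : 0 ≤ t) (h1 : t ≤ 1 / 2) : Real.exp (-(2 * t)) ≤ 1 - t := by
  rw [Real.exp_neg, inv_le_comm₀ (Real.exp_pos _) (by linarith)]
  refine le_trans ?_ (Real.add_one_le_exp (2 * t))
  rw [inv_le_iff_one_le_mul₀ (by linarith)]
  nlinarith

/-- the main estimate: `e` is `a + y` rounded -/
lemma main (hN : S_NOP.{u}) (hR : S_RUN) {Ω : Type u} [MeasurableSpace Ω] {μ : Measure Ω}
    [IsProbabilityMeasure μ] {A : ℕ → Set Ω} (hL : L3 μ A) (hA : CramerModel μ A) (d : ℕ)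
    (hd : 1 ≤ d) :
    ∃ C : ℝ, 0 ≤ C ∧ ∀ (a e : ℕ) (y : ℝ), 4 ≤ Real.log a → Real.log a ^ 14 ≤ a →
      (a : ℝ) + y ≤ e → (e : ℝ) ≤ a + y + 1 → 4 * (d : ℝ) + 4 ≤ y → y + d + 1 ≤ Real.log a ^ 5 →
      (1 / Real.log a) ^ 2 * Real.exp (-(y * ((1 / Real.log a) ^ 2 - (1 / Real.log a) ^ 3)) -
        C * (1 / Real.log a + y * (1 / Real.log a) ^ 4)) ≤ μ.real (Pat A d a ∩ NoPat A d (a + 1) e) ∧
      μ.real (Pat A d a ∩ NoPat A d (a + 1) e) ≤
      (1 / Real.log a) ^ 2 * Real.exp (-(y * ((1 / Real.log a) ^ 2 - (1 / Real.log a) ^ 3)) +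
        C * (1 / Real.log a + y * (1 / Real.log a) ^ 4)) := by
  obtain ⟨C, hC, hnp⟩ := nopat_log hN hR hA d hd
  refine ⟨C + 4 * d + 2, by positivity, fun a e y hL4 h14 he1 he2 hy1 hy2 => ?_⟩
  have ha1 : (1 : ℝ) ≤ a := (one_le_pow₀ (by linarith)).trans h14
  have ha3 : 3 ≤ a := by
    by_contra hlt
    have h1 : (a : ℝ) ≤ 2 := by exact_mod_cast (by omega : a ≤ 2)
    have h2 := Real.log_le_sub_one_of_pos (x := (a : ℝ)) (by linarith)
    linarith
  have hd1 : (1 : ℝ) ≤ d := by exact_mod_cast hd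
  have hnp1 := hnp a (a + d + 1) ((e - (a + d + 1)) / d) hL4 h14 (by omega)
  have hnp2 := hnp a (a + 2 * d + 1) ((e - (a + 2 * d + 1)) / d + 1) hL4 h14 (by omega)
  have hla : 1 / Real.log a = μ.real (A a) := (hA.prob a ha3).symm
  set t := 1 / Real.log a with ht
  have ht0 : 0 < t := by positivity
  have ht4 : t ≤ 1 / 4 := one_div_le_one_div_of_le (by norm_num) hL4
  have hyp : 0 < y := by linarith
  have hea : a + 4 * d + 4 ≤ e := by
    have : ((a + 4 * d + 4 : ℕ) : ℝ) ≤ e := by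
      push_cast
      linarith
    exact_mod_cast this
  have hpd : μ.real (A (a + d)) = 1 / Real.log ((a + d : ℕ) : ℝ) := hA.prob _ (by omega)
  have hpd2 : t - t ^ 9 ≤ μ.real (A (a + d)) ∧ μ.real (A (a + d)) ≤ t := by
    rw [hpd]
    refine inv_log (by linarith) h14 (by omega) ?_
    push_cast
    linarith
  have ht23 : 0 ≤ t ^ 2 - t ^ 3 := by
    have : t ^ 2 - t ^ 3 = t ^ 2 * (1 - t) := by ring
    rw [this]
    exact mul_nonneg (by positivity) (by linarith)
  constructor
  · -- lower bound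
    set n := (e - (a + 2 * d + 1)) / d + 1 with hn
    have hnd : e - (a + 2 * d + 1) < n * d := by
      have := Nat.lt_mul_div_succ (e - (a + 2 * d + 1)) (by omega : 0 < d)
      rw [mul_comm n d]
      exact this
    have hnd2 : n * d ≤ e - (a + 2 * d + 1) + d := by
      have := Nat.div_mul_le_self (e - (a + 2 * d + 1)) d
      rw [hn, add_mul]
      omega
    have hnd3 : ((n * d : ℕ) : ℝ) ≤ y := by
      have h1 : n * d + (a + d + 1) ≤ e := by omega
      have h2 : ((n * d : ℕ) : ℝ) + (a + d + 1) ≤ e := by exact_mod_cast h1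
      linarith
    have hs : ((a + 2 * d + 1 + n * d : ℕ) : ℝ) ≤ a + Real.log a ^ 5 := by
      have h1 : a + 2 * d + 1 + n * d ≤ e + d := by omega
      have h2 : ((a + 2 * d + 1 + n * d : ℕ) : ℝ) ≤ e + d := by exact_mod_cast h1
      linarith
    obtain ⟨hp0, hp1⟩ := hnp2 hs
    have hp2 : Real.exp (-(y * (t ^ 2 - t ^ 3)) - C * (t + y * t ^ 4)) ≤
        μ.real (NoPat A d (a + 2 * d + 1) (a + 2 * d + 1 + n * d)) := by
      rw [← Real.le_log_iff_exp_le hp0]
      have h1 := (abs_le.1 hp1).1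
      have h2 : ((n * d : ℕ) : ℝ) * (t ^ 2 - t ^ 3) ≤ y * (t ^ 2 - t ^ 3) :=
        mul_le_mul_of_nonneg_right hnd3 ht23
      have h3 : C * (t + ((n * d : ℕ) : ℝ) * t ^ 4) ≤ C * (t + y * t ^ 4) :=
        mul_le_mul_of_nonneg_left (by
          have := mul_le_mul_of_nonneg_right hnd3 (by positivity : 0 ≤ t ^ 4)
          linarith) hC
      linarith
    have hp3 : μ.real (NoPat A d (a + 2 * d + 1) (a + 2 * d + 1 + n * d)) ≤
        μ.real (NoPat A d (a + 2 * d + 1) e) :=
      measureReal_mono (nopat_anti A d _ (by omega))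
    have hF := Fn_prob hL hA a d ha3 (2 * d)
    rw [← ht] at hF
    have hE : Real.exp (-(2 * t)) ≤ 1 - t := one_sub_ge ht0.le (by linarith)
    have hF2 : Real.exp (-(2 * t)) ^ (2 * d) ≤ μ.real (Fn A a d (2 * d)) :=
      (pow_le_pow_left₀ (Real.exp_pos _).le hE _).trans hF
    have hA2 : t * Real.exp (-(2 * t)) ≤ μ.real (A (a + d)) := by
      have h1 : t * Real.exp (-(2 * t)) ≤ t * (1 - t) := mul_le_mul_of_nonneg_left hE ht0.le
      have h2 : t ^ 9 ≤ t ^ 2 := pow_le_pow_of_le_one ht0.le (by linarith) (by norm_num)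
      nlinarith [hpd2.1]
    refine le_trans ?_ (cl_lower hL a d e hd)
    rw [← hla]
    calc t ^ 2 * Real.exp (-(y * (t ^ 2 - t ^ 3)) - (C + 4 * d + 2) * (t + y * t ^ 4))
        ≤ t ^ 2 * Real.exp (-(y * (t ^ 2 - t ^ 3)) - C * (t + y * t ^ 4) - (4 * d + 2) * t) := by
          refine mul_le_mul_of_nonneg_left (Real.exp_le_exp.2 ?_) (by positivity)
          have : 0 ≤ (4 * (d : ℝ) + 2) * (y * t ^ 4) := by positivity
          linarith
      _ = t * (t * Real.exp (-(2 * t)) * (Real.exp (-(2 * t)) ^ (2 * d) *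
          Real.exp (-(y * (t ^ 2 - t ^ 3)) - C * (t + y * t ^ 4)))) := by
          rw [← Real.exp_nat_mul, mul_assoc t (Real.exp _), ← Real.exp_add, ← Real.exp_add, pow_two,
            mul_assoc]
          congr 3
          push_cast
          ring
      _ ≤ _ := by
          refine mul_le_mul_of_nonneg_left ?_ ht0.le
          refine mul_le_mul hA2 ?_ (by positivity) measureReal_nonneg
          exact mul_le_mul hF2 (hp2.trans hp3) (Real.exp_pos _).le measureReal_nonneg
  · -- upper bound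
    set n := (e - (a + d + 1)) / d with hn
    have hnd : e - (a + d + 1) < (n + 1) * d := by
      have := Nat.lt_mul_div_succ (e - (a + d + 1)) (by omega : 0 < d)
      rw [mul_comm (n + 1) d]
      exact this
    have hnd2 : n * d ≤ e - (a + d + 1) := Nat.div_mul_le_self (e - (a + d + 1)) d
    have hnd3 : ((n * d : ℕ) : ℝ) ≤ y := by
      have h1 : n * d + (a + d + 1) ≤ e := by omega
      have h2 : ((n * d : ℕ) : ℝ) + (a + d + 1) ≤ e := by exact_mod_cast h1
      linarith
    have hnd4 : y - 2 * d ≤ ((n * d : ℕ) : ℝ) := by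
      have h1 : e ≤ n * d + (a + 2 * d) := by
        rw [add_mul] at hnd
        omega
      have h2 : (e : ℝ) ≤ ((n * d : ℕ) : ℝ) + (a + 2 * d) := by exact_mod_cast h1
      linarith
    have hs : ((a + d + 1 + n * d : ℕ) : ℝ) ≤ a + Real.log a ^ 5 := by
      have h1 : a + d + 1 + n * d ≤ e := by omega
      have h2 : ((a + d + 1 + n * d : ℕ) : ℝ) ≤ e := by exact_mod_cast h1
      linarith
    obtain ⟨hp0, hp1⟩ := hnp1 hs
    have hp2 : μ.real (NoPat A d (a + d + 1) (a + d + 1 + n * d)) ≤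
        Real.exp (-(y * (t ^ 2 - t ^ 3)) + (C + 4 * d + 2) * (t + y * t ^ 4)) := by
      rw [← Real.log_le_iff_le_exp hp0]
      have h1 := (abs_le.1 hp1).2
      have h2 : (y - 2 * d) * (t ^ 2 - t ^ 3) ≤ ((n * d : ℕ) : ℝ) * (t ^ 2 - t ^ 3) :=
        mul_le_mul_of_nonneg_right hnd4 ht23
      have h3 : C * (t + ((n * d : ℕ) : ℝ) * t ^ 4) ≤ C * (t + y * t ^ 4) :=
        mul_le_mul_of_nonneg_left (by
          have := mul_le_mul_of_nonneg_right hnd3 (by positivity : 0 ≤ t ^ 4)
          linarith) hC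
      have h4 : 2 * (d : ℝ) * (t ^ 2 - t ^ 3) ≤ 2 * d * t := by
        refine mul_le_mul_of_nonneg_left ?_ (by positivity)
        have h5 : t ^ 2 ≤ t := by nlinarith
        have h6 : 0 ≤ t ^ 3 := by positivity
        linarith
      have h7 : 0 ≤ (4 * (d : ℝ) + 2) * (y * t ^ 4) := by positivity
      have h8 : 2 * (d : ℝ) * t ≤ (4 * d + 2) * t := mul_le_mul_of_nonneg_right (by linarith) ht0.le
      linarith
    have hp3 : μ.real (NoPat A d (a + d + 1) e) ≤
        μ.real (NoPat A d (a + d + 1) (a + d + 1 + n * d)) :=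
      measureReal_mono (nopat_anti A d _ (by omega))
    refine (cl_upper hL a d e hd).trans ?_
    rw [← hla]
    calc t * (μ.real (A (a + d)) * μ.real (NoPat A d (a + d + 1) e)) ≤
        t * (t * Real.exp (-(y * (t ^ 2 - t ^ 3)) + (C + 4 * d + 2) * (t + y * t ^ 4))) :=
          mul_le_mul_of_nonneg_left
            (mul_le_mul hpd2.2 (hp3.trans hp2) measureReal_nonneg ht0.le) ht0.le
      _ = _ := by ring

/-- `len` changes little -/
lemma len_close (w : ℝ) {a k : ℕ} (hl : 24 + 8 * |w| ≤ Real.log a) (h14 : Real.log a ^ 14 ≤ a)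
    (hk : (k : ℝ) ≤ Real.log a ^ 4) :
    |len 2 w ((a + k : ℕ) : ℝ) - (Real.log a ^ 3 - Real.log a ^ 2 * Real.log (Real.log a) +
      w * Real.log a ^ 2)| ≤ 1 := by
  have hw := abs_nonneg w
  have ha1 : (1 : ℝ) ≤ a := (one_le_pow₀ (by linarith)).trans h14
  have hk0 : (0 : ℝ) ≤ k := Nat.cast_nonneg k
  unfold len
  set l := Real.log a with hld
  set l' := Real.log ((a + k : ℕ) : ℝ) with hld'
  have hl1 : 1 ≤ l := by linarith
  have h1 : l ≤ l' := Real.log_le_log (by linarith) (by push_cast; linarith)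
  have h2 : l' - l ≤ l ^ 4 / a := by
    rw [hld, hld', ← Real.log_div (by push_cast; linarith) (by linarith)]
    refine (Real.log_le_sub_one_of_pos (div_pos (by push_cast; linarith) (by linarith))).trans ?_
    rw [le_div_iff₀ (by linarith), sub_mul, div_mul_cancel₀ _ (by linarith)]
    push_cast
    linarith
  have h3 : l ^ 4 / a ≤ 1 := by
    rw [div_le_one (by linarith)]
    exact (pow_le_pow_right₀ hl1 (by norm_num)).trans h14
  have h4 : l' ≤ 2 * l := by linarith
  set ε := l' - l with hε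
  have hε0 : 0 ≤ ε := by linarith
  have hl'0 : 0 < l' := by linarith
  have hlog0 : 0 ≤ Real.log l := Real.log_nonneg hl1
  have hlogl : Real.log l ≤ l := (Real.log_le_sub_one_of_pos (by linarith)).trans (by linarith)
  have hlog1 : Real.log l ≤ Real.log l' := Real.log_le_log (by linarith) h1
  have hlog2 : Real.log l' - Real.log l ≤ ε := by
    rw [← Real.log_div hl'0.ne' (by linarith)]
    refine (Real.log_le_sub_one_of_pos (div_pos hl'0 (by linarith))).trans ?_
    rw [sub_le_iff_le_add, div_le_iff₀ (by linarith)]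
    nlinarith
  have hA1 : 0 ≤ l' ^ 3 - l ^ 3 ∧ l' ^ 3 - l ^ 3 ≤ 3 * l' ^ 2 * ε := by
    have e1 : l' ^ 3 - l ^ 3 = ε * (l' ^ 2 + l' * l + l ^ 2) := by
      rw [hε]
      ring
    rw [e1]
    constructor
    · positivity
    · have : l' ^ 2 + l' * l + l ^ 2 ≤ 3 * l' ^ 2 := by nlinarith
      nlinarith
  have hA2 : 0 ≤ l' ^ 2 - l ^ 2 ∧ l' ^ 2 - l ^ 2 ≤ 2 * l' * ε := by
    have e1 : l' ^ 2 - l ^ 2 = ε * (l' + l) := by
      rw [hε]
      ring
    rw [e1]
    constructor
    · positivity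
    · nlinarith
  have hA3 : 0 ≤ l' ^ 2 * Real.log l' - l ^ 2 * Real.log l ∧
      l' ^ 2 * Real.log l' - l ^ 2 * Real.log l ≤ 3 * l' ^ 2 * ε := by
    have e1 : l' ^ 2 * Real.log l' - l ^ 2 * Real.log l =
        l' ^ 2 * (Real.log l' - Real.log l) + (l' ^ 2 - l ^ 2) * Real.log l := by ring
    rw [e1]
    have h5 : 0 ≤ l' ^ 2 * (Real.log l' - Real.log l) := mul_nonneg (by positivity) (by linarith)
    have h6 : 0 ≤ (l' ^ 2 - l ^ 2) * Real.log l := mul_nonneg hA2.1 hlog0
    have h7 : l' ^ 2 * (Real.log l' - Real.log l) ≤ l' ^ 2 * ε :=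
      mul_le_mul_of_nonneg_left hlog2 (by positivity)
    have h8 : (l' ^ 2 - l ^ 2) * Real.log l ≤ 2 * l' * ε * l' :=
      mul_le_mul hA2.2 (by linarith) hlog0 (by positivity)
    constructor
    · linarith
    · nlinarith
  have hA4 : |w * (l' ^ 2 - l ^ 2)| ≤ 2 * |w| * l' ^ 2 * ε := by
    rw [abs_mul, abs_of_nonneg hA2.1]
    have h5 : 2 * l' * ε ≤ 2 * l' ^ 2 * ε := by
      have : l' ≤ l' ^ 2 := by nlinarith
      nlinarith
    calc |w| * (l' ^ 2 - l ^ 2) ≤ |w| * (2 * l' ^ 2 * ε) :=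
          mul_le_mul_of_nonneg_left (hA2.2.trans h5) hw
      _ = _ := by ring
  have hfin : (6 + 2 * |w|) * l' ^ 2 * ε ≤ 1 := by
    have h5 : l' ^ 2 ≤ 4 * l ^ 2 := by nlinarith
    calc (6 + 2 * |w|) * l' ^ 2 * ε ≤ (6 + 2 * |w|) * (4 * l ^ 2) * (l ^ 4 / a) := by
          refine mul_le_mul (mul_le_mul_of_nonneg_left h5 (by linarith)) h2 hε0 (by positivity)
      _ = (24 + 8 * |w|) * l ^ 6 / a := by ring
      _ ≤ l * l ^ 6 / a := by
          refine div_le_div_of_nonneg_right (mul_le_mul_of_nonneg_right hl (by positivity))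
            (by linarith)
      _ = l ^ 7 / a := by ring
      _ ≤ 1 := by
          rw [div_le_one (by linarith)]
          exact (pow_le_pow_right₀ hl1 (by norm_num)).trans h14
  have hB := abs_le.1 hA4
  have e : l' ^ (2 + 1) - (((2 : ℕ) : ℝ) - 1) * (l' ^ 2 * Real.log l') + w * l' ^ 2 -
      (l ^ 3 - l ^ 2 * Real.log l + w * l ^ 2) =
      (l' ^ 3 - l ^ 3) - (l' ^ 2 * Real.log l' - l ^ 2 * Real.log l) + w * (l' ^ 2 - l ^ 2) := by
    push_cast
    ring
  rw [e, abs_le]
  have hC : (6 + 2 * |w|) * l' ^ 2 * ε = 3 * l' ^ 2 * ε + 3 * l' ^ 2 * ε + 2 * |w| * l' ^ 2 * ε := by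
    ring
  constructor <;> linarith [hA1.1, hA1.2, hA3.1, hA3.2, hB.1, hB.2]

/-- the two sided estimate for `Cl` -/
lemma cl_bound (hN : S_NOP.{u}) (hR : S_RUN) {Ω : Type u} [MeasurableSpace Ω] {μ : Measure Ω}
    [IsProbabilityMeasure μ] {A : ℕ → Set Ω} (hL : L3 μ A) (hA : CramerModel μ A) (d : ℕ)
    (hd : 1 ≤ d) (w : ℝ) :
    ∃ C : ℝ, 0 ≤ C ∧ ∃ a₀ : ℕ, 3 ≤ a₀ ∧ ∀ a k : ℕ, a₀ ≤ a → (k : ℝ) ≤ Real.log a ^ 4 →
      32 ≤ Real.log a ∧ ∃ y δ : ℝ, 0 ≤ y ∧ |δ| ≤ 1 ∧
      y = k + Real.log a ^ 3 - Real.log a ^ 2 * Real.log (Real.log a) + w * Real.log a ^ 2 + δ ∧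
      Real.exp (Real.log a - Real.log (Real.log a) -
        y * ((1 / Real.log a) ^ 2 - (1 / Real.log a) ^ 3) -
        C * (1 / Real.log a + y * (1 / Real.log a) ^ 4)) ≤
          μ.real (Cl A d 2 w a k) * (a * Real.log a) ∧
      μ.real (Cl A d 2 w a k) * (a * Real.log a) ≤
      Real.exp (Real.log a - Real.log (Real.log a) -
        y * ((1 / Real.log a) ^ 2 - (1 / Real.log a) ^ 3) +
        C * (1 / Real.log a + y * (1 / Real.log a) ^ 4)) := by
  obtain ⟨C, hC, hmain⟩ := main hN hR hL hA d hd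
  have htl : Tendsto (fun a : ℕ => Real.log a) atTop atTop :=
    Real.tendsto_log_atTop.comp tendsto_natCast_atTop_atTop
  have hev1 : ∀ᶠ a : ℕ in atTop, Real.log a ^ 14 ≤ a := by
    have h1 := tendsto_natCast_atTop_atTop.eventually
      ((Real.isLittleO_pow_log_id_atTop (n := 14)).bound (c := 1) one_pos)
    filter_upwards [h1] with a ha
    have h2 : |((a : ℕ) : ℝ)| = a := abs_of_nonneg (Nat.cast_nonneg a)
    rw [one_mul, id, Real.norm_eq_abs, Real.norm_eq_abs, h2] at ha
    exact (le_abs_self _).trans ha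
  have hev2 : ∀ᶠ a : ℕ in atTop, Real.log (Real.log a) ≤ Real.log a / 8 := by
    have h1 := htl.eventually (Real.isLittleO_log_id_atTop.bound (c := 1 / 8) (by norm_num))
    filter_upwards [h1, htl.eventually_ge_atTop 0] with a ha ha0
    rw [id, Real.norm_eq_abs, Real.norm_eq_abs, abs_of_nonneg ha0] at ha
    linarith [le_abs_self (Real.log (Real.log a))]
  obtain ⟨a₀, ha₀⟩ := eventually_atTop.1 (hev1.and (hev2.and
    (htl.eventually_ge_atTop (32 + 8 * |w| + 8 * d))))
  refine ⟨C, hC, max a₀ 3, le_max_right _ _, fun a k ha hk => ?_⟩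
  obtain ⟨h14, h8, hl⟩ := ha₀ a ((le_max_left _ _).trans ha)
  have hw := abs_nonneg w
  have hd0 : (0 : ℝ) ≤ d := Nat.cast_nonneg d
  have hk0 : (0 : ℝ) ≤ k := Nat.cast_nonneg k
  have hlen := len_close w (by linarith : 24 + 8 * |w| ≤ Real.log a) h14 hk
  have ha1 : (1 : ℝ) ≤ a := (one_le_pow₀ (by linarith)).trans h14
  set l := Real.log a with hld
  have hl1 : 1 ≤ l := by linarith
  have hlog0 : 0 ≤ Real.log l := Real.log_nonneg hl1
  refine ⟨by linarith, (k : ℝ) + len 2 w ((a + k : ℕ) : ℝ),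
    len 2 w ((a + k : ℕ) : ℝ) - (l ^ 3 - l ^ 2 * Real.log l + w * l ^ 2), ?_, hlen, by ring, ?_⟩
  all_goals
    set y := (k : ℝ) + len 2 w ((a + k : ℕ) : ℝ) with hy
    have hwl : |w * l ^ 2| ≤ l ^ 3 / 8 := by
      rw [abs_mul, abs_of_nonneg (by positivity : (0 : ℝ) ≤ l ^ 2)]
      have : |w| ≤ l / 8 := by linarith
      calc |w| * l ^ 2 ≤ l / 8 * l ^ 2 := mul_le_mul_of_nonneg_right this (by positivity)
        _ = l ^ 3 / 8 := by ring
    have hll : l ^ 2 * Real.log l ≤ l ^ 3 / 8 := by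
      calc l ^ 2 * Real.log l ≤ l ^ 2 * (l / 8) := mul_le_mul_of_nonneg_left h8 (by positivity)
        _ = l ^ 3 / 8 := by ring
    have hll0 : 0 ≤ l ^ 2 * Real.log l := by positivity
    have hy1 : l ^ 3 / 2 ≤ y := by
      have h1 := (abs_le.1 hlen).1
      have h2 := (abs_le.1 hwl).1
      have h3 : 4 ≤ l ^ 3 := by
        have : l ≤ l ^ 3 := le_self_pow₀ hl1 (by norm_num)
        linarith
      linarith
  · have : 0 ≤ l ^ 3 := by positivity
    linarith
  · have hy4 : 4 * (d : ℝ) + 4 ≤ y := by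
      have : l ≤ l ^ 3 := le_self_pow₀ hl1 (by norm_num)
      linarith
    have hy5 : y + d + 1 ≤ l ^ 5 := by
      have h1 := (abs_le.1 hlen).2
      have h2 := (abs_le.1 hwl).2
      have h3 : l ≤ l ^ 4 := le_self_pow₀ hl1 (by norm_num)
      have h4 : l ^ 3 ≤ l ^ 4 := pow_le_pow_right₀ hl1 (by norm_num)
      have h5 : 32 * l ^ 4 ≤ l ^ 5 := by
        rw [pow_succ' l 4]
        exact mul_le_mul_of_nonneg_right (by linarith) (by positivity)
      linarith
    set e := ⌈((a + k : ℕ) : ℝ) + len 2 w ((a + k : ℕ) : ℝ)⌉₊ with he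
    have hay : (a : ℝ) + y = ((a + k : ℕ) : ℝ) + len 2 w ((a + k : ℕ) : ℝ) := by
      rw [hy]
      push_cast
      ring
    have he1 : (a : ℝ) + y ≤ e := by
      rw [hay]
      exact Nat.le_ceil _
    have he2 : (e : ℝ) ≤ a + y + 1 := by
      rw [hay]
      exact (Nat.ceil_lt_add_one (by rw [← hay]; linarith)).le
    have hcl : Cl A d 2 w a k = Pat A d a ∩ NoPat A d (a + 1) e := by
      ext ω
      simp only [Cl, NoPat, mem_ofPred_eq, mem_inter_iff]
      refine and_congr_right fun _ => forall_congr' fun m => ?_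
      rw [he, Nat.lt_ceil]
      rfl
    obtain ⟨hm1, hm2⟩ := hmain a e y (by linarith) h14 he1 he2 hy4 hy5
    rw [← hcl] at hm1 hm2
    have hal : (0 : ℝ) < a * l := by positivity
    have key : ∀ X : ℝ, (1 / l) ^ 2 * Real.exp X * (a * l) = Real.exp (l - Real.log l + X) := by
      intro X
      rw [Real.exp_add, Real.exp_sub, Real.exp_log (by linarith : 0 < l), hld,
        Real.exp_log (by linarith : (0 : ℝ) < a), ← hld]
      field_simp
    constructor
    · calc _ = (1 / l) ^ 2 * Real.exp (-(y * ((1 / l) ^ 2 - (1 / l) ^ 3)) -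
            C * (1 / l + y * (1 / l) ^ 4)) * (a * l) := by
            rw [key]
            congr 1
            ring
        _ ≤ _ := mul_le_mul_of_nonneg_right hm1 hal.le
    · calc _ ≤ (1 / l) ^ 2 * Real.exp (-(y * ((1 / l) ^ 2 - (1 / l) ^ 3)) +
            C * (1 / l + y * (1 / l) ^ 4)) * (a * l) := mul_le_mul_of_nonneg_right hm2 hal.le
        _ = _ := by
            rw [key]
            congr 1
            ring

end QAS1aux

open QAS1aux

theorem qas1 : S_LOC.{u} → S_NOP.{u} → S_RUN → S_QAS1.{u} := by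
  intro hLoc hN hR Ω _ μ _ A hA d w hd
  have hL : L3 μ A := (hLoc Ω μ A hA.meas hA.indep).2.2
  obtain ⟨C, hC, a₀, ha₀3, hcl⟩ := cl_bound hN hR hL hA d hd w
  have hw := abs_nonneg w
  refine ⟨fun K => ?_, ?_⟩
  · set D : ℝ := 4 + |K| + |w| + C * (3 + |K| + |w|) with hD
    have hK := abs_nonneg K
    have hD0 : 0 ≤ D := by positivity
    have htl : Tendsto (fun a : ℕ => Real.log a) atTop atTop :=
      Real.tendsto_log_atTop.comp tendsto_natCast_atTop_atTop
    obtain ⟨a₁, ha₁⟩ := eventually_atTop.1 (htl.eventually_ge_atTop |K|)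
    refine ⟨Real.exp (1 - w) * (D * Real.exp D), max a₀ a₁, fun a k ha hk => ?_⟩
    have haK : |K| ≤ Real.log a := ha₁ a ((le_max_right _ _).trans ha)
    have hk0 : (0 : ℝ) ≤ k := Nat.cast_nonneg k
    have hk4 : 1 ≤ Real.log a → (k : ℝ) ≤ Real.log a ^ 4 := by
      intro h1
      have h2 : K ≤ Real.log a ^ 2 := by nlinarith [le_abs_self K]
      calc (k : ℝ) ≤ K * Real.log a ^ 2 := hk
        _ ≤ Real.log a ^ 2 * Real.log a ^ 2 := mul_le_mul_of_nonneg_right h2 (by positivity)
        _ = Real.log a ^ 4 := by ring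
    have hl32 : 32 ≤ Real.log a := (hcl a 0 ((le_max_left _ _).trans ha) (by
      push_cast
      positivity)).1
    obtain ⟨-, y, δ, hy0, hδ, hy, h1, h2⟩ := hcl a k ((le_max_left _ _).trans ha)
      (hk4 (by linarith))
    set l := Real.log a with hld
    have hl0 : 0 < l := by linarith
    set q : ℝ := 1 / √l with hq
    have hsl : 1 ≤ √l := Real.one_le_sqrt.2 (by linarith)
    have hq0 : 0 < q := by positivity
    have hq1 : q ≤ 1 := by
      rw [hq, div_le_one (by linarith)]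
      exact hsl
    have htq : 1 / l = q ^ 2 := by
      rw [hq, div_pow, one_pow, Real.sq_sqrt hl0.le]
    have hlog0 : 0 ≤ Real.log l := Real.log_nonneg (by linarith)
    have hlogq : Real.log l * (1 / l) ≤ 2 * q := by
      have h3 : Real.log l ≤ 2 * √l := by
        have h4 : Real.log l = 2 * Real.log (√l) := by
          rw [Real.log_sqrt hl0.le]
          ring
        have h5 := Real.log_le_sub_one_of_pos (x := √l) (by linarith)
        linarith
      calc Real.log l * (1 / l) ≤ 2 * √l * (1 / l) :=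
            mul_le_mul_of_nonneg_right h3 (by positivity)
        _ = 2 * q := by
            rw [hq]
            field_simp
            rw [Real.sq_sqrt hl0.le]
    have htq' : 1 / l ≤ q := by
      rw [htq]
      nlinarith
    set t := 1 / l with ht
    have ht0 : 0 < t := by positivity
    have ht1 : t ≤ 1 := htq'.trans hq1
    have htl1 : t * l = 1 := by
      rw [ht]
      field_simp
    have hkt : (k : ℝ) * t ^ 2 ≤ |K| := by
      calc (k : ℝ) * t ^ 2 ≤ K * l ^ 2 * t ^ 2 := mul_le_mul_of_nonneg_right hk (by positivity)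
        _ = K * (t * l) ^ 2 := by ring
        _ = K := by rw [htl1]; ring
        _ ≤ |K| := le_abs_self K
    have hkt0 : 0 ≤ (k : ℝ) * t ^ 2 := by positivity
    have hyt2 : y * t ^ 2 = k * t ^ 2 + l - Real.log l + w + δ * t ^ 2 := by
      rw [hy]
      have : (k + l ^ 3 - l ^ 2 * Real.log l + w * l ^ 2 + δ) * t ^ 2 =
        k * t ^ 2 + l * (t * l) ^ 2 - (t * l) ^ 2 * Real.log l + w * (t * l) ^ 2 + δ * t ^ 2 := by
        ring
      rw [this, htl1]
      ring
    have hyt3 : y * t ^ 3 = k * t ^ 2 * t + 1 - Real.log l * t + w * t + δ * t ^ 3 := by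
      have : y * t ^ 3 = (y * t ^ 2) * t := by ring
      rw [this, hyt2]
      have e3 : (k * t ^ 2 + l - Real.log l + w + δ * t ^ 2) * t =
        k * t ^ 2 * t + t * l - Real.log l * t + w * t + δ * t ^ 3 := by ring
      rw [e3, htl1]
    have hδt : ∀ n : ℕ, |δ * t ^ (n + 1)| ≤ q := by
      intro n
      rw [abs_mul, abs_of_pos (pow_pos ht0 (n + 1))]
      calc |δ| * t ^ (n + 1) ≤ 1 * t ^ (n + 1) := mul_le_mul_of_nonneg_right hδ (by positivity)
        _ ≤ 1 * t ^ 1 := mul_le_mul_of_nonneg_left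
            (pow_le_pow_of_le_one ht0.le ht1 (by omega)) (by norm_num)
        _ ≤ q := by linarith
    have hwt : |w * t| ≤ |w| * q := by
      rw [abs_mul, abs_of_pos ht0]
      exact mul_le_mul_of_nonneg_left htq' hw
    have hktt : (k : ℝ) * t ^ 2 * t ≤ |K| * q := mul_le_mul hkt htq' ht0.le hK
    have hktt0 : 0 ≤ (k : ℝ) * t ^ 2 * t := by positivity
    have hlt0 : 0 ≤ Real.log l * t := by positivity
    have hd1 := abs_le.1 (show |δ * t ^ 2| ≤ q from hδt 1)
    have hd2 := abs_le.1 (show |δ * t ^ 3| ≤ q from hδt 2)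
    have hw1 := abs_le.1 hwt
    have hKq : |K| * q ≤ |K| := mul_le_of_le_one_right hK hq1
    have hwq : |w| * q ≤ |w| := mul_le_of_le_one_right hw hq1
    have hKq0 : 0 ≤ |K| * q := by positivity
    have hyt4 : y * t ^ 4 ≤ (2 + |K| + |w|) * q := by
      have h3 : y * t ^ 3 ≤ |K| + 1 + |w| + 1 := by
        rw [hyt3]
        linarith
      calc y * t ^ 4 = y * t ^ 3 * t := by ring
        _ ≤ (|K| + 1 + |w| + 1) * q := mul_le_mul h3 htq' ht0.le (by positivity)
        _ = _ := by ring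
    have hyt40 : 0 ≤ y * t ^ 4 := by positivity
    have hCt : C * (t + y * t ^ 4) ≤ C * (3 + |K| + |w|) * q := by
      calc C * (t + y * t ^ 4) ≤ C * (q + (2 + |K| + |w|) * q) :=
            mul_le_mul_of_nonneg_left (by linarith) hC
        _ = _ := by ring
    have hCt0 : 0 ≤ C * (t + y * t ^ 4) := mul_nonneg hC (by positivity)
    set G := Real.exp (1 - w - k * t ^ 2) with hG
    have hG0 : 0 < G := Real.exp_pos _
    have hG1 : G ≤ Real.exp (1 - w) := Real.exp_le_exp.2 (by linarith)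
    have hlam : lamc 2 * Real.exp (-w - k / l ^ 2) = G := by
      rw [hG, lamc, if_neg (by norm_num), ← Real.exp_add]
      congr 1
      rw [ht]
      field_simp
      ring
    have hDq : D * q = 4 * q + |K| * q + |w| * q + C * (3 + |K| + |w|) * q := by
      rw [hD]
      ring
    have hlow : G * Real.exp (-(D * q)) ≤ μ.real (Cl A d 2 w a k) * (a * l) := by
      refine le_trans ?_ h1
      rw [hG, ← Real.exp_add]
      refine Real.exp_le_exp.2 ?_
      rw [mul_sub, hyt2, hyt3, hDq]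
      linarith
    have hup : μ.real (Cl A d 2 w a k) * (a * l) ≤ G * Real.exp (D * q) := by
      refine h2.trans ?_
      rw [hG, ← Real.exp_add]
      refine Real.exp_le_exp.2 ?_
      rw [mul_sub, hyt2, hyt3, hDq]
      linarith
    have hDq0 : 0 ≤ D * q := by positivity
    have hDq1 : D * q ≤ D := mul_le_of_le_one_right hD0 hq1
    have hexp1 : 1 - D * q ≤ Real.exp (-(D * q)) := by
      have := Real.add_one_le_exp (-(D * q))
      linarith
    have hexp2 : Real.exp (D * q) - 1 ≤ D * q * Real.exp D := by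
      have h3 : Real.exp (D * q) * (1 - D * q) ≤ 1 := by
        calc Real.exp (D * q) * (1 - D * q) ≤ Real.exp (D * q) * Real.exp (-(D * q)) :=
              mul_le_mul_of_nonneg_left hexp1 (Real.exp_pos _).le
          _ = 1 := by rw [← Real.exp_add, add_neg_cancel, Real.exp_zero]
      have h4 : D * q * Real.exp (D * q) ≤ D * q * Real.exp D :=
        mul_le_mul_of_nonneg_left (Real.exp_le_exp.2 hDq1) hDq0
      linarith
    have hfin : Real.exp (1 - w) * (D * Real.exp D) / √l = Real.exp (1 - w) * (D * q * Real.exp D) := by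
      rw [hq]
      ring
    rw [hlam, hfin, abs_le]
    have hone : 1 ≤ Real.exp D := Real.one_le_exp hD0
    have hDE : 0 ≤ D * q * Real.exp D := by positivity
    have hGD : G * (D * q * Real.exp D) ≤ Real.exp (1 - w) * (D * q * Real.exp D) :=
      mul_le_mul_of_nonneg_right hG1 hDE
    constructor
    · have h3 : G * (1 - D * q) ≤ G * Real.exp (-(D * q)) :=
        mul_le_mul_of_nonneg_left hexp1 hG0.le
      have h4 : G * (D * q) ≤ G * (D * q * Real.exp D) :=
        mul_le_mul_of_nonneg_left (le_mul_of_one_le_right hDq0 hone) hG0.le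
      linarith
    · have h3 : G * (Real.exp (D * q) - 1) ≤ G * (D * q * Real.exp D) :=
        mul_le_mul_of_nonneg_left hexp2 hG0.le
      linarith
  · refine ⟨Real.exp (3 + 2 * |w| + C * (4 + |w|)), a₀, Real.exp_pos _, ha₀3, fun a k ha hk => ?_⟩
    have hk4 : (k : ℝ) ≤ Real.log a ^ 4 := by
      have h3 : (0 : ℝ) ≤ Real.log a ^ 4 := by positivity
      exact (Nat.cast_le.2 hk).trans (Nat.floor_le h3)
    obtain ⟨hl32, y, δ, hy0, hδ, hy, h1, h2⟩ := hcl a k ha hk4
    set l := Real.log a with hld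
    have hl0 : 0 < l := by linarith
    have hk0 : (0 : ℝ) ≤ k := Nat.cast_nonneg k
    set t := 1 / l with ht
    have ht0 : 0 < t := by positivity
    have ht1 : t ≤ 1 / 32 := one_div_le_one_div_of_le (by norm_num) hl32
    have htl1 : t * l = 1 := by
      rw [ht]
      field_simp
    have hlog0 : 0 ≤ Real.log l := Real.log_nonneg (by linarith)
    have hyt2 : y * t ^ 2 = k * t ^ 2 + l - Real.log l + w + δ * t ^ 2 := by
      rw [hy]
      have : (k + l ^ 3 - l ^ 2 * Real.log l + w * l ^ 2 + δ) * t ^ 2 =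
        k * t ^ 2 + l * (t * l) ^ 2 - (t * l) ^ 2 * Real.log l + w * (t * l) ^ 2 + δ * t ^ 2 := by
        ring
      rw [this, htl1]
      ring
    have hyt3 : y * t ^ 3 = k * t ^ 2 * t + 1 - Real.log l * t + w * t + δ * t ^ 3 := by
      have : y * t ^ 3 = (y * t ^ 2) * t := by ring
      rw [this, hyt2]
      have e3 : (k * t ^ 2 + l - Real.log l + w + δ * t ^ 2) * t =
        k * t ^ 2 * t + t * l - Real.log l * t + w * t + δ * t ^ 3 := by ring
      rw [e3, htl1]
    have hδt : ∀ n : ℕ, |δ * t ^ n| ≤ 1 := by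
      intro n
      rw [abs_mul, abs_of_pos (pow_pos ht0 n)]
      exact mul_le_one₀ hδ (by positivity) (pow_le_one₀ ht0.le (by linarith))
    have hwt : |w * t| ≤ |w| := by
      rw [abs_mul, abs_of_pos ht0]
      exact mul_le_of_le_one_right hw (by linarith)
    have hlt0 : 0 ≤ Real.log l * t := by positivity
    have hd1 := abs_le.1 (hδt 2)
    have hd2 := abs_le.1 (hδt 3)
    have hw1 := abs_le.1 hwt
    have hw2 := abs_le.1 (le_refl |w|)
    have hktt : (k : ℝ) * t ^ 2 * t ≤ k * t ^ 2 / 2 := by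
      have : 0 ≤ (k : ℝ) * t ^ 2 := by positivity
      nlinarith
    have hkt4 : (k : ℝ) * t ^ 2 * t * t ≤ 1 := by
      calc (k : ℝ) * t ^ 2 * t * t = k * t ^ 4 := by ring
        _ ≤ l ^ 4 * t ^ 4 := mul_le_mul_of_nonneg_right hk4 (by positivity)
        _ = (t * l) ^ 4 := by ring
        _ = 1 := by rw [htl1, one_pow]
    have hyt4 : y * t ^ 4 ≤ 3 + |w| := by
      have e4 : y * t ^ 4 = y * t ^ 3 * t := by ring
      rw [e4, hyt3]
      have e5 : (k * t ^ 2 * t + 1 - Real.log l * t + w * t + δ * t ^ 3) * t =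
        k * t ^ 2 * t * t + t - Real.log l * t * t + (w * t) * t + (δ * t ^ 3) * t := by ring
      rw [e5]
      have h3 : 0 ≤ Real.log l * t * t := by positivity
      have h4 : (w * t) * t ≤ |w| := by
        calc (w * t) * t ≤ |w| * t := mul_le_mul_of_nonneg_right hw1.2 ht0.le
          _ ≤ |w| := mul_le_of_le_one_right hw (by linarith)
      have h5 : (δ * t ^ 3) * t ≤ 1 := by
        calc (δ * t ^ 3) * t ≤ 1 * t := mul_le_mul_of_nonneg_right hd2.2 ht0.le
          _ ≤ 1 := by linarith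
      linarith
    have hCt : C * (t + y * t ^ 4) ≤ C * (4 + |w|) :=
      mul_le_mul_of_nonneg_left (by linarith) hC
    refine h2.trans ?_
    rw [← Real.exp_add]
    refine Real.exp_le_exp.2 ?_
    have e6 : -(k : ℝ) / (2 * l ^ 2) = -(k * t ^ 2 / 2) := by
      rw [ht]
      field_simp
    rw [mul_sub, hyt2, hyt3, e6]
    linarith

end H21SCH
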