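import Pool.Agent.H21.SCH.Stm

set_option autoImplicit false

/-! # A Riemann sum -/

namespace H21SCH

open MeasureTheory ProbabilityTheory Filter Topology Set Complex

theorem riem_re (θ s : ℝ) : (1 - I * θ * (s : ℂ)).re = 1 := by
  simp

theorem riem_ne (θ s : ℝ) : (1 - I * θ * (s : ℂ)) ≠ 0 := by
  intro h
  have := congrArg Complex.re h
  rw [riem_re] at this
  simp at this

theorem riem_norm (θ s : ℝ) : 1 ≤ ‖(1 - I * θ * (s : ℂ))‖ := by
  have := Complex.abs_re_le_norm (1 - I * θ * (s : ℂ))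
  rw [riem_re] at this
  simpa using this

/-- the antiderivative -/
noncomputable def rG (θ : ℝ) (j : ℕ) (t : ℝ) : ℂ := -Complex.log (1 - I * θ * ((t ^ j : ℝ) : ℂ)) / j

/-- the integrand -/
noncomputable def rg (θ : ℝ) (j : ℕ) (t : ℝ) : ℂ :=
  I * θ * ((t ^ (j - 1) : ℝ) : ℂ) / (1 - I * θ * ((t ^ j : ℝ) : ℂ))

theorem riem_deriv (θ : ℝ) {j : ℕ} (hj : 1 ≤ j) (t : ℝ) : HasDerivAt (rG θ j) (rg θ j t) t := by
  have h1 : HasDerivAt (fun t : ℝ => ((t ^ j : ℝ) : ℂ)) ((((j : ℝ) * t ^ (j - 1)) : ℝ) : ℂ) t :=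
    (hasDerivAt_pow j t).ofReal_comp
  have h2 : HasDerivAt (fun t : ℝ => 1 - I * θ * ((t ^ j : ℝ) : ℂ))
      (-(I * θ * ((((j : ℝ) * t ^ (j - 1)) : ℝ) : ℂ))) t := (h1.const_mul (I * θ)).const_sub 1
  have h3 := h2.clog_real (Or.inl (by rw [riem_re]; exact one_pos))
  have h4 := (h3.neg).div_const (j : ℂ)
  refine h4.congr_deriv ?_
  unfold rg
  have hj' : (j : ℂ) ≠ 0 := by exact_mod_cast (by omega : j ≠ 0)
  have := riem_ne θ (t ^ j)
  push_cast at this ⊢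
  field_simp

theorem riem_lip (θ : ℝ) {j : ℕ} (hj : 1 ≤ j) : ∃ K : ℝ, 0 ≤ K ∧ ∀ s ∈ Icc (0 : ℝ) 1,
    ∀ t ∈ Icc (0 : ℝ) 1, ‖rg θ j s - rg θ j t‖ ≤ K * |s - t| := by
  have hp : ∀ i : ℕ, ContDiff ℝ 1 (fun t : ℝ => ((t ^ i : ℝ) : ℂ)) := fun i =>
    Complex.ofRealCLM.contDiff.comp (contDiff_id.pow i)
  have ha : ContDiff ℝ 1 (fun t : ℝ => I * θ * ((t ^ (j - 1) : ℝ) : ℂ)) :=
    contDiff_const.mul (hp _)
  have hb : ContDiff ℝ 1 (fun t : ℝ => 1 - I * θ * ((t ^ j : ℝ) : ℂ)) :=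
    contDiff_const.sub (contDiff_const.mul (hp _))
  have h1 : ContDiff ℝ 1 (rg θ j) := by
    have h2 := ha.mul (hb.inv fun t => riem_ne θ _)
    exact h2
  obtain ⟨K, hK⟩ := h1.contDiffOn.exists_lipschitzOnWith one_ne_zero (convex_Icc (0 : ℝ) 1)
    isCompact_Icc
  refine ⟨K, K.2, fun s hs t ht => ?_⟩
  have := hK.dist_le_mul s hs t ht
  rwa [dist_eq_norm, Real.dist_eq] at this

theorem riem_taylor {θ : ℝ} {j : ℕ} (hj : 1 ≤ j) {K : ℝ} (hK0 : 0 ≤ K)
    (hK : ∀ s ∈ Icc (0 : ℝ) 1, ∀ t ∈ Icc (0 : ℝ) 1, ‖rg θ j s - rg θ j t‖ ≤ K * |s - t|)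
    {s t : ℝ} (hs : 0 ≤ s) (hst : s ≤ t) (ht : t ≤ 1) :
    ‖rG θ j t - rG θ j s - (t - s : ℝ) * rg θ j t‖ ≤ K * (t - s) ^ 2 := by
  have h1 : ∀ x ∈ Icc s t, HasDerivWithinAt (fun x => rG θ j x - (x : ℂ) * rg θ j t)
      (rg θ j x - rg θ j t) (Icc s t) x := by
    intro x _
    have h2 : HasDerivAt (fun x : ℝ => (x : ℂ) * rg θ j t) (1 * rg θ j t) x := by
      have := (hasDerivAt_id x).ofReal_comp.mul_const (rg θ j t)
      simpa using this
    have := ((riem_deriv θ hj x).sub h2).hasDerivWithinAt (s := Icc s t)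
    rwa [one_mul] at this
  have h3 : ∀ x ∈ Icc s t, ‖rg θ j x - rg θ j t‖ ≤ K * (t - s) := by
    intro x hx
    refine (hK x ⟨hs.trans hx.1, hx.2.trans ht⟩ t ⟨hs.trans hst, ht⟩).trans ?_
    refine mul_le_mul_of_nonneg_left ?_ hK0
    rw [abs_sub_comm, abs_of_nonneg (by linarith [hx.2])]
    linarith [hx.1]
  have h4 := (convex_Icc s t).norm_image_sub_le_of_norm_hasDerivWithin_le h1 h3
    (left_mem_Icc.2 hst) (right_mem_Icc.2 hst)
  rw [Real.norm_of_nonneg (by linarith)] at h4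
  refine (le_of_eq ?_).trans (h4.trans (le_of_eq (by ring)))
  congr 1
  push_cast
  ring

theorem riem_log {a : ℝ} (ha : 1 < a) : Real.log (a + 1) - Real.log a ≤ 1 / a ∧
    1 / (a + 1) ≤ Real.log (a + 1) - Real.log a := by
  have h0 : 0 < a := by linarith
  constructor
  · rw [← Real.log_div (by linarith) h0.ne']
    refine (Real.log_le_sub_one_of_pos (by positivity)).trans (le_of_eq ?_)
    field_simp
    ring
  · have h1 : Real.log (a / (a + 1)) ≤ a / (a + 1) - 1 := Real.log_le_sub_one_of_pos (by positivity)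
    rw [Real.log_div h0.ne' (by linarith)] at h1
    have h2 : a / (a + 1) - 1 = -(1 / (a + 1)) := by field_simp; ring
    rw [h2] at h1
    linarith

theorem riem_term (θ : ℝ) {j : ℕ} (hj : 1 ≤ j) {a L : ℝ} (ha : 1 < a) (hL : 0 < L) :
    (I * θ * ((a.log / L : ℝ) : ℂ) ^ j) /
      (a * (a.log : ℂ) * (1 - I * θ * ((a.log / L : ℝ) : ℂ) ^ j)) =
      ((1 / (a * L) : ℝ) : ℂ) * rg θ j (a.log / L) := by
  have hl : 0 < a.log := Real.log_pos ha
  obtain ⟨i, rfl⟩ : ∃ i, j = i + 1 := ⟨j - 1, by omega⟩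
  unfold rg
  rw [Nat.add_sub_cancel]
  have h1 := riem_ne θ ((a.log / L) ^ (i + 1))
  have ha0 : (a : ℂ) ≠ 0 := by exact_mod_cast (by linarith : a ≠ 0)
  have hL0 : (L : ℂ) ≠ 0 := by exact_mod_cast hL.ne'
  have hl0 : (a.log : ℂ) ≠ 0 := by exact_mod_cast hl.ne'
  push_cast at h1 ⊢
  obtain ⟨D, hD⟩ : ∃ D : ℂ, D = 1 - I * θ * ((a.log : ℂ) / L) ^ (i + 1) := ⟨_, rfl⟩
  rw [← hD] at h1 ⊢
  rw [pow_succ]
  field_simp

theorem riem_main (θ : ℝ) {j : ℕ} (hj : 1 ≤ j) : ∃ E : ℝ, ∀ (M : ℕ), 2 ≤ M → ∀ (X : ℝ),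
    1 ≤ Real.log X → ∀ N : ℕ, M ≤ N → (N : ℝ) ≤ X →
    ‖∑ a ∈ Finset.Ioc M N, (I * θ * (Real.log a / Real.log X : ℝ) ^ j) /
      (a * Real.log a * (1 - I * θ * (Real.log a / Real.log X : ℝ) ^ j)) -
      (rG θ j (Real.log N / Real.log X) - rG θ j (Real.log M / Real.log X))‖ ≤
      E / Real.log X * (1 / M - 1 / N) := by
  obtain ⟨K, hK0, hK⟩ := riem_lip θ hj
  refine ⟨|θ| + 2 * K, fun M hM X hX N hMN => ?_⟩
  obtain ⟨L, hL⟩ : ∃ L, L = Real.log X := ⟨_, rfl⟩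
  rw [← hL] at hX ⊢
  have hL0 : 0 < L := by linarith
  induction N, hMN using Nat.le_induction with
  | base => intro _; simp
  | succ n hn ih =>
    intro hnX
    have hnX' : (n : ℝ) ≤ X := by push_cast at hnX; linarith
    have hn1 : (1 : ℝ) < n := by exact_mod_cast (by omega : 1 < n)
    have hn2 : (2 : ℝ) ≤ n := by exact_mod_cast (by omega : 2 ≤ n)
    have ih' := ih hnX'
    rw [Finset.sum_Ioc_succ_top hn]
    obtain ⟨hl1, hl2⟩ := riem_log hn1
    have hlX : Real.log ((n : ℝ) + 1) ≤ L := by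
      rw [hL]
      exact Real.log_le_log (by linarith) (by push_cast at hnX; exact hnX)
    have hln : 0 < Real.log n := Real.log_pos hn1
    have ht := riem_taylor hj hK0 hK (s := Real.log n / L) (t := Real.log ((n : ℝ) + 1) / L)
      (by positivity) (div_le_div_of_nonneg_right (by
        have : 0 < 1 / ((n : ℝ) + 1) := by positivity
        linarith) hL0.le) (by rw [div_le_one hL0]; exact hlX)
    have hterm := riem_term θ hj (a := (n : ℝ) + 1) (L := L) (by linarith) hL0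
    have hcast : (((n + 1 : ℕ) : ℝ)) = (n : ℝ) + 1 := by push_cast; ring
    rw [hcast]
    have hcast2 : (((n + 1 : ℕ) : ℂ)) = (((n : ℝ) + 1 : ℝ) : ℂ) := by push_cast; ring
    rw [hcast2, hterm]
    -- size of the integrand
    have hg : ‖rg θ j (Real.log ((n : ℝ) + 1) / L)‖ ≤ |θ| := by
      unfold rg
      rw [norm_div, norm_mul, norm_mul, Complex.norm_I, Complex.norm_real, Complex.norm_real,
        one_mul]
      rw [div_le_iff₀ (by
        have := riem_norm θ ((Real.log ((n : ℝ) + 1) / L) ^ j)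
        linarith)]
      have h0 : 0 ≤ Real.log ((n : ℝ) + 1) / L := by
        apply div_nonneg _ hL0.le
        exact Real.log_nonneg (by linarith)
      have h1 : Real.log ((n : ℝ) + 1) / L ≤ 1 := by rw [div_le_one hL0]; exact hlX
      have h2 : ‖(Real.log ((n : ℝ) + 1) / L) ^ (j - 1)‖ ≤ 1 := by
        rw [Real.norm_of_nonneg (by positivity)]
        exact pow_le_one₀ h0 h1
      have h3 := riem_norm θ ((Real.log ((n : ℝ) + 1) / L) ^ j)
      rw [Real.norm_eq_abs]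
      exact mul_le_mul le_rfl (h2.trans h3) (norm_nonneg _) (abs_nonneg _)
    obtain ⟨S, hS⟩ : ∃ S, S = ∑ a ∈ Finset.Ioc M n, (I * θ * (Real.log a / L : ℝ) ^ j) /
      (a * Real.log a * (1 - I * θ * (Real.log a / L : ℝ) ^ j)) := ⟨_, rfl⟩
    rw [← hS] at ih' ⊢
    obtain ⟨g, hgd⟩ : ∃ g, g = rg θ j (Real.log ((n : ℝ) + 1) / L) := ⟨_, rfl⟩
    rw [← hgd] at ht hg ⊢
    obtain ⟨δ, hδ⟩ : ∃ δ, δ = Real.log ((n : ℝ) + 1) / L - Real.log n / L := ⟨_, rfl⟩
    rw [← hδ] at ht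
    have hδ1 : δ ≤ 1 / (n * L) := by
      rw [hδ, ← sub_div, div_le_div_iff₀ hL0 (by positivity)]
      have := mul_le_mul_of_nonneg_right hl1 (by positivity : (0 : ℝ) ≤ n * L)
      have e : 1 / (n : ℝ) * (n * L) = L := by field_simp
      rw [e] at this
      linarith
    have hδ2 : 1 / (((n : ℝ) + 1) * L) ≤ δ := by
      rw [hδ, ← sub_div, div_le_div_iff₀ (by positivity) hL0]
      have := mul_le_mul_of_nonneg_right hl2 (by positivity : (0 : ℝ) ≤ ((n : ℝ) + 1) * L)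
      have e : 1 / ((n : ℝ) + 1) * (((n : ℝ) + 1) * L) = L := by field_simp
      rw [e] at this
      linarith
    have hδ0 : 0 ≤ δ := le_trans (by positivity) hδ2
    have hA : ‖((1 / (((n : ℝ) + 1) * L) : ℝ) : ℂ) * g - (δ : ℝ) * g‖ ≤
        |θ| / L * (1 / n - 1 / ((n : ℝ) + 1)) := by
      rw [← sub_mul, norm_mul, ← Complex.ofReal_sub, Complex.norm_real, Real.norm_eq_abs,
        abs_sub_comm, abs_of_nonneg (by linarith)]
      have h1 : δ - 1 / (((n : ℝ) + 1) * L) ≤ 1 / L * (1 / n - 1 / ((n : ℝ) + 1)) := by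
        have e1 : 1 / L * (1 / (n : ℝ) - 1 / ((n : ℝ) + 1)) = 1 / (n * L) - 1 / (((n : ℝ) + 1) * L) := by
          field_simp
        rw [e1]
        linarith
      calc (δ - 1 / (((n : ℝ) + 1) * L)) * ‖g‖ ≤ (1 / L * (1 / n - 1 / ((n : ℝ) + 1))) * |θ| :=
            mul_le_mul h1 hg (norm_nonneg _) (le_trans (by linarith) h1)
        _ = _ := by ring
    have hB : K * δ ^ 2 ≤ 2 * K / L * (1 / n - 1 / ((n : ℝ) + 1)) := by
      have h1 : δ ^ 2 ≤ (1 / (n * L)) ^ 2 := pow_le_pow_left₀ hδ0 hδ1 2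
      have h2 : (1 / (n * L)) ^ 2 ≤ 2 / L * (1 / n - 1 / ((n : ℝ) + 1)) := by
        have e1 : 2 / L * (1 / (n : ℝ) - 1 / ((n : ℝ) + 1)) = 2 / (L * n * (n + 1)) := by
          field_simp
          ring
        rw [e1, div_pow, one_pow, div_le_div_iff₀ (by positivity) (by positivity)]
        have h3 : (0 : ℝ) < n := by linarith
        have h4 : L * n * (n + 1) ≤ L * L * n * (2 * n) := by
          have : (n : ℝ) + 1 ≤ 2 * n := by linarith
          have h5 : L * n ≤ L * L * n := by nlinarith [mul_pos hL0 h3]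
          exact mul_le_mul h5 this (by positivity) (by positivity)
        nlinarith
      calc K * δ ^ 2 ≤ K * (2 / L * (1 / n - 1 / ((n : ℝ) + 1))) :=
            mul_le_mul_of_nonneg_left (h1.trans h2) hK0
        _ = _ := by ring
    have hdec : S + ((1 / (((n : ℝ) + 1) * L) : ℝ) : ℂ) * g -
        (rG θ j (Real.log ((n : ℝ) + 1) / L) - rG θ j (Real.log M / L)) =
        (S - (rG θ j (Real.log n / L) - rG θ j (Real.log M / L))) +
        (((1 / (((n : ℝ) + 1) * L) : ℝ) : ℂ) * g - (δ : ℝ) * g) -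
        (rG θ j (Real.log ((n : ℝ) + 1) / L) - rG θ j (Real.log n / L) - (δ : ℝ) * g) := by
      ring
    rw [hdec]
    refine (norm_sub_le _ _).trans ?_
    refine (add_le_add ((norm_add_le _ _).trans (add_le_add ih' hA)) (ht.trans hB)).trans
      (le_of_eq ?_)
    ring

theorem riem : S_RIEM := by
  intro j θ M hj hM
  obtain ⟨E, hE⟩ := riem_main θ hj
  have hlog : Tendsto Real.log atTop atTop := Real.tendsto_log_atTop
  have hG : Continuous (rG θ j) := continuous_iff_continuousAt.2 fun t =>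
    (riem_deriv θ hj t).continuousAt
  have h1 : Tendsto (fun X : ℝ => Real.log (⌊X⌋₊ : ℝ) / Real.log X) atTop (𝓝 1) := by
    have h2 : Tendsto (fun X : ℝ => (⌊X⌋₊ : ℝ) / X) atTop (𝓝 1) := tendsto_nat_floor_div_atTop
    have h3 : Tendsto (fun X : ℝ => Real.log ((⌊X⌋₊ : ℝ) / X)) atTop (𝓝 0) := by
      have := (Real.continuousAt_log one_ne_zero).tendsto.comp h2
      rwa [Real.log_one] at this
    have h4 : Tendsto (fun X : ℝ => 1 + Real.log ((⌊X⌋₊ : ℝ) / X) / Real.log X) atTop (𝓝 1) := by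
      have := (h3.div_atTop hlog).const_add (1 : ℝ)
      rwa [add_zero] at this
    refine h4.congr' ?_
    filter_upwards [eventually_ge_atTop 3] with X hX
    have hX0 : 0 < X := by linarith
    have hl : 0 < Real.log X := Real.log_pos (by linarith)
    have hf : (0 : ℝ) < ⌊X⌋₊ := by
      exact_mod_cast Nat.floor_pos.2 (by linarith)
    rw [Real.log_div hf.ne' hX0.ne', sub_div, div_self hl.ne']
    ring
  have h2 : Tendsto (fun X : ℝ => Real.log (M : ℝ) / Real.log X) atTop (𝓝 0) :=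
    tendsto_const_nhds.div_atTop hlog
  have h3 : Tendsto (fun X : ℝ => rG θ j (Real.log (⌊X⌋₊ : ℝ) / Real.log X) -
      rG θ j (Real.log (M : ℝ) / Real.log X)) atTop (𝓝 (rG θ j 1 - rG θ j 0)) :=
    ((hG.tendsto 1).comp h1).sub ((hG.tendsto 0).comp h2)
  have h4 : rG θ j 1 - rG θ j 0 = -Complex.log (1 - I * θ) / j := by
    unfold rG
    rw [zero_pow (by omega), one_pow]
    simp
  rw [h4] at h3
  have h5 : Tendsto (fun X : ℝ => |E| / Real.log X) atTop (𝓝 0) :=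
    tendsto_const_nhds.div_atTop hlog
  refine tendsto_of_tendsto_of_dist h3 ?_
  refine squeeze_zero' (Eventually.of_forall fun _ => dist_nonneg) ?_ h5
  filter_upwards [eventually_ge_atTop ((M : ℝ) + 3), hlog.eventually_ge_atTop 1] with X hX hX1
  have hMN : M ≤ ⌊X⌋₊ := Nat.le_floor (by linarith)
  have h6 := hE M hM X hX1 ⌊X⌋₊ hMN (Nat.floor_le (by
    have : (0 : ℝ) ≤ M := Nat.cast_nonneg M
    linarith))
  rw [dist_comm, dist_eq_norm]
  refine h6.trans ?_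
  have hM0 : (2 : ℝ) ≤ M := by exact_mod_cast hM
  have hN0 : (2 : ℝ) ≤ (⌊X⌋₊ : ℝ) := by exact_mod_cast hM.trans hMN
  have h7 : (1 : ℝ) / M - 1 / (⌊X⌋₊ : ℝ) ≤ 1 := by
    have h8 : (1 : ℝ) / M ≤ 1 := by rw [div_le_one (by linarith)]; linarith
    have h9 : (0 : ℝ) ≤ 1 / (⌊X⌋₊ : ℝ) := by positivity
    linarith
  have h8 : (0 : ℝ) ≤ 1 / M - 1 / (⌊X⌋₊ : ℝ) := by
    rw [sub_nonneg]
    exact one_div_le_one_div_of_le (by linarith) (by exact_mod_cast hMN)
  calc E / Real.log X * (1 / M - 1 / (⌊X⌋₊ : ℝ)) ≤ |E| / Real.log X * (1 / M - 1 / (⌊X⌋₊ : ℝ)) := by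
        refine mul_le_mul_of_nonneg_right ?_ h8
        exact div_le_div_of_nonneg_right (le_abs_self E) (by linarith)
    _ ≤ |E| / Real.log X * 1 := mul_le_mul_of_nonneg_left h7 (by positivity)
    _ = _ := mul_one _

end H21SCH
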