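import Pool.Agent.H21.SCH.Stm

/-! # Stub SCH-RUN: runs of length two -/

namespace H21SCH

open MeasureTheory ProbabilityTheory Filter Topology Set

universe u

namespace RUNaux

lemma Rn_congr (p q : ℕ → ℝ) : ∀ n : ℕ, (∀ i < n, p i = q i) → Rn p n = Rn q n := by
  intro n
  induction n using Nat.strong_induction_on with
  | _ n ih =>
    intro h
    match n, ih, h with
    | 0, _, _ => rfl
    | 1, _, _ => rfl
    | n + 2, ih, h =>
      have h1 := ih (n + 1) (by omega) (fun i hi => h i (by omega))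
      have h2 := ih n (by omega) (fun i hi => h i (by omega))
      have h3 := h (n + 1) (by omega)
      have h4 := h n (by omega)
      simp only [Rn]
      rw [h1, h2, h3, h4]

variable {t : ℝ} {p : ℕ → ℝ}

lemma sq_le_p (ht : 0 < t) (ht4 : t ≤ 1 / 4) (hp : ∀ i, t - t ^ 9 ≤ p i ∧ p i ≤ t) (i : ℕ) :
    t ^ 2 ≤ p i := by
  have h1 := (hp i).1
  have h2 : t ^ 9 ≤ t * (1 / 4) := by
    have : t ^ 9 = t * t ^ 8 := by ring
    rw [this]
    have h3 : t ^ 8 ≤ 1 / 4 := by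
      calc t ^ 8 ≤ (1 / 4 : ℝ) ^ 8 := pow_le_pow_left₀ ht.le ht4 8
        _ ≤ 1 / 4 := by norm_num
    exact mul_le_mul_of_nonneg_left h3 ht.le
  nlinarith

lemma claimA (ht : 0 < t) (ht4 : t ≤ 1 / 4) (hp : ∀ i, t - t ^ 9 ≤ p i ∧ p i ≤ t) (n : ℕ) :
    0 < Rn p n ∧ (1 - t ^ 2) * Rn p n ≤ Rn p (n + 1) ∧ Rn p (n + 1) ≤ Rn p n := by
  induction n with
  | zero =>
    refine ⟨by simp [Rn], ?_, by simp [Rn]⟩
    simp only [Rn]
    nlinarith [sq_nonneg t]
  | succ n ih =>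
    obtain ⟨hR, h1, h2⟩ := ih
    have hq2 := sq_le_p ht ht4 hp (n + 1)
    have hp2 := sq_le_p ht ht4 hp n
    have hqt := (hp (n + 1)).2
    have hpt := (hp n).2
    have hS : 0 < Rn p (n + 1) := by
      have : 0 < (1 - t ^ 2) * Rn p n := mul_pos (by nlinarith) hR
      linarith
    have hT : Rn p (n + 1 + 1) = (1 - p (n + 1)) * Rn p (n + 1) +
        p (n + 1) * (1 - p n) * Rn p n := rfl
    refine ⟨hS, ?_, ?_⟩
    · rw [hT]
      -- (q - t²) S ≤ q (1 - p) R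
      have h3 : (p (n + 1) - t ^ 2) * Rn p (n + 1) ≤ (p (n + 1) - t ^ 2) * Rn p n :=
        mul_le_mul_of_nonneg_left h2 (by linarith)
      have hqp : p (n + 1) * p n ≤ t ^ 2 := by
        rw [sq]
        exact mul_le_mul hqt hpt (by nlinarith) ht.le
      have h4 : (p (n + 1) - t ^ 2) * Rn p n ≤ (p (n + 1) * (1 - p n)) * Rn p n :=
        mul_le_mul_of_nonneg_right (by nlinarith) hR.le
      nlinarith
    · rw [hT]
      have h5 : (1 - p n) * Rn p n ≤ Rn p (n + 1) :=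
        le_trans (mul_le_mul_of_nonneg_right (by linarith) hR.le) h1
      have h6 : p (n + 1) * ((1 - p n) * Rn p n) ≤ p (n + 1) * Rn p (n + 1) :=
        mul_le_mul_of_nonneg_left h5 (by nlinarith)
      nlinarith

/-- the increments -/
noncomputable def xx (p : ℕ → ℝ) (n : ℕ) : ℝ := Rn p (n + 1) / Rn p n - 1

lemma xx_bd (ht : 0 < t) (ht4 : t ≤ 1 / 4) (hp : ∀ i, t - t ^ 9 ≤ p i ∧ p i ≤ t) (n : ℕ) :
    -t ^ 2 ≤ xx p n ∧ xx p n ≤ 0 := by
  obtain ⟨hR, h1, h2⟩ := claimA ht ht4 hp n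
  unfold xx
  constructor
  · have : 1 - t ^ 2 ≤ Rn p (n + 1) / Rn p n := by
      rw [le_div_iff₀ hR]; exact h1
    linarith
  · have : Rn p (n + 1) / Rn p n ≤ 1 := by
      rw [div_le_one hR]; exact h2
    linarith

lemma xx_rec (ht : 0 < t) (ht4 : t ≤ 1 / 4) (hp : ∀ i, t - t ^ 9 ≤ p i ∧ p i ≤ t) (n : ℕ) :
    xx p (n + 1) * (1 + xx p n) = -(p (n + 1) * (p n + xx p n)) := by
  obtain ⟨hR, _, _⟩ := claimA ht ht4 hp n
  obtain ⟨hS, _, _⟩ := claimA ht ht4 hp (n + 1)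
  have hT : Rn p (n + 1 + 1) = (1 - p (n + 1)) * Rn p (n + 1) +
      p (n + 1) * (1 - p n) * Rn p n := rfl
  unfold xx
  rw [hT]
  field_simp
  ring

lemma E_bd (ht : 0 < t) (ht4 : t ≤ 1 / 4) (hp : ∀ i, t - t ^ 9 ≤ p i ∧ p i ≤ t) (n : ℕ) :
    |xx p (n + 1) + t ^ 2 + t * xx p n| ≤ 6 * t ^ 4 := by
  have hrec := xx_rec ht ht4 hp n
  obtain ⟨hx1, hx2⟩ := xx_bd ht ht4 hp n
  obtain ⟨hq1, hq2⟩ := hp (n + 1)
  obtain ⟨hp1, hp2⟩ := hp n
  have hq0 := sq_le_p ht ht4 hp (n + 1)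
  have hp0 := sq_le_p ht ht4 hp n
  set x := xx p n with hx
  set z := xx p (n + 1) with hz
  set q := p (n + 1) with hq
  set r := p n with hr
  have ht2 : 0 ≤ t ^ 2 := sq_nonneg t
  have ht216 : t ^ 2 ≤ 1 / 16 := by nlinarith
  have h1x : 15 / 16 ≤ 1 + x := by linarith
  have hid : (z + t ^ 2 + t * x) * (1 + x) = (t ^ 2 - q * r) + x * (t - q) + t ^ 2 * x + t * x ^ 2 := by
    have : (z + t ^ 2 + t * x) * (1 + x) = z * (1 + x) + (t ^ 2 + t * x) * (1 + x) := by ring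
    rw [this, hrec]
    ring
  have ht9 : 0 ≤ t ^ 9 := by positivity
  -- bounds of the four terms
  have hb1 : 0 ≤ t ^ 2 - q * r := by
    have : q * r ≤ t * t := mul_le_mul hq2 hp2 (by linarith) ht.le
    nlinarith
  have ht94 : t ^ 10 ≤ t ^ 4 := by
    have h : t ^ 10 = t ^ 4 * t ^ 6 := by ring
    have h6 : t ^ 6 ≤ 1 := pow_le_one₀ ht.le (by linarith)
    have h44 : 0 ≤ t ^ 4 := by positivity
    nlinarith
  have hb1' : t ^ 2 - q * r ≤ 2 * t ^ 10 := by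
    have hA : 0 ≤ t - t ^ 9 := by nlinarith
    have : (t - t ^ 9) * (t - t ^ 9) ≤ q * r := mul_le_mul hq1 hp1 hA (by linarith)
    have h2 : (t - t ^ 9) * (t - t ^ 9) = t ^ 2 - 2 * t ^ 10 + t ^ 18 := by ring
    have h3 : 0 ≤ t ^ 18 := by positivity
    linarith
  have hb10 : t ^ 10 ≤ t ^ 4 / 1000 := by
    have h : t ^ 10 = t ^ 4 * t ^ 6 := by ring
    have h6 : t ^ 6 ≤ 1 / 1000 := by
      calc t ^ 6 ≤ (1 / 4 : ℝ) ^ 6 := pow_le_pow_left₀ ht.le ht4 6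
        _ ≤ 1 / 1000 := by norm_num
    have h44 : 0 ≤ t ^ 4 := by positivity
    nlinarith
  have hb2 : |x * (t - q)| ≤ t ^ 4 / 1000 := by
    rw [abs_mul]
    have h1 : |x| ≤ t ^ 2 := abs_le.mpr ⟨by linarith, by linarith⟩
    have h2 : |t - q| ≤ t ^ 9 := abs_le.mpr ⟨by linarith, by linarith⟩
    calc |x| * |t - q| ≤ t ^ 2 * t ^ 9 := mul_le_mul h1 h2 (abs_nonneg _) ht2
      _ = t * t ^ 10 := by ring
      _ ≤ 1 * t ^ 10 := mul_le_mul_of_nonneg_right (by linarith) (by positivity)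
      _ ≤ t ^ 4 / 1000 := by linarith
  have hb3 : |t ^ 2 * x| ≤ t ^ 4 := by
    rw [abs_mul, abs_of_nonneg ht2]
    have h1 : |x| ≤ t ^ 2 := abs_le.mpr ⟨by linarith, by linarith⟩
    calc t ^ 2 * |x| ≤ t ^ 2 * t ^ 2 := mul_le_mul_of_nonneg_left h1 ht2
      _ = t ^ 4 := by ring
  have hb4 : |t * x ^ 2| ≤ t ^ 4 := by
    rw [abs_mul, abs_of_pos ht, abs_of_nonneg (sq_nonneg x)]
    have h1 : x ^ 2 ≤ (t ^ 2) ^ 2 := sq_le_sq' (by linarith) (by linarith)
    calc t * x ^ 2 ≤ 1 * (t ^ 2) ^ 2 :=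
          mul_le_mul (by linarith) h1 (sq_nonneg _) (by norm_num)
      _ = t ^ 4 := by ring
  have hb1a : |t ^ 2 - q * r| ≤ 2 * (t ^ 4 / 1000) := by
    rw [abs_of_nonneg hb1]; linarith
  have htot : |(z + t ^ 2 + t * x) * (1 + x)| ≤ 5 * t ^ 4 := by
    rw [hid]
    have h44 : 0 ≤ t ^ 4 := by positivity
    have e1 := abs_add_le (t ^ 2 - q * r + x * (t - q) + t ^ 2 * x) (t * x ^ 2)
    have e2 := abs_add_le (t ^ 2 - q * r + x * (t - q)) (t ^ 2 * x)
    have e3 := abs_add_le (t ^ 2 - q * r) (x * (t - q))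
    linarith
  rw [abs_mul, abs_of_pos (by linarith : 0 < 1 + x)] at htot
  have h0 := abs_nonneg (z + t ^ 2 + t * x)
  nlinarith

lemma step_bd (ht : 0 < t) (ht4 : t ≤ 1 / 4) (hp : ∀ i, t - t ^ 9 ≤ p i ∧ p i ≤ t) (n : ℕ) :
    |Real.log (Rn p (n + 1)) - Real.log (Rn p n) + (t ^ 2 - t ^ 3)| ≤
      15 * t ^ 4 + (if n < 2 then 2 * t else 0) := by
  obtain ⟨hR, _, _⟩ := claimA ht ht4 hp n
  obtain ⟨hS, _, _⟩ := claimA ht ht4 hp (n + 1)
  obtain ⟨hx1, hx2⟩ := xx_bd ht ht4 hp n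
  have hlog : Real.log (Rn p (n + 1)) - Real.log (Rn p n) = Real.log (1 + xx p n) := by
    rw [← Real.log_div hS.ne' hR.ne']
    unfold xx
    congr 1
    ring
  rw [hlog]
  have ht2 : 0 ≤ t ^ 2 := sq_nonneg t
  have ht216 : t ^ 2 ≤ 1 / 16 := by nlinarith
  have h44 : 0 ≤ t ^ 4 := by positivity
  have h33 : 0 ≤ t ^ 3 := by positivity
  have h1x : 15 / 16 ≤ 1 + xx p n := by linarith
  -- the logarithm
  have hl : |Real.log (1 + xx p n) - xx p n| ≤ 2 * t ^ 4 := by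
    have hu : Real.log (1 + xx p n) ≤ xx p n := by
      have := Real.log_le_sub_one_of_pos (x := 1 + xx p n) (by linarith)
      linarith
    have hlo : 1 - (1 + xx p n)⁻¹ ≤ Real.log (1 + xx p n) :=
      Real.one_sub_inv_le_log_of_pos (by linarith)
    have hid : 1 - (1 + xx p n)⁻¹ = xx p n - (xx p n) ^ 2 * (1 + xx p n)⁻¹ := by
      have : (1 + xx p n) ≠ 0 := by linarith
      field_simp
      ring
    have hinv : (1 + xx p n)⁻¹ ≤ 2 := by
      rw [inv_le_comm₀ (by linarith) (by norm_num)]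
      linarith
    have hsq : (xx p n) ^ 2 ≤ t ^ 4 := by
      have h1 : (xx p n) ^ 2 ≤ (t ^ 2) ^ 2 := sq_le_sq' (by linarith) (by linarith)
      calc (xx p n) ^ 2 ≤ (t ^ 2) ^ 2 := h1
        _ = t ^ 4 := by ring
    have hm : (xx p n) ^ 2 * (1 + xx p n)⁻¹ ≤ t ^ 4 * 2 :=
      mul_le_mul hsq hinv (inv_nonneg.mpr (by linarith)) h44
    rw [abs_le]
    constructor <;> linarith
  have htri := abs_add_le (Real.log (1 + xx p n) - xx p n) (xx p n + (t ^ 2 - t ^ 3))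
  have heq : Real.log (1 + xx p n) + (t ^ 2 - t ^ 3) =
      (Real.log (1 + xx p n) - xx p n) + (xx p n + (t ^ 2 - t ^ 3)) := by ring
  rw [heq]
  refine le_trans htri ?_
  have ht3 : t ^ 3 = t * t ^ 2 := by ring
  have ht34 : t ^ 4 = t * t ^ 3 := by ring
  by_cases hn : n < 2
  · rw [if_pos hn]
    have : |xx p n + (t ^ 2 - t ^ 3)| ≤ 2 * t := by
      rw [abs_le]
      constructor <;> nlinarith
    linarith
  · rw [if_neg hn, add_zero]
    obtain ⟨m, rfl⟩ : ∃ m, n = m + 2 := ⟨n - 2, by omega⟩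
    have hE1 := E_bd ht ht4 hp (m + 1)
    have hE0 := E_bd ht ht4 hp m
    obtain ⟨hy1, hy2⟩ := xx_bd ht ht4 hp m
    have hE1' : |xx p (m + 2) + t ^ 2 + t * xx p (m + 1)| ≤ 6 * t ^ 4 := hE1
    have hw : |xx p (m + 1) + t ^ 2| ≤ 7 * t ^ 3 := by
      have h1 : |t * xx p m| ≤ t ^ 3 := by
        rw [abs_mul, abs_of_pos ht, ht3]
        exact mul_le_mul_of_nonneg_left (abs_le.mpr ⟨by linarith, by linarith⟩) ht.le
      have h2 := abs_sub (xx p (m + 1) + t ^ 2 + t * xx p m) (t * xx p m)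
      have h3 : xx p (m + 1) + t ^ 2 + t * xx p m - t * xx p m = xx p (m + 1) + t ^ 2 := by ring
      rw [h3] at h2
      have h4 : 6 * t ^ 4 ≤ 6 * t ^ 3 := by rw [ht34]; nlinarith
      linarith
    have hy : |xx p (m + 2) + (t ^ 2 - t ^ 3)| ≤ 13 * t ^ 4 := by
      have h1 : |t * (xx p (m + 1) + t ^ 2)| ≤ 7 * t ^ 4 := by
        rw [abs_mul, abs_of_pos ht, ht34]
        have := mul_le_mul_of_nonneg_left hw ht.le
        linarith
      have h2 := abs_sub (xx p (m + 2) + t ^ 2 + t * xx p (m + 1)) (t * (xx p (m + 1) + t ^ 2))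
      have h3 : xx p (m + 2) + t ^ 2 + t * xx p (m + 1) - t * (xx p (m + 1) + t ^ 2) =
        xx p (m + 2) + (t ^ 2 - t ^ 3) := by ring
      rw [h3] at h2
      linarith
    linarith

lemma all_bd (ht : 0 < t) (ht4 : t ≤ 1 / 4) (hp : ∀ i, t - t ^ 9 ≤ p i ∧ p i ≤ t) (n : ℕ) :
    |Real.log (Rn p n) + n * (t ^ 2 - t ^ 3)| ≤ 15 * n * t ^ 4 + 2 * t * (min n 2 : ℕ) := by
  induction n with
  | zero => simp [Rn]
  | succ n ih =>
    have hs := step_bd ht ht4 hp n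
    have htri := abs_add_le (Real.log (Rn p n) + n * (t ^ 2 - t ^ 3))
      (Real.log (Rn p (n + 1)) - Real.log (Rn p n) + (t ^ 2 - t ^ 3))
    have heq : Real.log (Rn p (n + 1)) + ((n + 1 : ℕ) : ℝ) * (t ^ 2 - t ^ 3) =
      (Real.log (Rn p n) + n * (t ^ 2 - t ^ 3)) +
      (Real.log (Rn p (n + 1)) - Real.log (Rn p n) + (t ^ 2 - t ^ 3)) := by
      push_cast; ring
    rw [heq]
    refine le_trans htri (le_trans (add_le_add ih hs) ?_)
    by_cases hn : n < 2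
    · rw [if_pos hn]
      have h1 : min n 2 = n := by omega
      have h2 : min (n + 1) 2 = n + 1 := by omega
      rw [h1, h2]
      push_cast
      linarith
    · rw [if_neg hn]
      have h1 : min n 2 = 2 := by omega
      have h2 : min (n + 1) 2 = 2 := by omega
      rw [h1, h2]
      push_cast
      linarith

end RUNaux

open RUNaux

theorem run : S_RUN := by
  refine ⟨15, ?_⟩
  intro t p n ht ht4 hp
  set q : ℕ → ℝ := fun i => if i < n then p i else t with hq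
  have hcongr : Rn p n = Rn q n := Rn_congr p q n (fun i hi => by simp [hq, hi])
  have hqb : ∀ i, t - t ^ 9 ≤ q i ∧ q i ≤ t := by
    intro i
    by_cases hi : i < n
    · simp only [hq, hi, if_true]; exact hp i hi
    · simp only [hq, hi, if_false]
      refine ⟨?_, le_rfl⟩
      have : 0 ≤ t ^ 9 := by positivity
      linarith
  rw [hcongr]
  refine ⟨(claimA ht ht4 hqb n).1, le_trans (all_bd ht ht4 hqb n) ?_⟩
  have h2 : ((min n 2 : ℕ) : ℝ) ≤ 2 := by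
    have : min n 2 ≤ 2 := min_le_right _ _
    exact_mod_cast this
  nlinarith

end H21SCH
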