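import Pool.Agent.H21.SCH.Stm

namespace H21SCH

open MeasureTheory ProbabilityTheory Filter Topology Set

universe u

private theorem sml_meas_pat {Ω : Type u} [MeasurableSpace Ω] {A : ℕ → Set Ω}
    (hA : ∀ n, MeasurableSet (A n)) (d m : ℕ) : MeasurableSet (Pat A d m) :=
  (hA m).inter (hA (m + d))

private theorem sml_meas_fails {Ω : Type u} [MeasurableSpace Ω] {A : ℕ → Set Ω}
    (hA : ∀ n, MeasurableSet (A n)) (d j : ℕ) (w x : ℝ) : MeasurableSet (Fails A d j w x) := by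
  have : Fails A d j w x = ⋂ m : ℕ, ⋂ _ : x < m, ⋂ _ : ((m + d : ℕ) : ℝ) < x + len j w x,
      (Pat A d m)ᶜ := by
    ext ω; simp [Fails]
  rw [this]
  exact MeasurableSet.iInter fun m => MeasurableSet.iInter fun _ => MeasurableSet.iInter fun _ =>
    (sml_meas_pat hA d m).compl

private theorem sml_meas_gap {Ω : Type u} [MeasurableSpace Ω] {A : ℕ → Set Ω}
    (hA : ∀ n, MeasurableSet (A n)) (d j : ℕ) (w : ℝ) (a : ℕ) : MeasurableSet (Gap A d j w a) :=
  (sml_meas_pat hA d a).inter (sml_meas_fails hA d j w a)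

private theorem sml_num {Ω : Type u} (A : ℕ → Set Ω) (d j : ℕ) (w X : ℝ) (hX : 0 ≤ X) (ω : Ω) :
    (Num A d j w ⊤ 16 X ω : ℝ) =
      ∑ a ∈ Finset.Ioc 16 ⌊X⌋₊, (Gap A d j w a).indicator (fun _ => (1 : ℝ)) ω := by
  classical
  have : {a : ℕ | (16 : ℝ) < a ∧ (a : ℝ) ≤ X ∧ ω ∈ Gap A d j w a ∧
      ∀ v' : ℝ, (v' : EReal) = ⊤ → ω ∉ Gap A d j v' a} =
      ((Finset.Ioc 16 ⌊X⌋₊).filter (fun a => ω ∈ Gap A d j w a) : Finset ℕ) := by
    ext a
    simp only [mem_setOf_eq, Finset.coe_filter, Finset.mem_Ioc, EReal.coe_ne_top, false_imp_iff,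
      implies_true, and_true]
    constructor
    · rintro ⟨h1, h2, h3⟩
      exact ⟨⟨by exact_mod_cast h1, Nat.le_floor h2⟩, h3⟩
    · rintro ⟨⟨h1, h2⟩, h3⟩
      exact ⟨by exact_mod_cast h1, (Nat.le_floor_iff hX).1 h2, h3⟩
  unfold Num
  rw [this, Set.ncard_coe_finset]
  simp only [Set.indicator_apply]
  rw [Finset.sum_boole]

/-- SML. -/
theorem sml : S_DET.{u} → S_QAS.{u} → S_SUMQ.{u} → S_PFL.{u} → S_SML.{u} := by
  intro hdet hqas hsumq hpfl Ω _ μ _ A hA d j w ε hcas hε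
  obtain ⟨a₀, ha₀, D1, D2, D3, D4, D5, D6⟩ := hdet d j w hcas
  obtain ⟨-, C, a1, hC, ha1, Q2⟩ := hqas Ω μ A hA d j w hcas
  obtain ⟨C3, x₀, hx₀, hS⟩ := hsumq Ω μ A hA d j w hcas
  obtain ⟨C4, x4, hC4, hx4, hP⟩ := hpfl Ω μ A hA d j w hcas
  have hj : 1 ≤ j := by rcases hcas with h | h <;> omega
  refine ⟨?_, ?_⟩
  · -- (1) and (2)
    have hsum : Summable (fun a : ℕ => μ.real (Cl A d j w a (LJ j a))) := by
      have hg : Summable (fun a : ℕ => (C * Real.exp (1 / 2)) * (1 / (a : ℝ) ^ 2)) :=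
        (Real.summable_one_div_nat_pow.2 (by norm_num)).mul_left _
      refine Summable.of_norm_bounded_eventually_nat hg ?_
      have hlog : Tendsto (fun a : ℕ => Real.log (a : ℝ)) atTop atTop :=
        Real.tendsto_log_atTop.comp tendsto_natCast_atTop_atTop
      filter_upwards [hlog.eventually_ge_atTop 2, eventually_ge_atTop a1, eventually_ge_atTop 3]
        with a hl ha ha3
      have hapos : (0 : ℝ) < a := by have : (3 : ℝ) ≤ a := by exact_mod_cast ha3
                                     linarith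
      have q := Q2 a (LJ j a) ha le_rfl
      have hLJ : Real.log a ^ (j + 2) - 1 ≤ (LJ j a : ℝ) := by
        have := Nat.lt_floor_add_one (Real.log (a : ℝ) ^ (j + 2))
        unfold LJ; linarith
      have hlj : 1 ≤ Real.log (a : ℝ) ^ j := one_le_pow₀ (by linarith)
      have hexp : -(LJ j a : ℝ) / (2 * Real.log a ^ j) ≤ 1 / 2 - Real.log a := by
        rw [div_le_iff₀ (by positivity)]
        have h1 : Real.log (a : ℝ) ^ (j + 2) = Real.log (a : ℝ) ^ j * Real.log a ^ 2 := by ring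
        have h2 : 2 * Real.log (a : ℝ) ≤ Real.log a ^ 2 := by nlinarith
        have h3 : Real.log (a : ℝ) ^ j * (2 * Real.log (a : ℝ)) ≤
            Real.log (a : ℝ) ^ j * Real.log a ^ 2 := mul_le_mul_of_nonneg_left h2 (by positivity)
        nlinarith
      have hexp2 : Real.exp (-(LJ j a : ℝ) / (2 * Real.log a ^ j)) ≤ Real.exp (1 / 2) / a := by
        calc _ ≤ Real.exp (1 / 2 - Real.log a) := Real.exp_le_exp.2 hexp
          _ = _ := by rw [Real.exp_sub, Real.exp_log hapos]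
      rw [Real.norm_of_nonneg measureReal_nonneg]
      have hr : 0 ≤ μ.real (Cl A d j w a (LJ j a)) := measureReal_nonneg
      have h5 : μ.real (Cl A d j w a (LJ j a)) * a ≤ C * (Real.exp (1 / 2) / a) := by
        calc μ.real (Cl A d j w a (LJ j a)) * a
            ≤ μ.real (Cl A d j w a (LJ j a)) * (a * Real.log a) := by
              apply mul_le_mul_of_nonneg_left _ hr
              nlinarith
          _ ≤ _ := q
          _ ≤ _ := mul_le_mul_of_nonneg_left hexp2 hC.le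
      have h6 : μ.real (Cl A d j w a (LJ j a)) = (μ.real (Cl A d j w a (LJ j a)) * a) / a := by
        field_simp
      rw [h6]
      calc _ ≤ (C * (Real.exp (1 / 2) / a)) / a := div_le_div_of_nonneg_right h5 hapos.le
        _ = _ := by field_simp
    have hne : ∑' a : ℕ, μ (Cl A d j w a (LJ j a)) ≠ ⊤ := by
      have h := hsum.tsum_ofReal_ne_top
      have h2 : (fun a : ℕ => ENNReal.ofReal (μ.real (Cl A d j w a (LJ j a)))) =
          fun a : ℕ => μ (Cl A d j w a (LJ j a)) := by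
        funext a; rw [ofReal_measureReal]
      rwa [h2] at h
    have htail := ENNReal.tendsto_sum_nat_add _ hne
    have e1 := htail.eventually (gt_mem_nhds (ENNReal.ofReal_pos.2 hε))
    obtain ⟨K, hK⟩ := eventually_atTop.1 e1
    have hsq : Tendsto (fun M : ℕ => C4 / √(M : ℝ)) atTop (𝓝 0) :=
      Tendsto.const_div_atTop (Real.tendsto_sqrt_atTop.comp tendsto_natCast_atTop_atTop) C4
    obtain ⟨K2, hK2⟩ := eventually_atTop.1 (hsq.eventually (gt_mem_nhds hε))
    refine ⟨max (max K K2) (max a₀ ⌈x4⌉₊), fun M hM => ⟨?_, ?_⟩⟩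
    · have hsub : {ω | ∃ a : ℕ, M < a ∧ ω ∈ Cl A d j w a (LJ j a)} ⊆
          ⋃ k : ℕ, Cl A d j w (k + (M + 1)) (LJ j (k + (M + 1))) := by
        rintro ω ⟨a, ha, h⟩
        rw [mem_iUnion]
        refine ⟨a - (M + 1), ?_⟩
        rwa [Nat.sub_add_cancel (by omega)]
      have h1 : μ {ω | ∃ a : ℕ, M < a ∧ ω ∈ Cl A d j w a (LJ j a)} ≤ ENNReal.ofReal ε :=
        calc _ ≤ μ (⋃ k : ℕ, Cl A d j w (k + (M + 1)) (LJ j (k + (M + 1)))) := measure_mono hsub
          _ ≤ ∑' k : ℕ, μ (Cl A d j w (k + (M + 1)) (LJ j (k + (M + 1)))) := measure_iUnion_le _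
          _ ≤ _ := (hK (M + 1) (by omega)).le
      exact ENNReal.toReal_le_of_le_ofReal hε.le h1
    · have hsub : {ω | ∀ m : ℕ, M < m → m < M + LJ j M → ω ∉ Pat A d m} ⊆
          Fails A d j w M := by
        intro ω h m hm hm'
        refine h m (by exact_mod_cast hm) ?_
        have h6 := D6 M (by omega)
        have : ((m + d : ℕ) : ℝ) < ((M + LJ j M : ℕ) : ℝ) := by push_cast at hm' ⊢; linarith
        have : m + d < M + LJ j M := by exact_mod_cast this
        omega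
      have hMx : x4 ≤ (M : ℝ) := le_trans (Nat.le_ceil _) (by exact_mod_cast (by omega : ⌈x4⌉₊ ≤ M))
      calc _ ≤ μ.real (Fails A d j w M) := measureReal_mono hsub
        _ ≤ C4 / √(M : ℝ) := hP M hMx
        _ ≤ ε := (hK2 M (by omega)).le
  · -- (3)
    set lam := lamc j * Real.exp (-w) with hlam
    set B : ℝ := (⌊x₀⌋₊ : ℝ) + |C3 / √(Real.log x₀)| + |lam * Real.log (Real.log x₀)| with hB
    have hlo : (fun y : ℝ => B + lam * Real.log y) =o[atTop] (id : ℝ → ℝ) :=
      (Asymptotics.isLittleO_const_id_atTop B).add (Real.isLittleO_log_id_atTop.const_mul_left lam)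
    have hb := (hlo.bound (show (0 : ℝ) < ε ^ 2 by positivity))
    have hb2 := Real.tendsto_log_atTop.eventually hb
    have hb3 := (hb2.and (eventually_ge_atTop (max x₀ 16)))
    obtain ⟨X₁, hX₁⟩ := eventually_atTop.1 hb3
    refine ⟨X₁, fun X hX => ?_⟩
    obtain ⟨h1, h2⟩ := hX₁ X hX
    have hXx : x₀ ≤ X := le_trans (le_max_left _ _) h2
    have hX16 : 16 ≤ X := le_trans (le_max_right _ _) h2
    have hX0 : 0 ≤ X := by linarith
    have hlX : 0 < Real.log X := Real.log_pos (by linarith)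
    have hint : ∀ a, Integrable ((Gap A d j w a).indicator (fun _ => (1 : ℝ))) μ := fun a =>
      (integrable_const (1 : ℝ)).indicator (sml_meas_gap hA.meas d j w a)
    have hNum : (fun ω => (Num A d j w ⊤ 16 X ω : ℝ)) = fun ω =>
        ∑ a ∈ Finset.Ioc 16 ⌊X⌋₊, (Gap A d j w a).indicator (fun _ => (1 : ℝ)) ω := by
      funext ω; exact sml_num A d j w X hX0 ω
    have hNint : Integrable (fun ω => (Num A d j w ⊤ 16 X ω : ℝ)) μ := by
      rw [hNum]; exact integrable_finsetSum _ fun a _ => hint a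
    have hNE : ∫ ω, (Num A d j w ⊤ 16 X ω : ℝ) ∂μ =
        ∑ a ∈ Finset.Ioc 16 ⌊X⌋₊, μ.real (Gap A d j w a) := by
      rw [hNum, integral_finsetSum _ fun a _ => hint a]
      refine Finset.sum_congr rfl fun a _ => ?_
      rw [integral_indicator_const _ (sml_meas_gap hA.meas d j w a)]
      simp
    have hmar := mul_meas_ge_le_integral_of_nonneg (μ := μ)
      (f := fun ω => (Num A d j w ⊤ 16 X ω : ℝ)) (Eventually.of_forall fun ω => Nat.cast_nonneg _)
      hNint (ε * Real.log X)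
    have hsumle : ∑ a ∈ Finset.Ioc 16 ⌊X⌋₊, μ.real (Gap A d j w a) ≤
        B + lam * Real.log (Real.log X) := by
      have hsub : Finset.Ioc 16 ⌊X⌋₊ ⊆ Finset.Ioc 0 ⌊x₀⌋₊ ∪ Finset.Ioc ⌊x₀⌋₊ ⌊X⌋₊ := by
        intro a ha
        rw [Finset.mem_union, Finset.mem_Ioc, Finset.mem_Ioc]
        rw [Finset.mem_Ioc] at ha
        omega
      have hS' := (abs_le.1 (hS x₀ X le_rfl hXx)).2
      have h3 : ∑ a ∈ Finset.Ioc 0 ⌊x₀⌋₊, μ.real (Gap A d j w a) ≤ ⌊x₀⌋₊ := by
        calc _ ≤ ∑ a ∈ Finset.Ioc 0 ⌊x₀⌋₊, (1 : ℝ) := Finset.sum_le_sum fun a _ => measureReal_le_one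
          _ = _ := by simp
      calc _ ≤ ∑ a ∈ Finset.Ioc 0 ⌊x₀⌋₊ ∪ Finset.Ioc ⌊x₀⌋₊ ⌊X⌋₊, μ.real (Gap A d j w a) :=
            Finset.sum_le_sum_of_subset_of_nonneg hsub fun _ _ _ => measureReal_nonneg
        _ = ∑ a ∈ Finset.Ioc 0 ⌊x₀⌋₊, μ.real (Gap A d j w a) +
            ∑ a ∈ Finset.Ioc ⌊x₀⌋₊ ⌊X⌋₊, μ.real (Gap A d j w a) := by
            refine Finset.sum_union ?_
            rw [Finset.disjoint_left]; intro a ha hb
            rw [Finset.mem_Ioc] at ha hb; omega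
        _ ≤ _ := by
          have h4 := le_abs_self (C3 / √(Real.log x₀))
          have h5 := neg_abs_le (lam * Real.log (Real.log x₀))
          rw [hB]
          nlinarith
    have hfin : ε * Real.log X * μ.real {ω | ε * Real.log X ≤ (Num A d j w ⊤ 16 X ω : ℝ)} ≤
        ε * Real.log X * ε := by
      calc _ ≤ ∫ ω, (Num A d j w ⊤ 16 X ω : ℝ) ∂μ := hmar
        _ ≤ B + lam * Real.log (Real.log X) := by rw [hNE]; exact hsumle
        _ ≤ ‖B + lam * Real.log (Real.log X)‖ := le_abs_self _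
        _ ≤ ε ^ 2 * ‖(id (Real.log X) : ℝ)‖ := h1
        _ = _ := by rw [id, Real.norm_of_nonneg hlX.le]; ring
    exact le_of_mul_le_mul_left hfin (by positivity)

end H21SCH
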