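import Pool.Agent.H21.SCH.Stm

/-! # SCH-SUMQ: the sum of the probabilities of the gaps -/

set_option autoImplicit false

namespace H21SCH

open MeasureTheory ProbabilityTheory Filter Topology Set

universe u

theorem Gap_eq_Cl {Ω : Type u} (A : ℕ → Set Ω) (d j : ℕ) (w : ℝ) (a : ℕ) :
    Gap A d j w a = Cl A d j w a 0 := by
  ext ω
  constructor
  · rintro ⟨h1, h2⟩
    refine ⟨h1, ?_⟩
    intro m hm hm2
    simp only [add_zero] at hm2
    exact h2 m (by exact_mod_cast hm) hm2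
  · rintro ⟨h1, h2⟩
    refine ⟨h1, ?_⟩
    intro m hm hm2
    apply h2 m (by exact_mod_cast hm)
    simp only [add_zero]
    exact hm2

theorem sumq : S_QAS.{u} → S_HARM → S_SUMQ.{u} := by
  intro hQ hH Ω _ μ _ A hA d j w hc
  obtain ⟨h1, -⟩ := hQ Ω μ A hA d j w hc
  obtain ⟨CQ, a₀, hCQ⟩ := h1 0
  obtain ⟨CH, hCH⟩ := hH
  have hlam : 0 < lamc j := by
    unfold lamc
    split_ifs <;> exact Real.exp_pos _
  set lw : ℝ := lamc j * Real.exp (-w) with hlw
  have hlw0 : 0 < lw := by positivity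
  refine ⟨(lw + |CQ|) * |CH|, max 4 a₀, le_max_left _ _, ?_⟩
  intro x y hx hxy
  have hx4 : 4 ≤ x := le_trans (le_max_left _ _) hx
  have hxa : (a₀ : ℝ) ≤ x := le_trans (le_max_right _ _) hx
  obtain ⟨hs1, hs2⟩ := hCH x y hx4 hxy
  have hlogx : 1 ≤ Real.log x := by
    rw [Real.le_log_iff_exp_le (by linarith)]
    have := Real.exp_one_lt_d9
    linarith
  have hsq : 0 < √(Real.log x) := Real.sqrt_pos.2 (by linarith)
  -- termwise
  have hterm : ∀ a ∈ Finset.Ioc ⌊x⌋₊ ⌊y⌋₊,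
      |μ.real (Gap A d j w a) - lw * (1 / ((a : ℝ) * Real.log a))| ≤
        |CQ| * (1 / ((a : ℝ) * Real.log a * √(Real.log a))) := by
    intro a ha
    rw [Finset.mem_Ioc] at ha
    have hax : x < a := (Nat.floor_lt (by linarith)).1 ha.1
    have haa : a₀ ≤ a := by
      have : (a₀ : ℝ) < a := lt_of_le_of_lt hxa hax
      exact_mod_cast this.le
    have ha4 : (4 : ℝ) < a := by linarith
    have hloga : 1 ≤ Real.log a := by
      rw [Real.le_log_iff_exp_le (by linarith)]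
      have := Real.exp_one_lt_d9
      linarith
    have hpos : 0 < (a : ℝ) * Real.log a := by
      apply mul_pos <;> linarith
    have h2 := hCQ a 0 haa (by simp)
    rw [← Gap_eq_Cl] at h2
    have h3 : lamc j * Real.exp (-w - ((0 : ℕ) : ℝ) / Real.log a ^ j) = lw := by
      rw [hlw]
      simp
    rw [h3] at h2
    have h4 : μ.real (Gap A d j w a) - lw * (1 / ((a : ℝ) * Real.log a)) =
        (μ.real (Gap A d j w a) * (a * Real.log a) - lw) / ((a : ℝ) * Real.log a) := by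
      field_simp
    rw [h4, abs_div, abs_of_pos hpos, div_le_iff₀ hpos]
    refine h2.trans ?_
    have hsa : 0 < √(Real.log a) := Real.sqrt_pos.2 (by linarith)
    have h5 : |CQ| * (1 / ((a : ℝ) * Real.log a * √(Real.log a))) * ((a : ℝ) * Real.log a) =
        |CQ| / √(Real.log a) := by
      field_simp
    rw [h5]
    exact div_le_div_of_nonneg_right (le_abs_self _) hsa.le
  have hsum : |∑ a ∈ Finset.Ioc ⌊x⌋₊ ⌊y⌋₊, μ.real (Gap A d j w a) -
      lw * ∑ a ∈ Finset.Ioc ⌊x⌋₊ ⌊y⌋₊, 1 / ((a : ℝ) * Real.log a)| ≤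
      |CQ| * ∑ a ∈ Finset.Ioc ⌊x⌋₊ ⌊y⌋₊, 1 / ((a : ℝ) * Real.log a * √(Real.log a)) := by
    rw [Finset.mul_sum, ← Finset.sum_sub_distrib, Finset.mul_sum]
    exact (Finset.abs_sum_le_sum_abs _ _).trans (Finset.sum_le_sum hterm)
  have hx0 : 0 < x := by linarith
  have hxs : √(Real.log x) ≤ x := by
    rw [Real.sqrt_le_left hx0.le]
    have := Real.log_le_sub_one_of_pos hx0
    nlinarith
  have h6 : |lw * ∑ a ∈ Finset.Ioc ⌊x⌋₊ ⌊y⌋₊, 1 / ((a : ℝ) * Real.log a) -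
      lw * (Real.log (Real.log y) - Real.log (Real.log x))| ≤ lw * (|CH| / √(Real.log x)) := by
    rw [← mul_sub, abs_mul, abs_of_pos hlw0]
    apply mul_le_mul_of_nonneg_left _ hlw0.le
    refine hs1.trans ?_
    calc CH / x ≤ |CH| / x := div_le_div_of_nonneg_right (le_abs_self _) hx0.le
      _ ≤ |CH| / √(Real.log x) := div_le_div_of_nonneg_left (abs_nonneg _) hsq hxs
  have h7 : |CQ| * ∑ a ∈ Finset.Ioc ⌊x⌋₊ ⌊y⌋₊, 1 / ((a : ℝ) * Real.log a * √(Real.log a)) ≤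
      |CQ| * (|CH| / √(Real.log x)) := by
    apply mul_le_mul_of_nonneg_left _ (abs_nonneg _)
    exact hs2.trans (div_le_div_of_nonneg_right (le_abs_self _) hsq.le)
  have h8 := abs_sub_le (∑ a ∈ Finset.Ioc ⌊x⌋₊ ⌊y⌋₊, μ.real (Gap A d j w a))
    (lw * ∑ a ∈ Finset.Ioc ⌊x⌋₊ ⌊y⌋₊, 1 / ((a : ℝ) * Real.log a))
    (lw * (Real.log (Real.log y) - Real.log (Real.log x)))
  have h9 : (lw + |CQ|) * |CH| / √(Real.log x) =
      |CQ| * (|CH| / √(Real.log x)) + lw * (|CH| / √(Real.log x)) := by ring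
  rw [h9]
  linarith

end H21SCH
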