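import Pool.Agent.H21.SCH.Stm

/-! # Project SCH: VOL (helper60) -/

set_option autoImplicit false

namespace H21SCH

open MeasureTheory ProbabilityTheory Filter Topology Set Complex

universe u

theorem vol_up {Ω : Type u} {A : ℕ → Set Ω} {d j : ℕ} {w : ℝ} {a₀ : ℕ}
    (hmono : ∀ x y : ℝ, a₀ ≤ x → x ≤ y → x + len j w x ≤ y + len j w y) {ω : Ω} {n : ℕ} {x : ℝ}
    (hn : a₀ ≤ n) (h1 : (n : ℝ) ≤ x) (h2 : x < n + 1) (h : ω ∈ Fails A d j w x) : ω ∈ Fails A d j w n := by
  intro m hm1 hm2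
  have h3 : n < m := by exact_mod_cast hm1
  refine h m ?_ (hm2.trans_le (hmono n x (by exact_mod_cast hn) h1))
  have h4 : ((n + 1 : ℕ) : ℝ) ≤ m := by exact_mod_cast h3
  push_cast at h4
  linarith

theorem vol_down {Ω : Type u} {A : ℕ → Set Ω} {d j : ℕ} {w : ℝ} {a₀ : ℕ}
    (hmono : ∀ x y : ℝ, a₀ ≤ x → x ≤ y → x + len j w x ≤ y + len j w y) {ω : Ω} {n : ℕ} {x : ℝ}
    (hn : a₀ ≤ n) (h1 : (n : ℝ) ≤ x) (h2 : x < (n + 1 : ℕ)) (h : ω ∈ Fails A d j w ((n + 1 : ℕ) : ℝ))
    (hp : ω ∉ Pat A d (n + 1)) : ω ∈ Fails A d j w x := by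
  intro m hm1 hm2
  have h3 : n < m := by exact_mod_cast lt_of_le_of_lt h1 hm1
  rcases Nat.eq_or_lt_of_le h3 with h4 | h4
  · rw [← h4]; exact hp
  · refine h m (by exact_mod_cast h4) (hm2.trans_le (hmono x _ ?_ h2.le))
    exact le_trans (by exact_mod_cast hn) h1

theorem vol_ : S_DET.{u} → S_VOL.{u} := by
  classical
  intro hDET d j w hdj
  obtain ⟨a₀, ha₀, hmono, -⟩ := hDET d j w hdj
  refine ⟨a₀ + 2, fun Ω A X ω hX => ?_⟩
  set V : Set ℝ := {x : ℝ | 16 < x ∧ x ≤ X ∧ ω ∈ Fails A d j w x} with hV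
  have hVsub : V ⊆ Ioc 16 X := fun x hx => ⟨hx.1, hx.2.1⟩
  have hVfin : volume V ≠ ⊤ := ne_top_of_le_ne_top (by rw [Real.volume_Ioc]; exact ENNReal.ofReal_ne_top)
    (measure_mono hVsub)
  have hvol : vol A d j w X ω = (volume : Measure ℝ).real V := rfl
  -- the finite sets
  let U : Finset ℕ := Finset.range (⌊X⌋₊ + 1)
  have hU : ∀ n : ℕ, (n : ℝ) ≤ X → n ∈ U := fun n hn => Finset.mem_range.2
    (Nat.lt_succ_of_le (Nat.le_floor hn))
  let T : Finset ℕ := U.filter fun n => (16 : ℝ) < n ∧ (n : ℝ) ≤ X ∧ ω ∈ Fails A d j w n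
  have hTset : {n : ℕ | (16 : ℝ) < n ∧ (n : ℝ) ≤ X ∧ ω ∈ Fails A d j w n} = (T : Set ℕ) := by
    ext n
    simp only [T, Finset.coe_filter, mem_setOf_eq]
    exact ⟨fun h => ⟨hU n h.2.1, h⟩, fun h => h.2⟩
  let G : Finset ℕ := U.filter fun n => (16 : ℝ) < n ∧ (n : ℝ) ≤ X ∧ ω ∈ Gap A d j w n
  have hG : Num A d j w ⊤ 16 X ω = G.card := by
    unfold Num
    have : {a : ℕ | (16 : ℝ) < a ∧ (a : ℝ) ≤ X ∧ ω ∈ Gap A d j w a ∧
        ∀ v' : ℝ, (v' : EReal) = ⊤ → ω ∉ Gap A d j v' a} = (G : Set ℕ) := by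
      ext n
      simp only [G, Finset.coe_filter, mem_setOf_eq]
      exact ⟨fun h => ⟨hU n h.2.1, h.1, h.2.1, h.2.2.1⟩, fun h => ⟨h.2.1, h.2.2.1, h.2.2.2,
        fun v' hv' => absurd hv' (EReal.coe_ne_top v')⟩⟩
    rw [this, Set.ncard_coe_finset]
  rw [hvol, hTset, Set.ncard_coe_finset, hG]
  -- upper bound
  have hup : (volume : Measure ℝ).real V ≤ (a₀ + 1) + T.card := by
    have hsub : V ⊆ Ioc 0 ((a₀ : ℝ) + 1) ∪ ⋃ n ∈ T, Ico (n : ℝ) (n + 1) := by
      intro x hx
      by_cases hxa : x ≤ (a₀ : ℝ) + 1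
      · exact Or.inl ⟨by linarith [hx.1], hxa⟩
      · right
        push Not at hxa
        have hx0 : 0 ≤ x := by linarith [hx.1]
        have hn1 : ((⌊x⌋₊ : ℕ) : ℝ) ≤ x := Nat.floor_le hx0
        have hn2 : x < (⌊x⌋₊ : ℝ) + 1 := Nat.lt_floor_add_one x
        have hn3 : a₀ + 1 ≤ ⌊x⌋₊ := Nat.le_floor (by push_cast; exact hxa.le)
        refine Set.mem_biUnion (x := ⌊x⌋₊) ?_ ⟨hn1, hn2⟩
        rw [Finset.mem_coe, Finset.mem_filter]
        refine ⟨hU _ (hn1.trans hx.2.1), ?_, hn1.trans hx.2.1, vol_up hmono (by omega) hn1 hn2 hx.2.2⟩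
        have : (16 : ℕ) < ⌊x⌋₊ := by omega
        exact_mod_cast this
    have hfin : volume (Ioc (0 : ℝ) ((a₀ : ℝ) + 1) ∪ ⋃ n ∈ T, Ico (n : ℝ) (n + 1)) ≠ ⊤ := by
      refine measure_union_ne_top (by rw [Real.volume_Ioc]; exact ENNReal.ofReal_ne_top) ?_
      refine ((measure_biUnion_finset_le T _).trans_lt ?_).ne
      refine ENNReal.sum_lt_top.2 fun n _ => ?_
      rw [Real.volume_Ico]
      exact ENNReal.ofReal_lt_top
    calc (volume : Measure ℝ).real V ≤ (volume : Measure ℝ).real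
          (Ioc (0 : ℝ) ((a₀ : ℝ) + 1) ∪ ⋃ n ∈ T, Ico (n : ℝ) (n + 1)) := measureReal_mono hsub hfin
      _ ≤ (volume : Measure ℝ).real (Ioc (0 : ℝ) ((a₀ : ℝ) + 1)) +
          (volume : Measure ℝ).real (⋃ n ∈ T, Ico (n : ℝ) (n + 1)) := measureReal_union_le _ _
      _ ≤ (a₀ + 1) + ∑ n ∈ T, (volume : Measure ℝ).real (Ico (n : ℝ) (n + 1)) := by
          refine add_le_add ?_ (measureReal_biUnion_finset_le T _)
          have h0 : (0 : ℝ) ≤ a₀ := Nat.cast_nonneg _
          rw [measureReal_def, Real.volume_Ioc, ENNReal.toReal_ofReal (by linarith)]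
          linarith
      _ = (a₀ + 1) + T.card := by
          congr 1
          have h1 : ∀ n ∈ T, (volume : Measure ℝ).real (Ico (n : ℝ) (n + 1)) = 1 := fun n _ => by
            rw [measureReal_def, Real.volume_Ico, add_sub_cancel_left, ENNReal.ofReal_one, ENNReal.toReal_one]
          rw [Finset.sum_congr rfl h1]
          simp
  -- lower bound
  have hdown : (T.card : ℝ) ≤ (a₀ + 2) + G.card + (volume : Measure ℝ).real V := by
    let T' : Finset ℕ := T.filter fun n => a₀ + 1 < n ∧ ω ∉ Pat A d n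
    have hcard : T.card ≤ (a₀ + 2) + G.card + T'.card := by
      have hsub : T ⊆ (Finset.range (a₀ + 2) ∪ G) ∪ T' := by
        intro n hn
        rw [Finset.mem_union, Finset.mem_union]
        by_cases h1 : n < a₀ + 2
        · exact Or.inl (Or.inl (Finset.mem_range.2 h1))
        · by_cases h2 : ω ∈ Pat A d n
          · left; right
            rw [Finset.mem_filter] at hn ⊢
            exact ⟨hn.1, hn.2.1, hn.2.2.1, h2, hn.2.2.2⟩
          · right
            rw [Finset.mem_filter]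
            exact ⟨hn, by omega, h2⟩
      refine (Finset.card_le_card hsub).trans ((Finset.card_union_le _ _).trans ?_)
      refine Nat.add_le_add_right ((Finset.card_union_le _ _).trans ?_) _
      rw [Finset.card_range]
    have hvolT : (T'.card : ℝ) ≤ (volume : Measure ℝ).real V := by
      have hdis : (T' : Set ℕ).PairwiseDisjoint fun n : ℕ => Ico ((n : ℝ) - 1) n := by
        intro m _ n _ hmn
        simp only [Function.onFun]
        rw [Set.disjoint_left]
        intro x hx1 hx2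
        apply hmn
        have h1 : m < n + 1 := by
          have : (m : ℝ) < n + 1 := by linarith [hx1.1, hx2.2]
          exact_mod_cast this
        have h2 : n < m + 1 := by
          have : (n : ℝ) < m + 1 := by linarith [hx1.2, hx2.1]
          exact_mod_cast this
        omega
      have hsub : (⋃ n ∈ T', Ico ((n : ℝ) - 1) n) ⊆ V := by
        intro x hx
        rw [Set.mem_iUnion₂] at hx
        obtain ⟨n, hn, hx1, hx2⟩ := hx
        rw [Finset.mem_filter, Finset.mem_filter] at hn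
        obtain ⟨⟨-, -, hnX, hnF⟩, hna, hnP⟩ := hn
        obtain ⟨m, rfl⟩ : ∃ m, n = m + 1 := ⟨n - 1, by omega⟩
        have hm1 : (m : ℝ) ≤ x := by push_cast at hx1; linarith
        refine ⟨?_, hx2.le.trans hnX, vol_down hmono (by omega) hm1 hx2 hnF hnP⟩
        have : (16 : ℕ) < m := by omega
        have : (16 : ℝ) < m := by exact_mod_cast this
        linarith
      calc (T'.card : ℝ) = ∑ n ∈ T', (volume : Measure ℝ).real (Ico ((n : ℝ) - 1) n) := by
            have h1 : ∀ n ∈ T', (volume : Measure ℝ).real (Ico ((n : ℝ) - 1) n) = 1 := fun n _ => by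
              rw [measureReal_def, Real.volume_Ico, sub_sub_cancel, ENNReal.ofReal_one, ENNReal.toReal_one]
            rw [Finset.sum_congr rfl h1]
            simp
        _ = (volume : Measure ℝ).real (⋃ n ∈ T', Ico ((n : ℝ) - 1) n) := by
            rw [measureReal_biUnion_finset hdis (fun n _ => measurableSet_Ico)
              (fun n _ => by rw [Real.volume_Ico]; exact ENNReal.ofReal_ne_top)]
        _ ≤ (volume : Measure ℝ).real V := measureReal_mono hsub hVfin
    have : (T.card : ℝ) ≤ (a₀ + 2) + G.card + T'.card := by exact_mod_cast hcard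
    linarith
  rw [abs_le]
  have hG0 : (0 : ℝ) ≤ G.card := Nat.cast_nonneg _
  constructor <;> linarith

end H21SCH
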