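import Pool.Agent.H21.SCH.Stm

set_option autoImplicit false

/-! # Project SCH, part WA -/

namespace H21SCH

open MeasureTheory ProbabilityTheory Filter Topology Set Complex

universe u

namespace WAp

theorem down_range (s : Finset ℕ) (h : ∀ k l, k ≤ l → l ∈ s → k ∈ s) : s = Finset.range s.card := by
  classical
  have hex : ∃ k, k ∉ s := ⟨s.sup id + 1, fun hk => by
    have := Finset.le_sup (f := id) hk
    simp only [id] at this
    omega⟩
  have h1 : ∀ k, k < Nat.find hex → k ∈ s := fun k hk => not_not.1 (Nat.find_min hex hk)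
  have h2 : s = Finset.range (Nat.find hex) := by
    ext k
    rw [Finset.mem_range]
    refine ⟨fun hk => ?_, h1 k⟩
    by_contra hlt
    exact Nat.find_spec hex (h _ _ (not_lt.1 hlt) hk)
  have h3 : s.card = Nat.find hex := by
    conv_lhs => rw [h2]
    exact Finset.card_range _
  rw [h3]
  exact h2

theorem gap_eq {Ω : Type u} (A : ℕ → Set Ω) (d j : ℕ) (w : ℝ) (a : ℕ) :
    Gap A d j w a = Cl A d j w a 0 := by
  ext ω
  simp only [Gap, Fails, Cl, mem_inter_iff, mem_ofPred_eq, Nat.cast_lt, add_zero]

end WAp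

open WAp in
theorem wa : S_LOC.{u} → S_DET.{u} → S_WA.{u} := by
  classical
  intro hLOC hDET d j w hc
  obtain ⟨a₀, -, -, -, hanti, -, hloc, -⟩ := hDET d j w hc
  refine ⟨a₀, fun Ω _ μ _ A hA a ha => ?_⟩
  have hmeas : ∀ k, k ≤ LJ j a → MeasurableSet (Cl A d j w a k) := fun k hk => by
    have := (hLOC Ω μ A hA.meas hA.indep).1 _ Prop _ (hloc Ω A a k ha hk)
    exact measurableSet_setOfPred.2 this
  obtain ⟨s, hs⟩ : ∃ s : Ω → Finset ℕ, s = fun ω =>
    (Finset.range (LJ j a)).filter fun k => ω ∈ Cl A d j w a k := ⟨_, rfl⟩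
  have hKK : ∀ ω, KK A d j w a ω = (s ω).card := by
    intro ω
    rw [KK, hs, ← Set.ncard_coe_finset]
    congr 1
    ext k
    simp
  have hdown : ∀ ω, s ω = Finset.range (s ω).card := by
    intro ω
    refine down_range _ fun k l hkl hl => ?_
    rw [hs] at hl ⊢
    simp only [Finset.mem_filter, Finset.mem_range] at hl ⊢
    exact ⟨hkl.trans_lt hl.1, hanti Ω A a k l ha hkl hl.2⟩
  refine ⟨fun ω hω => ?_, fun ω ω' h => ?_, fun φ => ?_⟩
  · rw [hKK, Finset.card_eq_zero, Finset.eq_empty_iff_forall_notMem]
    intro k hk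
    rw [hs] at hk
    simp only [Finset.mem_filter, Finset.mem_range] at hk
    rw [gap_eq] at hω
    exact hω (hanti Ω A a 0 k ha (Nat.zero_le k) hk.2)
  · rw [hKK, hKK, hs]
    simp only
    congr 1
    refine Finset.filter_congr fun k hk => ?_
    have := hloc Ω A a k ha (Finset.mem_range.1 hk).le ω ω' h
    simp only at this
    exact iff_of_eq this
  · have hpt : ∀ ω, cexp (I * φ * (KK A d j w a ω : ℂ)) - 1 = ∑ k ∈ Finset.range (LJ j a),
        ((cexp (I * φ) - 1) * cexp (I * φ * k)) * (Cl A d j w a k).indicator 1 ω := by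
      intro ω
      have e1 : ∑ k ∈ Finset.range (LJ j a),
          ((cexp (I * φ) - 1) * cexp (I * φ * k)) * (Cl A d j w a k).indicator 1 ω =
          ∑ k ∈ s ω, ((cexp (I * φ) - 1) * cexp (I * φ * k)) := by
        rw [hs]
        simp only
        rw [Finset.sum_filter]
        refine Finset.sum_congr rfl fun k _ => ?_
        by_cases h : ω ∈ Cl A d j w a k
        · rw [Set.indicator_of_mem h, if_pos h, Pi.one_apply, mul_one]
        · rw [Set.indicator_of_notMem h, if_neg h, mul_zero]
      rw [e1, hdown ω, hKK]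
      have e2 : ∀ n : ℕ, cexp (I * φ * n) - 1 =
          ∑ k ∈ Finset.range n, ((cexp (I * φ) - 1) * cexp (I * φ * k)) := by
        intro n
        induction n with
        | zero => simp
        | succ n ih =>
          rw [Finset.sum_range_succ, ← ih, Nat.cast_succ, mul_add, mul_one, Complex.exp_add]
          ring
      exact e2 _
    rw [integral_congr_ae (Eventually.of_forall hpt), integral_finsetSum, Finset.mul_sum]
    · refine Finset.sum_congr rfl fun k hk => ?_
      have e3 : ∫ ω, (Cl A d j w a k).indicator (1 : Ω → ℂ) ω ∂μ =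
          (μ.real (Cl A d j w a k) : ℂ) := by
        have := integral_indicator_const (μ := μ) (1 : ℂ) (hmeas k (Finset.mem_range.1 hk).le)
        rw [Complex.real_smul, mul_one] at this
        rw [← this]
        rfl
      rw [integral_const_mul, e3]
      ring
    · intro k hk
      refine Integrable.const_mul ?_ _
      exact (integrable_const (1 : ℂ)).indicator (hmeas k (Finset.mem_range.1 hk).le)

end H21SCH
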