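import Pool.Agent.H21.SCH.QAS
import Pool.Agent.H21.SCH.LOC
import Pool.Agent.H21.SCH.DET
import Pool.Agent.H21.SCH.QAS0
import Pool.Agent.H21.SCH.RUN
import Pool.Agent.H21.SCH.NOP
import Pool.Agent.H21.SCH.QAS1
import Pool.Agent.H21.SCH.EXC
import Pool.Agent.H21.SCH.HARM
import Pool.Agent.H21.SCH.SUMQ
import Pool.Agent.H21.SCH.AB
import Pool.Agent.H21.SCH.EXPP
import Pool.Agent.H21.SCH.ERR
import Pool.Agent.H21.SCH.MAS
import Pool.Agent.H21.SCH.PMF
import Pool.Agent.H21.SCH.CHF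
import Pool.Agent.H21.SCH.POI
import Pool.Agent.H21.SCH.PE
import Pool.Agent.H21.SCH.CMP
import Pool.Agent.H21.SCH.PFL
import Pool.Agent.H21.SCH.PAR
import Pool.Agent.H21.SCH.BCA
import Pool.Agent.H21.SCH.BCB
import Pool.Agent.H21.SCH.CDF
import Pool.Agent.H21.SCH.CLT
import Pool.Agent.H21.SCH.GCH
import Pool.Agent.H21.SCH.RIEM
import Pool.Agent.H21.SCH.GEO
import Pool.Agent.H21.SCH.ASY
import Pool.Agent.H21.SCH.WA
import Pool.Agent.H21.SCH.VOL
import Pool.Agent.H21.SCH.CLU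
import Pool.Agent.H21.SCH.SML
import Pool.Agent.H21.SCH.DTR
import Pool.Agent.H21.SCH.MEV
import Pool.Agent.H21.SCH.GAM
import Pool.Agent.H21.SCH.EX

namespace H21SCH.Main

universe u

theorem qas' : S_QAS.{u} := qas (qas0 loc) (qas1 loc (nop loc) run)
theorem exc' : S_EXC.{u} := exc loc det qas'
theorem sumq' : S_SUMQ.{u} := sumq qas' harm
theorem mas' : S_MAS.{u} := mas loc exc' qas' ab expp err
theorem chf' : S_CHF.{u} := chf mas' det sumq'
theorem poi' : S_POI.{u} := poi loc chf' pmf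
theorem pe' : S_PE.{u} := pe mas' det sumq'
theorem cmp' : S_CMP.{u} := cmp det
theorem pfl' : S_PFL.{u} := pfl loc det qas'
theorem par' : S_PAR.{u} := par pe' cmp' pfl'
theorem bca' : S_BCA.{u} := bca pe'
theorem bcb' : S_BCB.{u} := bcb pe' loc det cmp' pfl'
theorem clt' : S_CLT.{u} := clt mas' loc det sumq' cdf
theorem asy' : S_ASY.{u} := asy (geo qas') riem
theorem wa' : S_WA.{u} := wa loc det
theorem sml' : S_SML.{u} := sml det qas' sumq' pfl'
theorem dtr' : S_DTR.{u} := dtr (vol_ det) (clu det) sml' pfl'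
theorem gam' : S_GAM.{u} := gam loc mas' wa' asy' gch cdf dtr' (mev loc)
theorem ex' : S_EX := ex

end H21SCH.Main
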