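import Pool.Agent.H21.SCH.Stm

namespace H21SCH

universe u

theorem qas (h0 : S_QAS0.{u}) (h1 : S_QAS1.{u}) : S_QAS.{u} := by
  intro Ω _ μ _ A hA d j w hc
  rcases hc with ⟨rfl, rfl⟩ | ⟨hd, rfl⟩
  · obtain ⟨ha, hb⟩ := h0 Ω μ A hA w
    refine ⟨fun K => ?_, hb⟩
    obtain ⟨C, a₀, h⟩ := ha K
    exact ⟨C, a₀, fun a k hak hk => h a k hak (by simpa using hk)⟩
  · exact h1 Ω μ A hA d w hd

end H21SCH
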