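import Pool.Agent.H21.SCH.Defs

/-! # Project SCH: statements of the stubs, with proofs

Everywhere `Cas d j`: `d = 0`, `j = 1` (single elements) or `d ≥ 1`, `j = 2` (pairs). `log^j` is a power.
`λ_w = lamc j · exp (-w)`. Stub `XXX`: `theorem H21SCH.xxx : S_XXX` or
`theorem H21SCH.xxx : S_D1 → S_D2 → S_XXX` (dependencies in the order of its docstring), file
`Pool/Agent/H21/SCH/XXX.lean`, import `Pool.Agent.H21.SCH.Stm` only. -/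

namespace H21SCH

open MeasureTheory ProbabilityTheory Filter Topology Set Complex

universe u

/-! ## A. Independence, deterministic facts -/

/-- LOC. Functions that depend on finitely many coordinates.
PROOF. Let `ξ ω : ℕ → Bool`, `ξ ω p = decide (ω ∈ A p)`. `Loc A S f` gives `g : (S → Bool) → β` with
`f = g ∘ (restriction of ξ to S)` (choice; `β` is nonempty if `Ω` is). `(S → Bool)` is finite with
measurable singletons, so `g` is measurable. Independence: `iIndepSet A μ` gives `iIndepFun` of the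
`ξ · p` (as in `iIndepSet.iIndepFun_indicator`), then `iIndepFun.indepFun_finset S T` and
`IndepFun.comp`, `IndepFun.integral_mul_eq_mul_integral` (`f`, `g` take finitely many values: bounded,
measurable). (3) from (2) with the indicator functions of `B`, `C`. -/
def S_LOC : Prop := ∀ (Ω : Type u) [MeasurableSpace Ω] (μ : Measure Ω) [IsProbabilityMeasure μ]
  (A : ℕ → Set Ω), (∀ n, MeasurableSet (A n)) → iIndepSet A μ →
  (∀ (S : Finset ℕ) (β : Type) [MeasurableSpace β] (f : Ω → β), Loc A S f → Measurable f) ∧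
  (∀ (S T : Finset ℕ) (f g : Ω → ℂ), Disjoint S T → Loc A S f → Loc A T g →
    ∫ ω, f ω * g ω ∂μ = (∫ ω, f ω ∂μ) * ∫ ω, g ω ∂μ) ∧
  (∀ (S T : Finset ℕ) (B C : Set Ω), Disjoint S T → Loc A S (fun ω => ω ∈ B) →
    Loc A T (fun ω => ω ∈ C) → μ.real (B ∩ C) = μ.real B * μ.real C)

/-- DET. Deterministic facts for large `a`: (1) `x + len x` is nondecreasing, (2) `len x > 2 d + 2`;
(3) `Cl` is decreasing in `k`; (4) `Gap` is decreasing in `u`; (5) the windows are shorter than the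
memory; (6) `len ≤ LJ`.
PROOF. (1) the derivative of `len` is `O(log^j x / x)`. (2) `len ≥ log^(j+1) / 2`. (3) from (1).
(5) for `k ≤ LJ j a ≤ log^(j+2) a`: all coordinates used are `< a + k + len (a + k)`, and
`k + len j w (a + k) ≤ log^4 a + 8 log^3 (2a) + |w| log^2 (2a) ≤ log^5 a - 1` for large `a`. -/
def S_DET : Prop := ∀ (d j : ℕ) (w : ℝ), Cas d j → ∃ a₀ : ℕ, 16 ≤ a₀ ∧
  (∀ x y : ℝ, a₀ ≤ x → x ≤ y → x + len j w x ≤ y + len j w y) ∧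
  (∀ x : ℝ, a₀ ≤ x → 2 * (d : ℝ) + 2 < len j w x) ∧
  (∀ (Ω : Type u) (A : ℕ → Set Ω) (a k l : ℕ), a₀ ≤ a → k ≤ l → Cl A d j w a l ⊆ Cl A d j w a k) ∧
  (∀ (Ω : Type u) (A : ℕ → Set Ω) (a : ℕ) (u v : ℝ), 3 ≤ a → u ≤ v → Gap A d j v a ⊆ Gap A d j u a) ∧
  (∀ (Ω : Type u) (A : ℕ → Set Ω) (a k : ℕ), a₀ ≤ a → k ≤ LJ j a →
    Loc A (Finset.Icc a (a + LL a)) (fun ω => ω ∈ Cl A d j w a k)) ∧
  (∀ a : ℕ, a₀ ≤ a → len j w a ≤ LJ j a)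

/-! ## B. Asymptotics of the probabilities -/

/-- QAS0, from LOC. The case `d = 0`, `j = 1`.
PROOF. `Cl A 0 1 w a k = A a ∩ ⋂_{a < p < a + y} (A p)ᶜ`, `y = k + len 1 w (a + k)`; the probability is
`(1 / log a) ∏ (1 - 1 / log p)` (induction with LOC (3)). The number `m` of the `p` is in `[y - 1, y]`,
`y = log² a + w log a + k + O(log a · k / a)`. For these `p`: `1 / log p = 1 / log a + O(m / (a log² a))`,
and `log (1 - t) = - t - t² / 2 + O(t³)`. (1) `k ≤ K log a`: `∑ log (1 - 1 / log p) = - m / log a -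
m / (2 log² a) + O(1 / log a) = - log a - w - k / log a - 1 / 2 + O(1 / log a)`; multiply by `a`.
(2) `1 - t ≤ exp (- t)`, `m ≥ k + log² a - |w| log (2 a) - 1`, `log p ≤ log a + 4 log³ a / a`, so
`∑ 1 / log p ≥ m / log a - 1 ≥ log a + k / log a - C'`. -/
def S_QAS0 : Prop := ∀ (Ω : Type u) [MeasurableSpace Ω] (μ : Measure Ω) [IsProbabilityMeasure μ]
  (A : ℕ → Set Ω), CramerModel μ A → ∀ w : ℝ,
  (∀ K : ℝ, ∃ (C : ℝ) (a₀ : ℕ), ∀ a k : ℕ, a₀ ≤ a → (k : ℝ) ≤ K * Real.log a →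
    |μ.real (Cl A 0 1 w a k) * (a * Real.log a) -
      lamc 1 * Real.exp (-w - k / Real.log a ^ 1)| ≤ C / √(Real.log a)) ∧
  ∃ (C : ℝ) (a₀ : ℕ), 0 < C ∧ 3 ≤ a₀ ∧ ∀ a k : ℕ, a₀ ≤ a → k ≤ LJ 1 a →
    μ.real (Cl A 0 1 w a k) * (a * Real.log a) ≤ C * Real.exp (-(k : ℝ) / (2 * Real.log a ^ 1))

/-- RUN. `0 < t ≤ 1/4`, all `p i` in `[t - t^9, t]`.
PROOF. `r_n = Rn p (n+1) / Rn p n` satisfies `r_0 = 1`, `r_{n+1} = (1 - p_{n+1}) + p_{n+1} (1 - p_n) / r_n`.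
By induction `1 - 2t² ≤ r_n ≤ 1`. If `r_n = 1 + x_n` with `|x_n| ≤ 2 t²`:
`r_{n+1} = 1 - p_{n+1} + p_{n+1} (1 - p_n) (1 - x_n + O(x_n²))`, so `x_{n+1} = - t² - t x_n + O(t⁴)`
(using `|p_i - t| ≤ t^9`). Hence `x_1 = - t² + O(t³)`, `x_n = - t² + t³ + O(t⁴)` for `n ≥ 2`, and
`log Rn p n = ∑ log (1 + x_i) = - n (t² - t³) + O(t + n t⁴)`. -/
def S_RUN : Prop := ∃ C : ℝ, ∀ (t : ℝ) (p : ℕ → ℝ) (n : ℕ), 0 < t → t ≤ 1 / 4 →
  (∀ i < n, t - t ^ 9 ≤ p i ∧ p i ≤ t) →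
  0 < Rn p n ∧ |Real.log (Rn p n) + n * (t ^ 2 - t ^ 3)| ≤ C * (t + n * t ^ 4)

/-- NOP, from LOC. The probability of no pair in `[s, s + n d)` (`d ≥ 1`) is the product over the
residue classes. PROOF. The classes `{s + c + i d}`, `c < d`, use disjoint coordinates (LOC (3), induction
on the number of classes). In one class, with `B_n` = no two consecutive among the first `n`:
`B_{n+2} = (B_{n+1} ∩ not chosen (n+1)) ⊔ (B_n ∩ not chosen n ∩ chosen (n+1))` (disjoint), LOC (3). -/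
def S_NOP : Prop := ∀ (Ω : Type u) [MeasurableSpace Ω] (μ : Measure Ω) [IsProbabilityMeasure μ]
  (A : ℕ → Set Ω), CramerModel μ A → ∀ d s n : ℕ, 1 ≤ d → 3 ≤ s →
  μ.real (NoPat A d s (s + n * d)) =
    ∏ c ∈ Finset.range d, Rn (fun i => 1 / Real.log ((s + c + i * d : ℕ) : ℝ)) n

/-- QAS1, from LOC, NOP, RUN. The case `d ≥ 1`, `j = 2`.
PROOF. Let `e = ⌈a + k + len 2 w (a + k)⌉` (a pair at `m` is allowed iff `m + d < e`). Upper bound: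
`Cl ⊆ (A a ∩ A (a+d)) ∩ NoPat A d (a+d+1) e`, independent. Lower bound: `Cl` contains the event that
`a`, `a + d` are chosen, no other number in `(a, a + 2 d]` is chosen, and `NoPat A d (a + 2d + 1) e`.
`NoPat A d s (s + n₂ d) ⊆ NoPat A d s e ⊆ NoPat A d s (s + n₁ d)` for `s + n₁ d ≤ e ≤ s + n₂ d`,
`n₂ = n₁ + 1`. NOP and RUN with `t = 1 / log a`: `n d = y + O(1)`, `y = k + len 2 w (a + k)`. So
`μ(Cl) = t² (1 + O(t)) exp (- y (t² - t³) + O(t + y t⁴))`. (1) `k ≤ K log² a`: `y t² = log a - log log a + w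
+ k / log² a + o(1/log a)`, `y t³ = 1 + O(log log a / log a)`. (2) `k ≤ log⁴ a`: `y t² ≥ log a - log log a
- |w| - 1 + k / log² a`, `y t³ ≤ 2 + k / log³ a`, `y t⁴ ≤ 2`, and `k / log² a - k / log³ a ≥
k / (2 log² a)`. -/
def S_QAS1 : Prop := ∀ (Ω : Type u) [MeasurableSpace Ω] (μ : Measure Ω) [IsProbabilityMeasure μ]
  (A : ℕ → Set Ω), CramerModel μ A → ∀ (d : ℕ) (w : ℝ), 1 ≤ d →
  (∀ K : ℝ, ∃ (C : ℝ) (a₀ : ℕ), ∀ a k : ℕ, a₀ ≤ a → (k : ℝ) ≤ K * Real.log a ^ 2 →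
    |μ.real (Cl A d 2 w a k) * (a * Real.log a) -
      lamc 2 * Real.exp (-w - k / Real.log a ^ 2)| ≤ C / √(Real.log a)) ∧
  ∃ (C : ℝ) (a₀ : ℕ), 0 < C ∧ 3 ≤ a₀ ∧ ∀ a k : ℕ, a₀ ≤ a → k ≤ LJ 2 a →
    μ.real (Cl A d 2 w a k) * (a * Real.log a) ≤ C * Real.exp (-(k : ℝ) / (2 * Real.log a ^ 2))

/-- QAS: both cases (the assembler derives it from QAS0 and QAS1). -/
def S_QAS : Prop := ∀ (Ω : Type u) [MeasurableSpace Ω] (μ : Measure Ω) [IsProbabilityMeasure μ]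
  (A : ℕ → Set Ω), CramerModel μ A → ∀ (d j : ℕ) (w : ℝ), Cas d j →
  (∀ K : ℝ, ∃ (C : ℝ) (a₀ : ℕ), ∀ a k : ℕ, a₀ ≤ a → (k : ℝ) ≤ K * Real.log a ^ j →
    |μ.real (Cl A d j w a k) * (a * Real.log a) -
      lamc j * Real.exp (-w - k / Real.log a ^ j)| ≤ C / √(Real.log a)) ∧
  ∃ (C : ℝ) (a₀ : ℕ), 0 < C ∧ 3 ≤ a₀ ∧ ∀ a k : ℕ, a₀ ≤ a → k ≤ LJ j a →
    μ.real (Cl A d j w a k) * (a * Real.log a) ≤ C * Real.exp (-(k : ℝ) / (2 * Real.log a ^ j))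

/-- EXC, from LOC, DET, QAS. Two gaps.
PROOF. `Gap A d j w a = Cl A d j w a 0`. If `b + d < a + len a` the intersection is empty (pair at `b`).
If `b ≥ a + len a`, then `Gap w a` depends on coordinates in `[a, b)`, `Gap w b` on coordinates `≥ b`:
independent. Otherwise `a + len a - d ≤ b < a + len a` and `b > a + d` (DET (2)), so
`Gap w a ∩ Gap w b ⊆ G' ∩ Gap w b`, `G' = Pat a ∩ (no pair at m for a < m, m + d < b)`, and `G'` depends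
on coordinates in `[a, b)`: independent; `G' ⊆ Gap A d j (w - 1) a` (for large `a`
`len j (w-1) a = len j w a - log^j a ≤ len j w a - d`); by QAS with `k = 0`
`μ (Gap (w-1) a) ≤ C μ (Gap w a)`. -/
def S_EXC : Prop := ∀ (Ω : Type u) [MeasurableSpace Ω] (μ : Measure Ω) [IsProbabilityMeasure μ]
  (A : ℕ → Set Ω), CramerModel μ A → ∀ (d j : ℕ) (w : ℝ), Cas d j → ∃ (C : ℝ) (a₀ : ℕ), 0 < C ∧
  ∀ a b : ℕ, a₀ ≤ a → a < b →
    μ.real (Gap A d j w a ∩ Gap A d j w b) ≤ C * (μ.real (Gap A d j w a) * μ.real (Gap A d j w b))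

/-- HARM. PROOF. `1 / (t log t)` is decreasing with antiderivative `log log t`, `1 / (t log^{3/2} t)` is
decreasing with antiderivative `- 2 / √(log t)`; compare the sums with the integrals (or telescope with
the mean value theorem: `loglog (a+1) - loglog a ≤ 1/(a log a) ≤ loglog a - loglog (a-1)`). -/
def S_HARM : Prop := ∃ C : ℝ, ∀ x y : ℝ, 4 ≤ x → x ≤ y →
  |∑ a ∈ Finset.Ioc ⌊x⌋₊ ⌊y⌋₊, 1 / ((a : ℝ) * Real.log a) -
    (Real.log (Real.log y) - Real.log (Real.log x))| ≤ C / x ∧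
  ∑ a ∈ Finset.Ioc ⌊x⌋₊ ⌊y⌋₊, 1 / ((a : ℝ) * Real.log a * √(Real.log a)) ≤ C / √(Real.log x)

/-- SUMQ, from QAS (`k = 0`) and HARM. -/
def S_SUMQ : Prop := ∀ (Ω : Type u) [MeasurableSpace Ω] (μ : Measure Ω) [IsProbabilityMeasure μ]
  (A : ℕ → Set Ω), CramerModel μ A → ∀ (d j : ℕ) (w : ℝ), Cas d j → ∃ C x₀ : ℝ, 4 ≤ x₀ ∧
  ∀ x y : ℝ, x₀ ≤ x → x ≤ y →
  |∑ a ∈ Finset.Ioc ⌊x⌋₊ ⌊y⌋₊, μ.real (Gap A d j w a) -
    lamc j * Real.exp (-w) * (Real.log (Real.log y) - Real.log (Real.log x))| ≤ C / √(Real.log x)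

/-! ## C. The product formula -/

/-- AB. PROOF. Write `Π_a = ∏_{b ∈ Ioc M a} F b` (norm at most 1), `X_a = F a - 1` (norm at most 2, zero
unless `F a ≠ 1`), `R_a = ∏_{b ∈ Ioc M a} (1 + E X_b)` (`|1 + E X_b| = |E F b| ≤ 1`). For `M < a ≤ N`:
`E Π_a = E Π_{a-1} + E [X_a Π_{a-1}]`. If `F b = 1` for all `b` with `pr a < b < a`, `M < b`, then
`Π_{a-1} = Π_{pr a}`; so `|E [X_a (Π_{a-1} - Π_{pr a})]| ≤ 4 P(F a ≠ 1, F b ≠ 1 for some such b)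
≤ 4 r a ∑_b r b`, and `|E X_a| |E Π_{pr a} - E Π_{a-1}| ≤ 2 r a · 2 ∑_b P(F b ≠ 1) ≤ 4 r a ∑_b r b`.
With the hypothesis `E [X_a Π_{pr a}] = E X_a E Π_{pr a}`:
`|E Π_a - (1 + E X_a) E Π_{a-1}| ≤ 8 r a ∑_b r b`. Induction on `N`. -/
def S_AB : Prop := ∀ (Ω : Type u) [MeasurableSpace Ω] (μ : Measure Ω) [IsProbabilityMeasure μ]
  (F : ℕ → Ω → ℂ) (r : ℕ → ℝ) (pr : ℕ → ℕ) (M N : ℕ),
  (∀ a, Measurable (F a)) → (∀ a ω, ‖F a ω‖ ≤ 1) → (∀ a, 0 ≤ r a) → (∀ a ∈ Finset.Ioc M N, pr a < a) →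
  (∀ a ∈ Finset.Ioc M N, ∫ ω, (F a ω - 1) * ∏ b ∈ Finset.Ioc M (pr a), F b ω ∂μ =
    (∫ ω, (F a ω - 1) ∂μ) * ∫ ω, ∏ b ∈ Finset.Ioc M (pr a), F b ω ∂μ) →
  (∀ a ∈ Finset.Ioc M N, μ.real {ω | F a ω ≠ 1} ≤ r a) →
  (∀ a ∈ Finset.Ioc M N, ∀ b ∈ Finset.Ioc M N, pr a < b → b < a →
    μ.real {ω | F a ω ≠ 1 ∧ F b ω ≠ 1} ≤ r a * r b) →
  ‖∫ ω, ∏ a ∈ Finset.Ioc M N, F a ω ∂μ - ∏ a ∈ Finset.Ioc M N, (1 + ∫ ω, (F a ω - 1) ∂μ)‖ ≤
    ∑ a ∈ Finset.Ioc M N, 8 * r a * ∑ b ∈ (Finset.Ioo M a).filter (pr a < ·), r b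

/-- EXPP. PROOF. Telescoping (`|1 + z| ≤ 1`, `|exp z| ≤ 1` as `Re z ≤ 0`):
`|∏ (1 + z) - ∏ exp z| ≤ ∑ |1 + z - exp z| ≤ ∑ |z|² ≤ ∑ 4 r²` (`Complex.norm_exp_sub_one_sub_id_le`). -/
def S_EXPP : Prop := ∀ (s : Finset ℕ) (z : ℕ → ℂ) (r : ℕ → ℝ), (∀ a ∈ s, ‖1 + z a‖ ≤ 1) →
  (∀ a ∈ s, ‖z a‖ ≤ 2 * r a) → (∀ a ∈ s, r a ≤ 1 / 2) →
  ‖∏ a ∈ s, (1 + z a) - cexp (∑ a ∈ s, z a)‖ ≤ ∑ a ∈ s, 4 * r a ^ 2

/-- ERR. PROOF. For `a` large and `a - 1 - LL a < b < a`: `b ≥ a / 2`, `C / (b log b) ≤ 3 C / (a log a)`,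
at most `log⁵ a + 1` such `b`. So the sum is at most `∑_{a > M} C' log³ a / a² ≤ C'' log³ M / M`. (One
may use `log³ a ≤ K √a` etc. to simplify.) -/
def S_ERR : Prop := ∀ C : ℝ, 0 < C → ∃ M₀ : ℕ, ∀ M N : ℕ, M₀ ≤ M →
  ∑ a ∈ Finset.Ioc M N, (8 * (C / (a * Real.log a)) *
      ∑ b ∈ (Finset.Ioo M a).filter (a - 1 - LL a < ·), C / ((b : ℝ) * Real.log b) +
    4 * (C / (a * Real.log a)) ^ 2) ≤ 1 / Real.log M

/-- MAS, from LOC, EXC, QAS, AB, EXPP, ERR. The master formula.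
PROOF. `r a = C / (a log a)` for `a > M`, `r a = 0` else, with `μ (Gap a) ≤ r a` (QAS (2) with `k = 0`,
`Gap A d j w a = Cl A d j w a 0`) and `μ (Gap a ∩ Gap b) ≤ r a r b` (EXC, enlarge `C`);
`pr a = a - 1 - LL a` (natural subtraction). For `b ≤ pr a`, `b + LL b < a` (`LL` is monotone), so
`∏_{b ∈ Ioc M (pr a)} F b` depends on coordinates `< a` and `F a` on coordinates `≥ a`: LOC (2).
`{F a ≠ 1} ⊆ Gap A d j w a`. Then AB, EXPP with `z a = ∫ (F a - 1)` (`|z a| ≤ 2 μ(F a ≠ 1)`,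
`1 + z a = ∫ F a`), ERR. (Redefine `F a := 1` outside `Ioc M N` so that all `F a` are measurable.) -/
def S_MAS : Prop := ∀ (Ω : Type u) [MeasurableSpace Ω] (μ : Measure Ω) [IsProbabilityMeasure μ]
  (A : ℕ → Set Ω), CramerModel μ A → ∀ (d j : ℕ) (w : ℝ), Cas d j →
  ∃ M₀ : ℕ, ∀ M N : ℕ, M₀ ≤ M → ∀ F : ℕ → Ω → ℂ,
  (∀ a ω, ‖F a ω‖ ≤ 1) →
  (∀ a ∈ Finset.Ioc M N, Loc A (Finset.Icc a (a + LL a)) (F a)) →
  (∀ a ∈ Finset.Ioc M N, ∀ ω, ω ∉ Gap A d j w a → F a ω = 1) →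
  ‖∫ ω, ∏ a ∈ Finset.Ioc M N, F a ω ∂μ - cexp (∑ a ∈ Finset.Ioc M N, ∫ ω, (F a ω - 1) ∂μ)‖ ≤
    1 / Real.log M

/-! ## D. The Poisson laws -/

/-- PMF. PROOF. Sequences `X_n → ∞` (`tendsto_of_seq_tendsto`). The law of `(N X · j)_j` in
`EuclideanSpace ℝ (Fin k)` and the law of a vector of independent Poisson variables
(`Measure.pi`, charFun of a product; or directly a countable sum of Dirac masses):
`ProbabilityMeasure.tendsto_of_tendsto_charFun`; the set `∏ (n_j - 1/2, n_j + 1/2)` has a boundary of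
measure zero for the limit: `ProbabilityMeasure.tendsto_measure_of_null_frontier_of_tendsto`.
(Alternatively Fourier inversion on the torus and dominated convergence, coordinate by coordinate.) -/
def S_PMF : Prop := ∀ (Ω : Type u) [MeasurableSpace Ω] (μ : Measure Ω) [IsProbabilityMeasure μ] (k : ℕ)
  (N : ℝ → Ω → Fin k → ℕ) (m : Fin k → ℝ), (∀ X, Measurable (N X)) → (∀ j, 0 ≤ m j) →
  (∀ θ : Fin k → ℝ, Tendsto (fun X : ℝ => ∫ ω, cexp (I * ∑ j, (θ j : ℂ) * (N X ω j : ℂ)) ∂μ) atTop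
    (𝓝 (cexp (∑ j, (m j : ℂ) * (cexp (I * θ j) - 1))))) →
  ∀ n : Fin k → ℕ, Tendsto (fun X : ℝ => μ.real {ω | ∀ j, N X ω j = n j}) atTop
    (𝓝 (∏ j, Real.exp (-m j) * m j ^ n j / (n j).factorial))

/-- CHF, from MAS, DET, SUMQ. Characteristic functions of the counts.
PROOF. `k = 0` is trivial. Let `w ≤ u i` for all `i`. `X` large, `M = ⌊X ^ (min s)⌋₊`, `N = ⌊X ^ (max t)⌋₊`
(`x < a ≤ y`, `a ∈ ℕ`, iff `a ∈ Ioc ⌊x⌋₊ ⌊y⌋₊`). `c i a ω = 1` if `X ^ s i < a ≤ X ^ t i`,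
`ω ∈ Gap A d j (u i) a` and `ω ∉ Gap A d j v' a` if `v i = v'` is finite, else `0`. `Num_i = ∑_a c i a ω`,
`F a ω = exp (i ∑_i θ_i c i a ω)`, `∏ F = exp (i ∑ θ_i Num_i)`. `Gap` decreases in `u` (DET (4)), so
`F a = 1` outside `Gap A d j w a`; `Loc` by DET (5) (`Gap A d j u a = Cl A d j u a 0`). The boxes are disjoint,
so for each `a, ω` at most one `c i a ω` is `1` (if `c i a ω = c l a ω = 1` then
`(log a / log X, max (u i) (u l))` is in both boxes), and `F a ω - 1 = ∑_i (e^{iθ_i} - 1) c i a ω`. So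
`∑_a ∫ (F a - 1) = ∑_i (e^{iθ_i} - 1) ∑_{X ^ s i < a ≤ X ^ t i} (μ (Gap (u i) a) - μ (Gap (v i) a))` and SUMQ
(`log log X ^ t - log log X ^ s = log (t / s)`). MAS. -/
def S_CHF : Prop := ∀ (Ω : Type u) [MeasurableSpace Ω] (μ : Measure Ω) [IsProbabilityMeasure μ]
  (A : ℕ → Set Ω), CramerModel μ A → ∀ (d j : ℕ), Cas d j →
  ∀ (k : ℕ) (s t u : Fin k → ℝ) (v : Fin k → EReal),
  (∀ i, 0 < s i ∧ s i < t i ∧ (u i : EReal) < v i) →
  (∀ i l, i ≠ l → Disjoint (Ioc (s i) (t i) ×ˢ Ico (u i : EReal) (v i))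
    (Ioc (s l) (t l) ×ˢ Ico (u l : EReal) (v l))) →
  ∀ θ : Fin k → ℝ, Tendsto (fun X : ℝ =>
    ∫ ω, cexp (I * ∑ i, (θ i : ℂ) * (Num A d j (u i) (v i) (X ^ s i) (X ^ t i) ω : ℂ)) ∂μ) atTop
    (𝓝 (cexp (∑ i, (mean j (s i) (t i) (u i) (v i) : ℂ) * (cexp (I * θ i) - 1))))

/-- POI, from LOC, CHF, PMF. (`Num` is measurable: it depends on finitely many coordinates, LOC (1);
`mean ≥ 0`.) -/
def S_POI : Prop := ∀ (Ω : Type u) [MeasurableSpace Ω] (μ : Measure Ω) [IsProbabilityMeasure μ]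
  (A : ℕ → Set Ω), CramerModel μ A → ∀ (d j : ℕ), Cas d j →
  ∀ (k : ℕ) (s t u : Fin k → ℝ) (v : Fin k → EReal),
  (∀ i, 0 < s i ∧ s i < t i ∧ (u i : EReal) < v i) →
  (∀ i l, i ≠ l → Disjoint (Ioc (s i) (t i) ×ˢ Ico (u i : EReal) (v i))
    (Ioc (s l) (t l) ×ˢ Ico (u l : EReal) (v l))) →
  ∀ n : Fin k → ℕ, Tendsto (fun X : ℝ =>
    μ.real {ω | ∀ i, Num A d j (u i) (v i) (X ^ s i) (X ^ t i) ω = n i}) atTop
    (𝓝 (∏ i, Real.exp (-mean j (s i) (t i) (u i) (v i)) * mean j (s i) (t i) (u i) (v i) ^ n i /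
      (n i).factorial))

/-! ## E. Waiting times, almost sure laws -/

/-- PE, from MAS, DET, SUMQ. PROOF. `F a = 1 - 1_{Gap A d j w a}` for `a ∈ Ioc ⌊x⌋₊ ⌊y⌋₊`:
`μ.real (NoGap A d j w x y) = ∫ ∏ F a`, `∑ ∫ (F a - 1) = - ∑ μ (Gap a)`; MAS, SUMQ;
`|exp (-z + ε) - exp (-z)| ≤ 2 |ε|` for `z ≥ 0`, `|ε| ≤ 1`;
`exp (- λ_w (log log y - log log x)) = (log y / log x) ^ (-λ_w)`; `log ⌊x⌋₊ ≥ log x / 2`. -/
def S_PE : Prop := ∀ (Ω : Type u) [MeasurableSpace Ω] (μ : Measure Ω) [IsProbabilityMeasure μ]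
  (A : ℕ → Set Ω), CramerModel μ A → ∀ (d j : ℕ) (w : ℝ), Cas d j → ∃ C x₀ : ℝ, 0 < C ∧ 4 ≤ x₀ ∧
  ∀ x y : ℝ, x₀ ≤ x → x ≤ y →
  |μ.real (NoGap A d j w x y) - (Real.log y / Real.log x) ^ (-(lamc j * Real.exp (-w)))| ≤
    C / √(Real.log x)

/-- CMP, from DET. Gaps and counterexamples.
PROOF. `a` in `(X, Y]` with a long gap: `x = a` is a counterexample. Conversely let
`x ∈ (X, Y]` be a counterexample, and let there be a pair at `m`, `X < m`, `m + d < X + len X`. `m ≤ x` since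
otherwise `x < m`, `m + d < X + len X ≤ x + len x`. Let `a` be the largest integer `≤ x` with a pair;
`a ≥ m > X` and there is no pair at `m'` for `a < m'`, `m' + d < x + len x`, hence none with
`m' + d < a + len a`, so `a` contradicts `NoGap`. -/
def S_CMP : Prop := ∀ (d j : ℕ) (w : ℝ), Cas d j → ∃ x₀ : ℝ, ∀ (Ω : Type u) (A : ℕ → Set Ω)
  (X Y : ℝ), x₀ ≤ X → X ≤ Y →
  NoGap A d j w X Y ∩ (Fails A d j w X)ᶜ ⊆ Holds A d j w X Y ∧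
  Holds A d j w X Y ⊆ NoGap A d j w X Y

/-- PFL, from LOC, DET, QAS. PROOF. `Fails A d j w X ⊆ Fails A d j w ⌊X⌋₊` (DET (1)). Let `a = ⌊X⌋₊`,
`F' =` no pair at `m` for `a + 2 d < m`, `m + d < a + len a`; `Fails a ⊆ F'`. The event that `a`, `a + d` are
chosen, all other numbers in `(a, a + 2d]` are not, and `F'`, is contained in `Gap A d j w a` and has
probability `≥ (1 / log (2a))² (1/12)^{2d} μ(F')`... (independent coordinates; `1 - 1/log p ≥ 1/12` for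
`p ≥ 3`, or `≥ 1/2` for `p ≥ 8`). So `μ(F') ≤ C log² a · μ (Gap a) ≤ C' log a / a` (QAS (2), `k = 0`). -/
def S_PFL : Prop := ∀ (Ω : Type u) [MeasurableSpace Ω] (μ : Measure Ω) [IsProbabilityMeasure μ]
  (A : ℕ → Set Ω), CramerModel μ A → ∀ (d j : ℕ) (w : ℝ), Cas d j → ∃ C x₀ : ℝ, 0 < C ∧ 4 ≤ x₀ ∧
  ∀ X : ℝ, x₀ ≤ X → μ.real (Fails A d j w X) ≤ C / √X

/-- PAR, from PE, CMP, PFL. The waiting time has a Pareto law. (`log (X ^ c) / log X = c`;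
`μ.real` is monotone and subadditive for all sets, no measurability of `Holds` is needed.) -/
def S_PAR : Prop := ∀ (Ω : Type u) [MeasurableSpace Ω] (μ : Measure Ω) [IsProbabilityMeasure μ]
  (A : ℕ → Set Ω), CramerModel μ A → ∀ (d j : ℕ) (w c : ℝ), Cas d j → 1 ≤ c →
  Tendsto (fun X : ℝ => μ.real (Holds A d j w X (X ^ c))) atTop
    (𝓝 (c ^ (-(lamc j * Real.exp (-w)))))

/-- BCA, from PE. PROOF. Let `λ = lamc j exp (-w)`, `κ λ > 1`; `κ' < κ`, `κ' λ > 1`,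
`x_i = exp (exp i)`, `y_i = x_i ^ (i ^ κ')`. `μ.real (NoGap x_i y_i) ≤ i ^ (-λ κ') + C e^{-i/2}` is
summable: Borel–Cantelli (`measure_limsup_atTop_eq_zero` / `measure_setOf_frequently_eq_zero`). So
almost surely for large `i` some `a ∈ (x_i, y_i]` is in `Gap a`, and `x = a` is in `Fails`.
For large `X` let `x_{i-1} ≤ X < x_i`: `X < x_i` and `y_i = exp (e^i i^κ') ≤
exp (log X (log log X) ^ κ)` as `log X ≥ e^{i-1}`, `log log X ≥ i - 1`. -/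
def S_BCA : Prop := ∀ (Ω : Type u) [MeasurableSpace Ω] (μ : Measure Ω) [IsProbabilityMeasure μ]
  (A : ℕ → Set Ω), CramerModel μ A → ∀ (d j : ℕ) (w κ : ℝ), Cas d j → 1 < κ * (lamc j * Real.exp (-w)) →
  ∀ᵐ ω ∂μ, ∀ᶠ X : ℝ in atTop, ω ∉ Holds A d j w X (X ^ (Real.log (Real.log X) ^ κ))

/-- BCB, from PE, LOC, DET, CMP, PFL. PROOF. Let `λ = lamc j exp (-w)`, `κ λ < 1`; we may assume
`κ > 0`. Take `κ < κ''` and `η > 0` with `(1 + η) κ'' λ ≤ 1`. `t_i = i ^ (1 + η)`,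
`x_i = exp (exp t_i)`, `c_i = t_i ^ κ''`, `y_i = x_i ^ c_i`. The events `E_i = NoGap x_i y_i`
depend only on the coordinates in `(x_i, y_i + LL y_i]` (DET (5)), and these intervals are disjoint for
large `i` (`log log y_i = t_i + κ'' log t_i`, `t_{i+1} - t_i ≥ i ^ η`), so the `E_i`, `i ≥ i₀`, are
independent (`iIndepSet`: by induction on the finite set with LOC (3)). `μ(E_i) ≥ c_i ^ (-λ) - C e^{-t_i/2}`,
`∑ c_i ^ (-λ) = ∑ i ^ (-(1+η) κ'' λ) = ∞`: the second Borel–Cantelli lemma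
(`measure_limsup_eq_one`) gives infinitely many `E_i` almost surely. `∑ μ(Fails (2 x_i)) < ∞`
(PFL): almost surely `Fails (2 x_i)` for finitely many `i`. `NoGap x_i y_i ⊆ NoGap (2 x_i) y_i`, so CMP
gives `Holds (2 x_i) y_i` infinitely often; with `X = 2 x_i`:
`X ^ ((log log X) ^ κ) ≤ y_i` for large `i` (`log X ≤ 2 e^{t_i}`, `(log log X)^κ ≤ (t_i + 1) ^ κ`). -/
def S_BCB : Prop := ∀ (Ω : Type u) [MeasurableSpace Ω] (μ : Measure Ω) [IsProbabilityMeasure μ]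
  (A : ℕ → Set Ω), CramerModel μ A → ∀ (d j : ℕ) (w κ : ℝ), Cas d j → κ * (lamc j * Real.exp (-w)) < 1 →
  ∀ᵐ ω ∂μ, ∃ᶠ X : ℝ in atTop, ω ∈ Holds A d j w X (X ^ (Real.log (Real.log X) ^ κ))

/-! ## F. The central limit theorem -/

/-- CDF. PROOF. Sequences `X_n → ∞`; `ProbabilityMeasure.tendsto_of_tendsto_charFun` for the laws of
`Z X` (`Measure.map`), and `tendsto_measure_of_null_frontier_of_tendsto` for `Iic y`
(frontier `{y}`, a null set). -/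
def S_CDF : Prop := ∀ (Ω : Type u) [MeasurableSpace Ω] (μ : Measure Ω) [IsProbabilityMeasure μ]
  (Z : ℝ → Ω → ℝ) (ν : Measure ℝ) [IsProbabilityMeasure ν], (∀ y : ℝ, ν {y} = 0) →
  (∀ X, Measurable (Z X)) →
  (∀ θ : ℝ, Tendsto (fun X : ℝ => ∫ ω, cexp (I * θ * Z X ω) ∂μ) atTop (𝓝 (charFun ν θ))) →
  ∀ y : ℝ, Tendsto (fun X : ℝ => μ.real {ω | Z X ω ≤ y}) atTop (𝓝 (ν.real (Iic y)))

/-- CLT, from MAS, LOC, DET, SUMQ, CDF. PROOF. `λ = lamc j exp (-w)`, `T = log log X`,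
`M = ⌊exp (exp (T ^ (1/4)))⌋₊`, `φ = θ / √(λ T)`. `N₁ =` the number of `a ∈ Ioc 16 M` with `Gap`, mean
`∑ μ(Gap a) ≤ C + 2 λ T ^ (1/4) = o(√T)` (`a < a₀`: trivial bound), so `E |exp (i φ N₁) - 1| → 0`. `N₂ =` the
number of `a ∈ Ioc M ⌊X⌋₊`: MAS with `F a = exp (i φ 1_{Gap})`:
`E exp (i φ N₂) = exp ((e^{iφ} - 1) ∑ μ (Gap a)) + O(1 / log M)`,
`∑ = λ (T - T ^ (1/4)) + O(1)` (SUMQ), `(e^{iφ} - 1) (λ T + o(√T)) - i φ λ T → - θ² / 2`. So the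
characteristic function of `(N - λ T) / √(λ T)` tends to `exp (- θ² / 2)`
(`charFun_gaussianReal`), and CDF. -/
def S_CLT : Prop := ∀ (Ω : Type u) [MeasurableSpace Ω] (μ : Measure Ω) [IsProbabilityMeasure μ]
  (A : ℕ → Set Ω), CramerModel μ A → ∀ (d j : ℕ) (w y : ℝ), Cas d j →
  Tendsto (fun X : ℝ => μ.real {ω | (Num A d j w ⊤ 16 X ω : ℝ) ≤
    lamc j * Real.exp (-w) * Real.log (Real.log X) +
      y * √(lamc j * Real.exp (-w) * Real.log (Real.log X))}) atTop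
    (𝓝 ((gaussianReal 0 1).real (Iic y)))

/-! ## G. The Gamma law -/

/-- GCH. PROOF. `f(θ) = ∫_0^∞ x^(λ-1) e^{-x} e^{iθx} dx / Γ(λ)`, `f' = i λ f / (1 - iθ)` (differentiate
under the integral and integrate by parts), so `f(θ) exp (λ log (1 - iθ))` is constant `= 1`; or
`Complex.integral_cpow_mul_exp_neg_mul_Ioi` and analytic continuation; or a library result on
`∫ t^(a-1) e^{-rt} dt` for complex `r`. -/
def S_GCH : Prop := ∀ lam : ℝ, 0 < lam → ∀ θ : ℝ,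
  charFun (gammaMeasure lam 1) θ = cexp (-(lam : ℂ) * Complex.log (1 - I * θ))

/-- RIEM (`j = 1, 2`). PROOF. Riemann sums in the variable `t = log a / L`, `L = log X`: the sum is
`∑ (1 / a) g(log a / L) / L`, `g(t) = iθ t^(j-1) / (1 - iθ t^j)`; `g` is Lipschitz on `[0, 1]`; compare
`g(log a / L) / a` with `∫_a^{a+1} g(log x / L) dx / x`: the difference is at most `C / a²`. And
`∫_0^1 iθ t^(j-1) / (1 - iθ t^j) dt = - log (1 - iθ) / j`. -/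
def S_RIEM : Prop := ∀ (j : ℕ) (θ : ℝ) (M : ℕ), 1 ≤ j → 2 ≤ M → Tendsto (fun X : ℝ =>
  ∑ a ∈ Finset.Ioc M ⌊X⌋₊, (I * θ * (Real.log a / Real.log X : ℝ) ^ j) /
    (a * Real.log a * (1 - I * θ * (Real.log a / Real.log X : ℝ) ^ j)))
  atTop (𝓝 (-Complex.log (1 - I * θ) / j))

/-- GEO, from QAS. PROOF. Let `L = log^j X ≥ l = log^j a`, `φ = θ / L`, `a ≥ a₁`. Split `k ≤ K l` and
`K l < k < LJ j a` with `K` large: by QAS (2) the second part is at most `C ∑_{k > K l} e^{-k/(2l)} ≤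
C' l e^{-K/2}`; the first part is, by QAS (1), `λ_w ∑_{k ≤ K l} e^{(iφ - 1/l) k} + O(K l / √(log a))`, and
`∑_{k ≥ 0} e^{(iφ - 1/l) k} = 1 / (1 - e^{iφ - 1/l})`, `|1 - e^{-z} - z| ≤ |z|²` for
`z = 1/l - iφ`, `|z| ≤ (1 + |θ|)/l`, `|z| ≥ 1/l`: `1 / (1 - e^{-z}) = 1/z + O(1)`, and
`1/z = l / (1 - iθ l / L)`. -/
def S_GEO : Prop := ∀ (Ω : Type u) [MeasurableSpace Ω] (μ : Measure Ω) [IsProbabilityMeasure μ]
  (A : ℕ → Set Ω), CramerModel μ A → ∀ (d j : ℕ) (w θ ε : ℝ), Cas d j → 0 < ε →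
  ∃ a₁ : ℕ, ∀ (a : ℕ) (X : ℝ), a₁ ≤ a → (a : ℝ) ≤ X →
  ‖∑ k ∈ Finset.range (LJ j a), cexp (I * (θ / Real.log X ^ j : ℝ) * k) *
      (μ.real (Cl A d j w a k) * (a * Real.log a) : ℝ) -
    (lamc j * Real.exp (-w) * Real.log a ^ j : ℝ) /
      (1 - I * θ * (Real.log a / Real.log X : ℝ) ^ j)‖ ≤ ε * Real.log a ^ j

/-- ASY, from GEO, RIEM. PROOF. By GEO the inner sum is
`(λ_w / (1 - iθ (log a / log X)^j) + O(ε)) log^j a / (a log a)` for `a ≥ a₁`; the finitely many `a < a₁`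
contribute `O(1 / log^j X)`; `e^{iθ/L} - 1 = iθ/L + O(1/L²)` with `L = log^j X`,
`∑_{a ≤ X} log^j a / (a log a) ≤ C L`; RIEM. -/
def S_ASY : Prop := ∀ (Ω : Type u) [MeasurableSpace Ω] (μ : Measure Ω) [IsProbabilityMeasure μ]
  (A : ℕ → Set Ω), CramerModel μ A → ∀ (d j : ℕ) (w θ : ℝ) (M : ℕ), Cas d j → 2 ≤ M →
  Tendsto (fun X : ℝ => ∑ a ∈ Finset.Ioc M ⌊X⌋₊, (cexp (I * (θ / Real.log X ^ j : ℝ)) - 1) *
    ∑ k ∈ Finset.range (LJ j a), cexp (I * (θ / Real.log X ^ j : ℝ) * k) *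
      (μ.real (Cl A d j w a k) : ℝ)) atTop
  (𝓝 (-(lamc j * Real.exp (-w) / j : ℝ) * Complex.log (1 - I * θ)))

/-- WA, from LOC, DET. PROOF. `Cl` decreases in `k` (DET (3)), so
`{k < LJ j a | ω ∈ Cl a k} = {0, ..., KK - 1}` and
`e^{iφ KK} - 1 = ∑_{k < KK} (e^{iφ(k+1)} - e^{iφk}) = (e^{iφ} - 1) ∑_{k < LJ} e^{iφk} 1_{Cl a k}`;
integrate (`Cl` is measurable by DET (5) and LOC (1)). `Gap = Cl · 0`. `Loc` from DET (5). -/
def S_WA : Prop := ∀ (d j : ℕ) (w : ℝ), Cas d j → ∃ a₀ : ℕ, ∀ (Ω : Type u) [MeasurableSpace Ω]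
  (μ : Measure Ω) [IsProbabilityMeasure μ] (A : ℕ → Set Ω), CramerModel μ A → ∀ a : ℕ, a₀ ≤ a →
  (∀ ω, ω ∉ Gap A d j w a → KK A d j w a ω = 0) ∧
  Loc A (Finset.Icc a (a + LL a)) (KK A d j w a) ∧
  ∀ φ : ℝ, ∫ ω, (cexp (I * φ * (KK A d j w a ω : ℂ)) - 1) ∂μ =
    (cexp (I * φ) - 1) * ∑ k ∈ Finset.range (LJ j a), cexp (I * φ * k) *
      (μ.real (Cl A d j w a k) : ℝ)

/-- VOL, from DET. Real and integer counterexamples.
PROOF. Let `n ≥ x₀` be an integer and `x ∈ (n, n + 1)`. `m > x` iff `m ≥ n + 1` iff `m > n`. If `x` is in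
`Fails`, so is `n` (`n + len n ≤ x + len x`). If `n + 1` is in `Fails` and there is no pair at `n + 1`,
then `x` is in `Fails`. So `1[n+1 ∈ Fails, no pair at n+1] ≤ volume (Fails ∩ (n, n+1)) ≤ 1[n ∈ Fails]`; sum
over `n` (`n + 1 ∈ Fails` with a pair at `n + 1` is a `Gap`); the part `x < x₀ + 1` and the end of the
range are bounded by a constant. -/
def S_VOL : Prop := ∀ (d j : ℕ) (w : ℝ), Cas d j → ∃ B : ℝ, ∀ (Ω : Type u) (A : ℕ → Set Ω)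
  (X : ℝ) (ω : Ω), 16 ≤ X →
  |vol A d j w X ω - ({n : ℕ | (16 : ℝ) < n ∧ (n : ℝ) ≤ X ∧ ω ∈ Fails A d j w n}.ncard : ℝ)| ≤
    B + (Num A d j w ⊤ 16 X ω : ℝ)

/-- CLU, from DET. Clusters of integer counterexamples, `D' = ∑_{a ∈ Ioc M ⌊X⌋₊} KK a ω`.
PROOF. (1) The pairs `(a, k)` with `a ∈ Ioc M ⌊X⌋₊`, `k < LJ j a`, `ω ∈ Cl a k`: `n = a + k` is in
`Fails n`, `n > M`; `a` is the last integer `≤ n` with a pair (a pair at `b ∈ (a, n]` has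
`b + d < n + len n`), so `(a, k) ↦ a + k` is injective; and `n ≤ X`, since otherwise there would be no pair
at `m` for `X < m`, `m + d < X + len X ≤ n + len n`, contradicting `ω ∉ Fails X`. (2) Let `M < n ≤ X`,
`ω ∈ Fails n`. If there is a pair at some `a ∈ (M, n]`, take the last: `n = a + k`, `ω ∈ Cl a k`;
`k < LJ j a` since otherwise `Cl a k ⊆ Cl a (LJ j a)` (DET (3)). If there is none, then `n < M + LJ j M` by
the second hypothesis: at most `LJ j M` such `n`. -/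
def S_CLU : Prop := ∀ (d j : ℕ) (w : ℝ), Cas d j → ∃ M₀ : ℕ, ∀ (Ω : Type u) (A : ℕ → Set Ω) (M : ℕ)
  (X : ℝ) (ω : Ω), M₀ ≤ M → (M : ℝ) ≤ X →
  (ω ∉ Fails A d j w X → ∑ a ∈ Finset.Ioc M ⌊X⌋₊, KK A d j w a ω ≤
    {n : ℕ | (M : ℝ) < n ∧ (n : ℝ) ≤ X ∧ ω ∈ Fails A d j w n}.ncard) ∧
  ((∀ a : ℕ, M < a → ω ∉ Cl A d j w a (LJ j a)) →
    (∃ m : ℕ, M < m ∧ m < M + LJ j M ∧ ω ∈ Pat A d m) →
    {n : ℕ | (M : ℝ) < n ∧ (n : ℝ) ≤ X ∧ ω ∈ Fails A d j w n}.ncard ≤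
      ∑ a ∈ Finset.Ioc M ⌊X⌋₊, KK A d j w a ω + LJ j M)

/-- SML, from DET, QAS, SUMQ, PFL. PROOF. (1) the union bound:
`∑_{a > M} μ (Cl a (LJ j a)) ≤ ∑_{a>M} C e^{-(log² a)/4} / (a log a)` (QAS (2) with `k = LJ j a ≥
log^(j+2) a / 2`), convergent, since `e^{-(log² a)/4} ≤ C'/a`. (2) If there is no pair at `m` for `M < m`,
`m < M + LJ j M`, then `ω ∈ Fails A d j w M` (`len M ≤ LJ j M`, DET (6)): PFL. (3) `E Num ≤ a₀ +
∑_{a₀ < a ≤ X} μ (Gap a) ≤ C + C' log log X` (SUMQ), Markov. -/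
def S_SML : Prop := ∀ (Ω : Type u) [MeasurableSpace Ω] (μ : Measure Ω) [IsProbabilityMeasure μ]
  (A : ℕ → Set Ω), CramerModel μ A → ∀ (d j : ℕ) (w ε : ℝ), Cas d j → 0 < ε →
  (∃ M₁ : ℕ, ∀ M : ℕ, M₁ ≤ M → μ.real {ω | ∃ a : ℕ, M < a ∧ ω ∈ Cl A d j w a (LJ j a)} ≤ ε ∧
    μ.real {ω | ∀ m : ℕ, M < m → m < M + LJ j M → ω ∉ Pat A d m} ≤ ε) ∧
  ∃ X₁ : ℝ, ∀ X : ℝ, X₁ ≤ X → μ.real {ω | ε * Real.log X ≤ (Num A d j w ⊤ 16 X ω : ℝ)} ≤ ε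

/-- DTR, from VOL, CLU, SML, PFL. PROOF. Off the events of SML (with `ε/4`) and `Fails X`
(PFL): `|vol - D'| ≤ B + Num + LJ j M + M ≤ ε log X` for large `X`. -/
def S_DTR : Prop := ∀ (Ω : Type u) [MeasurableSpace Ω] (μ : Measure Ω) [IsProbabilityMeasure μ]
  (A : ℕ → Set Ω), CramerModel μ A → ∀ (d j : ℕ) (w ε : ℝ), Cas d j → 0 < ε →
  ∃ M₁ : ℕ, ∀ M : ℕ, M₁ ≤ M → ∃ X₁ : ℝ, ∀ X : ℝ, X₁ ≤ X →
    μ.real {ω | ε * Real.log X <
      |vol A d j w X ω - ((∑ a ∈ Finset.Ioc M ⌊X⌋₊, KK A d j w a ω : ℕ) : ℝ)|} ≤ ε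

/-- MEV, from LOC. Measurability of the amount of counterexamples.
PROOF. For `x ∈ (16, X]`, `|len j w x| ≤ R`; whether `ω ∈ Fails A d j w x` depends only on the
coordinates in `[16, X + R]`, so `vol A d j w X` depends only on finitely many coordinates: LOC (1). -/
def S_MEV : Prop := ∀ (Ω : Type u) [MeasurableSpace Ω] (μ : Measure Ω) [IsProbabilityMeasure μ]
  (A : ℕ → Set Ω), CramerModel μ A → ∀ (d j : ℕ) (w X : ℝ), Cas d j → Measurable (vol A d j w X)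

/-- GAM, from LOC, MAS, WA, ASY, GCH, CDF, DTR, MEV. PROOF. Fix `θ`, `ε`. `M` large, `D' = ∑ KK`. MAS with
`F a = exp (i θ KK / log^j X)` and WA, ASY: `lim sup |E exp (iθ D'/log^j X) -
exp (-(λ_w / j) log (1 - iθ))| ≤ 1 / log M`. DTR: `|E exp (iθ vol/log^j X) - E exp (iθ D'/log^j X)| ≤
|θ| ε + 2 ε` (`log X ≤ log^j X`). So the characteristic functions of `vol / log^j X` converge to the one
of `gammaMeasure (λ_w / j) 1` (GCH); CDF (absolutely continuous: no atoms). -/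
def S_GAM : Prop := ∀ (Ω : Type u) [MeasurableSpace Ω] (μ : Measure Ω) [IsProbabilityMeasure μ]
  (A : ℕ → Set Ω), CramerModel μ A → ∀ (d j : ℕ) (w y : ℝ), Cas d j →
  Tendsto (fun X : ℝ => μ.real {ω | vol A d j w X ω ≤ y * Real.log X ^ j}) atTop
    (𝓝 ((gammaMeasure (lamc j * Real.exp (-w) / j) 1).real (Iic y)))

/-- EX. Existence of the model. PROOF. Product measure on `ℕ → Bool` (`Measure.infinitePi` or
`Measure.productMeasure`), coordinate `n` Bernoulli with probability `1 / log n` (`0` for `n < 3`). -/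
def S_EX : Prop := ∃ (Ω : Type) (_ : MeasurableSpace Ω) (μ : Measure Ω) (_ : IsProbabilityMeasure μ)
  (A : ℕ → Set Ω), CramerModel μ A

end H21SCH
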